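import Pool.Agent.TV.St

/-!
# There are only finitely many attracting periodic points
-/

set_option autoImplicit false

namespace Pool.Agent.TV

open Stream'

namespace AFI

variable {A : Type}

theorem take_of_append (x : Stream' A) (v : List A) (y : Stream' A) (h : x = v ++ₛ y) :
    v = x.take v.length := by
  rw [h, take_append_of_le_length _ _ _ (le_refl _), List.take_length]

theorem pow_V (hGRP : s_GRP) (g : Equiv.Perm (Stream' A)) (hg : IsV g) (k : ℕ) :
    IsV (g ^ k) := by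
  induction k with
  | zero => simpa using (hGRP A).1
  | succ k ih => rw [pow_succ]; exact (hGRP A).2.1 _ _ ih hg

/-- a long initial word of an attracting periodic point -/
theorem core (hREB : s_REB) (hDOM : s_DOM) (hGRP : s_GRP) (hEXP : s_EXP) [Nontrivial A]
    (g : Equiv.Perm (Stream' A)) (hg : IsV g) (x : Stream' A) (hx : AttP g x) :
    ∃ n, RC g (x.take n) ∧ ¬RC g⁻¹ (x.take n) := by
  obtain ⟨q, hq, hfix, hpos⟩ := hx
  have hN' : ∀ i : ℕ, ∃ n, ∀ m, n ≤ m → ∃ v, Rep (g ^ i) (x.take m) v := fun i =>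
    (hDOM A (g ^ i) (pow_V hGRP g hg i)).2.1 x
  choose N hN using hN'
  obtain ⟨n, hn'⟩ : ∃ n, ∀ i ≤ q, N i ≤ n :=
    ⟨(Finset.range (q + 1)).sup N, fun i hi =>
      Finset.le_sup (f := N) (Finset.mem_range.2 (by omega))⟩
  have hn : ∀ i ≤ q, ∀ m, n ≤ m → ∃ v, Rep (g ^ i) (x.take m) v := fun i hi m hm =>
    hN i m (le_trans (hn' i hi) hm)
  obtain ⟨c, hc⟩ := Int.eq_ofNat_of_zero_le hpos.le
  have hc0 : 0 < c := by
    have : (0 : ℤ) < (c : ℤ) := by rw [← hc]; exact hpos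
    exact_mod_cast this
  have h1 : ∀ m, n ≤ m → Rep (g ^ q) (x.take m) (x.take (m + c)) := by
    intro m hm
    obtain ⟨v, hv⟩ := hn q le_rfl m hm
    have e1 := (hEXP A).1 (g ^ q) (x.take m) v (x.drop m) hv
    rw [append_take_drop, length_take, hc] at e1
    have hl : v.length = m + c := by omega
    have e2 : x = v ++ₛ x.drop m := by
      have h3 := hv (x.drop m)
      rw [append_take_drop, hfix] at h3
      exact h3
    have e3 := take_of_append x v _ e2
    rw [hl] at e3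
    rw [← e3]
    exact hv
  have h2 : ∀ a : ℕ, Rep ((g ^ q) ^ a) (x.take n) (x.take (n + a * c)) := by
    intro a
    induction a with
    | zero =>
      have h0 := (hREB A g g).2.2.2.2.2.1 (x.take n)
      simpa using h0
    | succ a ih =>
      have e : n + (a + 1) * c = n + a * c + c := by ring
      rw [pow_succ', e]
      exact (hREB A ((g ^ q) ^ a) (g ^ q)).2.1 _ _ _ ih (h1 _ (by omega))
  refine ⟨n, ?_, ?_⟩
  · intro k
    obtain ⟨v, hv⟩ := hn (k % q) (Nat.mod_lt _ hq).le (n + (k / q) * c) (by omega)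
    refine ⟨v, ?_⟩
    have e : g ^ k = g ^ (k % q) * (g ^ q) ^ (k / q) := by
      rw [← pow_mul, ← pow_add, Nat.mod_add_div]
    rw [e]
    exact (hREB A _ _).2.1 _ _ _ (h2 (k / q)) hv
  · intro h
    obtain ⟨v, hv⟩ := h (q * (n + 1))
    have h3 := h2 (n + 1)
    rw [← pow_mul] at h3
    have h4 := (hREB A (g ^ (q * (n + 1))) 1).2.2.1 _ _ h3
    rw [← inv_pow] at h4
    have h5 := (hREB A (g⁻¹ ^ (q * (n + 1))) 1).1 _ _ ((x.drop n).take ((n + 1) * c)) hv
    rw [← take_add] at h5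
    have h6 := (hREB A (g⁻¹ ^ (q * (n + 1))) 1).2.2.2.1 _ _ _ h4 h5
    have h7 := congrArg List.length h6
    rw [List.length_append, length_take, length_take] at h7
    have h8 : n + 1 ≤ (n + 1) * c := Nat.le_mul_of_pos_right _ hc0
    omega

/-- the short word on the backward orbit -/
theorem short (hREB : s_REB) (hDOM : s_DOM) (hGRP : s_GRP) (hEXP : s_EXP) (hRCL : s_RCL)
    (hAIN : s_AIN) [Nontrivial A] (g : Equiv.Perm (Stream' A)) (hg : IsV g) (L : ℕ)
    (hL : ∀ u : List A, L ≤ u.length → ∃ v, Rep g⁻¹ u v) (x : Stream' A) (hx : AttP g x) :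
    ∃ e : List A, e.length < L ∧ ∃ x' : Stream' A, AttP g x' ∧ RC g e ∧
      (∃ y, x' = e ++ₛ y) ∧ ∃ j : ℕ, x = (g ^ j) x' := by
  obtain ⟨n, hRC, hnRC⟩ := core hREB hDOM hGRP hEXP g hg x hx
  obtain ⟨j, e, hj, he, hi⟩ := (hRCL A g⁻¹).2.2.2.2.2 _ hnRC
  refine ⟨e, ?_, (g⁻¹ ^ j) x, ?_, ?_, ⟨x.drop n, ?_⟩, j, ?_⟩
  · by_contra hcon
    exact he (hL e (by omega))
  · refine (hAIN A g hg).1 (g⁻¹ ^ j) x (pow_V hGRP _ ((hGRP A).2.2 g hg) j) ?_ hx
    exact ((Commute.refl g).inv_left.pow_left j).eq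
  · intro k
    by_cases hk : k ≤ j
    · obtain ⟨v, hv⟩ := hi (j - k) (by omega)
      have h1 := (hREB A g⁻¹ g⁻¹).2.2.2.2.2.2.2.2.1 (j - k) k _ v e hv
        (by rw [Nat.sub_add_cancel hk]; exact hj)
      have h2 := (hREB A (g⁻¹ ^ k) 1).2.2.1 _ _ h1
      rw [inv_pow, inv_inv] at h2
      exact ⟨v, h2⟩
    · have h1 := (hREB A (g⁻¹ ^ j) 1).2.2.1 _ _ hj
      rw [inv_pow, inv_inv] at h1
      obtain ⟨v, hv⟩ := hRC (k - j)
      have h2 := (hREB A (g ^ j) (g ^ (k - j))).2.1 _ _ _ h1 hv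
      rw [← pow_add, Nat.sub_add_cancel (by omega)] at h2
      exact ⟨v, h2⟩
  · have h1 := hj (x.drop n)
    rw [append_take_drop] at h1
    exact h1
  · rw [inv_pow, ← Equiv.Perm.mul_apply, mul_inv_cancel, Equiv.Perm.one_apply]

/-- at most one attracting periodic point behind a word -/
theorem uniq (hEXP : s_EXP) (hGRP : s_GRP) [Nontrivial A]
    (g : Equiv.Perm (Stream' A)) (hg : IsV g) (e : List A) (hRC : RC g e) (x' x'' : Stream' A)
    (h' : AttP g x') (h'' : AttP g x'') (e' : ∃ y, x' = e ++ₛ y) (e'' : ∃ y, x'' = e ++ₛ y) :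
    x' = x'' := by
  obtain ⟨q', hq', f', p'⟩ := h'
  obtain ⟨q'', hq'', f'', -⟩ := h''
  obtain ⟨y', e'⟩ := e'
  obtain ⟨y'', e''⟩ := e''
  have F' : (g ^ (q' * q'')) x' = x' := by
    rw [pow_mul]
    exact Equiv.Perm.pow_apply_eq_self_of_apply_eq_self f' _
  have F'' : (g ^ (q' * q'')) x'' = x'' := by
    rw [mul_comm, pow_mul]
    exact Equiv.Perm.pow_apply_eq_self_of_apply_eq_self f'' _
  have P : 0 < ex (g ^ (q' * q'')) x' := by
    rw [pow_mul, (hEXP A).2.2.2.1 _ _ _ (pow_V hGRP g hg q') f']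
    have : (0 : ℤ) < (q'' : ℤ) := by exact_mod_cast hq''
    exact mul_pos this p'
  apply take_theorem
  intro k
  obtain ⟨w, hw⟩ := hRC ((q' * q'') * k)
  have K' : (g ^ ((q' * q'') * k)) x' = x' := by
    rw [pow_mul]
    exact Equiv.Perm.pow_apply_eq_self_of_apply_eq_self F' _
  have K'' : (g ^ ((q' * q'') * k)) x'' = x'' := by
    rw [pow_mul]
    exact Equiv.Perm.pow_apply_eq_self_of_apply_eq_self F'' _
  have E' : x' = w ++ₛ y' := by
    have h := hw y'
    rw [← e', K'] at h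
    exact h
  have E'' : x'' = w ++ₛ y'' := by
    have h := hw y''
    rw [← e'', K''] at h
    exact h
  have hl : k ≤ w.length := by
    have h1 := (hEXP A).1 _ _ _ y' hw
    rw [← e', pow_mul, (hEXP A).2.2.2.1 _ _ _ (pow_V hGRP g hg (q' * q'')) F'] at h1
    have h2 : (k : ℤ) ≤ (k : ℤ) * ex (g ^ (q' * q'')) x' := by
      have : (0 : ℤ) ≤ (k : ℤ) := by positivity
      nlinarith
    omega
  rw [E', E'', take_append_of_le_length _ _ _ hl, take_append_of_le_length _ _ _ hl]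

end AFI

theorem t_AFI (hREB : s_REB) (hDOM : s_DOM) (hGRP : s_GRP) (hEXP : s_EXP) (hRCL : s_RCL)
    (hAIN : s_AIN) : s_AFI := by
  intro A _ _ g hg
  obtain ⟨L, hL⟩ := (hDOM A g⁻¹ ((hGRP A).2.2 g hg)).1
  have hsub : {x | AttP g x} ⊆ ⋃ e ∈ {e : List A | e.length < L},
      {x : Stream' A | ∃ x' : Stream' A, AttP g x' ∧ RC g e ∧
        (∃ y, x' = e ++ₛ y) ∧ ∃ j : ℕ, x = (g ^ j) x'} := by
    intro x hx
    obtain ⟨e, he, hx'⟩ := AFI.short hREB hDOM hGRP hEXP hRCL hAIN g hg L hL x hx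
    exact Set.mem_biUnion (show e ∈ {e : List A | e.length < L} from he) hx'
  refine Set.Finite.subset (Set.Finite.biUnion (List.finite_length_lt A L) ?_) hsub
  intro e _
  by_cases h : ∃ x0 : Stream' A, AttP g x0 ∧ RC g e ∧ ∃ y, x0 = e ++ₛ y
  · obtain ⟨x0, ha, hRC, hy⟩ := h
    obtain ⟨q, hq, hfix, hpos⟩ := id ha
    refine Set.Finite.subset (Set.Finite.image (fun j : ℕ => (g ^ j) x0) (Set.finite_Iio q)) ?_
    rintro x ⟨x', ha', -, hy', j, rfl⟩
    have hx : x' = x0 := AFI.uniq hEXP hGRP g hg e hRC x' x0 ha' ha hy' hy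
    refine ⟨j % q, Nat.mod_lt _ hq, ?_⟩
    change (g ^ (j % q)) x0 = (g ^ j) x'
    have e1 : g ^ j = g ^ (j % q) * (g ^ q) ^ (j / q) := by
      rw [← pow_mul, ← pow_add, Nat.mod_add_div]
    rw [hx, e1, Equiv.Perm.mul_apply,
      Equiv.Perm.pow_apply_eq_self_of_apply_eq_self hfix]
  · convert Set.finite_empty
    ext x
    refine ⟨?_, fun h => h.elim⟩
    rintro ⟨x', ha', hRC, hy', -⟩
    exact (h ⟨x', ha', hRC, hy'⟩).elim

end Pool.Agent.TV
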