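import Pool.Agent.TV.St

/-!
# The attractor lemma
-/

set_option autoImplicit false

namespace Pool.Agent.TV.ATL

open Stream'

variable {A : Type}

theorem take_pred (l : List A) (n : ℕ) (h0 : 0 < n) (h : n ≤ l.length) :
    ∃ a, l.take n = l.take (n - 1) ++ [a] := by
  obtain ⟨i, rfl⟩ : ∃ i, n = i + 1 := ⟨n - 1, by omega⟩
  refine ⟨l[i], ?_⟩
  rw [List.take_add_one, Nat.add_sub_cancel, List.getElem?_eq_getElem (by omega)]
  rfl

theorem main (hREB : s_REB) (hDOM : s_DOM) (hRCL : s_RCL) (A : Type) [Finite A] [Nontrivial A]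
    (g : Equiv.Perm (Stream' A)) (hg : IsV g) (f : ℕ → List A)
    (hf : ∀ k, Rep (g ^ k) (f 0) (f k)) (hinj : Function.Injective f) :
    ∃ (k q : ℕ) (τ z : List A), 0 < q ∧ z ≠ [] ∧ τ <+: f k ∧ Rep (g ^ q) τ (τ ++ z) := by
  classical
  have B8 : ∀ (g : Equiv.Perm (Stream' A)) u v w v', Rep g u v → Rep g (u ++ w) v' →
      v' = v ++ w := fun g => (hREB A g 1).2.2.2.2.2.2.2.1
  have B9 : ∀ (j k : ℕ) u v w, Rep (g ^ j) u v → Rep (g ^ (j + k)) u w → Rep (g ^ k) v w :=
    (hREB A g 1).2.2.2.2.2.2.2.2.1
  have R1 := (hRCL A g).1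
  have R2 := (hRCL A g).2.1
  have R3 := (hRCL A g).2.2.1
  have R5 := (hRCL A g).2.2.2.2.1
  obtain ⟨L, hL⟩ := (hDOM A g hg).1
  have hstep : ∀ k q, Rep (g ^ q) (f k) (f (k + q)) := fun k q => B9 k q _ _ _ (hf k) (hf (k + q))
  have hRC : ∀ k, RC g (f k) := fun k q => ⟨_, hstep k q⟩
  have hex : ∀ k, ∃ n, RC g ((f k).take n) := fun k => ⟨(f k).length, by
    rw [List.take_length]
    exact hRC k⟩
  let m : ℕ → ℕ := fun k => Nat.find (hex k)
  have hm : ∀ k, RC g ((f k).take (m k)) := fun k => Nat.find_spec (hex k)
  have hmin : ∀ k n, RC g ((f k).take n) → m k ≤ n := fun k n h => Nat.find_min' (hex k) h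
  have hml : ∀ k, m k ≤ (f k).length := fun k => hmin k _ (by
    rw [List.take_length]
    exact hRC k)
  have htl : ∀ k, ((f k).take (m k)).length = m k := fun k => by
    rw [List.length_take]
    exact min_eq_left (hml k)
  have hmpos : ∀ k r, RC g r → r = (f k).take (m k - 1) → 0 < m k → False := fun k r h1 h2 h3 => by
    rw [h2] at h1
    have := hmin k _ h1
    omega
  -- the image of the shortest recurrent initial word
  have ht' : ∀ k, ∃ v, Rep g ((f k).take (m k)) v := fun k => by
    obtain ⟨v, hv⟩ := hm k 1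
    rw [pow_one] at hv
    exact ⟨v, hv⟩
  choose t' ht' using ht'
  have hfs : ∀ k, f (k + 1) = t' k ++ (f k).drop (m k) := fun k => by
    have h1 := hstep k 1
    rw [pow_one] at h1
    have h2 : Rep g ((f k).take (m k) ++ (f k).drop (m k)) (f (k + 1)) := by
      rw [List.take_append_drop]
      exact h1
    exact B8 g _ _ _ _ (ht' k) h2
  have hlen : ∀ k, (f (k + 1)).length = (t' k).length + ((f k).length - m k) := fun k => by
    rw [hfs k, List.length_append, List.length_drop]
  have htake : ∀ k, (f (k + 1)).take (t' k).length = t' k := fun k => by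
    rw [hfs k, List.take_left]
  have hm1 : ∀ k, m (k + 1) ≤ (t' k).length := fun k => hmin (k + 1) _ (by
    rw [htake k]
    exact R2 _ _ (hm k) (ht' k))
  have hmono1 : ∀ k, (f k).length - m k ≤ (f (k + 1)).length - m (k + 1) := fun k => by
    have h1 := hlen k
    have h2 := hm1 k
    omega
  have hmono : Monotone fun k => (f k).length - m k := monotone_nat_of_le_succ hmono1
  -- the last letter
  have hlast : ∀ k, L < m k → ∃ v a, Rep g ((f k).take (m k - 1)) v ∧ t' k = v ++ [a] := by
    intro k hk
    obtain ⟨a, ha⟩ := take_pred (f k) (m k) (by omega) (hml k)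
    obtain ⟨v, hv⟩ := hL ((f k).take (m k - 1)) (by
      rw [List.length_take]
      have := hml k
      omega)
    refine ⟨v, a, hv, ?_⟩
    have h1 := ht' k
    rw [ha] at h1
    exact B8 g _ _ _ _ hv h1
  -- (a)
  have ha : ∀ k, (f k).length - m k < (f (k + 1)).length - m (k + 1) → m k ≤ L := by
    intro k hk
    by_contra hc
    obtain ⟨v, a, hv, hva⟩ := hlast k (by omega)
    have h1 := hlen k
    have h2 := hm1 k
    have h3 : (t' k).length = v.length + 1 := by simp [hva]
    have h4 : m (k + 1) ≤ v.length := by omega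
    have h5 : (f (k + 1)).take v.length = v := by
      rw [hfs k, hva, List.append_assoc, List.take_left]
    have h6 : v = (f (k + 1)).take (m (k + 1)) ++ v.drop (m (k + 1)) := by
      conv_lhs => rw [← List.take_append_drop (m (k + 1)) v]
      congr 1
      conv_lhs => rw [← h5]
      rw [List.take_take, min_eq_left h4]
    have h7 : RC g v := by
      rw [h6]
      exact R1 _ _ (hm (k + 1))
    exact hmpos k _ (R3 _ _ hv h7) rfl (by omega)
  -- (b)
  have hb : ∀ k₀, ∃ k, k₀ < k ∧ (f k).length - m k < (f (k + 1)).length - m (k + 1) := by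
    by_contra hc
    push Not at hc
    obtain ⟨k₀, hk₀⟩ := hc
    have hσ : ∀ k, k₀ < k → (f k).length - m k = (f (k₀ + 1)).length - m (k₀ + 1) := by
      intro k hk
      induction k with
      | zero => omega
      | succ k ih =>
        rcases Nat.lt_or_ge k₀ k with h | h
        · have h1 := hk₀ k h
          have h2 := hmono1 k
          have h3 := ih h
          omega
        · have : k = k₀ := by omega
          rw [this]
    obtain ⟨b, hbb⟩ := ((List.finite_length_le A (L + ((f (k₀ + 1)).length - m (k₀ + 1)))).preimage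
      hinj.injOn).bddAbove
    have hbig : ∀ k, k₀ + b < k → L < m k := by
      intro k hk
      have h1 := hσ k (by omega)
      by_contra hcc
      have h2 : (f k).length ≤ L + ((f (k₀ + 1)).length - m (k₀ + 1)) := by
        have := hml k
        omega
      have h3 : k ≤ b := hbb h2
      omega
    have hr : ∀ k, k₀ + b < k →
        Rep g ((f k).take (m k - 1)) ((f (k + 1)).take (m (k + 1) - 1)) := by
      intro k hk
      obtain ⟨v, a, hv, hva⟩ := hlast k (hbig k hk)
      have h1 := hσ k (by omega)
      have h2 := hσ (k + 1) (by omega)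
      have h3 := hlen k
      have h4 : (t' k).length = v.length + 1 := by simp [hva]
      have h5 := hml (k + 1)
      have h6 := hm1 k
      have h7 : m (k + 1) - 1 = v.length := by omega
      have h8 : (f (k + 1)).take v.length = v := by
        rw [hfs k, hva, List.append_assoc, List.take_left]
      rw [h7, h8]
      exact hv
    have hRCr : RC g ((f (k₀ + b + 1)).take (m (k₀ + b + 1) - 1)) := by
      have := R5 (fun i => (f (k₀ + b + 1 + i)).take (m (k₀ + b + 1 + i) - 1)) (fun i => by
        have := hr (k₀ + b + 1 + i) (by omega)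
        exact this)
      exact this
    exact hmpos _ _ hRCr rfl (by have := hbig (k₀ + b + 1) (by omega); omega)
  -- (c)
  have hinf : {k | (f k).length - m k < (f (k + 1)).length - m (k + 1)}.Infinite :=
    Set.infinite_of_forall_exists_gt fun k₀ => by
      obtain ⟨k, h1, h2⟩ := hb k₀
      exact ⟨k, h2, h1⟩
  obtain ⟨k, hk, l, hl, hkl, heq⟩ := hinf.exists_lt_map_eq_of_mapsTo
    (t := {w : List A | w.length ≤ L}) (f := fun k => (f k).take (m k)) (fun k hk => by
      change ((f k).take (m k)).length ≤ L
      rw [htl k]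
      exact ha k hk) (List.finite_length_le A L)
  have heq' : (f k).take (m k) = (f l).take (m l) := heq
  have hk' : (f k).length - m k < (f (k + 1)).length - m (k + 1) := hk
  have hmkl : m k = m l := by
    have := congrArg List.length heq'
    rwa [htl, htl] at this
  have hσl : (f (k + 1)).length - m (k + 1) ≤ (f l).length - m l := hmono (Nat.succ_le_of_lt hkl)
  obtain ⟨τ', hτ'⟩ := hm k (l - k)
  have hfl : f l = τ' ++ (f k).drop (m k) := by
    have h1 := hstep k (l - k)
    rw [Nat.add_sub_cancel' hkl.le] at h1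
    have h2 : Rep (g ^ (l - k)) ((f k).take (m k) ++ (f k).drop (m k)) (f l) := by
      rw [List.take_append_drop]
      exact h1
    exact B8 _ _ _ _ _ hτ' h2
  have hlenl : (f l).length = τ'.length + ((f k).length - m k) := by
    rw [hfl, List.length_append, List.length_drop]
  have hp1 : (f k).take (m k) <+: f l := by
    rw [heq']
    exact List.take_prefix _ _
  have hp2 : τ' <+: f l := by
    rw [hfl]
    exact List.prefix_append _ _
  have hlt : ((f k).take (m k)).length < τ'.length := by
    rw [htl]
    have := hml l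
    have := hml k
    omega
  obtain ⟨z, hz⟩ := List.prefix_of_prefix_length_le hp1 hp2 hlt.le
  refine ⟨k, l - k, (f k).take (m k), z, by omega, ?_, List.take_prefix _ _, ?_⟩
  · rintro rfl
    rw [← hz, List.append_nil] at hlt
    exact lt_irrefl _ hlt
  · rw [hz]
    exact hτ'

end Pool.Agent.TV.ATL

namespace Pool.Agent.TV

theorem t_ATL (hREB : s_REB) (hDOM : s_DOM) (hRCL : s_RCL) : s_ATL := by
  intro A _ _ g hg f hf hinj
  exact ATL.main hREB hDOM hRCL A g hg f hf hinj

end Pool.Agent.TV
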