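import Pool.Agent.TV.StK

/-!
Theorem V (MP_31fd3b_gt), module AID: identities for the sums `At`.
-/

open scoped BigOperators

namespace Pool.Agent.TV

open Pool.Agent.LibH11.Sliced Pool.Agent.MTR Pool.Agent.MTA Pool.Agent.UA Pool.Agent.UB
open Pool.Agent.TB hiding vec

namespace Aid

/-- the explicit form of membership -/
theorem mem_sl (c : ℤ) (P V : ℤ × ℤ) (M : ℤ) (R : ℤ × ℤ) :
    R ∈ Sl c P V M ↔ -(c * ((P.1 * R.2 + P.2 * R.1) * (R.1 * V.2 - R.2 * V.1))) = M := by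
  unfold Sl Nl cx det2
  simp only [Set.mem_setOf_eq]
  constructor
  · intro h
    rw [← h]
    ring
  · intro h
    rw [← h]
    ring

theorem gp_ne {B : ℕ} {M : ℤ} (h : Gp B M) : M ≠ 0 := by
  obtain ⟨q, _, _, _, h2⟩ := h
  intro h0
  exact h2 (h0 ▸ dvd_zero _)

/-- `M = -(c * d * x²)` is impossible -/
theorem gp_sq {B : ℕ} {M : ℤ} (h : Gp B M) (k x : ℤ) (hB : k.natAbs ≤ B) : M ≠ k * x ^ 2 := by
  obtain ⟨q, hq, hBq, h1, h2⟩ := h
  intro h0
  have hp : Prime (q : ℤ) := Nat.prime_iff_prime_int.mp hq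
  rw [h0] at h1 h2
  rcases hp.dvd_or_dvd h1 with h3 | h3
  · have h4 : k = 0 := by
      apply Int.eq_zero_of_abs_lt_dvd h3
      have : |k| = (k.natAbs : ℤ) := Int.abs_eq_natAbs k
      rw [this]
      exact_mod_cast lt_of_le_of_lt hB hBq
    rw [h4] at h2
    simp at h2
  · have h4 : (q : ℤ) ∣ x := hp.dvd_of_dvd_pow h3
    exact h2 ((pow_dvd_pow_of_dvd h4 2).mul_left k)

theorem part1 (c : ℤ) (P V : ℤ × ℤ) (k M : ℤ) :
    At c (addv P (k, 1)) V M = At c P (addv V (k, 1)) M := by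
  unfold At
  refine finsum_mem_eq_of_bijOn (fun R : ℤ × ℤ => (R.1 + k * R.2, R.2)) ⟨?_, ?_, ?_⟩ ?_
  · intro R hR
    rw [mem_sl] at hR ⊢
    rw [← hR]
    simp only [addv]
    ring
  · intro R _ R' _ h
    simp only [Prod.mk.injEq] at h
    obtain ⟨h1, h2⟩ := h
    rw [h2] at h1
    exact Prod.ext (by linarith) h2
  · intro R hR
    refine ⟨(R.1 - k * R.2, R.2), ?_, by simp⟩
    rw [mem_sl] at hR ⊢
    rw [← hR]
    simp only [addv]
    ring
  · intro R _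
    simp only [addv, det2]
    congr 2
    · simp
    · congr 1
      ring

theorem bij2 (c : ℤ) (P V : ℤ × ℤ) (M : ℤ) :
    Set.BijOn (fun R : ℤ × ℤ => (R.1, -R.2)) (Sl c P V M) (Sl c V P M) := by
  refine ⟨?_, ?_, ?_⟩
  · intro R hR
    rw [mem_sl] at hR ⊢
    rw [← hR]
    ring
  · intro R _ R' _ h
    simp only [Prod.mk.injEq, neg_inj] at h
    exact Prod.ext h.1 h.2
  · intro R hR
    refine ⟨(R.1, -R.2), ?_, by simp⟩
    rw [mem_sl] at hR ⊢
    rw [← hR]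
    ring

theorem bij3 (c : ℤ) (P a : ℤ × ℤ) (M : ℤ) :
    Set.BijOn (fun R : ℤ × ℤ => (R.2, -R.1)) (Sl c P (rv a) M) (Sl c (rv P) a M) := by
  refine ⟨?_, ?_, ?_⟩
  · intro R hR
    rw [mem_sl] at hR ⊢
    rw [← hR]
    simp only [rv]
    ring
  · intro R _ R' _ h
    simp only [Prod.mk.injEq, neg_inj] at h
    exact Prod.ext h.2 h.1
  · intro R hR
    refine ⟨(-R.2, R.1), ?_, by simp⟩
    rw [mem_sl] at hR ⊢
    rw [← hR]
    simp only [rv]
    ring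

theorem alg2 (c v p y f g d M : ℚ) (hy : y ≠ 0) (hf : f ≠ 0) (hg : g ≠ 0) (hc : c ≠ 0)
    (hM : M = -(c * (f * g))) (hd : d * y = v * f - p * g) :
    v / (y * g) + p / (-y * f) = -(c * d / M) := by
  have e1 : v / (y * g) + p / (-y * f) = (v * f - p * g) / (y * f * g) := by
    field_simp
    ring
  rw [e1, ← hd, hM]
  field_simp

theorem alg3 (x y a b g : ℚ) (hx : x ≠ 0) (hy : y ≠ 0) (hg : g ≠ 0) (h : a * x + b * y = g) :
    1 / (-y * x) = -(a / (y * g)) + b / (-x * g) := by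
  have e1 : -(a / (y * g)) + b / (-x * g) = -(a * x + b * y) / (x * y * g) := by
    field_simp
    ring
  rw [e1, h]
  field_simp

theorem part2 (h1 : SFIN_Stmt) (c : ℤ) (P V : ℤ × ℤ) (_hc : c ≠ 0) (hd : dt P V ≠ 0) :
    ∃ B : ℕ, ∀ M : ℤ, Gp B M → At c P V M + At c V P M = -nu c M P V := by
  refine ⟨(-(c * P.2 * V.2)).natAbs, fun M hM => ?_⟩
  have hM0 := gp_ne hM
  have hfin := h1.1 c P V M hd hM0
  have e1 : At c V P M =
      ∑ᶠ R ∈ Sl c P V M, (P.2 : ℚ) / (((-R.2 : ℤ) : ℚ) * (det2 (R.1, -R.2) P : ℤ)) := by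
    unfold At
    refine (finsum_mem_eq_of_bijOn (fun R : ℤ × ℤ => (R.1, -R.2)) (bij2 c P V M) ?_).symm
    intro R _
    rfl
  rw [e1]
  unfold At
  rw [← finsum_mem_add_distrib hfin]
  have e2 : ∀ R ∈ Sl c P V M, (V.2 : ℚ) / ((R.2 : ℚ) * (det2 R V : ℤ)) +
      (P.2 : ℚ) / (((-R.2 : ℤ) : ℚ) * (det2 (R.1, -R.2) P : ℤ)) =
        -(((c * dt P V : ℤ) : ℚ) / M) := by
    intro R hR
    rw [mem_sl] at hR
    have hy : R.2 ≠ 0 := by
      intro h0
      apply gp_sq hM (-(c * P.2 * V.2)) R.1 le_rfl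
      rw [← hR, h0]
      ring
    have hf : P.1 * R.2 + P.2 * R.1 ≠ 0 := by
      intro h0
      apply hM0
      rw [← hR, h0]
      ring
    have hg : R.1 * V.2 - R.2 * V.1 ≠ 0 := by
      intro h0
      apply hM0
      rw [← hR, h0]
      ring
    have hyq : (R.2 : ℚ) ≠ 0 := by exact_mod_cast hy
    have hfq : (P.1 : ℚ) * R.2 + P.2 * R.1 ≠ 0 := by exact_mod_cast hf
    have hgq : (R.1 : ℚ) * V.2 - R.2 * V.1 ≠ 0 := by exact_mod_cast hg
    have hMq : (M : ℚ) = -(c * ((P.1 * R.2 + P.2 * R.1) * (R.1 * V.2 - R.2 * V.1))) := by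
      rw [← hR]
      push_cast
      ring
    have hMq0 : (M : ℚ) ≠ 0 := by exact_mod_cast hM0
    have hcq : (c : ℚ) ≠ 0 := by
      intro h0
      apply hMq0
      rw [hMq, h0]
      ring
    have ed : ((det2 (R.1, -R.2) P : ℤ) : ℚ) = (P.1 : ℚ) * R.2 + P.2 * R.1 := by
      simp only [det2]
      push_cast
      ring
    have eg : ((det2 R V : ℤ) : ℚ) = (R.1 : ℚ) * V.2 - R.2 * V.1 := by
      simp only [det2]
      push_cast
      ring
    rw [ed, eg, Int.cast_neg, Int.cast_mul]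
    refine alg2 _ _ _ _ _ _ _ _ hyq hfq hgq hcq hMq ?_
    simp only [dt, addv]
    push_cast
    ring
  rw [finsum_mem_congr rfl e2]
  rw [finsum_mem_eq_finite_toFinset_sum _ hfin, Finset.sum_const]
  unfold nu nS
  rw [Set.ncard_eq_toFinset_card _ hfin, nsmul_eq_mul]
  ring

theorem part3 (h1 : SFIN_Stmt) (c : ℤ) (P a : ℤ × ℤ) (_hc : c ≠ 0) (hd : dt P (rv a) ≠ 0) :
    ∃ B : ℕ, ∀ M : ℤ, Gp B M → Zt c P (rv a) M = -At c P (rv a) M + At c (rv P) a M := by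
  refine ⟨(-(c * P.1 * a.2)).natAbs + (-(c * P.2 * a.1)).natAbs, fun M hM => ?_⟩
  have hM0 := gp_ne hM
  have hfin := h1.1 c P (rv a) M hd hM0
  have e1 : At c (rv P) a M =
      ∑ᶠ R ∈ Sl c P (rv a) M, (a.2 : ℚ) / (((-R.1 : ℤ) : ℚ) * (det2 (R.2, -R.1) a : ℤ)) := by
    unfold At
    refine (finsum_mem_eq_of_bijOn (fun R : ℤ × ℤ => (R.2, -R.1)) (bij3 c P a M) ?_).symm
    intro R _
    rfl
  rw [e1]
  unfold At Zt
  rw [← finsum_mem_neg_distrib _ hfin, ← finsum_mem_add_distrib hfin]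
  refine finsum_mem_congr rfl fun R hR => ?_
  rw [mem_sl] at hR
  simp only [rv] at hR
  have hx : R.1 ≠ 0 := by
    intro h0
    apply gp_sq hM (c * P.1 * -a.2) R.2 (by
      have : c * P.1 * -a.2 = -(c * P.1 * a.2) := by ring
      rw [this]
      omega)
    rw [← hR, h0]
    ring
  have hy : R.2 ≠ 0 := by
    intro h0
    apply gp_sq hM (-(c * P.2 * a.1)) R.1 (by omega)
    rw [← hR, h0]
    ring
  have hg : R.1 * a.1 + R.2 * a.2 ≠ 0 := by
    intro h0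
    apply hM0
    rw [← hR]
    have : R.1 * a.1 - R.2 * -a.2 = R.1 * a.1 + R.2 * a.2 := by ring
    rw [this, h0]
    ring
  have hxq : (R.1 : ℚ) ≠ 0 := by exact_mod_cast hx
  have hyq : (R.2 : ℚ) ≠ 0 := by exact_mod_cast hy
  have hgq : (R.1 : ℚ) * a.1 + R.2 * a.2 ≠ 0 := by exact_mod_cast hg
  have e2 : ((det2 R (1, 0) : ℤ) : ℚ) = -(R.2 : ℚ) := by
    simp [det2]
  have e3 : ((det2 R (0, 1) : ℤ) : ℚ) = (R.1 : ℚ) := by
    simp [det2]
  have e4 : ((det2 R (rv a) : ℤ) : ℚ) = (R.1 : ℚ) * a.1 + R.2 * a.2 := by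
    simp only [det2, rv]
    push_cast
    ring
  have e5 : ((det2 (R.2, -R.1) a : ℤ) : ℚ) = (R.1 : ℚ) * a.1 + R.2 * a.2 := by
    simp only [det2]
    push_cast
    ring
  rw [e2, e3, e4, e5, Int.cast_neg]
  refine alg3 _ _ _ _ _ hxq hyq hgq ?_
  simp only [rv]
  ring

theorem part4 (c : ℤ) (P : ℤ × ℤ) (M : ℤ) : Zt c P (0, 1) M = -At c P (0, 1) M := by
  unfold Zt At
  rw [finsum_mem_def, finsum_mem_def, ← finsum_neg_distrib]
  refine finsum_congr fun R => ?_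
  by_cases h : R ∈ Sl c P (0, 1) M
  · rw [Set.indicator_of_mem h, Set.indicator_of_mem h]
    simp only [det2]
    push_cast
    rw [neg_div']
    have e : ((R.1 : ℚ) * 0 - R.2 * 1) * (R.1 * 1 - R.2 * 0) = -(R.2 * (R.1 * 1 - R.2 * 0)) := by
      ring
    rw [e, div_neg, neg_div]
  · rw [Set.indicator_of_notMem h, Set.indicator_of_notMem h, neg_zero]

end Aid

theorem t_AID (h1 : SFIN_Stmt) : AID_Stmt :=
  ⟨Aid.part1, Aid.part2 h1, Aid.part3 h1, Aid.part4⟩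

end Pool.Agent.TV
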