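import Pool.Agent.TV.StJ

/-!
Theorem V (MP_31fd3b_gt): assembly of the algebraic part.
-/

open scoped BigOperators

namespace Pool.Agent.TV

open Pool.Agent.LibH11.Sliced Pool.Agent.MTR Pool.Agent.MTA Pool.Agent.UA Pool.Agent.UB
open Pool.Agent.TB hiding vec

namespace Asm

theorem sum_flatMap {α β : Type} (l : List α) (f : α → List β) (g : β → ℂ) :
    ((l.flatMap f).map g).sum = (l.map fun a => ((f a).map g).sum).sum := by
  induction l with
  | nil => simp
  | cons a l ih =>
    rw [List.flatMap_cons, List.map_append, List.sum_append, ih, List.map_cons, List.sum_cons]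

theorem sum_flatMapZ {α β : Type} (l : List α) (f : α → List β) (g : β → ℤ) :
    ((l.flatMap f).map g).sum = (l.map fun a => ((f a).map g).sum).sum := by
  induction l with
  | nil => simp
  | cons a l ih =>
    rw [List.flatMap_cons, List.map_append, List.sum_append, ih, List.map_cons, List.sum_cons]

theorem mem_VL {Ts : List Tr} {v : Vx} (hv : v ∈ VL Ts) : ∃ t ∈ Ts, v ∈ vts (0, 1) t := by
  simpa [VL, List.mem_flatMap] using hv

theorem dt_one (V : ℤ × ℤ) : dt (0, 1) V = V.1 := by
  simp [dt, addv]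

theorem odd_prod (l : List ℤ) (h : ∀ x ∈ l, Odd x) : Odd l.prod := by
  induction l with
  | nil => simp
  | cons a l ih =>
    rw [List.prod_cons]
    exact (h a List.mem_cons_self).mul (ih fun x hx => h x (List.mem_cons_of_mem _ hx))

theorem nonneg_sum (l : List ℚ) (h : ∀ x ∈ l, 0 ≤ x) : 0 ≤ l.sum := by
  induction l with
  | nil => simp
  | cons a l ih =>
    rw [List.sum_cons]
    exact add_nonneg (h a List.mem_cons_self) (ih fun x hx => h x (List.mem_cons_of_mem _ hx))

theorem zero_of_sum (l : List ℚ) (h : ∀ x ∈ l, 0 ≤ x) (hs : l.sum ≤ 0) : ∀ x ∈ l, x = 0 := by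
  induction l with
  | nil => intro x hx; exact absurd hx List.not_mem_nil
  | cons a l ih =>
    intro x hx
    rw [List.sum_cons] at hs
    have h1 := h a List.mem_cons_self
    have h2 := nonneg_sum l fun x hx => h x (List.mem_cons_of_mem _ hx)
    rcases List.mem_cons.1 hx with rfl | hx
    · linarith
    · exact ih (fun x hx => h x (List.mem_cons_of_mem _ hx)) (by linarith) x hx

theorem not_bad {v : Vx} (h : (tot v).2 = 0 ∨ Vtriv v) : ¬ Vbad v := by
  rintro ⟨h1, h2, -⟩
  rcases h with h | ⟨_, p, hp, h4⟩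
  · exact h1 h
  · exact h2 p hp h4

theorem vertex (hA : VXA_Stmt) (hB : VXB_Stmt) {v : Vx} (hv : (tot v).1 ≠ 0) (hok : Vok v) :
    2 * w3 v - evO (nv v) = 4 * bc la2 v + ((dl v : ℚ) : ℂ) ∧ dl v ≤ 0 ∧
      (dl v = 0 → ¬ Vbad v) := by
  by_cases hb : Vbad v
  · obtain ⟨h1, h2⟩ := hB v hv hb
    have h3 : dl v = Dl v := if_pos hb
    rw [h3]
    exact ⟨h1, h2.le, fun h => absurd h h2.ne⟩
  · have h0 : (tot v).2 = 0 ∨ Vtriv v := by
      rcases hok with h | h | h
      · exact Or.inl h
      · exact Or.inr h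
      · exact absurd h hb
    have h1 := hA v hv h0
    have h2 : bc la2 v = 0 := if_neg hb
    have h3 : dl v = 0 := if_neg hb
    rw [h1, h2, h3]
    refine ⟨by simp, le_rfl, fun _ => hb⟩

theorem evO_append (l m : Cb) : evO (l ++ m) = evO l + evO m := by
  simp [evO]

end Asm

open Asm in
/-- The algebraic part of Theorem V: all trees have at most two rational branches. -/
theorem alg (hLIE : LIE_Stmt) (hVTS : VTS_Stmt) (hRSI : RSI_Stmt) (hBVC : BVC_Stmt)
    (hPLA : PLA_Stmt) (hJONV : JONV_Stmt) (_hRU : RU_Stmt) (hOMR : OMR_Stmt) (hOMP : OMP_Stmt)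
    (hNWL : NWL_Stmt) (hCRN : CRN_Stmt) (hSTRC : STRC_Stmt) (hLAE : LAE_Stmt) (hVXA : VXA_Stmt)
    (hVXB : VXB_Stmt) (hJPV : JPV_Stmt) (Ts Ts' : List Tr) (h : IsLongKnot (cls Ts))
    (h' : IsLongKnot (cls Ts')) (hlen : Ts.length = Ts'.length) (hT : ∀ t ∈ Ts, t.CR)
    (hT' : ∀ t ∈ Ts', t.Rat ∧ Odd (vec t).1)
    (hv : ∀ v : Knot → ℂ, IsFiniteType v → v (ofDiag (cls Ts) h) = v (ofDiag (cls Ts') h')) :
    ∀ t ∈ Ts, T2 t := by
  obtain ⟨hodd, hw⟩ := hJONV Ts Ts' h h' hv fun t ht => (hT' t ht).2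
  have hoddA : ∀ t ∈ Ts ++ Ts', Odd (vec t).1 := by
    intro t ht
    rcases List.mem_append.1 ht with ht | ht
    · exact hodd t ht
    · exact (hT' t ht).2
  obtain ⟨D, hD, hdvd⟩ : ∃ D : ℤ, Odd D ∧ ∀ t ∈ Ts ++ Ts', (vec t).1 ∣ D := by
    refine ⟨((Ts ++ Ts').map fun t => (vec t).1).prod, odd_prod _ ?_, fun t ht => ?_⟩
    · intro x hx
      obtain ⟨t, ht, rfl⟩ := List.mem_map.1 hx
      exact hoddA t ht
    · exact List.dvd_prod (List.mem_map.2 ⟨t, ht, rfl⟩)
  have hD0 : D ≠ 0 := by rintro rfl; simp at hD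
  have hne : ∀ t ∈ Ts ++ Ts', (vec t).1 ≠ 0 := by
    intro t ht h0
    have := hoddA t ht
    rw [h0] at this
    simp at this
  have hR := hRSI Ts Ts' D hD hdvd (hLIE Ts Ts' h h' hlen hodd hT' hv D hD hdvd)
  -- vertices
  have htot : ∀ t ∈ Ts ++ Ts', ∀ v ∈ vts (0, 1) t, (tot v).1 = (vec t).1 := by
    intro t _ v hvt
    rw [(hVTS t (0, 1)).1 v hvt, dt_one]
  have hrat : ∀ t ∈ Ts', ∀ v ∈ vts (0, 1) t, (tot v).2 = 0 ∨ Vtriv v := fun t ht v hvt =>
    (hVTS t (0, 1)).2.2.1 (hT' t ht).1 v hvt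
  obtain ⟨hok, hbc⟩ := hBVC D hD (VL Ts) (VL Ts') (by
      intro v hvt
      rcases List.mem_append.1 hvt with hvt | hvt
      · obtain ⟨t, ht, hvt⟩ := mem_VL hvt
        rw [htot t (List.mem_append_left _ ht) v hvt]
        exact hdvd t (List.mem_append_left _ ht)
      · obtain ⟨t, ht, hvt⟩ := mem_VL hvt
        rw [htot t (List.mem_append_right _ ht) v hvt]
        exact hdvd t (List.mem_append_right _ ht))
    (by
      intro v hvt
      obtain ⟨t, ht, hvt⟩ := mem_VL hvt
      exact hrat t ht v hvt)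
    (fun g z hg hz => (hR g hg).1 z hz)
  have hbc0 : ((VL Ts).map fun v => bc la2 v).sum = 0 :=
    hbc la2 (fun β n => (hLAE.2.1 β n).1) fun β => (hLAE.2.2 β).1
  -- numbers of representations
  have hO : evO (NLs Ts) = evO (NLs Ts') := by
    have hp := hPLA D hD (NLs Ts ++ (NLs Ts').map fun e => (-e.1, e.2)) (by
        intro e he
        rcases List.mem_append.1 he with he | he
        · obtain ⟨t, ht, het⟩ : ∃ t ∈ Ts, e ∈ NL (0, 1) t := by
            simpa [NLs, List.mem_flatMap] using he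
          rw [(hVTS t (0, 1)).2.1 e het, dt_one]
          exact hdvd t (List.mem_append_left _ ht)
        · obtain ⟨e', he', rfl⟩ := List.mem_map.1 he
          obtain ⟨t, ht, het⟩ : ∃ t ∈ Ts', e' ∈ NL (0, 1) t := by
            simpa [NLs, List.mem_flatMap] using he'
          show dt e'.2.1 e'.2.2 ∣ D
          rw [(hVTS t (0, 1)).2.1 e' het, dt_one]
          exact hdvd t (List.mem_append_right _ ht))
      (by
        intro g hg
        have h1 := (hR g hg).2
        have h2 : ∀ l : Cb, evN D (l.map fun e => (-e.1, e.2)) g = -evN D l g := by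
          intro l
          induction l with
          | nil => simp [evN]
          | cons a l ih =>
            simp only [evN, List.map_cons, List.sum_cons] at ih ⊢
            rw [ih]
            ring
        have h3 : evN D (NLs Ts ++ (NLs Ts').map fun e => (-e.1, e.2)) g =
            evN D (NLs Ts) g + evN D ((NLs Ts').map fun e => (-e.1, e.2)) g := by
          simp only [evN, List.map_append, List.sum_append]
        rw [h3, h2, h1, add_neg_cancel]) om (hOMP D hD0)
    have h2 : ∀ l : Cb, ((l.map fun e => (-e.1, e.2)).map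
        fun e => (e.1 : ℂ) * om e.2.1 e.2.2).sum = -evO l := by
      intro l
      induction l with
      | nil => simp [evO]
      | cons a l ih =>
        simp only [evO, List.map_cons, List.sum_cons] at ih ⊢
        rw [ih]
        push_cast
        ring
    rw [List.map_append, List.sum_append, h2] at hp
    have h3 : evO (NLs Ts) - evO (NLs Ts') = 0 := by
      rw [sub_eq_add_neg]
      exact hp
    exact sub_eq_zero.1 h3
  -- the recursion for all trees
  have hW : ∀ t : Tr, Wc (0, 1) t = w2 (clv sx (bv sx t)) := by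
    intro t
    have h1 := hOMR.2.2 (0, 1) (.pw 0) t ⟨trivial, 1, one_ne_zero, by simp [vec]⟩
    have h2 : bv sx (.pw 0) = ((0 : JR), (1 : JR)) := by
      show pv sx (Int.ofNat 0) = _
      simp [pv]
    rw [h1, h2, ((hJPV JR sx).1 (bv sx t) (bv sx t) (bv sx t)).2.2.1]
  have hrec : ∀ X : List Tr, (∀ t ∈ X, (vec t).1 ≠ 0) →
      2 * (X.map fun t => w2 (clv sx (bv sx t))).sum = evO (NLs X) +
        ((VL X).map fun v => 2 * w3 v - evO (nv v)).sum -
        2 * (((X.map fun t => cr (0, 1) t).sum : ℚ) : ℂ) := by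
    intro X
    induction X with
    | nil => intro _; simp [NLs, VL, evO]
    | cons t X ih =>
      intro hX
      have h1 := ih fun t ht => hX t (List.mem_cons_of_mem _ ht)
      have h2 := hNWL t (0, 1) (by rw [dt_one]; exact hX t List.mem_cons_self)
      rw [hW] at h2
      have h3 : NLs (t :: X) = NL (0, 1) t ++ NLs X := rfl
      have h4 : VL (t :: X) = vts (0, 1) t ++ VL X := rfl
      rw [h3, h4, evO_append, List.map_append, List.sum_append, List.map_cons, List.sum_cons,
        List.map_cons, List.sum_cons, mul_add, h1, h2]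
      push_cast
      ring
  have e1 := hrec Ts fun t ht => hne t (List.mem_append_left _ ht)
  have e2 := hrec Ts' fun t ht => hne t (List.mem_append_right _ ht)
  have hvt : ∀ X : List Vx, (∀ v ∈ X, (tot v).1 ≠ 0 ∧ Vok v) →
      (X.map fun v => 2 * w3 v - evO (nv v)).sum =
        4 * (X.map fun v => bc la2 v).sum + (((X.map fun v => dl v).sum : ℚ) : ℂ) := by
    intro X
    induction X with
    | nil => intro _; simp
    | cons v X ih =>
      intro hX
      have h1 := ih fun v hv => hX v (List.mem_cons_of_mem _ hv)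
      have h2 := (vertex hVXA hVXB (hX v List.mem_cons_self).1 (hX v List.mem_cons_self).2).1
      simp only [List.map_cons, List.sum_cons]
      rw [h1, h2]
      push_cast
      ring
  have hvts : ∀ v ∈ VL Ts, (tot v).1 ≠ 0 ∧ Vok v := by
    intro v hvt
    refine ⟨?_, hok v hvt⟩
    obtain ⟨t, ht, hvt⟩ := mem_VL hvt
    rw [htot t (List.mem_append_left _ ht) v hvt]
    exact hne t (List.mem_append_left _ ht)
  have e3 := hvt (VL Ts) hvts
  have e4 : ((VL Ts').map fun v => 2 * w3 v - evO (nv v)).sum = 0 := by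
    refine List.sum_eq_zero fun x hx => ?_
    obtain ⟨v, hvt, rfl⟩ := List.mem_map.1 hx
    obtain ⟨t, ht, hvt⟩ := mem_VL hvt
    have h0 : (tot v).1 ≠ 0 := by
      rw [htot t (List.mem_append_right _ ht) v hvt]
      exact hne t (List.mem_append_right _ ht)
    rw [hVXA v h0 (hrat t ht v hvt), sub_self]
  have e5 : (Ts'.map fun t => cr (0, 1) t).sum = 0 := by
    refine List.sum_eq_zero fun x hx => ?_
    obtain ⟨t, ht, rfl⟩ := List.mem_map.1 hx
    exact (hCRN.2.2.1 t (0, 1) (by
      rw [dt_one]; exact hne t (List.mem_append_right _ ht))).2 (hT' t ht).1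
  rw [e3, hbc0, mul_zero, zero_add] at e1
  rw [e4, e5, Rat.cast_zero, mul_zero, sub_zero, add_zero] at e2
  rw [hw, e2, hO] at e1
  have e6 : ((VL Ts).map fun v => dl v).sum = 2 * (Ts.map fun t => cr (0, 1) t).sum := by
    have h1 : ((((VL Ts).map fun v => dl v).sum : ℚ) : ℂ) =
        2 * (((Ts.map fun t => cr (0, 1) t).sum : ℚ) : ℂ) := by
      linear_combination -e1
    exact_mod_cast h1
  have e7 : 0 ≤ (Ts.map fun t => cr (0, 1) t).sum := by
    refine nonneg_sum _ fun x hx => ?_
    obtain ⟨t, ht, rfl⟩ := List.mem_map.1 hx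
    exact (hCRN.2.2.1 t (0, 1) (by rw [dt_one]; exact hne t (List.mem_append_left _ ht))).1
  have hdl : ∀ v ∈ VL Ts, dl v ≤ 0 := fun v hvt =>
    (vertex hVXA hVXB (hvts v hvt).1 (hvts v hvt).2).2.1
  have e8 : 0 ≤ ((VL Ts).map fun v => -dl v).sum := by
    refine nonneg_sum _ fun x hx => ?_
    obtain ⟨v, hvt, rfl⟩ := List.mem_map.1 hx
    exact neg_nonneg.2 (hdl v hvt)
  have e9 : ((VL Ts).map fun v => -dl v).sum = -((VL Ts).map fun v => dl v).sum := by
    have : ∀ X : List Vx, (X.map fun v => -dl v).sum = -(X.map fun v => dl v).sum := by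
      intro X
      induction X with
      | nil => simp
      | cons v X ih => simp only [List.map_cons, List.sum_cons, ih]; ring
    exact this _
  have hcr0 := zero_of_sum (Ts.map fun t => cr (0, 1) t) (by
      intro x hx
      obtain ⟨t, ht, rfl⟩ := List.mem_map.1 hx
      exact (hCRN.2.2.1 t (0, 1) (by rw [dt_one]; exact hne t (List.mem_append_left _ ht))).1)
    (by rw [e9, e6] at e8; linarith)
  have hdl0 := zero_of_sum ((VL Ts).map fun v => -dl v) (by
      intro x hx
      obtain ⟨v, hvt, rfl⟩ := List.mem_map.1 hx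
      exact neg_nonneg.2 (hdl v hvt))
    (by rw [e9, e6]; linarith)
  intro t ht
  by_contra hn
  have h1 := hSTRC t (hT t ht) (hne t (List.mem_append_left _ ht)) (by
    intro v hvt
    have hvL : v ∈ VL Ts := by
      rw [VL, List.mem_flatMap]
      exact ⟨t, ht, hvt⟩
    refine ⟨hok v hvL, ?_⟩
    have h2 := hdl0 _ (List.mem_map.2 ⟨v, hvL, rfl⟩)
    exact (vertex hVXA hVXB (hvts v hvL).1 (hvts v hvL).2).2.2 (by linarith)) hn
  exact absurd (hcr0 _ (List.mem_map.2 ⟨t, ht, rfl⟩)) h1.ne'

end Pool.Agent.TV
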