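import Pool.Agent.TV.Asm
import Pool.Agent.UA.StF
import Pool.Agent.TwoBr.NF
import Pool.Agent.TwoBr.Concl
import Pool.Agent.TS.Cat

/-!
Theorem V (MP_31fd3b_gt): assembly of the topological part and the theorem.
-/

namespace Pool.Agent.TV

open Pool.Agent.LibH11.Sliced Pool.Agent.TwoBr Pool.Agent.Mont Pool.Agent.UA

namespace AsmT

theorem cnt_long {w : Diag} (h : IsLongKnot w) : cnt 1 w = some 1 := by
  obtain ⟨lab, c, hr⟩ := h
  exact run_cnt _ _ _ hr

theorem cls_append (X Y : List Tr) : cls (X ++ Y) = cls X ++ cls Y := by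
  simp [cls]

theorem cls_cons (t : Tr) (X : List Tr) : cls (t :: X) = cl t.dg ++ cls X := rfl

/-- adding unknots -/
theorem pad (hC : FCG_Stmt) (hI : FIT_Stmt) (X : List Tr) (n : ℕ) :
    EqD 1 (cls (X ++ List.replicate n (.pw 1))) (cls X) := by
  have h1 : ∀ n : ℕ, EqD 1 (cls (List.replicate n (.pw 1))) [] := by
    intro n
    induction n with
    | zero => exact EqD.refl _
    | succ n ih =>
      rw [List.replicate_succ, cls_cons]
      exact hC.2.2.1 _ [] _ [] (hI.2.2.1 1 (by norm_num)).2 ih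
        (hC.2.2.2.1 _ (hC.2.2.2.2.1 (.pw 1))).2 (hC.2.2.2.2.2.1 _)
  rw [cls_append]
  have h2 := hC.2.2.1 (cls X) (cls X) _ [] (EqD.refl _) (h1 n) (hC.2.2.2.2.2.1 X)
    (hC.2.2.2.2.2.1 _)
  rwa [List.append_nil] at h2

/-- connected sums of 2-bridge knots as closures of rational trees -/
theorem words (hK : KDT_Stmt) (hC : FCG_Stmt) (ws : List Diag)
    (hws : ∀ w ∈ ws, IsLongKnot w ∧ minima w ≤ 1) :
    ∃ Ts : List Tr, (∀ t ∈ Ts, t.Rat ∧ Odd (vec t).1) ∧ EqD 1 ws.flatten (cls Ts) := by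
  induction ws with
  | nil => exact ⟨[], by simp, EqD.refl _⟩
  | cons w ws ih =>
    obtain ⟨Ts, h1, h2⟩ := ih fun x hx => hws x (List.mem_cons_of_mem _ hx)
    obtain ⟨hl, hm⟩ := hws w List.mem_cons_self
    obtain ⟨u, hu⟩ := one_min hl hm
    obtain ⟨x, hx1, _, hx3⟩ := nf_KW u (hu.isLongKnot hl)
    obtain ⟨T, hT1, hT2, hT3⟩ := hK x hx1
    refine ⟨T :: Ts, ?_, ?_⟩
    · intro t ht
      rcases List.mem_cons.1 ht with rfl | ht
      · exact ⟨hT1, hT2⟩
      · exact h1 t ht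
    · rw [List.flatten_cons, cls_cons]
      refine hC.2.2.1 _ _ _ _ ((hu.trans hx3).trans hT3) h2 (cnt_long hl) ?_
      have h3 : ∀ vs : List Diag, (∀ v ∈ vs, IsLongKnot v ∧ minima v ≤ 1) →
          cnt 1 vs.flatten = some 1 := by
        intro vs
        induction vs with
        | nil => intro _; rfl
        | cons v vs ihv =>
          intro hvs
          rw [List.flatten_cons, cnt_app (cnt_long (hvs v List.mem_cons_self).1)]
          exact ihv fun y hy => hvs y (List.mem_cons_of_mem _ hy)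
      exact h3 ws fun x hx => hws x (List.mem_cons_of_mem _ hx)

/-- closures of trees with at most two rational branches -/
theorem bridges (hO : ONEM_Stmt) (hR : RTC_Stmt) (hC : FCG_Stmt) (Ts : List Tr)
    (hT : ∀ t ∈ Ts, T2 t ∧ IsLongKnot (cl t.dg)) :
    ∃ ws : List Diag, (∀ w ∈ ws, IsLongKnot w ∧ minima w ≤ 1) ∧
      EqD 1 (cls Ts) ws.flatten := by
  have hrat : ∀ t : Tr, T2 t → ∃ T : Tr, T.Rat ∧ EqD 1 (cl t.dg) (cl T.dg) := by
    intro t ht
    cases t with
    | pw e => exact ⟨.pw e, trivial, EqD.refl _⟩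
    | cons a b => exact hR b a ht.2 ht.1
  induction Ts with
  | nil => exact ⟨[], by simp, EqD.refl _⟩
  | cons t Ts ih =>
    obtain ⟨ws, h1, h2⟩ := ih fun x hx => hT x (List.mem_cons_of_mem _ hx)
    obtain ⟨ht1, ht2⟩ := hT t List.mem_cons_self
    obtain ⟨T, hT1, hT2⟩ := hrat t ht1
    obtain ⟨w, hw1, hw2, hw3⟩ := hO T hT1 (hT2.isLongKnot ht2)
    refine ⟨w :: ws, ?_, ?_⟩
    · intro x hx
      rcases List.mem_cons.1 hx with rfl | hx
      · exact ⟨hw1, hw2⟩
      · exact h1 x hx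
    · rw [List.flatten_cons, cls_cons]
      exact hC.2.2.1 _ _ _ _ (hT2.trans hw3) h2 (hC.2.2.2.1 _ (hC.2.2.2.2.1 t)).2
        (hC.2.2.2.2.2.1 Ts)

end AsmT

/-- The algebraic part of Theorem V. -/
def ALG_Stmt : Prop :=
  ∀ (Ts Ts' : List Tr) (h : IsLongKnot (cls Ts)) (h' : IsLongKnot (cls Ts')),
    Ts.length = Ts'.length → (∀ t ∈ Ts, t.CR) → (∀ t ∈ Ts', t.Rat ∧ Odd (vec t).1) →
    (∀ v : Knot → ℂ, IsFiniteType v → v (ofDiag (cls Ts) h) = v (ofDiag (cls Ts') h')) →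
    ∀ t ∈ Ts, T2 t

/-- Separation of connected sums of 2-bridge knots (proved in TS). -/
def SEPS_Stmt : Prop :=
  ∀ (ws ws' : List Diag) (h : IsLongKnot ws.flatten) (h' : IsLongKnot ws'.flatten),
    (∀ w ∈ ws, IsLongKnot w ∧ minima w ≤ 1) → (∀ w ∈ ws', IsLongKnot w ∧ minima w ≤ 1) →
    (∀ v : Knot → ℚ, IsFiniteType v → v (ofDiag ws.flatten h) = v (ofDiag ws'.flatten h')) →
    ofDiag ws.flatten h = ofDiag ws'.flatten h'

open AsmT in
/-- **Theorem V**: rational finite type invariants separate every connected sum of 2-bridge knots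
from every arborescent knot. -/
theorem separate (hA : ALG_Stmt) (hS : SEPS_Stmt) (hF : FTOP_Stmt) (hT : FTA_Stmt)
    (hI : FIT_Stmt) (hC : FCG_Stmt) (hO : ONEM_Stmt) (hR : RTC_Stmt) (hK : KDT_Stmt)
    (t : Diag) (ht : Arb t) (h : IsLongKnot (cl t)) (ws : List Diag)
    (h' : IsLongKnot ws.flatten) (hws : ∀ w ∈ ws, IsLongKnot w ∧ minima w ≤ 1)
    (hv : ∀ v : Knot → ℚ, IsFiniteType v →
      v (ofDiag (cl t) h) = v (ofDiag ws.flatten h')) :
    ofDiag (cl t) h = ofDiag ws.flatten h' := by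
  obtain ⟨T, hT1⟩ := hT.2.2.2.2.2 t ht
  have h1 : EqD 1 (cl t) (cl T.dg) := (hC.1 t T.dg hT1 (hC.2.2.2.2.2.2 t ht)).2
  obtain ⟨Ts, h2, h3⟩ := hF T (h1.isLongKnot h)
  have h4 : EqD 1 (cl t) (cls Ts) := h1.trans h3
  obtain ⟨Ts', h5, h6⟩ := words hK hC ws hws
  -- lists of the same length
  have h7 : EqD 1 (cl t) (cls (Ts ++ List.replicate Ts'.length (.pw 1))) :=
    h4.trans (pad hC hI Ts Ts'.length).symm
  have h8 : EqD 1 ws.flatten (cls (Ts' ++ List.replicate Ts.length (.pw 1))) :=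
    h6.trans (pad hC hI Ts' Ts.length).symm
  have hv' : ∀ v : Knot → ℂ, IsFiniteType v →
      v (ofDiag _ (h7.isLongKnot h)) = v (ofDiag _ (h8.isLongKnot h')) := by
    intro v hv1
    rw [← h7.knot h, ← h8.knot h']
    exact complex_of_rat hv v hv1
  have h9 := hA _ _ (h7.isLongKnot h) (h8.isLongKnot h') (by simp [add_comm]) (by
      intro x hx
      rcases List.mem_append.1 hx with hx | hx
      · exact (h2 x hx).1
      · rw [(List.mem_replicate.1 hx).2]
        exact ⟨trivial, by simp [Tr.kids]⟩)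
    (by
      intro x hx
      rcases List.mem_append.1 hx with hx | hx
      · exact h5 x hx
      · rw [(List.mem_replicate.1 hx).2]
        exact ⟨trivial, ⟨-1, by simp [vec]⟩⟩)
    hv'
  obtain ⟨ws', h10, h11⟩ := bridges hO hR hC Ts fun x hx =>
    ⟨h9 x (List.mem_append_left _ hx), (h2 x hx).2⟩
  have h12 : EqD 1 (cl t) ws'.flatten := h4.trans h11
  rw [h12.knot h]
  refine hS ws' ws (h12.isLongKnot h) h' h10 hws fun v hv1 => ?_
  rw [← h12.knot h]
  exact hv v hv1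

end Pool.Agent.TV
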