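import Pool.Agent.TV.St

/-!
# Subgroups of the Higman–Thompson groups: basins of repelling points
-/

set_option autoImplicit false

namespace Pool.Agent.TV

open Stream'

theorem t_BAS (hREB : s_REB) (hGRP : s_GRP) (hRCL : s_RCL) (hATL : s_ATL) (hAFX : s_AFX)
    (hLCP : s_LCP) : s_BAS := by
  intro A _ _ g hg w hper hatt
  obtain ⟨n, hn⟩ := hLCP A g hg w hatt
  obtain ⟨_, _, _, hR4, _⟩ := hRCL A g⁻¹
  obtain ⟨f, hf0, hf1, hf2⟩ := hR4 _ hn
  obtain ⟨_, _, _, _, _, _, _, _, _, hB10, _⟩ := hREB A g⁻¹ g⁻¹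
  have hinj : Function.Injective f := by
    have key : ∀ k l : ℕ, k < l → f k ≠ f l := by
      intro k l hkl h
      have h1 := hf1 k
      rw [h] at h1
      have h2 := hB10 k l _ _ hkl.le h1 (hf1 l)
      obtain ⟨_, _, hB3, _⟩ := hREB A (g⁻¹ ^ (l - k)) g⁻¹
      have h3 := hB3 _ _ h2
      rw [inv_pow, inv_inv] at h3
      exact hper ⟨l - k, by omega, n, h3⟩
    intro k l h
    rcases lt_trichotomy k l with h1 | h1 | h1
    · exact absurd h (key k l h1)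
    · exact h1
    · exact absurd h.symm (key l k h1)
  obtain ⟨k, q, τ, z, hq, hz, hτ, hrep⟩ := hATL A g⁻¹ ((hGRP A).2.2 g hg) f
    (fun k => by rw [hf0]; exact hf1 k) hinj
  obtain ⟨a, _, ha1, ha2, ha3⟩ := hAFX A (g⁻¹ ^ q) τ z hz hrep
  refine ⟨a, ⟨q, hq, ha1, ha2⟩, fun m => ?_⟩
  obtain ⟨K, hK⟩ := ha3 m
  obtain ⟨r, hr⟩ := hτ
  refine ⟨q * K + k, ?_⟩
  have h4 : (g⁻¹ ^ k) w = τ ++ₛ (r ++ₛ w.drop n) := by
    conv_lhs => rw [← Stream'.append_take_drop n w]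
    rw [hf1 k (w.drop n), ← hr, Stream'.append_append_stream]
  have h5 : (g⁻¹ ^ (q * K + k)) w = ((g⁻¹ ^ q) ^ K) ((g⁻¹ ^ k) w) := by
    rw [pow_add, pow_mul]
    rfl
  rw [h5, h4]
  exact hK K le_rfl _

end Pool.Agent.TV
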