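import Pool.Agent.TV.StK

/-!
Theorem V (MP_31fd3b_gt), block K, module BVC: which vertices occur.
-/

open scoped BigOperators

namespace Pool.Agent.TV

open Pool.Agent.LibH11.Sliced Pool.Agent.MTR Pool.Agent.MTA Pool.Agent.UA Pool.Agent.UB
open Pool.Agent.TB hiding vec

namespace Bvc

/-! ### Lists -/

theorem sum_filter {α : Type} (p : α → Bool) (f : α → ℂ) : ∀ l : List α,
    ((l.filter p).map f).sum = (l.map fun v => if p v then f v else 0).sum
  | [] => rfl
  | v :: l => by
    by_cases h : p v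
    · simp only [List.filter_cons, h, if_true, List.map_cons, List.sum_cons, sum_filter p f l]
    · rw [List.filter_cons_of_neg h, sum_filter p f l, List.map_cons, List.sum_cons, if_neg h,
        zero_add]

theorem sum_group {α : Type} (k : α → ℤ) (t : α → ℂ) (c : ℤ → ℂ) (S : Finset ℤ) : ∀ l : List α,
    (∀ x ∈ l, k x ∈ S) → (l.map fun x => c (k x) * t x).sum =
      ∑ K ∈ S, c K * (l.map fun x => if k x = K then t x else 0).sum
  | [], _ => by simp
  | x :: l, h => by
    have ih := sum_group k t c S l fun y hy => h y (List.mem_cons_of_mem _ hy)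
    simp only [List.map_cons, List.sum_cons, mul_add, Finset.sum_add_distrib]
    rw [ih]
    congr 1
    simp only [mul_ite, mul_zero]
    rw [Finset.sum_ite_eq]
    rw [if_pos (h x List.mem_cons_self)]

theorem sum_group_zero {α : Type} (k : α → ℤ) (t : α → ℂ) (c : ℤ → ℂ) (l : List α)
    (h : ∀ K : ℤ, (l.map fun x => if k x = K then t x else 0).sum = 0) :
    (l.map fun x => c (k x) * t x).sum = 0 := by
  classical
  rw [sum_group k t c (l.map k).toFinset l (fun x hx => by
    rw [List.mem_toFinset]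
    exact List.mem_map_of_mem hx)]
  apply Finset.sum_eq_zero
  intro K _
  rw [h K, mul_zero]

theorem sum_nat_zero {α : Type} (f : α → ℂ) : ∀ l : List α, (∀ x ∈ l, ∃ m : ℕ, f x = m) →
    (l.map f).sum = 0 → ∀ x ∈ l, f x = 0 := by
  have key : ∀ l : List α, (∀ x ∈ l, ∃ m : ℕ, f x = m) → ∃ m : ℕ, (l.map f).sum = m := by
    intro l
    induction l with
    | nil => exact fun _ => ⟨0, by simp⟩
    | cons y l ih =>
      intro h
      obtain ⟨m, hm⟩ := h y List.mem_cons_self
      obtain ⟨n, hn⟩ := ih fun x hx => h x (List.mem_cons_of_mem _ hx)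
      exact ⟨m + n, by rw [List.map_cons, List.sum_cons, hm, hn]; push_cast; ring⟩
  intro l
  induction l with
  | nil => intro _ _ x hx; exact absurd hx List.not_mem_nil
  | cons y l ih =>
    intro h h0 x hx
    obtain ⟨m, hm⟩ := h y List.mem_cons_self
    obtain ⟨n, hn⟩ := key l fun x hx => h x (List.mem_cons_of_mem _ hx)
    rw [List.map_cons, List.sum_cons, hm, hn] at h0
    have h1 : m + n = 0 := by exact_mod_cast h0
    have hm0 : m = 0 := by omega
    have hn0 : n = 0 := by omega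
    rcases List.mem_cons.1 hx with e | e
    · rw [e, hm, hm0, Nat.cast_zero]
    · refine ih (fun x hx => h x (List.mem_cons_of_mem _ hx)) ?_ x e
      rw [hn, hn0, Nat.cast_zero]

theorem cast_sum {α : Type} (f : α → ℤ) (l : List α) :
    (((l.map f).sum : ℤ) : ℂ) = (l.map fun x => (f x : ℂ)).sum := by
  induction l with
  | nil => simp
  | cons x l ih => simp only [List.map_cons, List.sum_cons]; rw [Int.cast_add, ih]

/-! ### The period -/

theorem cqn_add (K : ℤ) (σ β : ℚ) (g : ℤ) (z : ℚ) (n : ℤ) : cqn K σ (β + n) g z = cqn K σ β g z := by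
  unfold cqn
  have hinj : Function.Injective (fun R : ℤ × ℤ => ((R.1 + n * R.2, R.2) : ℤ × ℤ)) := by
    intro R R' h
    simp only [Prod.mk.injEq] at h
    obtain ⟨h1, h2⟩ := h
    rw [h2] at h1
    exact Prod.ext (by linarith) h2
  refine (congrArg Set.ncard (?_ : {R : ℤ × ℤ | -(K : ℚ) * ((R.1 : ℚ) - (β + n) * R.2) *
      ((R.1 : ℚ) - (β + n) * R.2 + σ * R.2) = g ∧
      ((R.1 : ℚ) - (β + n) * R.2) / ((R.1 : ℚ) - (β + n) * R.2 + σ * R.2) = z} =
      (fun R : ℤ × ℤ => ((R.1 + n * R.2, R.2) : ℤ × ℤ)) ''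
        {R : ℤ × ℤ | -(K : ℚ) * ((R.1 : ℚ) - β * R.2) * ((R.1 : ℚ) - β * R.2 + σ * R.2) = g ∧
          ((R.1 : ℚ) - β * R.2) / ((R.1 : ℚ) - β * R.2 + σ * R.2) = z})).trans
      (Set.ncard_image_of_injective _ hinj)
  ext R
  simp only [Set.mem_image, Set.mem_ofPred_eq]
  constructor
  · rintro ⟨h1, h2⟩
    refine ⟨(R.1 - n * R.2, R.2), ?_, by simp⟩
    have e : ((R.1 - n * R.2 : ℤ) : ℚ) - β * R.2 = (R.1 : ℚ) - (β + n) * R.2 := by
      push_cast
      ring
    simp only [e]
    exact ⟨h1, h2⟩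
  · rintro ⟨Q, ⟨h1, h2⟩, rfl⟩
    have e : ((Q.1 + n * Q.2 : ℤ) : ℚ) - (β + n) * Q.2 = (Q.1 : ℚ) - β * Q.2 := by
      push_cast
      ring
    simp only [e]
    exact ⟨h1, h2⟩

theorem al_triv (φ : ℚ → ℂ) (hφ : ∀ (β : ℚ) (n : ℤ), φ (β + n) = φ β) {σ b0 b1 b2 : ℚ}
    (hs : b0 + b1 + b2 = σ)
    (h : (∃ n : ℤ, b0 = n) ∨ (∃ n : ℤ, b1 = n) ∨ ∃ n : ℤ, b2 = n) : al φ σ b0 b1 b2 = 0 := by
  have hsub : ∀ (β : ℚ) (n : ℤ), φ (β - n) = φ β := by
    intro β n
    have := hφ (β - n) n
    rw [sub_add_cancel] at this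
    exact this.symm
  have hint : ∀ n : ℤ, φ n = φ 0 := by
    intro n
    have := hφ 0 n
    rwa [zero_add] at this
  unfold al
  rcases h with ⟨n, hn⟩ | ⟨n, hn⟩ | ⟨n, hn⟩
  · have e1 : σ - b1 = b2 + n := by rw [← hs, hn]; ring
    have e2 : σ - b2 = b1 + n := by rw [← hs, hn]; ring
    rw [e1, e2, hn, hφ, hφ, hsub, hint]
    ring
  · have e1 : σ - b0 = b2 + n := by rw [← hs, hn]; ring
    have e2 : σ - b2 = b0 + n := by rw [← hs, hn]; ring
    rw [e1, e2, hn, hφ, hφ, hsub, hint]
    ring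
  · have e1 : σ - b0 = b1 + n := by rw [← hs, hn]; ring
    have e2 : σ - b1 = b0 + n := by rw [← hs, hn]; ring
    rw [e1, e2, hn, hφ, hφ, hsub, hint]
    ring

/-! ### Vertices -/

theorem slp_int {V : ℤ × ℤ} (h : V.2 ≠ 0) : (∃ n : ℤ, slp V = n) ↔ V.2 ∣ V.1 := by
  have h' : (V.2 : ℚ) ≠ 0 := by exact_mod_cast h
  unfold slp
  constructor
  · rintro ⟨n, hn⟩
    rw [div_eq_iff h'] at hn
    refine ⟨n, ?_⟩
    have : ((V.1 : ℤ) : ℚ) = ((V.2 * n : ℤ) : ℚ) := by
      rw [hn]
      push_cast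
      ring
    exact_mod_cast this
  · rintro ⟨n, hn⟩
    refine ⟨n, ?_⟩
    rw [div_eq_iff h', hn]
    push_cast
    ring

theorem tot2 (v : Vx) : (tot v).2 = v.1.2 * v.2.1.2 * v.2.2.2 := rfl

theorem weights {v : Vx} (h : (tot v).2 ≠ 0) : v.1.2 ≠ 0 ∧ v.2.1.2 ≠ 0 ∧ v.2.2.2 ≠ 0 := by
  rw [tot2] at h
  refine ⟨?_, ?_, ?_⟩ <;> intro h0 <;> exact h (by rw [h0]; ring)

theorem ex_prs {v : Vx} (q : (ℤ × ℤ) → Prop) :
    (∃ p ∈ prs v, q p.2) ↔ q v.1 ∨ q v.2.1 ∨ q v.2.2 := by
  unfold prs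
  simp

/-- an integral slope -/
def Is (v : Vx) : Prop :=
  (∃ n : ℤ, slp v.1 = n) ∨ (∃ n : ℤ, slp v.2.1 = n) ∨ ∃ n : ℤ, slp v.2.2 = n

theorem is_iff {v : Vx} (h : (tot v).2 ≠ 0) : Is v ↔ ∃ p ∈ prs v, p.2.2 ∣ p.2.1 := by
  obtain ⟨h1, h2, h3⟩ := weights h
  rw [ex_prs (fun V => V.2 ∣ V.1)]
  unfold Is
  rw [slp_int h1, slp_int h2, slp_int h3]

theorem vtriv_iff {v : Vx} (h : (tot v).2 ≠ 0) : Vtriv v ↔ Is v := by
  unfold Vtriv
  rw [is_iff h]
  exact ⟨fun k => k.2, fun k => ⟨h, k⟩⟩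

/-- the entry of a vertex -/
noncomputable def kx (D : ℤ) (v : Vx) : ℤ × ℚ × ℚ × ℚ :=
  (D / (tot v).1 * (tot v).2, slp v.1, slp v.2.1, slp v.2.2)

/-- the value of an entry -/
noncomputable def ax (D : ℤ) (φ : ℚ → ℂ) (x : ℤ × ℚ × ℚ × ℚ) : ℂ :=
  al φ ((D : ℚ) / x.1) x.2.1 x.2.2.1 x.2.2.2

theorem bc_zero (φ : ℚ → ℂ) {v : Vx} (h : ¬ Vbad v) : bc φ v = 0 := by
  unfold bc
  rw [if_neg h]

theorem bc_bad (φ : ℚ → ℂ) {v : Vx} (h : Vbad v) :
    bc φ v = (((tot v).2 : ℚ) / (tot v).1 : ℚ) * (φ (slp v.1) + φ (slp v.2.1) + φ (slp v.2.2)) := by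
  unfold bc
  rw [if_pos h]
  congr 1
  unfold prs
  simp only [List.map_cons, List.map_nil, List.sum_cons, List.sum_nil, add_zero]
  ring

/-- the indicator function of the integers -/
theorem ind :
    ∃ φ : ℚ → ℂ, (∀ (β : ℚ) (n : ℤ), φ (β + n) = φ β) ∧ (∀ β : ℚ, φ β = 0 ∨ φ β = 1) ∧
      (∀ n : ℤ, φ n = 1) ∧ ∀ β : ℚ, (¬ ∃ n : ℤ, β = n) → φ β = 0 := by
  classical
  refine ⟨fun β => if ∃ n : ℤ, β = n then 1 else 0, ?_, ?_, ?_, ?_⟩
  · intro β n
    have : (∃ m : ℤ, β + n = m) ↔ ∃ m : ℤ, β = m := by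
      constructor
      · rintro ⟨m, hm⟩
        exact ⟨m - n, by push_cast; linarith⟩
      · rintro ⟨m, hm⟩
        exact ⟨m + n, by push_cast; linarith⟩
    simp only [this]
  · intro β
    by_cases h : ∃ n : ℤ, β = n
    · right; simp only [if_pos h]
    · left; simp only [if_neg h]
  · intro n
    have : ∃ m : ℤ, (n : ℚ) = m := ⟨n, rfl⟩
    simp only [if_pos this]
  · intro β h
    simp only [if_neg h]

end Bvc

open Bvc in
/-- BVC -/
theorem t_BVC (h1 : CQE_Stmt) (h2 : MUK_Stmt) : BVC_Stmt := by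
  classical
  intro D hD Vs Vs' hdiv hVs' hrs
  have hD0 : D ≠ 0 := by
    rintro rfl
    simp at hD
  -- the list of the entries
  set X : List (ℤ × ℚ × ℚ × ℚ) := (Vs.filter fun v => decide ((tot v).2 ≠ 0)).map (kx D) with hX
  have hsumX : ∀ f : (ℤ × ℚ × ℚ × ℚ) → ℂ, (X.map f).sum =
      (Vs.map fun v => if (tot v).2 ≠ 0 then f (kx D v) else 0).sum := by
    intro f
    rw [hX, List.map_map, sum_filter]
    simp only [decide_eq_true_eq, Function.comp]
  have hmem : ∀ x ∈ X, ∃ v ∈ Vs, (tot v).2 ≠ 0 ∧ kx D v = x := by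
    intro x hx
    rw [hX, List.mem_map] at hx
    obtain ⟨v, hv, e⟩ := hx
    rw [List.mem_filter, decide_eq_true_eq] at hv
    exact ⟨v, hv.1, hv.2, e⟩
  have hdv : ∀ v ∈ Vs, (tot v).1 ∣ D := fun v hv => hdiv v (List.mem_append_left _ hv)
  have hdv' : ∀ v ∈ Vs', (tot v).1 ∣ D := fun v hv => hdiv v (List.mem_append_right _ hv)
  -- the facts of CQE
  have cq : ∀ v, (tot v).1 ∣ D → (tot v).2 ≠ 0 → _ := fun v hv hv0 =>
    h1 D v hD0 hv hv0 (D / (tot v).1 * (tot v).2) rfl
  -- residues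
  have hrsv : ∀ v, (tot v).1 ∣ D → ∀ (g : ℤ) (z : ℚ), Odd g → z ≠ 0 →
      ((rs D v g z : ℤ) : ℂ) = if (tot v).2 ≠ 0 then
        ax D (fun β => (cqn (kx D v).1 ((D : ℚ) / (kx D v).1) β g z : ℂ)) (kx D v) else 0 := by
    intro v hv g z hg hz
    have hg0 : g ≠ 0 := by
      rintro rfl
      simp at hg
    by_cases h0 : (tot v).2 = 0
    · rw [if_neg (not_not.2 h0)]
      unfold rs
      rw [if_pos h0, Int.cast_zero]
    · rw [if_pos h0]
      exact (cq v hv h0).2.2.2.2 g z hg0 hz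
  have hcper : ∀ (K : ℤ) (σ : ℚ) (g : ℤ) (z : ℚ) (β : ℚ) (n : ℤ),
      (fun β => (cqn K σ β g z : ℂ)) (β + n) = (fun β => (cqn K σ β g z : ℂ)) β := by
    intro K σ g z β n
    simp only [cqn_add]
  -- the right side vanishes
  have hright : ∀ (g : ℤ) (z : ℚ), Odd g → z ≠ 0 →
      (((Vs'.map fun v => rs D v g z).sum : ℤ) : ℂ) = 0 := by
    intro g z hg hz
    rw [cast_sum]
    apply List.sum_eq_zero
    intro y hy
    rw [List.mem_map] at hy
    obtain ⟨v, hv, rfl⟩ := hy
    rw [hrsv v (hdv' v hv) g z hg hz]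
    by_cases h0 : (tot v).2 = 0
    · rw [if_neg (not_not.2 h0)]
    · rw [if_pos h0]
      have ht : Is v := by
        rcases hVs' v hv with h | h
        · exact absurd h h0
        · exact (vtriv_iff h0).1 h
      exact al_triv _ (hcper _ _ g z) (cq v (hdv' v hv) h0).2.2.1 ht
  have muk := h2 D hD X
    (by
      intro x hx
      obtain ⟨v, hv, hv0, rfl⟩ := hmem x hx
      have h := cq v (hdv v hv) hv0
      exact ⟨h.1, h.2.2.1, h.2.2.2.1⟩)
    (by
      intro g z hg hz
      rw [hsumX]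
      have e : (Vs.map fun v => if (tot v).2 ≠ 0 then
          al (fun β => (cqn (kx D v).1 ((D : ℚ) / (kx D v).1) β g z : ℂ)) ((D : ℚ) / (kx D v).1)
            (kx D v).2.1 (kx D v).2.2.1 (kx D v).2.2.2 else 0).sum =
          (Vs.map fun v => ((rs D v g z : ℤ) : ℂ)).sum := by
        congr 1
        apply List.map_congr_left
        intro v hv
        exact (hrsv v (hdv v hv) g z hg hz).symm
      rw [e, ← cast_sum, hrs g z hg hz]
      exact hright g z hg hz)
  have mukv : ∀ (K : ℤ) (φ : ℚ → ℂ), (∀ (β : ℚ) (n : ℤ), φ (β + n) = φ β) →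
      (X.map fun x => if x.1 = K then ax D φ x else 0).sum = 0 := muk
  have hkmem : ∀ v ∈ Vs, (tot v).2 ≠ 0 → kx D v ∈ X := by
    intro v hv hv0
    rw [hX, List.mem_map]
    exact ⟨v, List.mem_filter.2 ⟨hv, by simpa using hv0⟩, rfl⟩
  -- the slope of the sum
  have hσ : ∀ v, (tot v).1 ∣ D → (tot v).2 ≠ 0 →
      ((∃ n : ℤ, (D : ℚ) / (kx D v).1 = n) ↔ (tot v).2 ∣ (tot v).1) := by
    intro v hv hv0
    have h := (cq v hv hv0).2.1
    have h' : (D : ℚ) / (kx D v).1 = slp (tot v) := h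
    rw [h']
    exact slp_int hv0
  refine ⟨?_, ?_⟩
  · intro v hv
    by_cases h0 : (tot v).2 = 0
    · exact Or.inl h0
    · right
      by_cases hI : (tot v).2 ∣ (tot v).1
      · by_cases hi : Is v
        · exact Or.inl ((vtriv_iff h0).2 hi)
        · right
          refine ⟨h0, ?_, hI⟩
          intro p hp hd
          exact hi ((is_iff h0).2 ⟨p, hp, hd⟩)
      · left
        rw [vtriv_iff h0]
        by_contra hi
        obtain ⟨φ, hφ1, hφ2, hφ3, hφ4⟩ := ind
        have hz := mukv (kx D v).1 φ hφ1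
        have hall : ∀ x ∈ X, x.1 = (kx D v).1 → ∀ w ∈ Vs, (tot w).2 ≠ 0 → kx D w = x →
            (Is w → ax D φ x = 0) ∧ (¬ Is w → ∃ m : ℕ, ax D φ x = (m + 1 : ℕ)) := by
          intro x hx hxk w hw hw0 hwx
          refine ⟨fun hi' => ?_, fun hi' => ?_⟩
          · rw [← hwx]
            exact al_triv φ hφ1 (cq w (hdv w hw) hw0).2.2.1 hi'
          · have hns : ¬ ∃ n : ℤ, (D : ℚ) / x.1 = n := by
              rw [hxk]
              rw [hσ v (hdv v hv) h0]
              exact hI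
            unfold Is at hi'
            push Not at hi'
            obtain ⟨i0, i1, i2⟩ := hi'
            have z0 : φ 0 = 1 := by
              have := hφ3 0
              simpa using this
            have zs : φ ((D : ℚ) / x.1) = 0 := hφ4 _ hns
            have c0 : φ x.2.1 = 0 := by
              rw [← hwx]
              apply hφ4
              push Not
              exact i0
            have c1 : φ x.2.2.1 = 0 := by
              rw [← hwx]
              apply hφ4
              push Not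
              exact i1
            have c2 : φ x.2.2.2 = 0 := by
              rw [← hwx]
              apply hφ4
              push Not
              exact i2
            unfold ax al
            rw [z0, zs, c0, c1, c2]
            have hn : ∀ β, ∃ m : ℕ, φ β = m := by
              intro β
              rcases hφ2 β with e | e
              · exact ⟨0, by rw [e]; simp⟩
              · exact ⟨1, by rw [e]; simp⟩
            obtain ⟨m0, e0⟩ := hn ((D : ℚ) / x.1 - x.2.1)
            obtain ⟨m1, e1⟩ := hn ((D : ℚ) / x.1 - x.2.2.1)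
            obtain ⟨m2, e2⟩ := hn ((D : ℚ) / x.1 - x.2.2.2)
            refine ⟨m0 + m1 + m2, ?_⟩
            rw [e0, e1, e2]
            push_cast
            ring
        have hzz := sum_nat_zero (fun x => if x.1 = (kx D v).1 then ax D φ x else 0) X
          (by
            intro x hx
            by_cases hk : x.1 = (kx D v).1
            · simp only [if_pos hk]
              obtain ⟨w, hw, hw0, hwx⟩ := hmem x hx
              obtain ⟨a1, a2⟩ := hall x hx hk w hw hw0 hwx
              by_cases hi' : Is w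
              · exact ⟨0, by rw [a1 hi']; simp⟩
              · obtain ⟨m, hm⟩ := a2 hi'
                exact ⟨m + 1, hm⟩
            · simp only [if_neg hk]
              exact ⟨0, by simp⟩) hz (kx D v) (hkmem v hv h0)
        simp only [if_true] at hzz
        obtain ⟨m, hm⟩ := (hall (kx D v) (hkmem v hv h0) rfl v hv h0 rfl).2 hi
        rw [hm] at hzz
        exact absurd (by exact_mod_cast hzz) (Nat.succ_ne_zero m)
  · intro φ hφ1 hφ2
    have hφ0 : φ 0 = 0 := by
      have h := hφ2 0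
      rw [neg_zero] at h
      have h3 : (2 : ℂ) * φ 0 = 0 := by linear_combination h
      simpa using h3
    have key := sum_group_zero (fun x : ℤ × ℚ × ℚ × ℚ => x.1) (ax D φ)
      (fun K => if ∃ n : ℤ, (D : ℚ) / K = n then -(((K : ℚ) / D : ℚ) : ℂ) / 2 else 0) X
      (fun K => mukv K φ hφ1)
    rw [hsumX] at key
    rw [← key]
    congr 1
    apply List.map_congr_left
    intro v hv
    by_cases h0 : (tot v).2 = 0
    · rw [if_neg (not_not.2 h0)]
      exact bc_zero φ fun hb => hb.1 h0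
    · rw [if_pos h0]
      have hc := cq v (hdv v hv) h0
      by_cases hI : (tot v).2 ∣ (tot v).1
      · have hI' := (hσ v (hdv v hv) h0).2 hI
        rw [if_pos hI']
        by_cases hi : Is v
        · have hb : ¬ Vbad v := by
            intro hb
            obtain ⟨p, hp, hd⟩ := (is_iff h0).1 hi
            exact hb.2.1 p hp hd
          rw [bc_zero φ hb]
          have : ax D φ (kx D v) = 0 := al_triv φ hφ1 hc.2.2.1 hi
          rw [this, mul_zero]
        · have hb : Vbad v := by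
            refine ⟨h0, ?_, hI⟩
            intro p hp hd
            exact hi ((is_iff h0).2 ⟨p, hp, hd⟩)
          rw [bc_bad φ hb]
          have hK : (((kx D v).1 : ℤ) : ℚ) / D = ((tot v).2 : ℚ) / (tot v).1 := by
            have := congrArg (fun q : ℚ => q⁻¹) hc.2.1
            simp only [inv_div] at this
            exact this
          rw [hK]
          obtain ⟨n, hn⟩ := hI'
          have hsub : ∀ b : ℚ, φ ((D : ℚ) / (kx D v).1 - b) = -φ b := by
            intro b
            rw [hn]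
            have e : (n : ℚ) - b = -b + n := by ring
            rw [e, hφ1, hφ2]
          have hs : φ ((D : ℚ) / (kx D v).1) = 0 := by
            rw [hn]
            have := hφ1 0 n
            rw [zero_add] at this
            rw [this, hφ0]
          have hax : ax D φ (kx D v) = -2 * (φ (slp v.1) + φ (slp v.2.1) + φ (slp v.2.2)) := by
            unfold ax al
            rw [hsub, hsub, hsub, hs, hφ0]
            show (0 : ℂ) - 0 - (φ (slp v.1) + φ (slp v.2.1) + φ (slp v.2.2)) +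
              (-φ (slp v.1) + -φ (slp v.2.1) + -φ (slp v.2.2)) = _
            ring
          rw [hax]
          ring
      · have hI' : ¬ ∃ n : ℤ, (D : ℚ) / (kx D v).1 = n := by
          rw [hσ v (hdv v hv) h0]
          exact hI
        rw [if_neg hI', zero_mul]
        exact bc_zero φ fun hb => hI hb.2.2

end Pool.Agent.TV
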