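import Pool.Agent.TV.StK

/-!
Theorem V (MP_31fd3b_gt), module CQE: the residue of a vertex in terms of the slopes.
-/

set_option autoImplicit false

open scoped BigOperators

namespace Pool.Agent.TV

open Pool.Agent.LibH11.Sliced Pool.Agent.MTR Pool.Agent.MTA Pool.Agent.UA Pool.Agent.UB
open Pool.Agent.TB hiding vec

namespace CQE

/-- the set of `cqn` -/
def cqs (K : ℤ) (σ β : ℚ) (g : ℤ) (z : ℚ) : Set (ℤ × ℤ) :=
  {R : ℤ × ℤ | -(K : ℚ) * ((R.1 : ℚ) - β * R.2) * ((R.1 : ℚ) - β * R.2 + σ * R.2) = g ∧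
    ((R.1 : ℚ) - β * R.2) / ((R.1 : ℚ) - β * R.2 + σ * R.2) = z}

lemma cqn_eq (K : ℤ) (σ β : ℚ) (g : ℤ) (z : ℚ) : cqn K σ β g z = (cqs K σ β g z).ncard := rfl

lemma set1 (c : ℤ) (P V : ℤ × ℤ) (K : ℤ) (σ : ℚ) (g : ℤ) (z : ℚ) (hP : P.2 ≠ 0) (hV : V.2 ≠ 0)
    (hK : K = c * (P.2 * V.2)) (hσ : σ = (dt P V : ℤ) / ((P.2 : ℚ) * V.2)) :
    {R ∈ Sl c P V g | pol P V R = z} = cqs K σ (slp V) g z := by
  have hP' : (P.2 : ℚ) ≠ 0 := by exact_mod_cast hP
  have hV' : (V.2 : ℚ) ≠ 0 := by exact_mod_cast hV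
  ext R
  unfold Sl cqs
  rw [Set.mem_setOf_eq, Set.mem_setOf_eq, Set.mem_setOf_eq]
  apply and_congr
  · have h1 : ((c * Nl (cx P) V R : ℤ) : ℚ) =
        -(K : ℚ) * ((R.1 : ℚ) - slp V * R.2) * ((R.1 : ℚ) - slp V * R.2 + σ * R.2) := by
      rw [hK, hσ]
      unfold Nl cx det2 dt addv slp
      push_cast
      field_simp
      ring
    rw [← h1]
    exact Int.cast_inj.symm
  · unfold pol slp
    rw [hσ]

lemma flip (K : ℤ) (σ β : ℚ) (g : ℤ) (z : ℚ) (hg : g ≠ 0) (hz : z ≠ 0) :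
    (cqs K σ β g (1 / z)).ncard = (cqs K σ (σ - β) g z).ncard := by
  have hinj : Function.Injective fun R : ℤ × ℤ => ((R.1, -R.2) : ℤ × ℤ) := by
    intro R R' h
    simp only [Prod.mk.injEq, neg_inj] at h
    exact Prod.ext h.1 h.2
  rw [← Set.ncard_image_of_injective (cqs K σ β g (1 / z)) hinj]
  congr 1
  have hg' : (g : ℚ) ≠ 0 := by exact_mod_cast hg
  have key : ∀ x y : ℤ, ((x, y) : ℤ × ℤ) ∈ cqs K σ β g (1 / z) ↔
      ((x, -y) : ℤ × ℤ) ∈ cqs K σ (σ - β) g z := by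
    intro x y
    unfold cqs
    rw [Set.mem_setOf_eq, Set.mem_setOf_eq]
    have e1 : ((x : ℚ) - (σ - β) * ((-y : ℤ) : ℚ)) = (x : ℚ) - β * y + σ * y := by
      push_cast
      ring
    have e2 : ((x : ℚ) - β * y + σ * y) + σ * ((-y : ℤ) : ℚ) = (x : ℚ) - β * y := by
      push_cast
      ring
    rw [e1, e2]
    set a : ℚ := (x : ℚ) - β * y with ha
    set b : ℚ := a + σ * y with hb
    constructor
    · rintro ⟨h1, h2⟩
      have ha0 : a ≠ 0 := by
        intro h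
        rw [h] at h1
        apply hg'
        rw [← h1]
        ring
      have hb0 : b ≠ 0 := by
        intro h
        rw [h] at h1
        apply hg'
        rw [← h1]
        ring
      refine ⟨by rw [← h1]; ring, ?_⟩
      rw [div_eq_div_iff hb0 hz] at h2
      rw [div_eq_iff ha0]
      linarith
    · rintro ⟨h1, h2⟩
      have ha0 : a ≠ 0 := by
        intro h
        rw [h] at h1
        apply hg'
        rw [← h1]
        ring
      have hb0 : b ≠ 0 := by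
        intro h
        rw [h] at h1
        apply hg'
        rw [← h1]
        ring
      refine ⟨by rw [← h1]; ring, ?_⟩
      rw [div_eq_iff ha0] at h2
      rw [div_eq_div_iff hb0 hz]
      linarith
  ext R
  constructor
  · rintro ⟨S, hS, rfl⟩
    exact (key S.1 S.2).1 hS
  · intro hR
    refine ⟨(R.1, -R.2), ?_, ?_⟩
    · rw [key, neg_neg]
      exact hR
    · change (R.1, - -R.2) = R
      rw [neg_neg]

lemma rs1_eq (D : ℤ) (P V : ℤ × ℤ) (K : ℤ) (σ : ℚ) (g : ℤ) (z : ℚ) (hP : P.2 ≠ 0) (hV : V.2 ≠ 0)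
    (hg : g ≠ 0) (hz : z ≠ 0) (hK : K = D / dt P V * (P.2 * V.2))
    (hσ : σ = (dt P V : ℤ) / ((P.2 : ℚ) * V.2)) :
    ((rs1 D P V g z : ℤ) : ℂ) = (cqn K σ (slp V) g z : ℂ) - (cqn K σ (σ - slp V) g z : ℂ) := by
  unfold rs1
  rw [set1 (D / dt P V) P V K σ g z hP hV hK hσ, set1 (D / dt P V) P V K σ g (1 / z) hP hV hK hσ,
    flip K σ (slp V) g z hg hz, cqn_eq, cqn_eq]
  push_cast
  rfl

end CQE

open CQE in
theorem t_CQE (h1 : VTS_Stmt) : CQE_Stmt := by
  intro D v hD hdvd hv2 K hK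
  have hv1 : (tot v).1 ≠ 0 := by
    intro h
    rw [h] at hdvd
    exact hD (zero_dvd_iff.1 hdvd)
  obtain ⟨c, hc⟩ := hdvd
  have hcD : D / (tot v).1 = c := by
    rw [hc]
    exact Int.mul_ediv_cancel_left c hv1
  have hc0 : c ≠ 0 := by
    rintro rfl
    rw [mul_zero] at hc
    exact hD hc
  have hK' : K = c * (tot v).2 := by rw [hK, hcD]
  have hK0 : K ≠ 0 := by
    rw [hK']
    exact mul_ne_zero hc0 hv2
  have hKq : (K : ℚ) ≠ 0 := by exact_mod_cast hK0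
  have hcq : (c : ℚ) ≠ 0 := by exact_mod_cast hc0
  have hv2q : ((tot v).2 : ℚ) ≠ 0 := by exact_mod_cast hv2
  have hσ : (D : ℚ) / K = ((tot v).1 : ℚ) / (tot v).2 := by
    rw [div_eq_div_iff hKq hv2q]
    have h2 : (D : ℚ) = ((tot v).1 : ℚ) * c := by exact_mod_cast hc
    have h3 : (K : ℚ) = c * ((tot v).2 : ℚ) := by exact_mod_cast hK'
    rw [h2, h3]
    ring
  have hVT : ∀ p ∈ prs v, addv p.1 p.2 = tot v ∧ dt p.1 p.2 = (tot v).1 ∧
      p.1.2 * p.2.2 = (tot v).2 := (h1 (.pw 0) (0, 1)).2.2.2.1 v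
  have hV0 : dt (tot v) (0, 1) = (tot v).1 := (h1 (.pw 0) (0, 1)).2.2.2.2 v
  -- nonvanishing of the weights
  have hne : ∀ p ∈ prs v, p.1.2 ≠ 0 ∧ p.2.2 ≠ 0 := by
    intro p hp
    have h2 := (hVT p hp).2.2
    rw [← h2] at hv2
    exact ⟨left_ne_zero_of_mul hv2, right_ne_zero_of_mul hv2⟩
  have hpair : ∀ p ∈ prs v, ∀ (g : ℤ) (z : ℚ), g ≠ 0 → z ≠ 0 →
      ((rs1 D p.1 p.2 g z : ℤ) : ℂ) = (cqn K ((D : ℚ) / K) (slp p.2) g z : ℂ) -
        (cqn K ((D : ℚ) / K) ((D : ℚ) / K - slp p.2) g z : ℂ) := by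
    intro p hp g z hg hz
    obtain ⟨h2, h3, h4⟩ := hVT p hp
    obtain ⟨h5, h6⟩ := hne p hp
    refine rs1_eq D p.1 p.2 K _ g z h5 h6 hg hz ?_ ?_
    · rw [h3, h4, hcD, hK']
    · rw [hσ, h3, ← h4]
      push_cast
      rfl
  have hm0 : (addv v.2.1 v.2.2, v.1) ∈ prs v := by simp [prs]
  have hm1 : (addv v.1 v.2.2, v.2.1) ∈ prs v := by simp [prs]
  have hm2 : (addv v.1 v.2.1, v.2.2) ∈ prs v := by simp [prs]
  obtain ⟨⟨a, p⟩, ⟨b, q⟩, ⟨e, r⟩⟩ := v
  have hp : (p : ℤ) ≠ 0 := (hne _ hm0).2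
  have hq : (q : ℤ) ≠ 0 := (hne _ hm1).2
  have hr : (r : ℤ) ≠ 0 := (hne _ hm2).2
  have hpq : (p : ℚ) ≠ 0 := by exact_mod_cast hp
  have hqq : (q : ℚ) ≠ 0 := by exact_mod_cast hq
  have hrq : (r : ℚ) ≠ 0 := by exact_mod_cast hr
  have ht1 : (tot ((a, p), (b, q), (e, r))).1 = (a * q + b * p) * r + e * (p * q) := rfl
  have ht2 : (tot ((a, p), (b, q), (e, r))).2 = p * q * r := rfl
  have hDq : (D : ℚ) = ((a * q + b * p) * r + e * (p * q)) * c := by
    rw [ht1] at hc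
    exact_mod_cast hc
  have hKqq : (K : ℚ) = c * (p * q * r) := by
    rw [ht2] at hK'
    exact_mod_cast hK'
  refine ⟨hK0, hσ, ?_, ?_, ?_⟩
  · rw [hσ, ht1, ht2]
    unfold slp
    push_cast
    field_simp
  · intro β hβ
    simp only [List.mem_cons, List.not_mem_nil, or_false] at hβ
    rcases hβ with rfl | rfl | rfl
    · refine ⟨⟨c * a * (q * r), ?_⟩, ⟨c * a * (b * r + e * q), ?_⟩⟩
      · rw [hKqq]
        unfold slp
        push_cast
        field_simp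
      · rw [hKqq, hDq]
        unfold slp
        push_cast
        field_simp
        ring
    · refine ⟨⟨c * b * (p * r), ?_⟩, ⟨c * b * (a * r + e * p), ?_⟩⟩
      · rw [hKqq]
        unfold slp
        push_cast
        field_simp
      · rw [hKqq, hDq]
        unfold slp
        push_cast
        field_simp
        ring
    · refine ⟨⟨c * e * (p * q), ?_⟩, ⟨c * e * (a * q + b * p), ?_⟩⟩
      · rw [hKqq]
        unfold slp
        push_cast
        field_simp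
      · rw [hKqq, hDq]
        unfold slp
        push_cast
        field_simp
        ring
  · intro g z hg hz
    set w : Vx := ((a, p), (b, q), (e, r)) with hw
    have h0 := rs1_eq D (tot w) (0, 1) K ((D : ℚ) / K) g z hv2 one_ne_zero hg hz
      (by rw [hV0, hcD, hK', mul_one]) (by rw [hσ, hV0]; push_cast; rw [mul_one])
    have hs0 : slp (0, 1) = 0 := by
      unfold slp
      simp
    rw [hs0, sub_zero] at h0
    have e0 := hpair _ hm0 g z hg hz
    have e1 := hpair _ hm1 g z hg hz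
    have e2 := hpair _ hm2 g z hg hz
    unfold rs
    rw [if_neg hv2]
    have hsum : ((prs w).map fun p => rs1 D p.1 p.2 g z).sum =
        rs1 D (addv w.2.1 w.2.2) w.1 g z + (rs1 D (addv w.1 w.2.2) w.2.1 g z +
          rs1 D (addv w.1 w.2.1) w.2.2 g z) := by
      simp [prs]
    rw [hsum]
    push_cast
    simp only at e0 e1 e2
    rw [h0, e0, e1, e2]
    unfold al
    ring

end Pool.Agent.TV
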