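import Pool.Agent.TV.StJ

/-!
Theorem V (MP_31fd3b_gt), module CRN: signs of the deviations.
-/

open scoped BigOperators

namespace Pool.Agent.TV

open Pool.Agent.LibH11.Sliced Pool.Agent.MTR Pool.Agent.MTA Pool.Agent.UA Pool.Agent.UB
open Pool.Agent.TB hiding vec

namespace LCrn

theorem ct'_rv (v : ℤ × ℤ) : ct' (rv v) = ct' v := by
  unfold ct' rv
  rw [Int.neg_gcd, Int.gcd_comm]

theorem ct'_pos (v : ℤ × ℤ) (h : v ≠ 0) : 0 < ct' v := by
  unfold ct'
  have h1 : 0 < Int.gcd v.1 v.2 := by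
    rw [Int.gcd_pos_iff]
    by_contra h2
    push Not at h2
    exact h (Prod.ext h2.1 h2.2)
  exact_mod_cast h1

theorem ct'_cop (v : ℤ × ℤ) (h : IsCoprime v.1 v.2) : ct' v = 1 := by
  unfold ct'
  rw [Int.isCoprime_iff_gcd_eq_one.1 h]
  norm_num

theorem decomp (P : ℤ × ℤ) (hP : P ≠ 0) : ∃ (c : ℕ) (p1 p2 : ℤ), 0 < c ∧ ct' P = c ∧
    P = ((c : ℤ) * p1, (c : ℤ) * p2) ∧ Int.gcd p1 p2 = 1 := by
  have h1 : 0 < Int.gcd P.1 P.2 := by
    rw [Int.gcd_pos_iff]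
    by_contra h2
    push Not at h2
    exact hP (Prod.ext h2.1 h2.2)
  refine ⟨Int.gcd P.1 P.2, P.1 / Int.gcd P.1 P.2, P.2 / Int.gcd P.1 P.2, h1, rfl, ?_, ?_⟩
  · apply Prod.ext
    · exact (Int.mul_ediv_cancel' (Int.gcd_dvd_left _ _)).symm
    · exact (Int.mul_ediv_cancel' (Int.gcd_dvd_right _ _)).symm
  · exact Int.gcd_ediv_gcd_ediv_gcd h1

/-- the bracket -/
def Bq (P Q : ℤ × ℤ) : ℚ :=
  ((P.2 : ℚ) / ct' P) ^ 2 + ((Q.2 : ℚ) / ct' Q) ^ 2 -
    ((P.2 : ℚ) / ct' P) ^ 2 * ((Q.2 : ℚ) / ct' Q) ^ 2 -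
    (ct' (addv P Q) / (ct' P * ct' Q)) ^ 2

theorem Bq_nonpos (P Q : ℤ × ℤ) (h : addv P Q ≠ 0) : Bq P Q ≤ 0 := by
  have hP : P ≠ 0 := by
    rintro rfl
    apply h
    simp [addv]
  have hQ : Q ≠ 0 := by
    rintro rfl
    apply h
    simp [addv]
  obtain ⟨c, p1, p2, hc, hcP, eP, gP⟩ := decomp P hP
  obtain ⟨d, q1, q2, hd, hdQ, eQ, gQ⟩ := decomp Q hQ
  have hadd : addv P Q = (((c * d : ℕ) : ℤ) * (p1 * q2 + q1 * p2), ((c * d : ℕ) : ℤ) * (p2 * q2)) := by
    rw [eP, eQ]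
    unfold addv
    simp only
    push_cast
    apply Prod.ext
    · simp only
      ring
    · simp only
      ring
  set g : ℕ := Int.gcd (p1 * q2 + q1 * p2) (p2 * q2) with hg
  have hct : ct' (addv P Q) = c * d * g := by
    rw [hadd]
    unfold ct'
    simp only
    rw [Int.gcd_mul_left, Int.natAbs_natCast]
    push_cast
    ring
  have hg1 : 1 ≤ g := by
    rw [Nat.one_le_iff_ne_zero]
    intro h0
    rw [hg, Int.gcd_eq_zero_iff] at h0
    apply h
    rw [hadd, h0.1, h0.2]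
    simp
  have hcR : (c : ℚ) ≠ 0 := by exact_mod_cast hc.ne'
  have hdR : (d : ℚ) ≠ 0 := by exact_mod_cast hd.ne'
  have e1 : ((P.2 : ℤ) : ℚ) / ct' P = p2 := by
    rw [hcP, eP]
    simp only
    push_cast
    field_simp
  have e2 : ((Q.2 : ℤ) : ℚ) / ct' Q = q2 := by
    rw [hdQ, eQ]
    simp only
    push_cast
    field_simp
  have e3 : ct' (addv P Q) / (ct' P * ct' Q) = g := by
    rw [hct, hcP, hdQ]
    field_simp
  unfold Bq
  rw [e1, e2, e3]
  have key : p2 ^ 2 + q2 ^ 2 - p2 ^ 2 * q2 ^ 2 - (g : ℤ) ^ 2 ≤ 0 := by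
    by_cases hp : p2 = 0
    · have h1 : p1.natAbs = 1 := by
        rw [hp, Int.gcd_zero_right] at gP
        exact gP
      have h2 : (g : ℤ) ^ 2 = q2 ^ 2 := by
        rw [hg, hp]
        simp only [mul_zero, zero_mul, add_zero, Int.gcd_zero_right, Int.natAbs_mul, h1, one_mul]
        rw [Int.natAbs_sq]
      rw [hp, h2]
      ring_nf
      exact le_rfl
    · by_cases hq : q2 = 0
      · have h1 : q1.natAbs = 1 := by
          rw [hq, Int.gcd_zero_right] at gQ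
          exact gQ
        have h2 : (g : ℤ) ^ 2 = p2 ^ 2 := by
          rw [hg, hq]
          simp only [mul_zero, zero_add, Int.gcd_zero_right, Int.natAbs_mul, h1, one_mul]
          rw [Int.natAbs_sq]
        rw [hq, h2]
        ring_nf
        exact le_rfl
      · have h1 : 1 ≤ p2 ^ 2 := by
          have := sq_pos_of_ne_zero hp
          omega
        have h2 : 1 ≤ q2 ^ 2 := by
          have := sq_pos_of_ne_zero hq
          omega
        have h3 : (1 : ℤ) ≤ (g : ℤ) ^ 2 := by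
          have : (1 : ℤ) ≤ g := by exact_mod_cast hg1
          nlinarith
        nlinarith [mul_nonneg (sub_nonneg.2 h1) (sub_nonneg.2 h2)]
  exact_mod_cast key

theorem Bq_neg (P Q : ℤ × ℤ) (hP : IsCoprime P.1 P.2) (hP2 : 2 ≤ |P.2|) (hQ : IsCoprime Q.1 Q.2)
    (hQ2 : 2 ≤ |Q.2|) : Bq P Q < 0 := by
  unfold Bq
  rw [ct'_cop P hP, ct'_cop Q hQ, div_one, div_one]
  have h1 : (4 : ℤ) ≤ P.2 ^ 2 := by
    rw [← sq_abs]
    nlinarith
  have h2 : (4 : ℤ) ≤ Q.2 ^ 2 := by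
    rw [← sq_abs]
    nlinarith
  have h3 : (4 : ℚ) ≤ (P.2 : ℚ) ^ 2 := by exact_mod_cast h1
  have h4 : (4 : ℚ) ≤ (Q.2 : ℚ) ^ 2 := by exact_mod_cast h2
  have h5 := sq_nonneg (ct' (addv P Q) / (1 * 1))
  nlinarith [mul_nonneg (sub_nonneg.2 h3) (sub_nonneg.2 h4)]

theorem Eg_cons (a b : Tr) (ha : vec a ≠ 0) (hb : vec b ≠ 0) :
    Eg (.cons a b) = ((vec b).2 : ℚ) ^ 2 * Eg a + ((vec a).1 : ℚ) ^ 2 * Eg b +
      2 * (ct' (vec a) ^ 2 * ct' (vec b) ^ 2) * Bq (rv (vec a)) (vec b) := by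
  have h1 := (ct'_pos _ ha).ne'
  have h2 := (ct'_pos _ hb).ne'
  have h3 : vec (.cons a b) = addv (rv (vec a)) (vec b) := rfl
  have h4 : (rv (vec a)).2 = (vec a).1 := rfl
  have h5 : ((eT (.cons a b) : ℤ) : ℚ) = ((vec b).2 : ℚ) ^ 2 * (eT a : ℤ) +
      ((vec a).1 : ℚ) ^ 2 * (eT b : ℤ) - 2 * (((vec a).1 : ℚ) ^ 2 - 1) *
        (((vec b).2 : ℚ) ^ 2 - 1) := by
    rw [eT]
    push_cast
    ring
  unfold Eg Bq
  rw [h5, h3, ct'_rv, h4]
  field_simp
  ring

theorem E1_eq (L : ℤ × ℤ) (b : Tr) (hL : L ≠ 0) (hb : vec b ≠ 0) :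
    E1 L b = ((L.2 : ℚ) / ct' L) ^ 2 * Eg b + 2 * ct' (vec b) ^ 2 * Bq L (vec b) := by
  have h1 := (ct'_pos _ hL).ne'
  have h2 := (ct'_pos _ hb).ne'
  unfold E1 Eg Bq
  field_simp
  ring

theorem E2_eq (L : ℤ × ℤ) (a : Tr) : E2 L a = 2 * Bq L (rv (vec a)) := by
  unfold E2 Bq
  rw [ct'_rv]
  have h4 : (rv (vec a)).2 = (vec a).1 := rfl
  rw [h4]
  ring

theorem kids_zero (b : Tr) (h : b.kids = 0) : ∃ e, b = .pw e := by
  cases b with
  | pw e => exact ⟨e, rfl⟩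
  | cons a b => exact absurd h (Nat.succ_ne_zero _)

theorem Eg_pw (e : ℤ) : Eg (.pw e) = 0 := by
  have h : ct' (vec (.pw e)) = 1 := ct'_cop _ (by
    change IsCoprime (-e) 1
    exact isCoprime_one_right)
  unfold Eg
  rw [h]
  simp [eT]

theorem rat_cop : ∀ T : Tr, T.Rat → IsCoprime (vec T).1 (vec T).2 := by
  intro T
  induction T with
  | pw e => exact fun _ => isCoprime_one_right
  | cons a b iha _ =>
    intro h
    obtain ⟨e, rfl⟩ := kids_zero b h.2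
    have h1 := iha h.1
    obtain ⟨x, y, hxy⟩ := h1
    have e1 : (vec (.cons a (.pw e))).1 = -(vec a).2 - e * (vec a).1 := by
      simp [vec, addv, rv]
      ring
    have e2 : (vec (.cons a (.pw e))).2 = (vec a).1 := by
      simp [vec, addv, rv]
    rw [e1, e2]
    refine ⟨-y, x - e * y, ?_⟩
    linear_combination hxy

theorem rat_snd (h1 : SGN_Stmt) (b : Tr) (hb : b.Rat) (hR : b.RC) :
    (vec b).2 ≠ 0 ∧ (b.kids ≠ 0 → 2 ≤ |(vec b).2|) := by
  cases b with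
  | pw e => exact ⟨one_ne_zero, fun h => absurd rfl h⟩
  | cons c d =>
    obtain ⟨e, rfl⟩ := kids_zero d hb.2
    have h2 := h1.2.2 c hR.1 hb.1 hR.2.1
    have e2 : (vec (.cons c (.pw e))).2 = (vec c).1 := by
      simp [vec, addv, rv]
    rw [e2]
    have h3 : 2 ≤ |(vec c).1| := by omega
    refine ⟨?_, fun _ => h3⟩
    intro h0
    rw [h0] at h3
    simp at h3

theorem parts (a b : Tr) (h : vec (.cons a b) ≠ 0) : vec a ≠ 0 ∧ vec b ≠ 0 := by
  have h3 : vec (.cons a b) = addv (rv (vec a)) (vec b) := rfl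
  constructor
  · intro h0
    apply h
    rw [h3, h0]
    simp [addv, rv]
  · intro h0
    apply h
    rw [h3, h0]
    simp [addv, rv]

theorem partA (h1 : SGN_Stmt) : ∀ T : Tr, vec T ≠ 0 →
    Eg T ≤ 0 ∧ (T.Rat → Eg T = 0) ∧ (T.RC → ¬ T.Rat → Eg T < 0) := by
  intro T
  induction T with
  | pw e => exact fun _ => ⟨(Eg_pw e).le, fun _ => Eg_pw e, fun _ h => absurd trivial h⟩
  | cons a b iha ihb =>
    intro h
    obtain ⟨ha, hb⟩ := parts a b h
    obtain ⟨a1, a2, a3⟩ := iha ha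
    obtain ⟨b1, b2, b3⟩ := ihb hb
    have hB : Bq (rv (vec a)) (vec b) ≤ 0 := Bq_nonpos _ _ h
    have hα := ct'_pos _ ha
    have hβ := ct'_pos _ hb
    have t1 : ((vec b).2 : ℚ) ^ 2 * Eg a ≤ 0 := mul_nonpos_of_nonneg_of_nonpos (sq_nonneg _) a1
    have t2 : ((vec a).1 : ℚ) ^ 2 * Eg b ≤ 0 := mul_nonpos_of_nonneg_of_nonpos (sq_nonneg _) b1
    have hαβ : 0 < 2 * (ct' (vec a) ^ 2 * ct' (vec b) ^ 2) := by positivity
    have t3 : 2 * (ct' (vec a) ^ 2 * ct' (vec b) ^ 2) * Bq (rv (vec a)) (vec b) ≤ 0 :=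
      mul_nonpos_of_nonneg_of_nonpos hαβ.le hB
    rw [Eg_cons a b ha hb]
    refine ⟨by linarith, ?_, ?_⟩
    · intro hR
      have hcop := rat_cop _ hR
      obtain ⟨e, rfl⟩ := kids_zero b hR.2
      have ca := ct'_cop _ (rat_cop _ hR.1)
      have cb : ct' (vec (.pw e)) = 1 := ct'_cop _ (rat_cop _ trivial)
      have cc := ct'_cop _ hcop
      have h3 : vec (.cons a (.pw e)) = addv (rv (vec a)) (vec (.pw e)) := rfl
      rw [h3] at cc
      have e2 : (vec (.pw e)).2 = 1 := rfl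
      rw [a2 hR.1, Eg_pw]
      unfold Bq
      rw [ct'_rv, ca, cb, cc, e2]
      push_cast
      ring
    · intro hRC hnR
      by_cases hv : (vec b).2 = 0
      · have hbR : ¬ b.Rat := fun hbR => (rat_snd h1 b hbR hRC.2.2).1 hv
        have hu : (vec a).1 ≠ 0 := by
          intro hu
          apply h
          have h3 : vec (.cons a b) = addv (rv (vec a)) (vec b) := rfl
          rw [h3]
          unfold addv rv
          simp [hv, hu]
        have hb0 := b3 hRC.2.2 hbR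
        have t4 : ((vec a).1 : ℚ) ^ 2 * Eg b < 0 := by
          refine mul_neg_of_pos_of_neg ?_ hb0
          have : ((vec a).1 : ℚ) ≠ 0 := by exact_mod_cast hu
          positivity
        linarith
      · have hvR : ((vec b).2 : ℚ) ≠ 0 := by exact_mod_cast hv
        by_cases haR : a.Rat
        · have hkb : b.kids ≠ 0 := fun hk => hnR ⟨haR, hk⟩
          have h4 := h1.2.2 a hRC.1 haR hRC.2.1
          have h5 : 2 ≤ |(vec a).1| := by omega
          by_cases hbR : b.Rat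
          · have h6 := (rat_snd h1 b hbR hRC.2.2).2 hkb
            have hca : IsCoprime (rv (vec a)).1 (rv (vec a)).2 := by
              have := rat_cop a haR
              change IsCoprime (-(vec a).2) (vec a).1
              exact this.symm.neg_left
            have h7 : Bq (rv (vec a)) (vec b) < 0 :=
              Bq_neg _ _ hca h5 (rat_cop b hbR) h6
            have t4 := mul_neg_of_pos_of_neg hαβ h7
            linarith
          · have hb0 := b3 hRC.2.2 hbR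
            have t4 : ((vec a).1 : ℚ) ^ 2 * Eg b < 0 := by
              refine mul_neg_of_pos_of_neg ?_ hb0
              have h8 : (vec a).1 ≠ 0 := by
                intro h0
                rw [h0] at h5
                simp at h5
              have : ((vec a).1 : ℚ) ≠ 0 := by exact_mod_cast h8
              positivity
            linarith
        · have ha0 := a3 hRC.1 haR
          have t4 : ((vec b).2 : ℚ) ^ 2 * Eg a < 0 := mul_neg_of_pos_of_neg (by positivity) ha0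
          linarith

theorem dt1 (L : ℤ × ℤ) (a b : Tr) :
    dt (rv (addv L (vec b))) (vec a) = dt L (vec (.cons a b)) := by
  unfold dt
  have h3 : vec (.cons a b) = addv (rv (vec a)) (vec b) := rfl
  rw [h3]
  unfold addv rv
  simp only
  ring

theorem dt2 (L : ℤ × ℤ) (a b : Tr) :
    dt (addv L (rv (vec a))) (vec b) = dt L (vec (.cons a b)) := by
  unfold dt
  have h3 : vec (.cons a b) = addv (rv (vec a)) (vec b) := rfl
  rw [h3]
  unfold addv rv
  simp only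
  ring

theorem dt_left (L V : ℤ × ℤ) (h : dt L V ≠ 0) : L ≠ 0 ∧ V ≠ 0 := by
  constructor
  · rintro rfl
    apply h
    simp [dt, addv]
  · rintro rfl
    apply h
    simp [dt, addv]

theorem nz (L : ℤ × ℤ) (a b : Tr) (h : dt L (vec (.cons a b)) ≠ 0) :
    L ≠ 0 ∧ vec a ≠ 0 ∧ vec b ≠ 0 ∧ addv L (vec b) ≠ 0 ∧ addv L (rv (vec a)) ≠ 0 := by
  obtain ⟨h1, h2⟩ := dt_left _ _ h
  obtain ⟨h3, h4⟩ := parts a b h2
  rw [← dt1] at h
  have h5 := (dt_left _ _ h).1
  rw [dt1, ← dt2] at h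
  have h6 := (dt_left _ _ h).1
  refine ⟨h1, h3, h4, ?_, h6⟩
  intro h0
  apply h5
  rw [h0]
  rfl

theorem partB (h1 : SGN_Stmt) (L : ℤ × ℤ) (a b : Tr) (h : dt L (vec (.cons a b)) ≠ 0) :
    E1 L b ≤ 0 ∧ E2 L a ≤ 0 ∧ (IsCoprime L.1 L.2 → 2 ≤ |L.2| →
      (b.RC → ¬ b.Rat → E1 L b < 0) ∧
      (IsCoprime (vec b).1 (vec b).2 → 2 ≤ |(vec b).2| → E1 L b < 0) ∧
      (IsCoprime (vec a).1 (vec a).2 → 2 ≤ |(vec a).1| → E2 L a < 0)) := by
  obtain ⟨hL, ha, hb, hLb, hLa⟩ := nz L a b h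
  obtain ⟨b1, b2, b3⟩ := partA h1 b hb
  have hβ := ct'_pos _ hb
  have hB1 := Bq_nonpos _ _ hLb
  have hB2 := Bq_nonpos _ _ hLa
  have t1 : ((L.2 : ℚ) / ct' L) ^ 2 * Eg b ≤ 0 := mul_nonpos_of_nonneg_of_nonpos (sq_nonneg _) b1
  have t2 : 2 * ct' (vec b) ^ 2 * Bq L (vec b) ≤ 0 :=
    mul_nonpos_of_nonneg_of_nonpos (by positivity) hB1
  rw [E1_eq L b hL hb, E2_eq]
  refine ⟨by linarith, by linarith, ?_⟩
  intro hc hL2
  have hl : L.2 ≠ 0 := by
    intro h0
    rw [h0] at hL2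
    simp at hL2
  have hlR : ((L.2 : ℤ) : ℚ) ≠ 0 := by exact_mod_cast hl
  have hcL := ct'_pos _ hL
  refine ⟨?_, ?_, ?_⟩
  · intro hR hn
    have t3 : ((L.2 : ℚ) / ct' L) ^ 2 * Eg b < 0 := by
      refine mul_neg_of_pos_of_neg ?_ (b3 hR hn)
      have : (L.2 : ℚ) / ct' L ≠ 0 := div_ne_zero hlR hcL.ne'
      positivity
    linarith
  · intro hcb hb2
    have h7 : Bq L (vec b) < 0 := Bq_neg _ _ hc hL2 hcb hb2
    have t4 : 2 * ct' (vec b) ^ 2 * Bq L (vec b) < 0 := mul_neg_of_pos_of_neg (by positivity) h7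
    linarith
  · intro hca ha1
    have hca' : IsCoprime (rv (vec a)).1 (rv (vec a)).2 := by
      change IsCoprime (-(vec a).2) (vec a).1
      exact hca.symm.neg_left
    have h7 : Bq L (rv (vec a)) < 0 := Bq_neg _ _ hc hL2 hca' ha1
    linarith

theorem partC (h1 : SGN_Stmt) : ∀ (T : Tr) (L : ℤ × ℤ), dt L (vec T) ≠ 0 →
    0 ≤ cr L T ∧ (T.Rat → cr L T = 0) := by
  intro T
  induction T with
  | pw e => exact fun L _ => ⟨le_rfl, fun _ => rfl⟩
  | cons a b iha ihb =>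
    intro L h
    obtain ⟨hL, ha, hb, hLb, hLa⟩ := nz L a b h
    obtain ⟨e1, e2, -⟩ := partB h1 L a b h
    obtain ⟨a1, a2, -⟩ := partA h1 a ha
    obtain ⟨b1, b2, -⟩ := partA h1 b hb
    obtain ⟨ca1, ca2⟩ := iha (rv (addv L (vec b))) (by rw [dt1]; exact h)
    obtain ⟨cb1, cb2⟩ := ihb (addv L (rv (vec a))) (by rw [dt2]; exact h)
    have hcr : cr L (.cons a b) =
      2 * E1 L b * Eg a / ((dt L (vec (.cons a b)) : ℤ) / ct' L) ^ 2 +
        2 * E2 L a * Eg b / ((dt L (vec (.cons a b)) : ℤ) / (ct' L * ct' (vec a))) ^ 2 +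
        cr (rv (addv L (vec b))) a + cr (addv L (rv (vec a))) b := rfl
    rw [hcr]
    constructor
    · have t1 : 0 ≤ 2 * E1 L b * Eg a / (((dt L (vec (.cons a b)) : ℤ) : ℚ) / ct' L) ^ 2 :=
        div_nonneg (by nlinarith [mul_nonneg_of_nonpos_of_nonpos e1 a1]) (sq_nonneg _)
      have t2 : 0 ≤ 2 * E2 L a * Eg b /
          (((dt L (vec (.cons a b)) : ℤ) : ℚ) / (ct' L * ct' (vec a))) ^ 2 :=
        div_nonneg (by nlinarith [mul_nonneg_of_nonpos_of_nonpos e2 b1]) (sq_nonneg _)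
      linarith
    · intro hR
      obtain ⟨e, rfl⟩ := kids_zero b hR.2
      rw [a2 hR.1, ca2 hR.1, cb2 trivial, Eg_pw]
      simp

end LCrn

open LCrn

theorem t_CRN (h1 : SGN_Stmt) : CRN_Stmt := by
  refine ⟨partA h1, fun L a b h => partB h1 L a b h, partC h1, fun b => ?_⟩
  have hc : ct' ((0, 1) : ℤ × ℤ) = 1 := by
    unfold ct'
    norm_num
  have ha : addv (0, 1) (vec b) = vec b := by
    unfold addv
    apply Prod.ext
    · simp
    · simp
  unfold E1 Eg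
  rw [hc, ha]
  norm_num

end Pool.Agent.TV
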