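import Pool.Agent.TV.St

/-!
# TV_DOM (helper49): the domain of a permutation given by replacements of initial words
-/

set_option autoImplicit false

namespace Pool.Agent.TV

open Stream'

namespace DOM

variable {A : Type}

theorem rep_append {g : Equiv.Perm (Stream' A)} {u v : List A} (h : Rep g u v) (w : List A) :
    Rep g (u ++ w) (v ++ w) := by
  intro y
  rw [append_append_stream, append_append_stream, h]

theorem take_app (l : List A) (s : Stream' A) {n : ℕ} (h : n ≤ l.length) :
    (l ++ₛ s).take n = l.take n := take_append_of_le_length _ _ _ h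

/-- a word which is long enough has an image -/
theorem dom1 [Nontrivial A] {g : Equiv.Perm (Stream' A)} (hg : IsV g) :
    ∃ L : ℕ, ∀ u : List A, L ≤ u.length → ∃ v, Rep g u v := by
  obtain ⟨T, hT, h⟩ := hg
  obtain ⟨L, hL⟩ := (hT.image (fun p => p.1.length)).bddAbove
  refine ⟨L, fun u hu => ?_⟩
  obtain ⟨a⟩ := (inferInstance : Nonempty A)
  obtain ⟨p, hp, ⟨y, hy⟩, hR⟩ := h (u ++ₛ Stream'.const a)
  have h1 : p.1.length ≤ u.length := (hL (Set.mem_image_of_mem _ hp)).trans hu
  have h2 : (u ++ₛ Stream'.const a).take p.1.length = (p.1 ++ₛ y).take p.1.length := by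
    rw [hy]
  rw [take_app _ _ h1, take_app _ _ le_rfl, List.take_length] at h2
  refine ⟨p.2 ++ u.drop p.1.length, ?_⟩
  have h3 : u = p.1 ++ u.drop p.1.length := by
    conv_lhs => rw [← List.take_append_drop p.1.length u, h2]
  intro z
  have h4 := rep_append hR (u.drop p.1.length) z
  rw [← h3] at h4
  exact h4

end DOM

theorem t_DOM : s_DOM := by
  intro A _ g hg
  obtain ⟨L, hL⟩ := DOM.dom1 hg
  refine ⟨⟨L, hL⟩, fun x => ⟨L, fun m hm => hL _ (by rw [length_take]; exact hm)⟩, fun x n => ?_⟩
  obtain ⟨v, hv⟩ := hL (x.take L) (by rw [length_take])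
  refine ⟨L + n, fun y hy => ?_⟩
  have h1 : ∀ s : Stream' A, s.take (L + n) = x.take (L + n) →
      (g s).take n = (v ++ (x.take (L + n)).drop L).take n := by
    intro s hs
    have h2 : x.take (L + n) = x.take L ++ (x.take (L + n)).drop L := by
      conv_lhs => rw [← List.take_append_drop L (x.take (L + n))]
      rw [take_take, Nat.min_eq_right (Nat.le_add_right L n)]
    have h3 : s = (x.take L ++ (x.take (L + n)).drop L) ++ₛ s.drop (L + n) := by
      rw [← h2, ← hs, append_take_drop]
    have h4 : g s = (v ++ (x.take (L + n)).drop L) ++ₛ s.drop (L + n) := by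
      conv_lhs => rw [h3]
      exact DOM.rep_append hv _ _
    rw [h4, DOM.take_app]
    rw [List.length_append, List.length_drop, length_take]
    omega
  rw [h1 y hy, h1 x rfl]

end Pool.Agent.TV
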