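import Pool.Agent.UA.StJ
import Pool.Agent.UB.Stmts

/-!
Theorem V (MP_31fd3b_gt): rational finite type invariants separate every connected sum of 2-bridge
knots from every arborescent knot. Definitions. See PAPER.md in this folder.
-/

open scoped BigOperators

namespace Pool.Agent.TV

open Pool.Agent.LibH11.Sliced Pool.Agent.MTR Pool.Agent.MTA Pool.Agent.UA Pool.Agent.UB
open Pool.Agent.TB hiding vec

/-! ### 1. Solutions and sums -/

/-- the vectors `R` with `c ⟨cx P, R⟩ ⟨R, V⟩ = M` -/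
def Sl (c : ℤ) (P V : ℤ × ℤ) (M : ℤ) : Set (ℤ × ℤ) := {R | c * Nl (cx P) V R = M}

/-- their number -/
noncomputable def nS (c : ℤ) (P V : ℤ × ℤ) (M : ℤ) : ℕ := (Sl c P V M).ncard

/-- the sum of `V.2 / (R.2 ⟨R, V⟩)` -/
noncomputable def At (c : ℤ) (P V : ℤ × ℤ) (M : ℤ) : ℚ :=
  ∑ᶠ R ∈ Sl c P V M, (V.2 : ℚ) / ((R.2 : ℚ) * (det2 R V : ℤ))

/-- the limit of the `cot cot` sums -/
noncomputable def Zt (c : ℤ) (P V : ℤ × ℤ) (M : ℤ) : ℚ :=
  ∑ᶠ R ∈ Sl c P V M, 1 / (((det2 R (1, 0) : ℤ) : ℚ) * (det2 R (0, 1) : ℤ))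

/-- the limit function of a tree in the context `L` -/
noncomputable def PhU (c M : ℤ) : ℤ × ℤ → Tr → ℚ
  | _, .pw _ => 0
  | L, .cons a b =>
      Zt c (addv L (vec b)) (rv (vec a)) M - Zt c (addv L (vec (.cons a b))) (0, 1) M +
        Zt c (addv (rv (addv L (vec b))) (vec a)) (0, 1) M +
        PhU c M (rv (addv L (vec b))) a + PhU c M (addv L (rv (vec a))) b

/-- the limit function of the closure of a tree -/
noncomputable def Ph (c M : ℤ) (T : Tr) : ℚ := PhU c M (0, 1) T + 2 * Zt c (vec T) (0, 1) M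

/-- `M` has a prime factor of multiplicity one which is larger than `B`. -/
def Gp (B : ℕ) (M : ℤ) : Prop := ∃ q : ℕ, q.Prime ∧ B < q ∧ (q : ℤ) ∣ M ∧ ¬ (q : ℤ) ^ 2 ∣ M

/-- the counting term -/
noncomputable def nu (c M : ℤ) (P V : ℤ × ℤ) : ℚ := ((c * dt P V : ℤ) : ℚ) / M * nS c P V M

/-! ### 2. Vertices -/

/-- the three vectors of a vertex -/
abbrev Vx : Type := (ℤ × ℤ) × (ℤ × ℤ) × (ℤ × ℤ)

/-- the total vector: determinant and product of the weights -/
def tot (v : Vx) : ℤ × ℤ := addv (addv v.1 v.2.1) v.2.2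

/-- the three pairs (complement, vector) of a vertex -/
def prs (v : Vx) : List ((ℤ × ℤ) × (ℤ × ℤ)) :=
  [(addv v.2.1 v.2.2, v.1), (addv v.1 v.2.2, v.2.1), (addv v.1 v.2.1, v.2.2)]

/-- the vertices of a tree in the context `L` -/
def vts : ℤ × ℤ → Tr → List Vx
  | _, .pw _ => []
  | L, .cons a b => (L, rv (vec a), vec b) ::
      (vts (rv (addv L (vec b))) a ++ vts (addv L (rv (vec a))) b)

/-- the sum of the atoms of a vertex -/
noncomputable def vx (c M : ℤ) (v : Vx) : ℚ :=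
  At c (tot v) (0, 1) M - ((prs v).map fun p => At c p.1 p.2 M).sum

/-- the limit function in terms of the vertices -/
noncomputable def XX (c M : ℤ) : ℤ × ℤ → Tr → ℚ
  | L, .pw e => nu c M L (-e, 1)
  | L, .cons a b => vx c M (L, rv (vec a), vec b) - nu c M (addv L (vec b)) (rv (vec a)) -
      nu c M (addv L (rv (vec a))) (vec b) + XX c M (rv (addv L (vec b))) a +
      XX c M (addv L (rv (vec a))) b

/-- one of the slopes of the vertex is an integer -/
def Vtriv (v : Vx) : Prop := (tot v).2 ≠ 0 ∧ ∃ p ∈ prs v, p.2.2 ∣ p.2.1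

/-- integral vertices -/
def Vbad (v : Vx) : Prop := (tot v).2 ≠ 0 ∧ (∀ p ∈ prs v, ¬ p.2.2 ∣ p.2.1) ∧ (tot v).2 ∣ (tot v).1

/-- the vertices which occur -/
def Vok (v : Vx) : Prop := (tot v).2 = 0 ∨ Vtriv v ∨ Vbad v

/-- formal combinations of pairs of vectors -/
abbrev Cb : Type := List (ℤ × (ℤ × ℤ) × (ℤ × ℤ))

/-- the combination of a vertex -/
def nv (v : Vx) : Cb :=
  if (tot v).2 = 0 then
    (-2, tot v, (0, 1)) :: (prs v).map fun p => (if p.2.2 = 0 then 0 else 2, p.1, p.2)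
  else (-1, tot v, (0, 1)) :: (prs v).map fun p => (1, p.1, p.2)

/-- the combination of a tree in the context `L` -/
def NL : ℤ × ℤ → Tr → Cb
  | L, .pw e => [(2, L, (-e, 1))]
  | L, .cons a b => nv (L, rv (vec a), vec b) ++
      ((-2, addv L (vec b), rv (vec a)) :: (-2, addv L (rv (vec a)), vec b) ::
        (NL (rv (addv L (vec b))) a ++ NL (addv L (rv (vec a))) b))

/-- the value of a combination: numbers of solutions -/
noncomputable def evN (D : ℤ) (l : Cb) (g : ℤ) : ℤ :=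
  (l.map fun e => e.1 * (nS (D / dt e.2.1 e.2.2) e.2.1 e.2.2 g : ℤ)).sum

/-! ### 3. Poles -/

/-- `-1/(q-x) + 1/(q-1/x) - 1/q` -/
def hq (x q : ℚ) : ℚ := -1 / (q - x) + 1 / (q - 1 / x) - 1 / q

/-- the pole of a solution -/
def pol (P V R : ℤ × ℤ) : ℚ :=
  ((R.1 : ℚ) - V.1 / V.2 * R.2) /
    ((R.1 : ℚ) - V.1 / V.2 * R.2 + (dt P V : ℤ) / ((P.2 : ℚ) * V.2) * R.2)

/-- the number of solutions with the pole `z`, minus the number with the pole `1/z` -/
noncomputable def rs1 (D : ℤ) (P V : ℤ × ℤ) (g : ℤ) (z : ℚ) : ℤ :=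
  ({R ∈ Sl (D / dt P V) P V g | pol P V R = z}.ncard : ℤ) -
    ({R ∈ Sl (D / dt P V) P V g | pol P V R = 1 / z}.ncard : ℤ)

/-- the residue of a vertex -/
noncomputable def rs (D : ℤ) (v : Vx) (g : ℤ) (z : ℚ) : ℤ :=
  if (tot v).2 = 0 then 0
  else rs1 D (tot v) (0, 1) g z - ((prs v).map fun p => rs1 D p.1 p.2 g z).sum

/-- all vertices of a list of trees -/
def VL (Ts : List Tr) : List Vx := Ts.flatMap fun t => vts (0, 1) t

/-- the combination of a list of trees -/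
def NLs (Ts : List Tr) : Cb := Ts.flatMap fun t => NL (0, 1) t

/-! ### 4. Second order Jones -/

/-- a rational tree in the direction of the vector -/
noncomputable def rt (v : ℤ × ℤ) : Tr := by
  classical
  exact if h : ∃ R : Tr, R.Rat ∧ ∃ k : ℤ, k ≠ 0 ∧ v = k • vec R then h.choose else .pw 0

/-- the second logarithmic derivative of the 2-bridge knot of two directions -/
noncomputable def om (P V : ℤ × ℤ) : ℂ := w2 (clv sx (mulv sx (bv sx (rt P)) (bv sx (rt V))))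

/-- the second logarithmic derivative of the Montesinos knot of three directions -/
noncomputable def w3 (v : Vx) : ℂ :=
  w2 (clv sx (mulv sx (bv sx (rt v.1)) (mulv sx (bv sx (rt v.2.1)) (bv sx (rt v.2.2)))))

/-- the second logarithmic derivative of a tree in the context `L` -/
noncomputable def Wc (L : ℤ × ℤ) (T : Tr) : ℂ := w2 (clv sx (mulv sx (bv sx (rt L)) (bv sx T)))

/-- the value of a combination: second logarithmic derivatives -/
noncomputable def evO (l : Cb) : ℂ := (l.map fun e => (e.1 : ℂ) * om e.2.1 e.2.2).sum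

/-- content -/
def ct' (v : ℤ × ℤ) : ℚ := (Int.gcd v.1 v.2 : ℕ)

/-- the deviation of a tree -/
def Eg (T : Tr) : ℚ := (eT T : ℤ) + 2 - 2 * ct' (vec T) ^ 2

/-- the deviation of the context of `a` in `cons a b` -/
def E1 (L : ℤ × ℤ) (b : Tr) : ℚ :=
  (L.2 / ct' L) ^ 2 * (eT b : ℤ) - 2 * ((L.2 / ct' L) ^ 2 - 1) * (((vec b).2 : ℚ) ^ 2 - 1) + 2 -
    2 * (ct' (addv L (vec b)) / ct' L) ^ 2

/-- the deviation of the (rational) context of `b` in `cons a b` -/
def E2 (L : ℤ × ℤ) (a : Tr) : ℚ :=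
  -2 * ((L.2 / ct' L) ^ 2 - 1) * (((vec a).1 / ct' (vec a)) ^ 2 - 1) + 2 -
    2 * (ct' (addv L (rv (vec a))) / (ct' L * ct' (vec a))) ^ 2

/-- the correction -/
def cr : ℤ × ℤ → Tr → ℚ
  | _, .pw _ => 0
  | L, .cons a b =>
      2 * E1 L b * Eg a / ((dt L (vec (.cons a b)) : ℤ) / ct' L) ^ 2 +
        2 * E2 L a * Eg b / ((dt L (vec (.cons a b)) : ℤ) / (ct' L * ct' (vec a))) ^ 2 +
        cr (rv (addv L (vec b))) a + cr (addv L (rv (vec a))) b

/-- the second coefficient of the additive logarithm of a vector of series -/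
noncomputable def la2v (v : JR × JR) : ℂ :=
  cf 2 (v.1 * v.2⁻¹) + 2 / 3 * cf 0 (v.1 * v.2⁻¹) -
    4 * cf 0 (v.1 * v.2⁻¹) * cf 1 (v.1 * v.2⁻¹) + 16 / 3 * cf 0 (v.1 * v.2⁻¹) ^ 3

/-- the same for a slope -/
noncomputable def la2 (β : ℚ) : ℂ := la2v (bv sx (rt (β.num, β.den)))

/-- the slope of a vector -/
def slp (V : ℤ × ℤ) : ℚ := V.1 / V.2

/-- the defect of an integral vertex -/
def Dl (v : Vx) : ℚ :=
  (((tot v).2 : ℚ) / (tot v).1) ^ 2 *
    (-8 * (1 - ((prs v).map fun p => 1 / ((slp p.2).den : ℚ) ^ 2).sum) ^ 2 +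
      16 * ((prs v).map fun p => 1 / ((slp p.2).den : ℚ) ^ 4).sum - 16)

/-- trees whose closure is a 2-bridge knot -/
def T2 : Tr → Prop
  | .pw _ => True
  | .cons a b => a.Rat ∧ b.Rat

end Pool.Agent.TV
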