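import Pool.Agent.TV.St

/-!
# Module EXP: the exponent of the germ of a permutation of infinite words
-/

set_option autoImplicit false

namespace Pool.Agent.TV

open Stream'

namespace EXP

variable {A : Type}

/-- an initial word is determined by its length -/
theorem eq_take (u : List A) (y : Stream' A) : u = (u ++ₛ y).take u.length := by
  rw [take_append_of_le_length _ _ _ le_rfl, List.take_length]

/-- two initial words of the same infinite word -/
theorem ext_of (u u' : List A) (y y' : Stream' A) (h : u ++ₛ y = u' ++ₛ y')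
    (hl : u.length ≤ u'.length) : ∃ w, u' = u ++ w := by
  have h1 : (u ++ₛ y).take u.length <+: (u ++ₛ y).take u'.length := take_prefix_take_left _ _ _ hl
  rw [← eq_take, h, ← eq_take] at h1
  obtain ⟨w, hw⟩ := h1
  exact ⟨w, hw.symm⟩

theorem len_le [Nontrivial A] (hREB : s_REB) (g : Equiv.Perm (Stream' A)) (u v u' v' : List A)
    (y y' : Stream' A) (h : Rep g u v) (h' : Rep g u' v') (hy : u ++ₛ y = u' ++ₛ y')
    (hl : u.length ≤ u'.length) :
    (v'.length : ℤ) - u'.length = (v.length : ℤ) - u.length := by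
  obtain ⟨w, rfl⟩ := ext_of u u' y y' hy hl
  obtain ⟨-, -, -, -, -, -, -, h8, -⟩ := hREB A g g
  have h2 := h8 u v w v' h h'
  rw [h2, List.length_append, List.length_append]
  push_cast
  ring

theorem len_eq [Nontrivial A] (hREB : s_REB) (g : Equiv.Perm (Stream' A)) (u v u' v' : List A)
    (y y' : Stream' A) (h : Rep g u v) (h' : Rep g u' v') (hy : u ++ₛ y = u' ++ₛ y') :
    (v'.length : ℤ) - u'.length = (v.length : ℤ) - u.length := by
  rcases le_total u.length u'.length with hl | hl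
  · exact len_le hREB g u v u' v' y y' h h' hy hl
  · exact (len_le hREB g u' v' u v y' y h' h hy.symm hl).symm

theorem ex_eq [Nontrivial A] (hREB : s_REB) (g : Equiv.Perm (Stream' A)) (u v : List A)
    (y : Stream' A) (h : Rep g u v) : ex g (u ++ₛ y) = (v.length : ℤ) - u.length := by
  have hex : ∃ p : List A × List A, (∃ y', u ++ₛ y = p.1 ++ₛ y') ∧ Rep g p.1 p.2 :=
    ⟨(u, v), ⟨y, rfl⟩, h⟩
  unfold ex
  rw [dif_pos hex]
  obtain ⟨⟨y', hy'⟩, h'⟩ := hex.choose_spec
  exact len_eq hREB g u v _ _ y y' h h' hy'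

theorem ex_take [Nontrivial A] (hREB : s_REB) (g : Equiv.Perm (Stream' A)) (x : Stream' A)
    (n : ℕ) (v : List A) (h : Rep g (x.take n) v) : ex g x = (v.length : ℤ) - n := by
  have h1 := ex_eq hREB g (x.take n) v (x.drop n) h
  rwa [append_take_drop, length_take] at h1

theorem ex_mul [Nontrivial A] (hREB : s_REB) (hDOM : s_DOM) (g h : Equiv.Perm (Stream' A))
    (x : Stream' A) (hg : IsV g) (hh : IsV h) : ex (g * h) x = ex g (h x) + ex h x := by
  obtain ⟨h1, h2, -⟩ := hREB A h g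
  obtain ⟨⟨L, hL⟩, -, -⟩ := hDOM A g hg
  obtain ⟨-, hd, -⟩ := hDOM A h hh
  obtain ⟨n, hn⟩ := hd x
  obtain ⟨v₀, hv₀⟩ := hn n le_rfl
  have hv : Rep h (x.take (n + L)) (v₀ ++ (x.drop n).take L) := by
    rw [take_add]
    exact h1 _ _ _ hv₀
  obtain ⟨w, hw⟩ := hL (v₀ ++ (x.drop n).take L) (by
    rw [List.length_append, length_take]
    omega)
  have h3 := h2 _ _ _ hv hw
  rw [ex_take hREB (g * h) x _ w h3, ex_take hREB h x _ _ hv]
  have h4 : h x = (v₀ ++ (x.drop n).take L) ++ₛ x.drop (n + L) := by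
    rw [← hv (x.drop (n + L)), append_take_drop]
  rw [h4, ex_eq hREB g _ w _ hw]
  ring

theorem ex_one [Nontrivial A] (hREB : s_REB) (x : Stream' A) :
    ex (1 : Equiv.Perm (Stream' A)) x = 0 := by
  obtain ⟨-, -, -, -, -, h6, -⟩ := hREB A 1 1
  have h1 := ex_take hREB 1 x 0 [] (h6 [])
  simpa using h1

theorem isV_pow (hGRP : s_GRP) (g : Equiv.Perm (Stream' A)) (hg : IsV g) (k : ℕ) :
    IsV (g ^ k) := by
  obtain ⟨h1, h2, -⟩ := hGRP A
  induction k with
  | zero => rw [pow_zero]; exact h1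
  | succ k ih => rw [pow_succ]; exact h2 _ _ ih hg

theorem ex_pow [Nontrivial A] (hREB : s_REB) (hDOM : s_DOM) (hGRP : s_GRP)
    (g : Equiv.Perm (Stream' A)) (x : Stream' A) (k : ℕ) (hg : IsV g) (hx : g x = x) :
    ex (g ^ k) x = k * ex g x := by
  induction k with
  | zero => rw [pow_zero, ex_one hREB, Nat.cast_zero, zero_mul]
  | succ k ih =>
    rw [pow_succ, ex_mul hREB hDOM _ _ x (isV_pow hGRP g hg k) hg, hx, ih]
    push_cast
    ring

theorem same [Nontrivial A] (hREB : s_REB) (hDOM : s_DOM) (g g' : Equiv.Perm (Stream' A))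
    (x : Stream' A) (hg : IsV g) (hg' : IsV g') (hx : g x = x) (hx' : g' x = x)
    (he : ex g x = ex g' x) :
    ∃ n m, Rep g (x.take n) (x.take m) ∧ Rep g' (x.take n) (x.take m) := by
  obtain ⟨-, hd, -⟩ := hDOM A g hg
  obtain ⟨-, hd', -⟩ := hDOM A g' hg'
  obtain ⟨n₁, hn₁⟩ := hd x
  obtain ⟨n₂, hn₂⟩ := hd' x
  obtain ⟨v, hv⟩ := hn₁ (max n₁ n₂) (le_max_left _ _)
  obtain ⟨v', hv'⟩ := hn₂ (max n₁ n₂) (le_max_right _ _)
  have key : ∀ (f : Equiv.Perm (Stream' A)) (u : List A), f x = x →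
      Rep f (x.take (max n₁ n₂)) u → u = x.take u.length := by
    intro f u hf hu
    have h1 : u ++ₛ x.drop (max n₁ n₂) = x := by
      rw [← hu (x.drop (max n₁ n₂)), append_take_drop, hf]
    have h2 := eq_take u (x.drop (max n₁ n₂))
    rwa [h1] at h2
  have h1 := ex_take hREB g x _ v hv
  have h2 := ex_take hREB g' x _ v' hv'
  have h3 : v.length = v'.length := by
    rw [h1, h2] at he
    omega
  refine ⟨max n₁ n₂, v.length, ?_, ?_⟩
  · rw [← key g v hx hv]
    exact hv
  · rw [h3, ← key g' v' hx' hv']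
    exact hv'

end EXP

theorem t_EXP (hREB : s_REB) (hDOM : s_DOM) (hGRP : s_GRP) : s_EXP := by
  intro A _
  refine ⟨EXP.ex_eq hREB, fun g h x hg hh => EXP.ex_mul hREB hDOM g h x hg hh, EXP.ex_one hREB,
    EXP.ex_pow hREB hDOM hGRP, fun g g' x hg hg' => EXP.same hREB hDOM g g' x hg hg',
    fun g x hg => ?_⟩
  have h1 := EXP.ex_mul hREB hDOM g⁻¹ g x ((hGRP A).2.2 g hg) hg
  rw [inv_mul_cancel, EXP.ex_one hREB] at h1
  omega

end Pool.Agent.TV
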