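import Pool.Agent.TV.StK

/-!
Theorem V (MP_31fd3b_gt): modules FIB and GSY.
-/

open Filter Topology
open scoped BigOperators Real

namespace Pool.Agent.TV

open Pool.Agent.LibH11.Sliced Pool.Agent.MTR Pool.Agent.MT Pool.Agent.MTA Pool.Agent.UA
open Pool.Agent.UB Pool.Agent.TwoBr Pool.Agent.Mont
open Pool.Agent.TB hiding vec

namespace Fib

theorem sum_fibres {α : Type} [DecidableEq α] (F : α → ℂ) (S : Finset α) (l : List (ℤ × α))
    (h : ∀ e ∈ l, e.2 ∈ S) :
    (l.map fun e => (e.1 : ℂ) * F e.2).sum =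
      ∑ a ∈ S, (((l.map fun e => if e.2 = a then e.1 else 0).sum : ℤ) : ℂ) * F a := by
  induction l with
  | nil => simp
  | cons e l ih =>
    have ih' := ih fun x hx => h x (List.mem_cons_of_mem _ hx)
    have he : e.2 ∈ S := h e (List.mem_cons_self)
    simp only [List.map_cons, List.sum_cons, Int.cast_add, add_mul, Finset.sum_add_distrib]
    rw [ih']
    congr 1
    rw [Finset.sum_eq_single e.2]
    · simp
    · intro b _ hb
      rw [if_neg (fun h => hb h.symm)]
      simp
    · intro hn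
      exact absurd he hn

end Fib

theorem t_FIB : FIB_Stmt := by
  intro α _ l h F
  rw [Fib.sum_fibres F (l.map Prod.snd).toFinset l]
  · apply Finset.sum_eq_zero
    intro a _
    rw [h a]
    simp
  · intro e he
    rw [List.mem_toFinset]
    exact List.mem_map.2 ⟨e, he, rfl⟩

theorem t_GSY (h1 : SFIN_Stmt) : GSY_Stmt := by
  obtain ⟨-, hsw, hrv, hsh, hsc, hdt⟩ := h1
  intro D g hD
  refine ⟨?_, ?_, ?_, ?_⟩
  · intro P V _
    show ((nS (D / dt V P) V P g : ℕ) : ℂ) = ((nS (D / dt P V) P V g : ℕ) : ℂ)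
    rw [(hdt P V).1, hsw]
  · intro P V _
    show ((nS (D / dt (rv P) V) (rv P) V g : ℕ) : ℂ) = ((nS (D / dt P (rv V)) P (rv V) g : ℕ) : ℂ)
    rw [(hdt P V).2.1, hrv]
  · intro P V k _
    show ((nS (D / dt (addv P (k, 1)) V) (addv P (k, 1)) V g : ℕ) : ℂ) =
      ((nS (D / dt P (addv V (k, 1))) P (addv V (k, 1)) g : ℕ) : ℂ)
    rw [(hdt P V).2.2.1 k, hsh]
  · intro P V k hk
    show ((nS (D / dt (k • P) V) (k • P) V g : ℕ) : ℂ) = ((nS (D / dt P V) P V g : ℕ) : ℂ)
    rw [((hdt P V).2.2.2 k).1] at hk ⊢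
    rw [(hsc _ P V k g).1]
    have e : D / (k * dt P V) * k = D / dt P V := by
      obtain ⟨m, hm⟩ := hk
      have hk0 : k ≠ 0 := by rintro rfl; apply hD; rw [hm]; ring
      have hd0 : dt P V ≠ 0 := by intro h0; apply hD; rw [hm, h0]; ring
      have e1 : D / (k * dt P V) = m := by
        rw [hm]; exact Int.mul_ediv_cancel_left _ (mul_ne_zero hk0 hd0)
      have e2 : D / dt P V = k * m := by
        have : D = dt P V * (k * m) := by rw [hm]; ring
        rw [this]; exact Int.mul_ediv_cancel_left _ hd0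
      rw [e1, e2, mul_comm]
    rw [e]

end Pool.Agent.TV
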