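import Pool.Agent.TV.StK

/-!
GQ: the sums `At` and the numbers `nS` for `M = g q`, `q` a large prime with `q = 1` modulo `dt P V`.
-/

open scoped BigOperators

namespace Pool.Agent.TV

open Pool.Agent.LibH11.Sliced Pool.Agent.MTR Pool.Agent.MTA Pool.Agent.UA Pool.Agent.UB
open Pool.Agent.TB hiding vec

namespace Gq

/-- the first linear form -/
def lf (P R : ℤ × ℤ) : ℤ := P.1 * R.2 + P.2 * R.1

/-- the second linear form -/
def lg (V R : ℤ × ℤ) : ℤ := R.1 * V.2 - R.2 * V.1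

/-- multiplies the first form by `q` -/
def p1 (m : ℤ) (P V R : ℤ × ℤ) : ℤ × ℤ := (R.1 + V.1 * m * lf P R, R.2 + V.2 * m * lf P R)

/-- multiplies the second form by `q` -/
def p2 (m : ℤ) (P V R : ℤ × ℤ) : ℤ × ℤ := (R.1 + P.1 * m * lg V R, R.2 - P.2 * m * lg V R)

lemma dt_eq (P V : ℤ × ℤ) : dt P V = P.1 * V.2 + V.1 * P.2 := rfl

lemma det2_eq (V R : ℤ × ℤ) : det2 R V = lg V R := rfl

lemma mem (c : ℤ) (P V : ℤ × ℤ) (M : ℤ) (R : ℤ × ℤ) :
    R ∈ Sl c P V M ↔ c * (lf P R * lg V R) = -M := by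
  have h1 : R ∈ Sl c P V M ↔ c * ((-P.1 * R.2 - P.2 * R.1) * (R.1 * V.2 - R.2 * V.1)) = M := Iff.rfl
  rw [h1]
  unfold lf lg
  constructor
  · intro h; rw [← h]; ring
  · intro h
    have : M = -(c * ((P.1 * R.2 + P.2 * R.1) * (R.1 * V.2 - R.2 * V.1))) := by rw [h]; ring
    rw [this]; ring

lemma dy (P V R : ℤ × ℤ) : dt P V * R.2 = V.2 * lf P R - P.2 * lg V R := by
  rw [dt_eq]; unfold lf lg; ring

lemma dx (P V R : ℤ × ℤ) : dt P V * R.1 = V.1 * lf P R + P.1 * lg V R := by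
  rw [dt_eq]; unfold lf lg; ring

lemma inj (P V R R' : ℤ × ℤ) (hd : dt P V ≠ 0) (hf : lf P R = lf P R') (hg : lg V R = lg V R') :
    R = R' := by
  have h1 := dx P V R
  have h2 := dx P V R'
  have h3 := dy P V R
  have h4 := dy P V R'
  apply Prod.ext
  · apply mul_left_cancel₀ hd
    rw [h1, h2, hf, hg]
  · apply mul_left_cancel₀ hd
    rw [h3, h4, hf, hg]

lemma lf_p1 (m : ℤ) (P V R : ℤ × ℤ) : lf P (p1 m P V R) = (1 + dt P V * m) * lf P R := by
  rw [dt_eq]; unfold p1 lf; ring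

lemma lg_p1 (m : ℤ) (P V R : ℤ × ℤ) : lg V (p1 m P V R) = lg V R := by
  unfold p1 lg; ring

lemma lf_p2 (m : ℤ) (P V R : ℤ × ℤ) : lf P (p2 m P V R) = lf P R := by
  unfold p2 lf; ring

lemma lg_p2 (m : ℤ) (P V R : ℤ × ℤ) : lg V (p2 m P V R) = (1 + dt P V * m) * lg V R := by
  rw [dt_eq]; unfold p2 lg; ring

/-- The solutions for `g q`. -/
lemma sl_eq (c : ℤ) (P V : ℤ × ℤ) (g m : ℤ) (q : ℕ) (hc : c ≠ 0)
    (hq : q.Prime) (hcq : c.natAbs < q) (hm : (q : ℤ) = 1 + dt P V * m) :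
    Sl c P V (g * q) = (p1 m P V '' Sl c P V g) ∪ (p2 m P V '' Sl c P V g) := by
  have hq0 : (q : ℤ) ≠ 0 := by exact_mod_cast hq.ne_zero
  have hqp : Prime (q : ℤ) := Nat.prime_iff_prime_int.1 hq
  have hqc : ¬ (q : ℤ) ∣ c := by
    intro h
    have h1 : q ∣ c.natAbs := Int.natCast_dvd.1 h
    have h2 := Nat.le_of_dvd (Int.natAbs_pos.2 hc) h1
    omega
  ext R
  rw [Set.mem_union, Set.mem_image, Set.mem_image, mem]
  constructor
  · intro h
    have h1 : (q : ℤ) ∣ c * (lf P R * lg V R) := ⟨-g, by rw [h]; ring⟩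
    rcases hqp.dvd_or_dvd h1 with h2 | h2
    · exact absurd h2 hqc
    rcases hqp.dvd_or_dvd h2 with ⟨k, hk⟩ | ⟨k, hk⟩
    · left
      refine ⟨(R.1 - V.1 * m * k, R.2 - V.2 * m * k), ?_, ?_⟩
      · rw [mem]
        have e1 : lf P (R.1 - V.1 * m * k, R.2 - V.2 * m * k) = k := by
          have e : lf P (R.1 - V.1 * m * k, R.2 - V.2 * m * k) = lf P R - dt P V * m * k := by
            rw [dt_eq]; unfold lf; ring
          rw [e, hk, hm]; ring
        have e2 : lg V (R.1 - V.1 * m * k, R.2 - V.2 * m * k) = lg V R := by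
          unfold lg; ring
        rw [e1, e2]
        apply mul_left_cancel₀ hq0
        have e3 : (q : ℤ) * (c * (k * lg V R)) = c * ((q : ℤ) * k * lg V R) := by ring
        rw [e3, ← hk, h]; ring
      · have e1 : lf P (R.1 - V.1 * m * k, R.2 - V.2 * m * k) = k := by
          have e : lf P (R.1 - V.1 * m * k, R.2 - V.2 * m * k) = lf P R - dt P V * m * k := by
            rw [dt_eq]; unfold lf; ring
          rw [e, hk, hm]; ring
        unfold p1
        rw [e1]
        apply Prod.ext <;> simp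
    · right
      refine ⟨(R.1 - P.1 * m * k, R.2 + P.2 * m * k), ?_, ?_⟩
      · rw [mem]
        have e1 : lg V (R.1 - P.1 * m * k, R.2 + P.2 * m * k) = k := by
          have e : lg V (R.1 - P.1 * m * k, R.2 + P.2 * m * k) = lg V R - dt P V * m * k := by
            rw [dt_eq]; unfold lg; ring
          rw [e, hk, hm]; ring
        have e2 : lf P (R.1 - P.1 * m * k, R.2 + P.2 * m * k) = lf P R := by
          unfold lf; ring
        rw [e1, e2]
        apply mul_left_cancel₀ hq0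
        have e3 : (q : ℤ) * (c * (lf P R * k)) = c * (lf P R * ((q : ℤ) * k)) := by ring
        rw [e3, ← hk, h]; ring
      · have e1 : lg V (R.1 - P.1 * m * k, R.2 + P.2 * m * k) = k := by
          have e : lg V (R.1 - P.1 * m * k, R.2 + P.2 * m * k) = lg V R - dt P V * m * k := by
            rw [dt_eq]; unfold lg; ring
          rw [e, hk, hm]; ring
        unfold p2
        rw [e1]
        apply Prod.ext <;> simp
  · rintro (⟨R0, h0, rfl⟩ | ⟨R0, h0, rfl⟩)
    · rw [mem] at h0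
      rw [lf_p1, lg_p1, ← hm]
      have e : c * ((q : ℤ) * lf P R0 * lg V R0) = (q : ℤ) * (c * (lf P R0 * lg V R0)) := by ring
      rw [e, h0]; ring
    · rw [mem] at h0
      rw [lf_p2, lg_p2, ← hm]
      have e : c * (lf P R0 * ((q : ℤ) * lg V R0)) = (q : ℤ) * (c * (lf P R0 * lg V R0)) := by ring
      rw [e, h0]; ring

lemma disj (c : ℤ) (P V : ℤ × ℤ) (g m : ℤ) (q : ℕ) (hg : g ≠ 0) (hgq : g.natAbs < q)
    (hm : (q : ℤ) = 1 + dt P V * m) :
    Disjoint (p1 m P V '' Sl c P V g) (p2 m P V '' Sl c P V g) := by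
  rw [Set.disjoint_left]
  rintro _ ⟨R, hR, rfl⟩ ⟨R', hR', h⟩
  have h1 := congrArg (lf P) h
  rw [lf_p2, lf_p1, ← hm] at h1
  rw [mem, h1] at hR'
  have h2 : (q : ℤ) ∣ g := ⟨-(c * (lf P R * lg V R')), by
    have : g = -(c * ((q : ℤ) * lf P R * lg V R')) := by rw [hR']; ring
    rw [this]; ring⟩
  have h3 : q ∣ g.natAbs := Int.natCast_dvd.1 h2
  have h4 := Nat.le_of_dvd (Int.natAbs_pos.2 hg) h3
  omega

lemma inj1 (c : ℤ) (P V : ℤ × ℤ) (g m : ℤ) (q : ℕ) (hd : dt P V ≠ 0) (hq : q ≠ 0)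
    (hm : (q : ℤ) = 1 + dt P V * m) : Set.InjOn (p1 m P V) (Sl c P V g) := by
  intro R _ R' _ h
  have hq0 : (q : ℤ) ≠ 0 := by exact_mod_cast hq
  apply inj P V R R' hd
  · have h1 := congrArg (lf P) h
    rw [lf_p1, lf_p1, ← hm] at h1
    exact mul_left_cancel₀ hq0 h1
  · have h1 := congrArg (lg V) h
    rwa [lg_p1, lg_p1] at h1

lemma inj2 (c : ℤ) (P V : ℤ × ℤ) (g m : ℤ) (q : ℕ) (hd : dt P V ≠ 0) (hq : q ≠ 0)
    (hm : (q : ℤ) = 1 + dt P V * m) : Set.InjOn (p2 m P V) (Sl c P V g) := by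
  intro R _ R' _ h
  have hq0 : (q : ℤ) ≠ 0 := by exact_mod_cast hq
  apply inj P V R R' hd
  · have h1 := congrArg (lf P) h
    rwa [lf_p2, lf_p2] at h1
  · have h1 := congrArg (lg V) h
    rw [lg_p2, lg_p2, ← hm] at h1
    exact mul_left_cancel₀ hq0 h1

/-- The forms of a solution are not zero and not larger than `g`. -/
lemma ne_zero (c : ℤ) (P V : ℤ × ℤ) (g : ℤ) (hg : g ≠ 0) (R : ℤ × ℤ) (hR : R ∈ Sl c P V g) :
    lf P R ≠ 0 ∧ lg V R ≠ 0 ∧ |lf P R| ≤ |g| ∧ |lg V R| ≤ |g| := by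
  rw [mem] at hR
  refine ⟨?_, ?_, ?_, ?_⟩
  · intro h; rw [h] at hR; apply hg; linarith [hR]
  · intro h; rw [h] at hR; apply hg; linarith [hR]
  · have h1 : lf P R ∣ g := ⟨-(c * lg V R), by
      have : g = -(c * (lf P R * lg V R)) := by rw [hR]; ring
      rw [this]; ring⟩
    exact Int.le_of_dvd (abs_pos.2 hg) ((abs_dvd_abs _ _).2 h1)
  · have h1 : lg V R ∣ g := ⟨-(c * lf P R), by
      have : g = -(c * (lf P R * lg V R)) := by rw [hR]; ring
      rw [this]; ring⟩
    exact Int.le_of_dvd (abs_pos.2 hg) ((abs_dvd_abs _ _).2 h1)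

/-- `a q = b` is impossible if `q` is larger than `b`. -/
lemma ne_of_large (a b q : ℤ) (ha : a ≠ 0) (hb : |b| < q) : a * q - b ≠ 0 := by
  intro h
  have h1 : a * q = b := by linarith
  have h2 : 1 ≤ |a| := Int.one_le_abs ha
  have h3 : |b| = |a| * |q| := by rw [← h1, abs_mul]
  have h4 : 0 ≤ |b| := abs_nonneg b
  have h5 : |q| = q := abs_of_pos (by omega)
  rw [h5] at h3
  nlinarith

/-- The pole of a solution. -/
lemma pol_eq (P V R : ℤ × ℤ) (hP : P.2 ≠ 0) (hV : V.2 ≠ 0) :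
    pol P V R = ((P.2 : ℚ) * lg V R) / ((V.2 : ℚ) * lf P R) := by
  have hP' : (P.2 : ℚ) ≠ 0 := by exact_mod_cast hP
  have hV' : (V.2 : ℚ) ≠ 0 := by exact_mod_cast hV
  have e1 : (R.1 : ℚ) - V.1 / V.2 * R.2 = (lg V R : ℤ) / V.2 := by
    unfold lg; push_cast; field_simp
  have e2 : (R.1 : ℚ) - V.1 / V.2 * R.2 + (dt P V : ℤ) / ((P.2 : ℚ) * V.2) * R.2 =
      (lf P R : ℤ) / P.2 := by
    rw [dt_eq]; unfold lf; push_cast; field_simp; ring
  unfold pol
  rw [e2, e1]
  by_cases hf : (lf P R : ℚ) = 0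
  · rw [hf]; simp
  · field_simp

/-- the term of the first solution -/
lemma term1 (c d g a b f h q : ℚ) (hb : b ≠ 0) (hf : f ≠ 0) (hh : h ≠ 0) (hg : g ≠ 0)
    (hd : d ≠ 0) (hM : c * (f * h) = -g) (y : ℚ) (hy : d * y = b * (q * f) - a * h)
    (h1 : f * b * q - a * h ≠ 0) :
    b / (y * h) = -(c * d / g) * (1 / (q - a * h / (b * f))) := by
  have hy' : y = (b * (q * f) - a * h) / d := by
    rw [← hy]; field_simp
  have hc : c = -g / (f * h) := by
    rw [← hM]; field_simp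
  have h2 : b * (q * f) - a * h ≠ 0 := by
    intro h3; apply h1; rw [← h3]; ring
  have h3 : q - a * h / (b * f) ≠ 0 := by
    intro h4
    apply h2
    have : b * (q * f) - a * h = b * f * (q - a * h / (b * f)) := by field_simp
    rw [this, h4]; ring
  have h4 : q - a * h / (b * f) = (b * (q * f) - a * h) / (b * f) := by field_simp
  rw [hy', hc, h4]
  field_simp

/-- the term of the second solution -/
lemma term2 (c d g a b f h q : ℚ) (hb : b ≠ 0) (hf : f ≠ 0) (hh : h ≠ 0) (hg : g ≠ 0)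
    (hd : d ≠ 0) (hq : q ≠ 0) (hM : c * (f * h) = -g) (y : ℚ)
    (hy : d * y = b * f - a * (q * h)) (h1 : b * f - a * (q * h) ≠ 0) :
    b / (y * (q * h)) = -(c * d / g) * (1 / (q * (1 - q * (a * h / (b * f))))) := by
  have hy' : y = (b * f - a * (q * h)) / d := by
    rw [← hy]; field_simp
  have hc : c = -g / (f * h) := by
    rw [← hM]; field_simp
  have h4 : 1 - q * (a * h / (b * f)) = (b * f - a * (q * h)) / (b * f) := by field_simp
  rw [hy', hc, h4]
  field_simp

lemma hq_eq (z q : ℚ) (hz : z ≠ 0) (hq0 : q ≠ 0) (h1 : 1 - q * z ≠ 0) :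
    hq z q = -(1 / (q - z)) - 1 / (q * (1 - q * z)) := by
  unfold hq
  have e1 : q - 1 / z = -(1 - q * z) / z := by field_simp; ring
  rw [e1]
  have e2 : 1 / (-(1 - q * z) / z) = -z / (1 - q * z) := by
    field_simp
  rw [e2]
  have e3 : 1 / (q * (1 - q * z)) = 1 / q - -z / (1 - q * z) := by
    field_simp; ring
  rw [e3]
  ring

end Gq

open Gq in
theorem t_GQ (h1 : SFIN_Stmt) : GQ_Stmt := by
  intro c P V g hc hd hg
  refine ⟨?_, ?_⟩
  · intro R hR hP hV
    obtain ⟨hf, hh, _, _⟩ := ne_zero c P V g hg R hR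
    rw [pol_eq P V R hP hV]
    have hP' : (P.2 : ℚ) ≠ 0 := by exact_mod_cast hP
    have hV' : (V.2 : ℚ) ≠ 0 := by exact_mod_cast hV
    have hf' : (lf P R : ℚ) ≠ 0 := by exact_mod_cast hf
    have hh' : (lg V R : ℚ) ≠ 0 := by exact_mod_cast hh
    exact div_ne_zero (mul_ne_zero hP' hh') (mul_ne_zero hV' hf')
  · refine ⟨c.natAbs + g.natAbs + (P.2 * g).natAbs + (V.2 * g).natAbs, ?_⟩
    intro q hq hB hdq
    obtain ⟨m, hm0⟩ := hdq
    have hm : (q : ℤ) = 1 + dt P V * m := by linarith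
    have hfin : (Sl c P V g).Finite := h1.1 c P V g hd hg
    have hq0 : q ≠ 0 := hq.ne_zero
    have hqQ : (q : ℚ) ≠ 0 := by exact_mod_cast hq0
    have hS := sl_eq c P V g m q hc hq (by omega) hm
    have hD := disj c P V g m q hg (by omega) hm
    have hi1 := inj1 c P V g m q hd hq0 hm
    have hi2 := inj2 c P V g m q hd hq0 hm
    refine ⟨?_, ?_⟩
    · unfold nS
      rw [hS, Set.ncard_union_eq hD (hfin.image _) (hfin.image _),
        hi1.ncard_image, hi2.ncard_image]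
      ring
    · have hgQ : (g : ℚ) ≠ 0 := by exact_mod_cast hg
      have hdQ : ((dt P V : ℤ) : ℚ) ≠ 0 := by exact_mod_cast hd
      have hAt : At c P V (g * q) = ∑ᶠ R ∈ Sl c P V g,
          ((V.2 : ℚ) / (((p1 m P V R).2 : ℚ) * (lg V R : ℤ)) +
            (V.2 : ℚ) / (((p2 m P V R).2 : ℚ) * ((q : ℚ) * (lg V R : ℤ)))) := by
        unfold At
        rw [hS, finsum_mem_union hD (hfin.image _) (hfin.image _), finsum_mem_image hi1,
          finsum_mem_image hi2, finsum_mem_add_distrib hfin]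
        congr 1
        · apply finsum_mem_congr rfl
          intro R _
          rw [det2_eq, lg_p1]
        · apply finsum_mem_congr rfl
          intro R _
          rw [det2_eq, lg_p2, ← hm]
          push_cast
          rfl
      split_ifs with hV hP
      · rw [hAt]
        rw [← finsum_mem_zero (Sl c P V g)]
        apply finsum_mem_congr rfl
        intro R _
        rw [hV]
        simp
      · -- `P.2 = 0`
        have hV' : (V.2 : ℚ) ≠ 0 := by exact_mod_cast hV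
        have hkey : ∀ R ∈ Sl c P V g,
            ((V.2 : ℚ) / (((p1 m P V R).2 : ℚ) * (lg V R : ℤ)) +
            (V.2 : ℚ) / (((p2 m P V R).2 : ℚ) * ((q : ℚ) * (lg V R : ℤ)))) =
              -(((c * dt P V : ℤ) : ℚ) / g) * (2 / q) := by
          intro R hR
          obtain ⟨hf, hh, hf2, hh2⟩ := ne_zero c P V g hg R hR
          have hf' : (lf P R : ℚ) ≠ 0 := by exact_mod_cast hf
          have hh' : (lg V R : ℚ) ≠ 0 := by exact_mod_cast hh
          have hM : (c : ℚ) * ((lf P R : ℚ) * (lg V R : ℚ)) = -(g : ℚ) := by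
            exact_mod_cast (mem c P V g R).1 hR
          have hy1 : ((dt P V : ℤ) : ℚ) * ((p1 m P V R).2 : ℚ) =
              (V.2 : ℚ) * ((q : ℚ) * (lf P R : ℚ)) - (P.2 : ℚ) * (lg V R : ℚ) := by
            have h := dy P V (p1 m P V R)
            rw [lf_p1, lg_p1, ← hm] at h
            exact_mod_cast h
          have hy2 : ((dt P V : ℤ) : ℚ) * ((p2 m P V R).2 : ℚ) =
              (V.2 : ℚ) * (lf P R : ℚ) - (P.2 : ℚ) * ((q : ℚ) * (lg V R : ℚ)) := by
            have h := dy P V (p2 m P V R)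
            rw [lf_p2, lg_p2, ← hm] at h
            exact_mod_cast h
          rw [term1 c (dt P V : ℤ) g P.2 V.2 (lf P R) (lg V R) q hV' hf' hh' hgQ hdQ hM _ hy1
              (by rw [hP]; simp; exact ⟨⟨hf, hV⟩, hq0⟩),
            term2 c (dt P V : ℤ) g P.2 V.2 (lf P R) (lg V R) q hV' hf' hh' hgQ hdQ hqQ hM _ hy2
              (by rw [hP]; simp; exact ⟨hV, hf⟩)]
          rw [hP]
          push_cast
          simp only [zero_mul, zero_div, sub_zero, mul_zero, mul_one]
          ring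
        rw [hAt, finsum_mem_congr rfl hkey, finsum_mem_eq_finite_toFinset_sum _ hfin,
          Finset.sum_const, nsmul_eq_mul, ← Set.ncard_eq_toFinset_card _ hfin]
        unfold nS
        ring
      · -- `P.2 ≠ 0`
        have hV' : (V.2 : ℚ) ≠ 0 := by exact_mod_cast hV
        have hP' : (P.2 : ℚ) ≠ 0 := by exact_mod_cast hP
        have hkey : ∀ R ∈ Sl c P V g,
            ((V.2 : ℚ) / (((p1 m P V R).2 : ℚ) * (lg V R : ℤ)) +
            (V.2 : ℚ) / (((p2 m P V R).2 : ℚ) * ((q : ℚ) * (lg V R : ℤ)))) =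
              (((c * dt P V : ℤ) : ℚ) / g) * Pool.Agent.TV.hq (pol P V R) q := by
          intro R hR
          obtain ⟨hf, hh, hf2, hh2⟩ := ne_zero c P V g hg R hR
          have hf' : (lf P R : ℚ) ≠ 0 := by exact_mod_cast hf
          have hh' : (lg V R : ℚ) ≠ 0 := by exact_mod_cast hh
          have hM : (c : ℚ) * ((lf P R : ℚ) * (lg V R : ℚ)) = -(g : ℚ) := by
            exact_mod_cast (mem c P V g R).1 hR
          have hy1 : ((dt P V : ℤ) : ℚ) * ((p1 m P V R).2 : ℚ) =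
              (V.2 : ℚ) * ((q : ℚ) * (lf P R : ℚ)) - (P.2 : ℚ) * (lg V R : ℚ) := by
            have h := dy P V (p1 m P V R)
            rw [lf_p1, lg_p1, ← hm] at h
            exact_mod_cast h
          have hy2 : ((dt P V : ℤ) : ℚ) * ((p2 m P V R).2 : ℚ) =
              (V.2 : ℚ) * (lf P R : ℚ) - (P.2 : ℚ) * ((q : ℚ) * (lg V R : ℚ)) := by
            have h := dy P V (p2 m P V R)
            rw [lf_p2, lg_p2, ← hm] at h
            exact_mod_cast h
          have b1 : |P.2 * lg V R| < (q : ℤ) := by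
            have e1 : |P.2 * lg V R| ≤ |P.2 * g| := by
              rw [abs_mul, abs_mul]
              exact mul_le_mul_of_nonneg_left hh2 (abs_nonneg _)
            have e2 : |P.2 * g| = ((P.2 * g).natAbs : ℤ) := Int.abs_eq_natAbs _
            omega
          have b2 : |V.2 * lf P R| < (q : ℤ) := by
            have e1 : |V.2 * lf P R| ≤ |V.2 * g| := by
              rw [abs_mul, abs_mul]
              exact mul_le_mul_of_nonneg_left hf2 (abs_nonneg _)
            have e2 : |V.2 * g| = ((V.2 * g).natAbs : ℤ) := Int.abs_eq_natAbs _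
            omega
          have n1 := ne_of_large (lf P R * V.2) (P.2 * lg V R) q (mul_ne_zero hf hV) b1
          have n2 := ne_of_large (P.2 * lg V R) (V.2 * lf P R) q (mul_ne_zero hP hh) b2
          have n1' : (lf P R : ℚ) * (V.2 : ℚ) * (q : ℚ) - (P.2 : ℚ) * (lg V R : ℚ) ≠ 0 := by
            exact_mod_cast n1
          have n2' : (V.2 : ℚ) * (lf P R : ℚ) - (P.2 : ℚ) * ((q : ℚ) * (lg V R : ℚ)) ≠ 0 := by
            intro h
            apply n2
            have h' : (V.2) * (lf P R) - (P.2) * ((q : ℤ) * (lg V R)) = 0 := by exact_mod_cast h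
            linarith [h']
          rw [term1 c (dt P V : ℤ) g P.2 V.2 (lf P R) (lg V R) q hV' hf' hh' hgQ hdQ hM _ hy1 n1',
            term2 c (dt P V : ℤ) g P.2 V.2 (lf P R) (lg V R) q hV' hf' hh' hgQ hdQ hqQ hM _ hy2 n2']
          rw [pol_eq P V R hP hV]
          have hz : ((P.2 : ℚ) * (lg V R : ℚ)) / ((V.2 : ℚ) * (lf P R : ℚ)) ≠ 0 :=
            div_ne_zero (mul_ne_zero hP' hh') (mul_ne_zero hV' hf')
          have h1z : 1 - (q : ℚ) * (((P.2 : ℚ) * (lg V R : ℚ)) / ((V.2 : ℚ) * (lf P R : ℚ))) ≠ 0 := by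
            intro h
            apply n2'
            have e : (V.2 : ℚ) * (lf P R : ℚ) - (P.2 : ℚ) * ((q : ℚ) * (lg V R : ℚ)) =
                (V.2 : ℚ) * (lf P R : ℚ) *
                  (1 - (q : ℚ) * (((P.2 : ℚ) * (lg V R : ℚ)) / ((V.2 : ℚ) * (lf P R : ℚ)))) := by
              field_simp
            rw [e, h]; ring
          rw [hq_eq _ _ hz hqQ h1z]
          push_cast
          ring
        rw [hAt, finsum_mem_congr rfl hkey, finsum_mem_eq_finite_toFinset_sum _ hfin,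
          finsum_mem_eq_finite_toFinset_sum _ hfin, Finset.mul_sum]

end Pool.Agent.TV
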