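import Pool.Agent.TV.StJ
import Pool.Agent.UA.Jone

/-!
JONEV: if all finite type invariants of two long knots agree then their Jones functors agree over
every ring.
-/

open scoped BigOperators

namespace Pool.Agent.TV

open Pool.Agent.LibH11.Sliced Pool.Agent.MTR Pool.Agent.MTA Pool.Agent.UA Pool.Agent.UB
open Pool.Agent.TB hiding vec

/-- JONEV. -/
theorem t_JONEV (h1 : KBG_Stmt) (h2 : JNAT_Stmt) : JONEV_Stmt := by
  intro w w' h h' hft A _ a
  obtain ⟨b, hb⟩ := UA.JONE.exists_unit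
  have hc : PowerSeries.constantCoeff (b : PowerSeries ℂ) = 1 := by
    rw [hb]
    simp
  have e1 : (jdata b).J (false, true) w = (jdata b).J (false, true) w' :=
    Pool.Agent.TB.ftm Pool.Agent.TB.inv Pool.Agent.TB.fti (Bool × Bool) (jdata b)
      (false, true) (h1.1 _ b) (h1.2 b hc) w w' h h' hft
  have e2 : (jdata UA.JONE.tu).J (false, true) w = (jdata UA.JONE.tu).J (false, true) w' := by
    apply UA.JONE.inj b hb
    rw [← h2.1 _ _ _ (UA.JONE.ev (PowerSeries ℂ) b) (jdata UA.JONE.tu),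
      ← h2.1 _ _ _ (UA.JONE.ev (PowerSeries ℂ) b) (jdata UA.JONE.tu),
      ← h2.2 _ _ _ UA.JONE.tu, UA.JONE.map_tu, e1]
  rw [← UA.JONE.map_tu A a, h2.2 _ _ (UA.JONE.ev A a) UA.JONE.tu, h2.1, h2.1, e2]

end Pool.Agent.TV
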