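import Pool.Agent.TV.StJ
import Pool.Agent.UA.Jdv

/-!
Theorem V (MP_31fd3b_gt), block J: JONV. Parity and second logarithmic derivatives.
-/

open scoped BigOperators

namespace Pool.Agent.TV

open Pool.Agent.LibH11.Sliced Pool.Agent.MTR Pool.Agent.MTA Pool.Agent.UA Pool.Agent.UB
open Pool.Agent.TB hiding vec

namespace Jonv

/-- the constant coefficient of the polynomial of a tree of odd determinant -/
theorem ne0 (h5 : JDV_Stmt) (t : Tr) (ht : Odd (vec t).1) : cf 0 (clv sx (bv sx t)) ≠ 0 := by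
  obtain ⟨-, -, h3, h4, -⟩ := h5
  rw [(h4 (bv sx t) (bv sx t)).2.2, (h3 t).1]
  obtain ⟨k, hk⟩ := ht
  intro h
  have h' : (vec t).1 = 0 := by exact_mod_cast h
  omega

/-- the second logarithmic derivative of a product -/
theorem prod (h5 : JDV_Stmt) : ∀ Ts : List Tr, (∀ t ∈ Ts, Odd (vec t).1) →
    cf 0 (Ts.map fun t => clv sx (bv sx t)).prod ≠ 0 ∧
      w2 (Ts.map fun t => clv sx (bv sx t)).prod = (Ts.map fun t => w2 (clv sx (bv sx t))).sum := by
  intro Ts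
  induction Ts with
  | nil =>
    intro _
    simp only [List.map_nil, List.prod_nil, List.sum_nil]
    unfold w2
    rw [UA.Jdv.cf_one, UA.Jdv.cf_one, UA.Jdv.cf_one]
    norm_num
  | cons t Ts ih =>
    intro h
    obtain ⟨i1, i2⟩ := ih fun u hu => h u (List.mem_cons_of_mem _ hu)
    have ht := ne0 h5 t (h t List.mem_cons_self)
    simp only [List.map_cons, List.prod_cons, List.sum_cons]
    refine ⟨?_, ?_⟩
    · rw [UA.Jdv.cf0_mul]
      exact mul_ne_zero ht i1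
    · rw [(h5.2.2.2.2 _ _).1 ht i1, i2]

end Jonv

theorem t_JONV (h1 : JONEV_Stmt) (h2 : JPR_Stmt) (h3 : JDIV_Stmt) (h4 : BVN_Stmt)
    (h5 : JDV_Stmt) : JONV_Stmt := by
  intro Ts Ts' h h' hv hodd
  have hodd' : ∀ t ∈ Ts, Odd (vec t).1 := by
    intro t ht
    have hκ : (((1 : (ZMod 2)ˣ)) : ZMod 2) ^ 4 = -1 := by
      rw [Units.val_one, one_pow]
      decide
    obtain ⟨i, j, hij⟩ := h2 (ZMod 2) 1 1 hκ Ts' hodd
    obtain ⟨q, hq⟩ := h3 (ZMod 2) 1 1 hκ Ts t ht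
    rw [h1 (cls Ts) (cls Ts') h h' hv, hij, h4.2] at hq
    have e1 : (Ts'.map fun t => clv (1 : (ZMod 2)ˣ) (bv (1 : (ZMod 2)ˣ) t)).prod = 1 := by
      have e2 : ∀ L : List Tr, (∀ t ∈ L, Odd (vec t).1) →
          (L.map fun t => clv (1 : (ZMod 2)ˣ) (bv (1 : (ZMod 2)ˣ) t)).prod = 1 := by
        intro L
        induction L with
        | nil => intro _; rfl
        | cons u L ih =>
          intro hL
          rw [List.map_cons, List.prod_cons, ih fun v hv => hL v (List.mem_cons_of_mem _ hv),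
            h4.2, mul_one]
          exact (ZMod.intCast_eq_one_iff_odd (n := (vec u).1)).2 (hL u List.mem_cons_self)
      exact e2 Ts' hodd
    rw [e1, one_zpow, one_zpow, one_mul, Units.val_one, one_mul] at hq
    by_contra hne
    rw [Int.not_odd_iff_even] at hne
    have e3 : (((vec t).1 : ℤ) : ZMod 2) = 0 := by
      rw [ZMod.intCast_zmod_eq_zero_iff_dvd]
      exact hne.two_dvd
    rw [e3, zero_mul] at hq
    exact one_ne_zero hq
  refine ⟨hodd', ?_⟩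
  obtain ⟨z, hz⟩ := IsAlgClosed.exists_pow_nat_eq (-1 : ℂ) (n := 4) (by norm_num)
  have hz0 : z ≠ 0 := by
    rintro rfl
    rw [zero_pow (by norm_num)] at hz
    exact one_ne_zero (neg_eq_zero.1 hz.symm)
  set κ : JRˣ := Units.map ((PowerSeries.C : ℂ →+* JR) : ℂ →* JR) (Units.mk0 z hz0) with hκ
  have hκ4 : ((κ : JRˣ) : JR) ^ 4 = -1 := by
    change (PowerSeries.C z : JR) ^ 4 = -1
    rw [← map_pow, hz, map_neg, map_one]
  have hmon : ∀ i j : ℤ, Mon (((κ ^ i * sx ^ j : JRˣ)) : JR) := by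
    intro i j
    refine ⟨((Units.mk0 z hz0 ^ i : ℂˣ) : ℂ), j, Units.ne_zero _, ?_⟩
    rw [Units.val_mul, hκ, ← map_zpow]
    rfl
  obtain ⟨i, j, hij⟩ := h2 JR κ sx hκ4 Ts hodd'
  obtain ⟨i', j', hij'⟩ := h2 JR κ sx hκ4 Ts' hodd
  rw [h1 (cls Ts) (cls Ts') h h' hv, hij'] at hij
  obtain ⟨a1, a2⟩ := Jonv.prod h5 Ts hodd'
  obtain ⟨b1, b2⟩ := Jonv.prod h5 Ts' hodd
  obtain ⟨m1, m2⟩ := (h5.2.2.2.2 _ 1).2.2 (hmon i j)
  obtain ⟨n1, n2⟩ := (h5.2.2.2.2 _ 1).2.2 (hmon i' j')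
  have e := congrArg w2 hij
  rw [(h5.2.2.2.2 _ _).1 n2 b1, (h5.2.2.2.2 _ _).1 m2 a1, n1, m1, zero_add, zero_add, a2, b2] at e
  exact e.symm

end Pool.Agent.TV
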