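import Pool.Agent.TV.StJ
import Pool.Agent.UA.Jdiv

/-!
JPR: the Jones polynomial of a connected sum of closures of trees.
-/

open scoped BigOperators

namespace Pool.Agent.TV

open Pool.Agent.LibH11.Sliced Pool.Agent.MTR Pool.Agent.MTA Pool.Agent.UA Pool.Agent.UB
open Pool.Agent.TB hiding vec

theorem t_JPR (h1 : ACT_Stmt) (h2 : PRD_Stmt) (h3 : ORI_Stmt) (h4 : MULG_Stmt)
    (h5 : KBM_Stmt) : JPR_Stmt := by
  intro A _ κ s hκ Ts
  have htree : ∀ t : Tr, Odd (vec t).1 → ∃ i j : ℤ,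
      (jdata (κ * s)).J (false, true) (cl t.dg) =
        ((κ ^ i * s ^ j : Aˣ) : A) * clv s (bv s t) := by
    intro t ht
    have e1 := h2.1 A Bool Bool (kb (κ * s)) (od ((κ * s)⁻¹ ^ 6)) false true t
    have e2 : (jdata (κ * s)).J (false, true) (cl t.dg) =
        clo (kb (κ * s)) (mt (kb (κ * s)) t) false *
          clo (od ((κ * s)⁻¹ ^ 6)) (mt (od ((κ * s)⁻¹ ^ 6)) t) true :=
      (h1 A (Bool × Bool) (jdata (κ * s)) (false, true) t).trans e1
    obtain ⟨m, hm⟩ := h3 A ((κ * s)⁻¹ ^ 6) t ht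
    rw [(h5 A κ s hκ t).2 false, hm] at e2
    refine ⟨((2 * nc t + 2 : ℕ) : ℤ) + -(6 * m), -(6 * m), ?_⟩
    have e3 : (κ ^ (((2 * nc t + 2 : ℕ) : ℤ) + -(6 * m)) * s ^ (-(6 * m)) : Aˣ) =
        κ ^ (2 * nc t + 2) * ((κ * s)⁻¹ ^ 6) ^ m := by
      have e4 : (((κ * s)⁻¹ ^ 6) ^ m : Aˣ) = κ ^ (-(6 * m)) * s ^ (-(6 * m)) := by
        rw [← mul_zpow, zpow_neg, zpow_mul, ← inv_zpow, inv_pow]
        norm_cast
      rw [e4, zpow_add, zpow_natCast, mul_assoc]
    rw [e2, e3, Units.val_mul]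
    ring
  induction Ts with
  | nil =>
    intro _
    refine ⟨0, 0, ?_⟩
    have h6 : (jdata (κ * s)).J (false, true) (cls []) = 1 := by
      show (if ([(false, true)] : List (Bool × Bool)) = [(false, true)] then (1 : A) else 0) = 1
      rw [if_pos rfl]
    rw [h6]
    simp
  | cons t Ts ih =>
    intro hT
    obtain ⟨i, j, hij⟩ := ih fun t' ht' => hT t' (List.mem_cons_of_mem _ ht')
    obtain ⟨i', j', hij'⟩ := htree t (hT t List.mem_cons_self)
    refine ⟨i' + i, j' + j, ?_⟩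
    have e1 : (jdata (κ * s)).J (false, true) (cls (t :: Ts)) =
        (jdata (κ * s)).J (false, true) (cl t.dg) *
          (jdata (κ * s)).J (false, true) (cls Ts) :=
      Jdiv.J_mul h4 (κ * s) (cl t.dg) (cls Ts) (UB.Jls.cnt_cl (UB.Jls.cnt_dg t))
    have e2 : (κ ^ (i' + i) * s ^ (j' + j) : Aˣ) = (κ ^ i' * s ^ j') * (κ ^ i * s ^ j) := by
      rw [zpow_add, zpow_add]
      exact mul_mul_mul_comm _ _ _ _
    rw [e1, hij, hij', List.map_cons, List.prod_cons, e2, Units.val_mul (κ ^ i' * s ^ j')]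
    ring

end Pool.Agent.TV
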