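import Pool.Agent.TV.StH
import Pool.Agent.TwoBr.Cert
import Pool.Agent.TwoBr.OneMin
import Pool.Agent.UA.StF

/-!
Module KDT of Theorem V: the diagram of a word is the closure of a rational tree.
-/

namespace Pool.Agent.TV

open Pool.Agent.LibH11.Sliced Pool.Agent.MTR Pool.Agent.MT Pool.Agent.MTA Pool.Agent.UA
open Pool.Agent.UB Pool.Agent.TwoBr Pool.Agent.Mont
open Pool.Agent.TB hiding vec

namespace Kdt

theorem cap0_eqd : EqD 3 [(.cap, 0)] [(.crs true, 1), (.crs true, 0), (.cap, 1)] :=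
  EqD.symm (EqD.of_chk [(1, true, .sa 0 false), (0, false, .r2 1 true)] rfl)

theorem natAbs_two (a : ℤ) : (2 * a).natAbs = 2 * a.natAbs := by
  rw [Int.natAbs_mul]
  rfl

theorem dec_two (a : ℤ) : decide (0 < 2 * a) = decide (0 < a) := by
  by_cases h : 0 < a
  · rw [decide_eq_true h, decide_eq_true (by omega)]
  · rw [decide_eq_false h, decide_eq_false (by omega)]

theorem tw_zero (a : ℤ) : Pool.Agent.TB.tw 0 a = ht (2 * a) := by
  unfold Pool.Agent.TB.tw ht
  rw [natAbs_two, dec_two]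

theorem tw_one (a : ℤ) : Pool.Agent.TB.tw 1 a = sh 1 (ht (2 * a)) := by
  unfold Pool.Agent.TB.tw ht sh
  rw [natAbs_two, dec_two, List.map_replicate]

theorem cnt3_ht (a : ℤ) : cnt 3 (ht a) = some 3 := cnt_widen 1 (ht a) 2 2 (cnt_ht a)

theorem cnt3_sh {t : Diag} (h : cnt 2 t = some 2) : cnt 3 (sh 1 t) = some 3 := by
  have := cnt_sh 1 t 2
  rw [h] at this
  exact this

theorem cnt3_twd : ∀ (l : List ℤ), cnt 3 (twd 0 l) = some 3 ∧ cnt 3 (twd 1 l) = some 3 := by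
  intro l
  induction l with
  | nil => exact ⟨rfl, rfl⟩
  | cons a l ih =>
    constructor
    · show cnt 3 (Pool.Agent.TB.tw 0 a ++ twd 1 l) = _
      rw [tw_zero, cnt_app (cnt3_ht _)]
      exact ih.2
    · show cnt 3 (Pool.Agent.TB.tw 1 a ++ twd 0 l) = _
      rw [tw_one, cnt_app (cnt3_sh (cnt_ht _))]
      exact ih.1

/-- the step at the position 1 -/
theorem stepA (h1 : RTI_Stmt) (h2 : STR_Stmt) (h3 : FCG_Stmt) (u : Tr) (hu : u.Rat) (b : ℤ)
    (v : Diag) (hv : cnt 3 v ≠ none) :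
    EqD 1 ((.cup, 1) :: (u.dg ++ (Pool.Agent.TB.tw 1 b ++ v)))
      ((.cup, 0) :: (sh 1 (Tr.cons u (.pw (2 * b))).dg ++ v)) := by
  have cu : cnt 2 u.dg = some 2 := h3.2.2.2.2.1 u
  have e1 := (h2.2 u.dg cu (h1 u hu).2.2).symm
  have e2 := e1.right (Pool.Agent.TB.tw 1 b ++ v) (by
    have c1 : cnt 1 ((Kind.cup, 1) :: u.dg) = some 3 := by
      show cnt 3 u.dg = some 3
      exact cnt_widen 1 u.dg 2 2 cu
    rw [cnt_app c1, tw_one, cnt_app (cnt3_sh (cnt_ht _))]
    exact hv)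
  refine (EqD.of_eq ?_).trans (e2.trans (EqD.of_eq ?_))
  · rfl
  · rw [tw_one]
    show (Kind.cup, 0) :: (sh 1 (rotD u.dg) ++ (sh 1 (ht (2 * b)) ++ v)) =
      (Kind.cup, 0) :: (sh 1 (rotD u.dg ++ ht (2 * b)) ++ v)
    rw [sh_append, List.append_assoc]

/-- the step at the position 0 -/
theorem stepB (h2 : STR_Stmt) (h3 : FCG_Stmt) (w : Tr) (c : ℤ)
    (v : Diag) (hv : cnt 3 v ≠ none) :
    EqD 1 ((.cup, 0) :: (sh 1 w.dg ++ (ht c ++ v)))
      ((.cup, 1) :: ((Tr.cons w (.pw c)).dg ++ v)) := by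
  have cw : cnt 2 w.dg = some 2 := h3.2.2.2.2.1 w
  have e1 := (h2.1 w.dg cw).symm
  have e2 := e1.right (ht c ++ v) (by
    have c1 : cnt 1 ((Kind.cup, 0) :: sh 1 w.dg) = some 3 := by
      show cnt 3 (sh 1 w.dg) = some 3
      exact cnt3_sh cw
    rw [cnt_app c1, cnt_app (cnt3_ht _)]
    exact hv)
  refine (EqD.of_eq ?_).trans (e2.trans (EqD.of_eq ?_))
  · rfl
  · show (Kind.cup, 1) :: (rotD w.dg ++ (ht c ++ v)) = (Kind.cup, 1) :: ((rotD w.dg ++ ht c) ++ v)
    rw [List.append_assoc]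

theorem vec_cons_pw (u : Tr) (b : ℤ) :
    vec (Tr.cons u (.pw b)) = (-(vec u).2 - b * (vec u).1, (vec u).1) := by
  show addv (rv (vec u)) (-b, 1) = _
  unfold addv rv
  ext
  · simp; ring
  · simp

theorem main (h1 : RTI_Stmt) (h2 : STR_Stmt) (h3 : FCG_Stmt) (v : Diag) (hv : cnt 3 v ≠ none) :
    ∀ (n : ℕ) (l : List ℤ), l.length = 2 * n → ∀ (u : Tr) (b : ℤ), u.Rat → Even (vec u).1 →
      Odd (vec u).2 → ∃ (u' : Tr) (b' : ℤ), u'.Rat ∧ Even (vec u').1 ∧ Odd (vec u').2 ∧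
        EqD 1 ((.cup, 0) :: (sh 1 (Tr.cons u (.pw b)).dg ++ (twd 0 l ++ v)))
          ((.cup, 0) :: (sh 1 (Tr.cons u' (.pw b')).dg ++ v)) := by
  intro n
  induction n with
  | zero =>
    intro l hl u b hu he ho
    obtain rfl : l = [] := List.eq_nil_of_length_eq_zero (by omega)
    exact ⟨u, b, hu, he, ho, EqD.refl _⟩
  | succ n ih =>
    intro l hl u b hu he ho
    match l, hl with
    | [], hl => simp at hl
    | [a], hl => simp at hl; omega
    | a :: a' :: l, hl =>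
      have hl' : l.length = 2 * n := by
        simp only [List.length_cons] at hl
        omega
      have hR : (Tr.cons u (.pw b)).Rat := ⟨hu, rfl⟩
      have hR1 : (Tr.cons (Tr.cons u (.pw b)) (.pw (2 * a))).Rat := ⟨hR, rfl⟩
      have hw := vec_cons_pw u b
      have hw1 := vec_cons_pw (Tr.cons u (.pw b)) (2 * a)
      have e1 : Even (vec (Tr.cons (Tr.cons u (.pw b)) (.pw (2 * a)))).1 := by
        rw [hw1, hw]
        show Even (-(vec u).1 - 2 * a * (-(vec u).2 - b * (vec u).1))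
        rw [mul_assoc]
        exact (he.neg).sub (even_two_mul _)
      have o1 : Odd (vec (Tr.cons (Tr.cons u (.pw b)) (.pw (2 * a)))).2 := by
        rw [hw1, hw]
        show Odd (-(vec u).2 - b * (vec u).1)
        exact (ho.neg).sub_even (he.mul_left _)
      obtain ⟨u', b', r1, r2, r3, r4⟩ := ih l hl' _ (2 * a') hR1 e1 o1
      refine ⟨u', b', r1, r2, r3, ?_⟩
      have hc1 : cnt 3 (twd 0 l ++ v) ≠ none := by rw [cnt_app (cnt3_twd l).1]; exact hv
      have s1 := stepB h2 h3 (Tr.cons u (.pw b)) (2 * a)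
        (Pool.Agent.TB.tw 1 a' ++ (twd 0 l ++ v)) (by
          rw [tw_one, cnt_app (cnt3_sh (cnt_ht _))]
          exact hc1)
      have s2 := stepA h1 h2 h3 (Tr.cons (Tr.cons u (.pw b)) (.pw (2 * a))) hR1 a'
        (twd 0 l ++ v) hc1
      refine (EqD.of_eq ?_).trans (s1.trans (s2.trans r4))
      show (Kind.cup, 0) :: (sh 1 (Tr.cons u (.pw b)).dg ++
        ((Pool.Agent.TB.tw 0 a ++ (Pool.Agent.TB.tw 1 a' ++ twd 0 l)) ++ v)) = _
      rw [tw_zero]
      simp only [List.append_assoc]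

end Kdt

open Kdt in
/-- Module KDT. -/
theorem t_KDT (h1 : RTI_Stmt) (h2 : STR_Stmt) (h3 : FCG_Stmt) (h4 : FIT_Stmt) : KDT_Stmt := by
  intro x hx
  match x, hx with
  | [], _ =>
    refine ⟨.pw 1, trivial, by decide, ?_⟩
    have e1 : EqD 1 (kdiag []) [] := EqD.move (Move.zagzig 0) (by decide) (by decide)
    exact e1.trans (h4.2.2.1 1 (by norm_num)).2.symm
  | [a], hx => exact absurd hx (by simp)
  | a :: a' :: l, hx =>
    obtain ⟨n, hn⟩ : ∃ n, l.length = 2 * n := by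
      obtain ⟨k, hk⟩ := hx
      simp only [List.length_cons] at hk
      exact ⟨k - 1, by omega⟩
    have hv : cnt 3 [(Kind.cap, 0)] ≠ none := by decide
    have hv' : cnt 3 (twd 0 l ++ [(Kind.cap, 0)]) ≠ none := by
      rw [cnt_app (cnt3_twd l).1]; exact hv
    obtain ⟨u, b, r1, r2, r3, r4⟩ := main h1 h2 h3 [(Kind.cap, 0)] hv n l hn (.pw (2 * a)) (2 * a')
      trivial (by show Even (-(2 * a)); exact (even_two_mul a).neg)
      (by show Odd (1 : ℤ); exact odd_one)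
    have s2 := stepA h1 h2 h3 (.pw (2 * a)) trivial a' (twd 0 l ++ [(Kind.cap, 0)]) hv'
    -- the last maximum
    have cu : cnt 2 (Tr.cons u (.pw b)).dg = some 2 := h3.2.2.2.2.1 _
    have c0 : cnt 1 ((Kind.cup, 0) :: sh 1 (Tr.cons u (.pw b)).dg) = some 3 := by
      show cnt 3 (sh 1 (Tr.cons u (.pw b)).dg) = some 3
      exact cnt3_sh cu
    have s3 := cap0_eqd.left ((Kind.cup, 0) :: sh 1 (Tr.cons u (.pw b)).dg) c0
    -- one more half twist
    have s4 : EqD 2 (rotD u.dg ++ ht b ++ ht 1) (rotD u.dg ++ ht (b + 1)) := by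
      have cr : cnt 2 (rotD u.dg) = some 2 := (h3.2.2.2.1 _ (h3.2.2.2.2.1 u)).1
      have := (ht_add b 1).left (rotD u.dg) cr
      rw [← List.append_assoc] at this
      exact this
    have s5 := (s4.sh 1).left [(Kind.cup, 0)] (M := 3) rfl
    have s6 := s5.right [(Kind.crs true, 0), (Kind.cap, 1)] (by
      have c5 : cnt 2 (rotD u.dg ++ ht b ++ ht 1) = some 2 := by
        have c6 : cnt 2 (rotD u.dg ++ ht b) = some 2 := cu
        rw [cnt_app c6]
        exact cnt_ht 1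
      have c7 : cnt 1 ([(Kind.cup, 0)] ++ sh 1 (rotD u.dg ++ ht b ++ ht 1)) = some 3 := by
        show cnt 3 (sh 1 (rotD u.dg ++ ht b ++ ht 1)) = some 3
        exact cnt3_sh c5
      rw [cnt_app c7]
      decide)
    have s7 := stepB h2 h3 (Tr.cons u (.pw (b + 1))) 1 [(Kind.cap, 1)] (by decide)
    refine ⟨Tr.cons (Tr.cons u (.pw (b + 1))) (.pw 1), ⟨⟨r1, rfl⟩, rfl⟩, ?_, ?_⟩
    · rw [vec_cons_pw, vec_cons_pw]
      show Odd (-(vec u).1 - 1 * (-(vec u).2 - (b + 1) * (vec u).1))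
      rw [one_mul]
      exact Even.sub_odd r2.neg ((r3.neg).sub_even (r2.mul_left _))
    · refine (EqD.of_eq ?_).trans (s2.trans (r4.trans ((EqD.of_eq ?_).trans (s3.trans
        ((EqD.of_eq ?_).trans (s6.trans ((EqD.of_eq ?_).trans (s7.trans (EqD.of_eq ?_)))))))))
      · show (Kind.cup, 1) :: ((Pool.Agent.TB.tw 0 a ++ (Pool.Agent.TB.tw 1 a' ++ twd 0 l)) ++
          [(Kind.cap, 0)]) = (Kind.cup, 1) :: (ht (2 * a) ++ (Pool.Agent.TB.tw 1 a' ++
            (twd 0 l ++ [(Kind.cap, 0)])))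
        rw [tw_zero]
        simp only [List.append_assoc]
      · rfl
      · show (Kind.cup, 0) :: (sh 1 (rotD u.dg ++ ht b) ++
          [(Kind.crs true, 1), (Kind.crs true, 0), (Kind.cap, 1)]) =
          (Kind.cup, 0) :: (sh 1 (rotD u.dg ++ ht b ++ ht 1) ++ [(Kind.crs true, 0), (Kind.cap, 1)])
        rw [sh_append 1 (rotD u.dg ++ ht b) (ht 1), List.append_assoc]
        rfl
      · rfl
      · rfl

end Pool.Agent.TV
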