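import Pool.Agent.TV.StJ
import Pool.Agent.UA.Wad
import Pool.Agent.UA.Jdv
import Pool.Agent.UA.Jpv
import Pool.Agent.UA.Wle

/-!
Theorem V (MP_31fd3b_gt), module LAD: the additive logarithm.
-/

set_option autoImplicit false

open scoped BigOperators

namespace Pool.Agent.TV

open Pool.Agent.LibH11.Sliced Pool.Agent.MTR Pool.Agent.MTA Pool.Agent.UA Pool.Agent.UB
open Pool.Agent.TB hiding vec

namespace LAD

theorem mul_inv' {f : JR} (h : cf 0 f ≠ 0) : f * f⁻¹ = 1 :=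
  PowerSeries.mul_inv_cancel f (by simpa [cf] using h)

theorem cf_add (k : ℕ) (f g : JR) : cf k (f + g) = cf k f + cf k g := Wadx.cf_add k f g

theorem quot_mul (v w : JR × JR) (hv : cf 0 v.2 ≠ 0) (hw : cf 0 w.2 ≠ 0) :
    (mulv sx v w).1 * (mulv sx v w).2⁻¹ =
      v.1 * v.2⁻¹ + w.1 * w.2⁻¹ + be sx * ((v.1 * v.2⁻¹) * (w.1 * w.2⁻¹)) := by
  have h1 := mul_inv' hv
  have h2 := mul_inv' hw
  simp only [mulv, PowerSeries.mul_inv_rev]
  linear_combination (w.1 * w.2⁻¹) * h1 + (v.1 * v.2⁻¹) * h2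

theorem part1 (h1 : JDV_Stmt) (v w : JR × JR) (hv : cf 0 v.2 ≠ 0) (hw : cf 0 w.2 ≠ 0) :
    sl0 (mulv sx v w) = sl0 v + sl0 w ∧
    la1v (mulv sx v w) = la1v v + la1v w ∧ la2v (mulv sx v w) = la2v v + la2v w ∧
    cf 0 (mulv sx v w).2 ≠ 0 ∧ w2 (mulv sx v w).2 = w2 v.2 + w2 w.2 := by
  have hq := quot_mul v w hv hw
  refine ⟨?_, ?_, ?_, ?_, ?_⟩
  · unfold sl0
    rw [hq]
    generalize v.1 * v.2⁻¹ = b
    generalize w.1 * w.2⁻¹ = c
    simp only [Wadx.cf_add, Wadx.cf0_mul, Wadx.be0]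
    ring
  · unfold la1v
    rw [hq]
    generalize v.1 * v.2⁻¹ = b
    generalize w.1 * w.2⁻¹ = c
    simp only [Wadx.cf_add, Wadx.cf0_mul, Wadx.cf1_mul, Wadx.be0, Wadx.be1]
    ring
  · unfold la2v
    rw [hq]
    generalize v.1 * v.2⁻¹ = b
    generalize w.1 * w.2⁻¹ = c
    simp only [Wadx.cf_add, Wadx.cf0_mul, Wadx.cf1_mul, Wadx.cf2_mul, Wadx.be0, Wadx.be1,
      Wadx.be2]
    ring
  · simp only [mulv]
    rw [Wadx.cf0_mul]
    exact mul_ne_zero hv hw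
  · simp only [mulv]
    exact (h1.2.2.2.2 v.2 w.2).1 hv hw

theorem part2 (h1 : JDV_Stmt) (v : JR × JR) (hv : cf 0 v.2 ≠ 0) (hs : sl0 v ≠ 0) :
    w2 (clv sx v) = w2 v.2 + 2 * la2v v / sl0 v + 44 / 3 + 4 * la1v v + 4 / 3 * sl0 v ^ 2 -
      (la1v v - 4) ^ 2 / sl0 v ^ 2 := by
  have hi := mul_inv' hv
  have e1 : clv sx v = v.2 * (v.1 * v.2⁻¹ - be sx) := by
    unfold clv
    linear_combination (-v.1) * hi
  unfold sl0 at hs ⊢
  unfold la1v la2v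
  rw [e1]
  generalize v.1 * v.2⁻¹ = b at hs ⊢
  have e2 : cf 0 (b - be sx) = cf 0 b := by rw [Wadx.cf_sub, Wadx.be0, sub_zero]
  rw [(h1.2.2.2.2 v.2 (b - be sx)).1 hv (by rw [e2]; exact hs)]
  have e3 : cf 1 (b - be sx) = cf 1 b - 4 := by rw [Wadx.cf_sub, Wadx.be1]
  have e4 : cf 2 (b - be sx) = cf 2 b := by rw [Wadx.cf_sub, Wadx.be2, sub_zero]
  have e5 : w2 (b - be sx) = 2 * cf 2 b / cf 0 b - ((cf 1 b - 4) / cf 0 b) ^ 2 := by
    unfold w2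
    rw [e2, e3, e4]
  rw [e5]
  generalize cf 0 b = x at hs ⊢
  generalize cf 1 b = y
  generalize cf 2 b = z
  field_simp
  ring

theorem part3 (h1 : JDV_Stmt) (R : Tr) (hR : R.Rat) (h2 : (vec R).2 ≠ 0) :
    cf 0 (bv sx R).2 ≠ 0 ∧ sl0 (bv sx R) = ((vec R).1 : ℂ) / (vec R).2 ∧
    la1v (bv sx R) = 2 - 2 / ((vec R).2 : ℂ) ^ 2 := by
  obtain ⟨a1, a2, a3⟩ := h1.2.2.1 R
  have h0 : ((vec R).2 : ℂ) ≠ 0 := by exact_mod_cast h2
  have hv : cf 0 (bv sx R).2 ≠ 0 := by rw [a2]; exact h0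
  have hi := mul_inv' hv
  rw [Wlex.rat_eT R hR] at a3
  refine ⟨hv, ?_, ?_⟩
  · have i0 := congrArg (cf 0) hi
    rw [Wadx.cf0_mul, a2, Jdv.cf_one, if_pos rfl] at i0
    unfold sl0
    rw [Wadx.cf0_mul, a1]
    rw [eq_div_iff h0]
    linear_combination ((vec R).1 : ℂ) * i0
  · have i0 := congrArg (cf 0) hi
    have i1 := congrArg (cf 1) hi
    rw [Wadx.cf0_mul, a2, Jdv.cf_one, if_pos rfl] at i0
    rw [Wadx.cf1_mul, a2, Jdv.cf_one, if_neg one_ne_zero] at i1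
    unfold ev dv at a3
    rw [a1, a2] at a3
    unfold la1v
    rw [Wadx.cf0_mul, Wadx.cf1_mul, a1]
    generalize cf 0 (bv sx R).2⁻¹ = j0 at *
    generalize cf 1 (bv sx R).2⁻¹ = j1 at *
    generalize cf 1 (bv sx R).2 = y at *
    generalize cf 1 (bv sx R).1 = x at *
    generalize ((vec R).1 : ℂ) = a at *
    generalize ((vec R).2 : ℂ) = b at *
    have e0 : j0 = 1 / b := by
      rw [eq_div_iff h0]
      linear_combination i0
    have e1 : j1 = -(y / b ^ 2) := by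
      have : b * (j1 + y / b ^ 2) = 0 := by
        have h3 : y * j0 = y / b := by rw [e0]; ring
        have h4 : b * (y / b ^ 2) = y / b := by field_simp
        rw [mul_add, h4, ← h3]
        linear_combination i1
      have h5 := (mul_eq_zero.1 this).resolve_left h0
      linear_combination h5
    rw [e0, e1]
    push_cast at a3
    field_simp
    linear_combination (-1 : ℂ) * a3

theorem part4 (h1 : JDV_Stmt) (f : JR) (v : JR × JR) (hf : Mon f) (hv : cf 0 v.2 ≠ 0) :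
    la2v (f * v.1, f * v.2) = la2v v ∧ w2 (f * v.2) = w2 v.2 := by
  obtain ⟨m1, m2⟩ := (h1.2.2.2.2 f f).2.2 hf
  have hi := mul_inv' m2
  constructor
  · have e : (f * v.1) * (f * v.2)⁻¹ = v.1 * v.2⁻¹ := by
      rw [PowerSeries.mul_inv_rev]
      linear_combination (v.1 * v.2⁻¹) * hi
    unfold la2v
    simp only
    rw [e]
  · rw [(h1.2.2.2.2 f v.2).1 m2 hv, m1, zero_add]

theorem pv2 (h1 : JDV_Stmt) (h2 : JPV_Stmt) (a : ℤ) :
    cf 0 (pv sx a).2 ≠ 0 ∧ w2 (pv sx a).2 = 0 := by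
  have h3 : (pv sx a).2 = ((sx ^ (4 * a) : JRˣ) : JR) := ((h2 JR sx).2.2.1 a).1
  have h4 : Mon (pv sx a).2 := ⟨1, 4 * a, one_ne_zero, by rw [h3, map_one, one_mul]⟩
  obtain ⟨m1, m2⟩ := (h1.2.2.2.2 (pv sx a).2 1).2.2 h4
  exact ⟨m2, m1⟩

theorem la_zero : la2v (pv sx 0) = 0 := by
  rw [Jpv.pv_zero]
  unfold la2v
  simp [cf]

theorem la_one : la2v (pv sx 1) = 0 := by
  rw [Jpv.pv_one]
  have h : ((sx : JRˣ) : JR) * ((sx⁻¹ : JRˣ) : JR) = 1 := by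
    rw [← Units.val_mul, mul_inv_cancel, Units.val_one]
  have h4 : ((sx : JRˣ) : JR) ^ 4 * ((sx⁻¹ : JRˣ) : JR) ^ 4 = 1 := by rw [← mul_pow, h, one_pow]
  have h2 : ((sx : JRˣ) : JR) ^ 2 * ((sx⁻¹ : JRˣ) : JR) ^ 2 = 1 := by rw [← mul_pow, h, one_pow]
  have c4 : cf 0 (((sx : JRˣ) : JR) ^ 4) ≠ 0 := by
    intro h0
    have h3 := congrArg (cf 0) h4
    rw [Wadx.cf0_mul, h0, zero_mul, Jdv.cf_one, if_pos rfl] at h3
    exact zero_ne_one h3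
  have hi := mul_inv' c4
  have e : (-((sx : JRˣ) : JR) ^ 2) * (((sx : JRˣ) : JR) ^ 4)⁻¹ =
      -(((sx⁻¹ : JRˣ) : JR) * ((sx⁻¹ : JRˣ) : JR)) := by
    have e1 : (((sx : JRˣ) : JR) ^ 4)⁻¹ = ((sx⁻¹ : JRˣ) : JR) ^ 4 := by
      linear_combination ((sx⁻¹ : JRˣ) : JR) ^ 4 * hi - (((sx : JRˣ) : JR) ^ 4)⁻¹ * h4
    rw [e1]
    linear_combination (-((sx⁻¹ : JRˣ) : JR) ^ 2) * h2
  obtain ⟨b0, b1, b2⟩ := Jdv.cf_sxi
  unfold la2v
  simp only
  rw [e]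
  simp only [Jdv.cf_neg, Wadx.cf0_mul, Wadx.cf1_mul, Wadx.cf2_mul, b0, b1, b2]
  norm_num

theorem la_pv (h1 : JDV_Stmt) (h2 : JPV_Stmt) (a : ℤ) : la2v (pv sx a) = 0 := by
  have step : ∀ b : ℤ, la2v (pv sx (b + 1)) = la2v (pv sx b) := by
    intro b
    rw [← Jpv.pv_succ, (part1 h1 (pv sx 1) (pv sx b) (pv2 h1 h2 1).1 (pv2 h1 h2 b).1).2.2.1, la_one,
      zero_add]
  induction a with
  | zero => exact la_zero
  | succ i ih => rw [step, ih]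
  | pred i ih =>
    rw [← step]
    have e1 : -(i : ℤ) - 1 + 1 = -(i : ℤ) := by ring
    rw [e1, ih]

end LAD

open LAD in
theorem t_LAD (h1 : JDV_Stmt) (h2 : JPV_Stmt) : LAD_Stmt :=
  ⟨fun v w hv hw => part1 h1 v w hv hw, fun v hv hs => part2 h1 v hv hs,
    fun R hR hr => part3 h1 R hR hr, fun f v hf hv => part4 h1 f v hf hv,
    fun a => ⟨la_pv h1 h2 a, (pv2 h1 h2 a).2⟩⟩

end Pool.Agent.TV
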