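import Pool.Agent.TV.StJ
import Pool.Agent.UA.Wad
import Pool.Agent.UA.Ratj

/-!
Theorem V (MP_31fd3b_gt), module LAE: symmetries of `la2` and `ow`.
-/

set_option autoImplicit false

open scoped BigOperators

namespace Pool.Agent.TV

open Pool.Agent.LibH11.Sliced Pool.Agent.MTR Pool.Agent.MTA Pool.Agent.UA Pool.Agent.UB
open Pool.Agent.TB hiding vec

namespace LAE

/-! ### Part 1 -/

theorem part1 (h1 : LAD_Stmt) (h2 : RU_Stmt) (R : Tr) (hR : R.Rat) (hp : (vec R).2 ≠ 0) :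
    la2v (bv sx R) = la2 (slp (vec R)) ∧ w2 (bv sx R).2 = ow (slp (vec R)) := by
  set β : ℚ := slp (vec R) with hβ
  have hd : ((β.den : ℤ)) ≠ 0 := by exact_mod_cast β.den_ne_zero
  have hv0 : ((β.num, (β.den : ℤ)) : ℤ × ℤ) ≠ 0 := by
    intro h
    exact hd (congrArg Prod.snd h)
  have hcop : IsCoprime (vec R).1 (vec R).2 :=
    (h2.2.2.2.1 R (vec R) 1 hR (one_smul ℤ _).symm one_ne_zero).2.1
  -- `num * p = A * den`
  have hcross : β.num * (vec R).2 = (vec R).1 * β.den := by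
    have e1 : (β.num : ℚ) / β.den = ((vec R).1 : ℚ) / (vec R).2 := by
      rw [Rat.num_div_den, hβ]
      rfl
    have hp' : ((vec R).2 : ℚ) ≠ 0 := by exact_mod_cast hp
    have hd' : ((β.den : ℕ) : ℚ) ≠ 0 := by exact_mod_cast β.den_ne_zero
    rw [div_eq_div_iff hd' hp'] at e1
    exact_mod_cast e1
  have hdir : Dir R (β.num, (β.den : ℤ)) := by
    refine ⟨hR, ?_⟩
    -- `p ∣ den`
    have hdvd : (vec R).2 ∣ (β.den : ℤ) := by
      refine hcop.symm.dvd_of_dvd_mul_left ?_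
      exact ⟨β.num, by linarith⟩
    obtain ⟨k, hk⟩ := hdvd
    refine ⟨k, ?_, ?_⟩
    · rintro rfl
      rw [mul_zero] at hk
      exact hd hk
    · have e2 : β.num = k * (vec R).1 := by
        have e3 : β.num * (vec R).2 = (k * (vec R).1) * (vec R).2 := by
          rw [hcross, hk]
          ring
        exact mul_right_cancel₀ hp e3
      rw [Prod.ext_iff]
      simp only [Prod.smul_fst, Prod.smul_snd, smul_eq_mul]
      exact ⟨e2, by rw [hk]; ring⟩
  obtain ⟨f, hf, hb⟩ := h2.2.1 R (rt (β.num, (β.den : ℤ))) _ hdir (h2.1 _ hv0)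
  obtain ⟨c1, _, _⟩ := h1.2.2.1 R hR hp
  obtain ⟨d1, d2⟩ := h1.2.2.2.1 f (bv sx R) hf c1
  unfold la2 ow
  rw [hb]
  exact ⟨d1.symm, d2.symm⟩

/-- a rational tree for every slope -/
theorem exists_tree (h2 : RU_Stmt) (β : ℚ) : ∃ R : Tr, R.Rat ∧ (vec R).2 ≠ 0 ∧
    slp (vec R) = β := by
  have hd : ((β.den : ℤ)) ≠ 0 := by exact_mod_cast β.den_ne_zero
  have hv0 : ((β.num, (β.den : ℤ)) : ℤ × ℤ) ≠ 0 := by
    intro h
    exact hd (congrArg Prod.snd h)
  obtain ⟨hR, k, hk, hv⟩ := h2.1 _ hv0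
  set R := rt (β.num, (β.den : ℤ)) with hRdef
  have e1 : β.num = k * (vec R).1 := congrArg Prod.fst hv
  have e2 : (β.den : ℤ) = k * (vec R).2 := congrArg Prod.snd hv
  have hp : (vec R).2 ≠ 0 := by
    intro h
    rw [h, mul_zero] at e2
    exact hd e2
  refine ⟨R, hR, hp, ?_⟩
  unfold slp
  have hk' : (k : ℚ) ≠ 0 := by exact_mod_cast hk
  have hp' : ((vec R).2 : ℚ) ≠ 0 := by exact_mod_cast hp
  have e3 : (β.num : ℚ) / β.den = β := Rat.num_div_den β
  have e1' : (β.num : ℚ) = k * (vec R).1 := by exact_mod_cast e1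
  have e2' : (β.den : ℚ) = k * (vec R).2 := by exact_mod_cast e2
  rw [← e3, e1', e2', mul_div_mul_left _ _ hk']

/-! ### Part 2 -/

theorem part2 (h1 : LAD_Stmt) (h2 : RU_Stmt) (h3 : JPV_Stmt) (β : ℚ) (n : ℤ) :
    la2 (β + n) = la2 β ∧ ow (β + n) = ow β := by
  obtain ⟨R, hR, hp, hs⟩ := exists_tree h2 β
  have hR' := Ratj.rat_shift R (-n) hR
  have hv := Ratj.vec_shift R (-n)
  have hp' : (vec (R.shift (-n))).2 ≠ 0 := by
    rw [hv]
    simpa [addv] using hp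
  have hs' : slp (vec (R.shift (-n))) = β + n := by
    rw [← hs, hv]
    unfold slp addv
    have h0 : ((vec R).2 : ℚ) ≠ 0 := by exact_mod_cast hp
    push_cast
    field_simp
    ring
  obtain ⟨a1, a2⟩ := part1 h1 h2 R hR hp
  obtain ⟨b1, b2⟩ := part1 h1 h2 _ hR' hp'
  have hb : bv sx (R.shift (-n)) = mulv sx (pv sx (-n)) (bv sx R) := (h3 JR sx).2.2.2.1 R (-n)
  have c1 : cf 0 (pv sx (-n)).2 ≠ 0 := (h1.2.2.1 (.pw (-n)) trivial one_ne_zero).1
  have c2 : cf 0 (bv sx R).2 ≠ 0 := (h1.2.2.1 R hR hp).1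
  obtain ⟨_, _, d3, _, d5⟩ := h1.1 (pv sx (-n)) (bv sx R) c1 c2
  obtain ⟨e1, e2⟩ := h1.2.2.2.2 (-n)
  rw [hs'] at b1 b2
  rw [hs] at a1 a2
  rw [← b1, ← b2, ← a1, ← a2, hb, d3, d5, e1, e2, zero_add, zero_add]
  exact ⟨rfl, rfl⟩

/-! ### Part 3 -/

/-- the mirror image -/
def neg : Tr → Tr
  | .pw e => .pw (-e)
  | .cons a b => .cons (neg a) (neg b)

theorem kids_neg (T : Tr) : (neg T).kids = T.kids := by
  induction T with
  | pw e => rfl
  | cons a b _ ih =>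
    have h1 : (neg (Tr.cons a b)).kids = (neg b).kids + 1 := rfl
    rw [h1, ih]
    rfl

theorem rat_neg (T : Tr) (h : T.Rat) : (neg T).Rat := by
  induction T with
  | pw e => trivial
  | cons a b ih _ => exact ⟨ih h.1, by rw [kids_neg]; exact h.2⟩

theorem vec_neg (T : Tr) : ∃ ε : ℤ, (ε = 1 ∨ ε = -1) ∧ vec (neg T) =
    (-ε * (vec T).1, ε * (vec T).2) := by
  induction T with
  | pw e =>
    refine ⟨1, Or.inl rfl, ?_⟩
    have h1 : vec (neg (Tr.pw e)) = (-(-e), 1) := rfl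
    have h2 : vec (Tr.pw e) = (-e, 1) := rfl
    rw [h1, h2]
    simp
  | cons a b iha ihb =>
    obtain ⟨ε, hε, ha⟩ := iha
    obtain ⟨δ, hδ, hb⟩ := ihb
    have h1 : vec (neg (Tr.cons a b)) = addv (rv (vec (neg a))) (vec (neg b)) := rfl
    have h2 : vec (Tr.cons a b) = addv (rv (vec a)) (vec b) := rfl
    refine ⟨-(ε * δ), ?_, ?_⟩
    · rcases hε with rfl | rfl <;> rcases hδ with rfl | rfl <;> simp
    · rw [h1, h2, ha, hb]
      simp only [addv, rv, Prod.mk.injEq]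
      constructor <;> ring

/-- the substitution `X ↦ -X` -/
noncomputable def io : JR →+* JR := PowerSeries.evalNegHom

theorem cf_io (k : ℕ) (f : JR) : cf k (io f) = (-1) ^ k * cf k f := by
  unfold cf io PowerSeries.evalNegHom
  rw [PowerSeries.coeff_rescale]

theorem io_sx : Units.map (io : JR →* JR) sx = sx⁻¹ := Units.ext rfl

theorem io_zpow (m : ℤ) : io ((sx ^ m : JRˣ) : JR) = ((sx ^ (-m) : JRˣ) : JR) := by
  have h : ((((Units.map (io : JR →* JR) sx) ^ m : JRˣ)) : JR) = ((sx⁻¹ ^ m : JRˣ) : JR) := by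
    rw [io_sx]
  rw [← map_zpow, inv_zpow'] at h
  exact h

theorem be_zpow : be sx = ((sx ^ (2 : ℤ) : JRˣ) : JR) - ((sx ^ (-2 : ℤ) : JRˣ) : JR) := by
  unfold be
  rw [inv_pow, zpow_neg]
  rfl

theorem io_be : io (be sx) = -be sx := by
  rw [be_zpow, map_sub, io_zpow, io_zpow, neg_neg]
  ring

theorem be_ne : be sx ≠ 0 := by
  intro h
  have h1 := Wadx.be1
  rw [h] at h1
  unfold cf at h1
  rw [map_zero] at h1
  norm_num at h1

theorem io_pv (h3 : JPV_Stmt) (e : ℤ) : io (pv sx e).1 = -(pv sx (-e)).1 ∧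
    io (pv sx e).2 = (pv sx (-e)).2 := by
  obtain ⟨a1, a2⟩ := (h3 JR sx).2.2.1 e
  obtain ⟨b1, b2⟩ := (h3 JR sx).2.2.1 (-e)
  have c2 : io (pv sx e).2 = (pv sx (-e)).2 := by
    rw [a1, b1, io_zpow]
    congr 2
    ring
  refine ⟨?_, c2⟩
  have c3 := congrArg io a2
  rw [map_add, map_mul, io_be, c2, map_one] at c3
  have c4 : be sx * (io (pv sx e).1 + (pv sx (-e)).1) = 0 := by
    linear_combination b2 - c3
  have c5 := (mul_eq_zero.1 c4).resolve_left be_ne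
  linear_combination c5

theorem io_bv (h3 : JPV_Stmt) (T : Tr) : ∃ ε : JR, (ε = 1 ∨ ε = -1) ∧
    io (bv sx T).1 = -ε * (bv sx (neg T)).1 ∧ io (bv sx T).2 = ε * (bv sx (neg T)).2 := by
  induction T with
  | pw e =>
    obtain ⟨a1, a2⟩ := io_pv h3 e
    refine ⟨1, Or.inl rfl, ?_, ?_⟩
    · change io (pv sx e).1 = -1 * (pv sx (-e)).1
      rw [a1]
      ring
    · change io (pv sx e).2 = 1 * (pv sx (-e)).2
      rw [a2, one_mul]
  | cons a b iha ihb =>
    obtain ⟨ε, hε, a1, a2⟩ := iha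
    obtain ⟨δ, hδ, b1, b2⟩ := ihb
    have h1 : bv sx (neg (Tr.cons a b)) = mulv sx (rotv (bv sx (neg a))) (bv sx (neg b)) := rfl
    have h2 : bv sx (Tr.cons a b) = mulv sx (rotv (bv sx a)) (bv sx b) := rfl
    refine ⟨-(ε * δ), ?_, ?_, ?_⟩
    · rcases hε with rfl | rfl <;> rcases hδ with rfl | rfl <;> simp
    · rw [h1, h2]
      simp only [mulv, rotv, map_add, map_mul, map_neg, io_be, a1, a2, b1, b2]
      ring
    · rw [h1, h2]
      simp only [mulv, rotv, map_mul, a1, b2]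
      ring

theorem mul_inv' {f : JR} (h : cf 0 f ≠ 0) : f * f⁻¹ = 1 :=
  PowerSeries.mul_inv_cancel f (by simpa [cf] using h)

theorem cf_sgn {ε : JR} (hε : ε = 1 ∨ ε = -1) : ∃ c : ℂ, c ^ 2 = 1 ∧
    ∀ (k : ℕ) (f : JR), cf k (ε * f) = c * cf k f := by
  rcases hε with rfl | rfl
  · exact ⟨1, by norm_num, fun k f => by rw [one_mul, one_mul]⟩
  · refine ⟨-1, by norm_num, fun k f => ?_⟩
    unfold cf
    rw [neg_one_mul, map_neg]
    ring

theorem part3 (h1 : LAD_Stmt) (h2 : RU_Stmt) (h3 : JPV_Stmt) (β : ℚ) :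
    la2 (-β) = -la2 β ∧ ow (-β) = ow β := by
  obtain ⟨R, hR, hp, hs⟩ := exists_tree h2 β
  have hR' := rat_neg R hR
  obtain ⟨ε, hε, hv⟩ := vec_neg R
  have hε0 : ε ≠ 0 := by rcases hε with rfl | rfl <;> norm_num
  have hp' : (vec (neg R)).2 ≠ 0 := by
    rw [hv]
    exact mul_ne_zero hε0 hp
  have hs' : slp (vec (neg R)) = -β := by
    rw [← hs, hv]
    unfold slp
    have h0 : ((vec R).2 : ℚ) ≠ 0 := by exact_mod_cast hp
    have h4 : (ε : ℚ) ≠ 0 := by exact_mod_cast hε0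
    push_cast
    field_simp
  obtain ⟨a1, a2⟩ := part1 h1 h2 R hR hp
  obtain ⟨b1, b2⟩ := part1 h1 h2 _ hR' hp'
  rw [hs'] at b1 b2
  rw [hs] at a1 a2
  rw [← b1, ← b2, ← a1, ← a2]
  have c1 : cf 0 (bv sx R).2 ≠ 0 := (h1.2.2.1 R hR hp).1
  have c2 : cf 0 (bv sx (neg R)).2 ≠ 0 := (h1.2.2.1 _ hR' hp').1
  obtain ⟨η, hη, i1, i2⟩ := io_bv h3 R
  have hη2 : η * η = 1 := by rcases hη with rfl | rfl <;> ring
  constructor
  · -- the quotients
    have key : io ((bv sx R).1 * (bv sx R).2⁻¹) = -((bv sx (neg R)).1 * (bv sx (neg R)).2⁻¹) := by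
      have e1 := mul_inv' c1
      have e2 := mul_inv' c2
      have e3 : io ((bv sx R).1 * (bv sx R).2⁻¹) * io (bv sx R).2 = io (bv sx R).1 := by
        rw [← map_mul]
        congr 1
        linear_combination (bv sx R).1 * e1
      rw [i1, i2] at e3
      generalize io ((bv sx R).1 * (bv sx R).2⁻¹) = B at e3 ⊢
      have e4 : B * (bv sx (neg R)).2 = -(bv sx (neg R)).1 := by
        linear_combination η * e3 - (B * (bv sx (neg R)).2 + (bv sx (neg R)).1) * hη2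
      linear_combination (bv sx (neg R)).2⁻¹ * e4 - B * e2
    have k0 := cf_io 0 ((bv sx R).1 * (bv sx R).2⁻¹)
    have k1 := cf_io 1 ((bv sx R).1 * (bv sx R).2⁻¹)
    have k2 := cf_io 2 ((bv sx R).1 * (bv sx R).2⁻¹)
    rw [key] at k0 k1 k2
    have n0 : ∀ (k : ℕ) (f : JR), cf k (-f) = -cf k f := fun k f => map_neg _ _
    rw [n0] at k0 k1 k2
    unfold la2v
    generalize cf 0 ((bv sx (neg R)).1 * (bv sx (neg R)).2⁻¹) = x0 at k0 ⊢
    generalize cf 1 ((bv sx (neg R)).1 * (bv sx (neg R)).2⁻¹) = x1 at k1 ⊢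
    generalize cf 2 ((bv sx (neg R)).1 * (bv sx (neg R)).2⁻¹) = x2 at k2 ⊢
    have y0 : x0 = -cf 0 ((bv sx R).1 * (bv sx R).2⁻¹) := by linear_combination -k0
    have y1 : x1 = cf 1 ((bv sx R).1 * (bv sx R).2⁻¹) := by linear_combination -k1
    have y2 : x2 = -cf 2 ((bv sx R).1 * (bv sx R).2⁻¹) := by linear_combination -k2
    rw [y0, y1, y2]
    ring
  · obtain ⟨c, hc, hcf⟩ := cf_sgn hη
    have k : ∀ j : ℕ, c * cf j (bv sx (neg R)).2 = (-1) ^ j * cf j (bv sx R).2 := by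
      intro j
      rw [← hcf, ← i2, cf_io]
    have hc0 : c ≠ 0 := by
      rintro rfl
      norm_num at hc
    have k' : ∀ j : ℕ, cf j (bv sx (neg R)).2 = c * (-1) ^ j * cf j (bv sx R).2 := by
      intro j
      have := k j
      linear_combination c * this - cf j (bv sx (neg R)).2 * hc
    unfold w2
    rw [k' 0, k' 1, k' 2]
    field_simp

end LAE

open LAE in
theorem t_LAE (h1 : LAD_Stmt) (h2 : RU_Stmt) (h3 : JPV_Stmt) : LAE_Stmt :=
  ⟨fun R hR hp => part1 h1 h2 R hR hp, fun β n => part2 h1 h2 h3 β n,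
    fun β => part3 h1 h2 h3 β⟩

end Pool.Agent.TV
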