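import Pool.Agent.TV.StH
import Pool.Agent.UC.Fin
import Pool.Agent.MTA.Phi

/-!
Theorem V (MP_31fd3b_gt), module LIE: from the invariants to the limit functions.
-/

set_option autoImplicit false

open Filter Topology
open scoped BigOperators Real

namespace Pool.Agent.TV

open Pool.Agent.LibH11.Sliced Pool.Agent.MTR Pool.Agent.MT Pool.Agent.MTA Pool.Agent.UA
open Pool.Agent.UB Pool.Agent.TwoBr Pool.Agent.Mont
open Pool.Agent.TB hiding vec

namespace LIE

/-- The weighted sum over the units of a sum over a list of trees. -/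
theorem sum_list (hf : FOUT_Stmt) {s : ℕ} (hs : 2 ≤ s) {M : ℤ} (hM : Odd M) (c : Tr → ℤ)
    (X : List Tr) :
    ∑ τ ∈ Finset.univ.filter (fun τ : ZMod (2 ^ s) => IsUnit τ),
      (ZMod.stdAddChar (-(τ * (M : ZMod (2 ^ s)))) : ℂ) *
        (X.map fun T => LU (2 ^ s) T ((c T : ZMod (2 ^ s)) * τ)).sum =
      (2 ^ s / 2 : ℂ) * (X.map fun T =>
        TL (2 ^ s) (fun v => chi s M ((c T : ZMod (2 ^ s)) * v)) T).sum := by
  induction X with
  | nil => simp
  | cons T X ih =>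
    simp only [List.map_cons, List.sum_cons]
    rw [mul_add, ← ih]
    simp_rw [mul_add]
    rw [Finset.sum_add_distrib, UC.sum_LU hf hs hM]

theorem main_eq (hf : FOUT_Stmt) {s : ℕ} (hs : 2 ≤ s) {M : ℤ} (hM : Odd M) (c : Tr → ℤ)
    (X X' : List Tr) {K : ℂ} (hK : ∀ κ : ZMod (2 ^ s), IsUnit κ →
      (X.map fun T => LU (2 ^ s) T ((c T : ZMod (2 ^ s)) * κ)).sum -
        (X'.map fun T => LU (2 ^ s) T ((c T : ZMod (2 ^ s)) * κ)).sum = K) :
    (X.map fun T => TL (2 ^ s) (fun v => chi s M ((c T : ZMod (2 ^ s)) * v)) T).sum =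
      (X'.map fun T => TL (2 ^ s) (fun v => chi s M ((c T : ZMod (2 ^ s)) * v)) T).sum := by
  have hne : (2 ^ s / 2 : ℂ) ≠ 0 := by
    simp
  have h0 := (hf s hs M hM).2
  have h1 := sum_list hf hs hM c X
  have h2 := sum_list hf hs hM c X'
  have h3 : ∑ τ ∈ Finset.univ.filter (fun τ : ZMod (2 ^ s) => IsUnit τ),
      (ZMod.stdAddChar (-(τ * (M : ZMod (2 ^ s)))) : ℂ) *
        (X.map fun T => LU (2 ^ s) T ((c T : ZMod (2 ^ s)) * τ)).sum -
      ∑ τ ∈ Finset.univ.filter (fun τ : ZMod (2 ^ s) => IsUnit τ),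
      (ZMod.stdAddChar (-(τ * (M : ZMod (2 ^ s)))) : ℂ) *
        (X'.map fun T => LU (2 ^ s) T ((c T : ZMod (2 ^ s)) * τ)).sum = 0 := by
    rw [← Finset.sum_sub_distrib]
    rw [Finset.sum_congr rfl fun τ hτ => by
      rw [← mul_sub, hK τ (Finset.mem_filter.1 hτ).2], ← Finset.sum_mul, h0, zero_mul]
  rw [h1, h2, ← mul_sub] at h3
  rcases mul_eq_zero.1 h3 with h4 | h4
  · exact absurd h4 hne
  · exact sub_eq_zero.1 h4

theorem exists_bound {α : Type} (X : List α) (p : α → ℕ → Prop)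
    (hmono : ∀ x B B', B ≤ B' → p x B → p x B') (h : ∀ x ∈ X, ∃ B, p x B) :
    ∃ B, ∀ x ∈ X, p x B := by
  induction X with
  | nil => exact ⟨0, by simp⟩
  | cons x X ih =>
    obtain ⟨B1, h1⟩ := h x List.mem_cons_self
    obtain ⟨B2, h2⟩ := ih fun y hy => h y (List.mem_cons_of_mem _ hy)
    refine ⟨max B1 B2, fun y hy => ?_⟩
    rw [List.mem_cons] at hy
    rcases hy with rfl | hy
    · exact hmono _ _ _ (le_max_left _ _) h1
    · exact hmono _ _ _ (le_max_right _ _) (h2 y hy)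

theorem gp_anti {B B' : ℕ} (h : B ≤ B') {M : ℤ} (hM : Gp B' M) : Gp B M := by
  obtain ⟨q, h1, h2, h3, h4⟩ := hM
  exact ⟨q, h1, lt_of_le_of_lt h h2, h3, h4⟩

end LIE

open LIE in
/-- MODULE LIE -/
theorem t_LIE (h1 : INTV_Stmt) (h2 : LIMV_Stmt) (h3 : LGUV_Stmt) (h4 : FOUT_Stmt) : LIE_Stmt := by
  intro Ts Ts' h h' hlen hodd hrat hv D hD hdvd
  have hoddA : ∀ t ∈ Ts ++ Ts', Odd (vec t).1 := by
    intro t ht
    rcases List.mem_append.1 ht with ht | ht
    · exact hodd t ht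
    · exact (hrat t ht).2
  have hmul : ∀ t ∈ Ts ++ Ts', D / (vec t).1 * (vec t).1 = D := fun t ht =>
    Int.ediv_mul_cancel (hdvd t ht)
  have hcodd : ∀ t ∈ Ts ++ Ts', Odd (D / (vec t).1) := by
    intro t ht
    have := hmul t ht
    rw [← this] at hD
    exact (Int.odd_mul.1 hD).1
  obtain ⟨B, hB⟩ := exists_bound (Ts ++ Ts') (fun t B => ∀ M : ℤ, Odd M → Gp B M →
      Tendsto (fun s : ℕ => 4 * ((π : ℂ) / 2 ^ s) ^ 2 *
        TL (2 ^ s) (fun v => chi s M (((D / (vec t).1 : ℤ) : ZMod (2 ^ s)) * v)) t) atTop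
        (𝓝 ((Ph (D / (vec t).1) M t : ℚ) : ℂ)))
    (fun t B B' hBB hp M hM hG => hp M hM (gp_anti hBB hG))
    (fun t ht => (h2 (D / (vec t).1) (hcodd t ht)).2 t (hoddA t ht))
  refine ⟨B, fun M hM hG => ?_⟩
  have k1 := UC.tendsto_list Ts (fun t (s : ℕ) => 4 * ((π : ℂ) / 2 ^ s) ^ 2 *
        TL (2 ^ s) (fun v => chi s M (((D / (vec t).1 : ℤ) : ZMod (2 ^ s)) * v)) t)
    (fun t => ((Ph (D / (vec t).1) M t : ℚ) : ℂ))
    (fun t ht => hB t (List.mem_append_left _ ht) M hM hG)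
  have k2 := UC.tendsto_list Ts' (fun t (s : ℕ) => 4 * ((π : ℂ) / 2 ^ s) ^ 2 *
        TL (2 ^ s) (fun v => chi s M (((D / (vec t).1 : ℤ) : ZMod (2 ^ s)) * v)) t)
    (fun t => ((Ph (D / (vec t).1) M t : ℚ) : ℂ))
    (fun t ht => hB t (List.mem_append_right _ ht) M hM hG)
  have key : ∀ s : ℕ, 2 ≤ s →
      (Ts.map fun t => TL (2 ^ s)
        (fun v => chi s M (((D / (vec t).1 : ℤ) : ZMod (2 ^ s)) * v)) t).sum =
      (Ts'.map fun t => TL (2 ^ s)
        (fun v => chi s M (((D / (vec t).1 : ℤ) : ZMod (2 ^ s)) * v)) t).sum := by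
    intro s hs
    obtain ⟨K, hK⟩ := h1 Ts Ts' h h' hlen hodd hrat hv s hs
    refine main_eq h4 hs hM (fun t => D / (vec t).1) Ts Ts' (K := K) fun κ hκ => ?_
    have hy : IsUnit (κ * ((-D : ℤ) : ZMod (2 ^ s))) := hκ.mul (PHI.isUnit_odd s hD.neg)
    obtain ⟨ι, hι, hιy⟩ := PHI.exists_inv s (by omega) hy
    have hcop : IsCoprime ι (2 * ((2 ^ s : ℕ) : ℤ)) := by
      have e1 : (2 * ((2 ^ s : ℕ) : ℤ)) = 2 ^ (s + 1) := by
        push_cast
        ring
      rw [e1]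
      exact IsCoprime.pow_right (Int.isCoprime_two_right.mpr hι)
    have hn1 : 1 < 2 ^ s := Nat.one_lt_two_pow (by omega)
    obtain ⟨hne, hsum⟩ := hK ι hι
    have hval : ∀ t ∈ Ts ++ Ts', (Va (2 ^ s) ι t).2 / (Va (2 ^ s) ι t).1 =
        LU (2 ^ s) t (((D / (vec t).1 : ℤ) : ZMod (2 ^ s)) * κ) := by
      intro t ht
      have e1 : ((D / (vec t).1 : ℤ) : ZMod (2 ^ s)) * κ * (ι : ZMod (2 ^ s)) *
          ((-(vec t).1 : ℤ) : ZMod (2 ^ s)) = 1 := by
        rw [← hιy]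
        have e2 := congrArg (fun z : ℤ => (z : ZMod (2 ^ s))) (hmul t ht)
        simp only [Int.cast_mul] at e2
        rw [Int.cast_neg, Int.cast_neg, ← e2]
        ring
      rw [h3 (2 ^ s) ι hn1 hcop t _ e1, mul_div_cancel_left₀ _ (hne t ht)]
    rw [← hsum, List.map_congr_left fun t ht => (hval t (List.mem_append_left _ ht)).symm,
      List.map_congr_left (l := Ts') fun t ht => (hval t (List.mem_append_right _ ht)).symm]
  have k3 : (fun s : ℕ => (Ts.map fun t => 4 * ((π : ℂ) / 2 ^ s) ^ 2 *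
        TL (2 ^ s) (fun v => chi s M (((D / (vec t).1 : ℤ) : ZMod (2 ^ s)) * v)) t).sum) =ᶠ[atTop]
      fun s : ℕ => (Ts'.map fun t => 4 * ((π : ℂ) / 2 ^ s) ^ 2 *
        TL (2 ^ s) (fun v => chi s M (((D / (vec t).1 : ℤ) : ZMod (2 ^ s)) * v)) t).sum := by
    filter_upwards [eventually_ge_atTop 2] with s hs
    rw [List.sum_map_mul_left, List.sum_map_mul_left, key s hs]
  have k4 := tendsto_nhds_unique (k1.congr' k3) k2
  have k5 : ∀ X : List Tr, (X.map fun t => ((Ph (D / (vec t).1) M t : ℚ) : ℂ)).sum =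
      (((X.map fun t => Ph (D / (vec t).1) M t).sum : ℚ) : ℂ) := by
    intro X
    induction X with
    | nil => simp
    | cons t X ih =>
      simp only [List.map_cons, List.sum_cons]
      rw [ih]
      push_cast
      rfl
  rw [k5, k5] at k4
  exact_mod_cast k4

end Pool.Agent.TV
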