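import Pool.Agent.TV.StH
import Pool.Agent.UC.Lim

/-!
Theorem V (MP_31fd3b_gt), module LIMV: the limits of the sums of a tree.
-/

set_option autoImplicit false

open Filter Topology
open scoped BigOperators Real

namespace Pool.Agent.TV

open Pool.Agent.LibH11.Sliced Pool.Agent.MTR Pool.Agent.MT Pool.Agent.MTA Pool.Agent.UA
open Pool.Agent.UB Pool.Agent.TwoBr Pool.Agent.Mont
open Pool.Agent.TB hiding vec

namespace LIMVaux

theorem gp_mono {B B' : ℕ} (h : B ≤ B') {M : ℤ} (hM : Gp B' M) : Gp B M := by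
  obtain ⟨q, h1, h2, h3, h4⟩ := hM
  exact ⟨q, h1, lt_of_le_of_lt h h2, h3, h4⟩

theorem gp_ne {B : ℕ} {c n M : ℤ} (hB : (c * n).natAbs ≤ B) (hM : Gp B M) (ρ : ℤ) :
    c * (ρ ^ 2 * -n) ≠ M := by
  intro h
  obtain ⟨q, h1, h2, h3, h4⟩ := hM
  have hq : Prime (q : ℤ) := Nat.prime_iff_prime_int.1 h1
  have h5 : (q : ℤ) ∣ (c * n) * ρ ^ 2 := by
    have : (c * n) * ρ ^ 2 = -M := by rw [← h]; ring
    rw [this]
    exact (dvd_neg).2 h3
  rcases hq.dvd_or_dvd h5 with h6 | h6
  · have h7 : c * n = 0 := by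
      refine Int.eq_zero_of_abs_lt_dvd h6 ?_
      rw [Int.abs_eq_natAbs]
      exact_mod_cast lt_of_le_of_lt hB h2
    apply h4
    have : M = 0 := by
      rw [← h]
      linear_combination (-ρ ^ 2) * h7
    rw [this]
    exact dvd_zero _
  · have h7 : (q : ℤ) ∣ ρ := hq.dvd_of_dvd_pow h6
    apply h4
    rw [← h]
    have h8 : (q : ℤ) ^ 2 ∣ ρ ^ 2 := pow_dvd_pow_of_dvd h7 2
    exact ((h8.mul_right (-n)).mul_left c)

/-- the limit of the `cot cot` sums is the finsum -/
theorem zt_lim (hq : LIMQ_Stmt) (h3 : SFIN_Stmt) (c : ℤ) (hc : Odd c) (P V : ℤ × ℤ)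
    (hd : Odd (dt P V)) (M : ℤ) (hM : Odd M) :
    Tendsto (fun s : ℕ => ((π : ℂ) / 2 ^ s) ^ 2 *
      CC (2 ^ s) (cx P) V (1, 0) (0, 1) (fun v => chi s M (c * v))) atTop
      (𝓝 ((Zt c P V M : ℚ) : ℂ)) := by
  have hM0 : M ≠ 0 := by
    rintro rfl
    exact absurd hM (by decide)
  have hd0 : dt P V ≠ 0 := by
    intro h
    rw [h] at hd
    exact absurd hd (by decide)
  have hfin := h3.1 c P V M hd0 hM0
  have hdet : det2 (cx P) V = -(dt P V) := by
    simp only [det2, cx, dt, addv]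
    ring
  have key := UC.cc_key hq (cx P) V (1, 0) (0, 1) 1 (by norm_num) (by simp [det2]) c M
    (by rw [hdet]; exact hd.neg) hc hM hfin.toFinset (by
      intro R
      rw [Set.Finite.mem_toFinset]
      rfl)
  have e : (∑ R ∈ hfin.toFinset, 1 / ((det2 R (1, 0) : ℂ) * (det2 R (0, 1) : ℂ))) =
      ((Zt c P V M : ℚ) : ℂ) := by
    unfold Zt
    rw [finsum_mem_eq_finite_toFinset_sum _ hfin]
    push_cast
    rfl
  rw [← e]
  exact key

theorem tu (hq : LIMQ_Stmt) (hcs : CSCL_Stmt) (h3 : SFIN_Stmt) (c : ℤ) (hc : Odd c) (T : Tr) :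
    ∀ L : ℤ × ℤ, Odd (dt L (vec T)) → ∃ B : ℕ, ∀ M : ℤ, Odd M → Gp B M →
      Tendsto (fun s : ℕ => 4 * ((π : ℂ) / 2 ^ s) ^ 2 *
        TU (2 ^ s) (fun v => chi s M (c * v)) L T) atTop (𝓝 ((PhU c M L T : ℚ) : ℂ)) := by
  induction T with
  | pw e =>
    intro L _
    refine ⟨(c * L.2).natAbs, fun M hM hG => ?_⟩
    have h1 := hcs (-L.2) c M hc hM (fun ρ => gp_ne le_rfl hG ρ)
    have h2 := h1.const_mul (e : ℂ)
    rw [mul_zero] at h2
    have h5 : ((PhU c M L (.pw e) : ℚ) : ℂ) = 0 := by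
      simp [PhU]
    rw [h5]
    refine h2.congr fun s => ?_
    simp only [TU]
    ring
  | cons a b iha ihb =>
    intro L hL
    have hL' : Odd (addv L (vec (.cons a b))).1 := hL
    obtain ⟨Ba, ha⟩ := iha (rv (addv L (vec b))) (by
      change Odd (addv (rv (addv L (vec b))) (vec a)).1
      rw [UC.det_a]
      exact hL')
    obtain ⟨Bb, hb⟩ := ihb (addv L (rv (vec a))) (by
      change Odd (addv (addv L (rv (vec a))) (vec b)).1
      rw [UC.det_b]
      exact hL')
    refine ⟨max Ba Bb, fun M hM hG => ?_⟩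
    have ka := ha M hM (gp_mono (le_max_left _ _) hG)
    have kb := hb M hM (gp_mono (le_max_right _ _) hG)
    have c1 := zt_lim hq h3 c hc (addv L (vec b)) (rv (vec a)) (by
      have : dt (addv L (vec b)) (rv (vec a)) = (addv L (vec (.cons a b))).1 := by
        simp only [dt, addv, rv, vec]
        ring
      rw [this]
      exact hL') M hM
    have c2 := zt_lim hq h3 c hc (addv L (vec (.cons a b))) (0, 1) (by
      have : dt (addv L (vec (.cons a b))) (0, 1) = (addv L (vec (.cons a b))).1 := by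
        simp only [dt, addv]
        ring
      rw [this]
      exact hL') M hM
    have c3 := zt_lim hq h3 c hc (addv (rv (addv L (vec b))) (vec a)) (0, 1) (by
      have : dt (addv (rv (addv L (vec b))) (vec a)) (0, 1) =
          (addv (rv (addv L (vec b))) (vec a)).1 := by
        simp only [dt, addv]
        ring
      rw [this, UC.det_a]
      exact hL') M hM
    have key := (((c1.sub c2).add c3).add ka).add kb
    have hval : ((Zt c (addv L (vec b)) (rv (vec a)) M : ℚ) : ℂ) -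
        ((Zt c (addv L (vec (.cons a b))) (0, 1) M : ℚ) : ℂ) +
        ((Zt c (addv (rv (addv L (vec b))) (vec a)) (0, 1) M : ℚ) : ℂ) +
        ((PhU c M (rv (addv L (vec b))) a : ℚ) : ℂ) +
        ((PhU c M (addv L (rv (vec a))) b : ℚ) : ℂ) = ((PhU c M L (.cons a b) : ℚ) : ℂ) := by
      simp only [PhU]
      push_cast
      ring
    rw [← hval]
    refine key.congr fun s => ?_
    simp only [TU]
    ring

end LIMVaux

open LIMVaux

theorem t_LIMV (h1 : LIMQ_Stmt) (h2 : CSCL_Stmt) (h3 : SFIN_Stmt) : LIMV_Stmt := by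
  intro c hc
  refine ⟨fun T L hL => tu h1 h2 h3 c hc T L hL, fun T hT => ?_⟩
  obtain ⟨B, hB⟩ := tu h1 h2 h3 c hc T (0, 1) (by
    have : dt (0, 1) (vec T) = (vec T).1 := by
      simp only [dt, addv]
      ring
    rw [this]
    exact hT)
  refine ⟨B, fun M hM hG => ?_⟩
  have k1 := hB M hM hG
  have k2 := zt_lim h1 h3 c hc (vec T) (0, 1) (by
    have : dt (vec T) (0, 1) = (vec T).1 := by
      simp only [dt, addv]
      ring
    rw [this]
    exact hT) M hM
  have key := k1.add (k2.const_mul (2 : ℂ))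
  have hval : ((PhU c M (0, 1) T : ℚ) : ℂ) + 2 * ((Zt c (vec T) (0, 1) M : ℚ) : ℂ) =
      ((Ph c M T : ℚ) : ℂ) := by
    simp only [Ph]
    push_cast
    ring
  rw [← hval]
  refine key.congr fun s => ?_
  simp only [TL]
  ring

end Pool.Agent.TV
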