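import Pool.Agent.TV.StK

/-!
Theorem V (MP_31fd3b_gt), module MUK: the classes of `K`.
-/

open scoped BigOperators

namespace Pool.Agent.TV

open Pool.Agent.LibH11.Sliced Pool.Agent.MTR Pool.Agent.MTA Pool.Agent.UA Pool.Agent.UB
open Pool.Agent.TB hiding vec

namespace Mukp

/-- the eight points with their coefficients -/
def pts (σ b0 b1 b2 : ℚ) : List (ℤ × ℚ) :=
  [(1, 0), (-1, σ), (-1, b0), (-1, b1), (-1, b2), (1, σ - b0), (1, σ - b1), (1, σ - b2)]

theorem al_eq (φ : ℚ → ℂ) (σ b0 b1 b2 : ℚ) :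
    al φ σ b0 b1 b2 = ((pts σ b0 b1 b2).map fun e => (e.1 : ℂ) * φ e.2).sum := by
  simp only [al, pts, List.map_cons, List.map_nil, List.sum_cons, List.sum_nil]
  push_cast
  ring

/-- all points of the class of `K` -/
def LK (D K : ℤ) (X : List (ℤ × ℚ × ℚ × ℚ)) : List (ℤ × ℚ) :=
  X.flatMap fun x => if x.1 = K then pts ((D : ℚ) / x.1) x.2.1 x.2.2.1 x.2.2.2 else []

theorem S_eq (D K : ℤ) (X : List (ℤ × ℚ × ℚ × ℚ)) (φ : ℚ → ℂ) :
    (X.map fun x => if x.1 = K then al φ ((D : ℚ) / x.1) x.2.1 x.2.2.1 x.2.2.2 else 0).sum =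
      ((LK D K X).map fun e => (e.1 : ℂ) * φ e.2).sum := by
  unfold LK
  induction X with
  | nil => simp
  | cons x X ih =>
    rw [List.map_cons, List.sum_cons, ih, List.flatMap_cons, List.map_append, List.sum_append]
    congr 1
    split_ifs with h
    · rw [al_eq]
    · simp

/-- grouping by the values of the first component -/
theorem group {α : Type} (X : List (ℤ × α)) (f : ℤ × α → ℂ) (T : Finset ℤ)
    (hT : ∀ x ∈ X, x.1 ∈ T) :
    (X.map f).sum = ∑ k ∈ T, (X.map fun x => if x.1 = k then f x else 0).sum := by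
  induction X with
  | nil => simp
  | cons x X ih =>
    simp only [List.map_cons, List.sum_cons, Finset.sum_add_distrib]
    rw [ih fun y hy => hT y (List.mem_cons_of_mem _ hy)]
    congr 1
    rw [Finset.sum_ite_eq, if_pos (hT x List.mem_cons_self)]

theorem single {α : Type} (X : List (ℤ × α)) (f : ℤ × α → ℂ) (K : ℤ)
    (h : ∀ k : ℤ, k ≠ K → (X.map fun x => if x.1 = k then f x else 0).sum = 0) :
    (X.map f).sum = (X.map fun x => if x.1 = K then f x else 0).sum := by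
  rw [group X f (insert K (X.map Prod.fst).toFinset) (by
    intro x hx
    apply Finset.mem_insert_of_mem
    rw [List.mem_toFinset]
    exact List.mem_map_of_mem hx)]
  exact Finset.sum_eq_single_of_mem K (Finset.mem_insert_self _ _) fun k _ hk => h k hk

/-- the two equations -/
def Eqn (K : ℤ) (σ β : ℚ) (g : ℤ) (z : ℚ) (R : ℤ × ℤ) : Prop :=
  -(K : ℚ) * ((R.1 : ℚ) - β * R.2) * ((R.1 : ℚ) - β * R.2 + σ * R.2) = g ∧
    ((R.1 : ℚ) - β * R.2) / ((R.1 : ℚ) - β * R.2 + σ * R.2) = z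

theorem cqn_def (K : ℤ) (σ β : ℚ) (g : ℤ) (z : ℚ) :
    cqn K σ β g z = {R : ℤ × ℤ | Eqn K σ β g z R}.ncard := rfl

theorem cqn_period (K : ℤ) (σ β : ℚ) (g : ℤ) (z : ℚ) (n : ℤ) :
    cqn K σ (β + n) g z = cqn K σ β g z := by
  rw [cqn_def, cqn_def]
  have key : ∀ R : ℤ × ℤ, Eqn K σ (β + n) g z R ↔ Eqn K σ β g z (R.1 - n * R.2, R.2) := by
    intro R
    unfold Eqn
    have h1 : (((R.1 - n * R.2 : ℤ)) : ℚ) - β * R.2 = R.1 - (β + n) * R.2 := by
      push_cast
      ring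
    simp only [h1]
  refine Set.ncard_congr (fun R _ => (R.1 - n * R.2, R.2)) ?_ ?_ ?_
  · intro R hR
    exact (key R).1 hR
  · intro R R' _ _ h
    rw [Prod.mk.injEq] at h
    obtain ⟨h1, h2⟩ := h
    rw [h2] at h1
    exact Prod.ext (by linarith) h2
  · intro R hR
    refine ⟨(R.1 + n * R.2, R.2), ?_, ?_⟩
    · show Eqn K σ (β + n) g z (R.1 + n * R.2, R.2)
      rw [key]
      simpa using hR
    · simp

/-- The solutions for `K'` when `g`, `z` come from `u`. -/
theorem sol {D K K' : ℤ} {β u y0 : ℚ} {g : ℤ} (hD : D ≠ 0) (hK : K ≠ 0) (hK' : K' ≠ 0)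
    (hg : g ≠ 0) (hgu : (g : ℚ) = K * u * ((D : ℚ) / K * y0 - u)) {R : ℤ × ℤ}
    (hR : Eqn K' ((D : ℚ) / K') β g (u / (u - (D : ℚ) / K * y0)) R) :
    ∃ t : ℚ, K' * t ^ 2 = K ∧ (R.1 : ℚ) - β * R.2 = t * u ∧ (R.2 : ℚ) * K = -(t * y0 * K') := by
  obtain ⟨h1, h2⟩ := hR
  have hKq : (K : ℚ) ≠ 0 := by exact_mod_cast hK
  have hKq' : (K' : ℚ) ≠ 0 := by exact_mod_cast hK'
  have hDq : (D : ℚ) ≠ 0 := by exact_mod_cast hD
  have hgq : (g : ℚ) ≠ 0 := by exact_mod_cast hg
  set v : ℚ := u - (D : ℚ) / K * y0 with hv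
  set a : ℚ := (R.1 : ℚ) - β * R.2 with ha
  set w : ℚ := a + (D : ℚ) / K' * R.2 with hw
  have hgv : (g : ℚ) = -(K * u * v) := by rw [hgu, hv]; ring
  have hu0 : u ≠ 0 := by rintro h; rw [h] at hgv; simp at hgv; exact hg hgv
  have hv0 : v ≠ 0 := by intro h; rw [h] at hgv; simp at hgv; exact hg hgv
  have hw0 : w ≠ 0 := by intro h; rw [h, mul_zero] at h1; exact hgq h1.symm
  have h3 : a * v = u * w := by
    rw [div_eq_div_iff hw0 hv0] at h2
    exact h2
  refine ⟨a / u, ?_, ?_, ?_⟩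
  · have h4 : (K' : ℚ) * a * w = K * u * v := by linarith
    have h5 : w = a * v / u := by rw [h3]; field_simp
    rw [h5] at h4
    have h6 : (K' : ℚ) * a ^ 2 * v = K * u ^ 2 * v := by
      have h7 : (K' : ℚ) * a * (a * v / u) * u = K * u * v * u := by rw [h4]
      have h8 : (K' : ℚ) * a * (a * v / u) * u = K' * a ^ 2 * v := by field_simp
      rw [← h8, h7]
      ring
    have h9 := mul_right_cancel₀ hv0 h6
    rw [div_pow]
    field_simp
    linarith
  · field_simp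
  · have h4 : (D : ℚ) / K' * R.2 * u = -(a * ((D : ℚ) / K * y0)) := by
      have h5 : (D : ℚ) / K' * R.2 = w - a := by rw [hw]; ring
      have h6 : (D : ℚ) / K * y0 = u - v := by rw [hv]; ring
      rw [h5, h6]
      linear_combination -h3
    have h7 : (R.2 : ℚ) * u * K = -(a * y0 * K') := by
      have h8 : (D : ℚ) / K' * R.2 * u * (K * K') = -(a * ((D : ℚ) / K * y0)) * (K * K') := by
        rw [h4]
      field_simp at h8
      linarith
    field_simp
    linarith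

/-- `1` if `x` is an integer, otherwise `0` -/
noncomputable def iz (x : ℚ) : ℂ := open Classical in if ∃ n : ℤ, x = n then 1 else 0

theorem iz_pos {x : ℚ} (h : ∃ n : ℤ, x = n) : iz x = 1 := by unfold iz; rw [if_pos h]

theorem iz_neg {x : ℚ} (h : ¬ ∃ n : ℤ, x = n) : iz x = 0 := by unfold iz; rw [if_neg h]

theorem other_aux {D K K' : ℤ} {β u : ℚ} {y0 : ℕ} {g : ℤ} (hD : D ≠ 0) (hK : K ≠ 0) (hK' : K' ≠ 0)
    (hg : g ≠ 0) (hgu : (g : ℚ) = K * u * ((D : ℚ) / K * y0 - u))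
    (hy : y0 = 1 ∨ y0 = 2 ∧ Odd K) (hKK : K' ≠ K) (hle : K'.natAbs ≤ K.natAbs) {R : ℤ × ℤ}
    (hR : Eqn K' ((D : ℚ) / K') β g (u / (u - (D : ℚ) / K * y0)) R) : False := by
  obtain ⟨t, h1, -, h3⟩ := sol hD hK hK' hg hgu hR
  have hKq' : (K' : ℚ) ≠ 0 := by exact_mod_cast hK'
  have hKq : (K : ℚ) ≠ 0 := by exact_mod_cast hK
  have h4 : (K : ℚ) * R.2 ^ 2 = K' * y0 ^ 2 := by
    have h5 : ((R.2 : ℚ) * K) ^ 2 = t ^ 2 * y0 ^ 2 * K' ^ 2 := by rw [h3]; ring
    have h6 : (K : ℚ) * (K * R.2 ^ 2) = K * (K' * y0 ^ 2) := by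
      have h7 : t ^ 2 * (y0 : ℚ) ^ 2 * K' ^ 2 = K' * t ^ 2 * (K' * y0 ^ 2) := by ring
      rw [h7, h1] at h5
      linarith
    exact mul_left_cancel₀ hKq h6
  have h4' : K * R.2 ^ 2 = K' * (y0 : ℤ) ^ 2 := by exact_mod_cast h4
  -- a square factor
  have h8 : ∃ y : ℤ, K * y ^ 2 = K' := by
    rcases hy with rfl | ⟨rfl, hodd⟩
    · exact ⟨R.2, by rw [h4']; simp⟩
    · have h9 : Even (K * R.2 ^ 2) := by
        rw [h4']
        exact ⟨K' * 2, by push_cast; ring⟩
      have h10 : Even R.2 := by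
        rw [Int.even_mul, Int.even_pow' (by norm_num)] at h9
        rcases h9 with h | h
        · exact absurd h (Int.not_even_iff_odd.2 hodd)
        · exact h
      obtain ⟨y, hy⟩ := h10
      refine ⟨y, ?_⟩
      rw [hy] at h4'
      push_cast at h4'
      linarith
  obtain ⟨y, hy⟩ := h8
  have h11 : y ≠ 0 := by rintro rfl; apply hK'; rw [← hy]; ring
  have h12 : K'.natAbs = K.natAbs * y.natAbs ^ 2 := by rw [← hy, Int.natAbs_mul, Int.natAbs_pow]
  have h13 : 1 ≤ y.natAbs := Int.natAbs_pos.2 h11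
  have h14 : 1 ≤ K.natAbs := Int.natAbs_pos.2 hK
  have h15 : y.natAbs = 1 := by
    by_contra hne
    have h16 : 2 ≤ y.natAbs := by omega
    have h17 : 4 ≤ y.natAbs ^ 2 := by nlinarith
    nlinarith
  apply hKK
  have h18 : y ^ 2 = 1 := by
    rcases Int.natAbs_eq y with h | h
    · rw [h, h15]; norm_num
    · rw [h, h15]; norm_num
  rw [← hy, h18, mul_one]

/-- No solutions for the other small classes. -/
theorem cqn_other {D K K' : ℤ} {β u : ℚ} {y0 : ℕ} {g : ℤ} (hD : D ≠ 0) (hK : K ≠ 0) (hK' : K' ≠ 0)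
    (hg : g ≠ 0) (hgu : (g : ℚ) = K * u * ((D : ℚ) / K * y0 - u))
    (hy : y0 = 1 ∨ y0 = 2 ∧ Odd K) (hKK : K' ≠ K) (hle : K'.natAbs ≤ K.natAbs) :
    cqn K' ((D : ℚ) / K') β g (u / (u - (D : ℚ) / K * y0)) = 0 := by
  have hemp : ∀ R : ℤ × ℤ,
      ¬ Eqn K' ((D : ℚ) / K') β g (u / (u - (D : ℚ) / K * y0)) R := by
    intro R hR
    exact other_aux hD hK hK' hg hgu hy hKK hle hR
  rw [cqn_def, show {R : ℤ × ℤ | Eqn K' ((D : ℚ) / K') β g (u / (u - (D : ℚ) / K * y0)) R} = ∅ from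
    Set.eq_empty_of_forall_notMem hemp, Set.ncard_empty]

/-- The solutions for `K`. -/
theorem cqn_same {D K : ℤ} {β u : ℚ} {y0 : ℕ} {g : ℤ} (hD : D ≠ 0) (hK : K ≠ 0)
    (hg : g ≠ 0) (hgu : (g : ℚ) = K * u * ((D : ℚ) / K * y0 - u)) (hy : y0 ≠ 0) :
    ((cqn K ((D : ℚ) / K) β g (u / (u - (D : ℚ) / K * y0)) : ℕ) : ℂ) = 2 * iz (β * y0 - u) := by
  have hKq : (K : ℚ) ≠ 0 := by exact_mod_cast hK
  have hgq : (g : ℚ) ≠ 0 := by exact_mod_cast hg
  have hyq : (y0 : ℚ) ≠ 0 := by exact_mod_cast hy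
  have key : ∀ R : ℤ × ℤ, Eqn K ((D : ℚ) / K) β g (u / (u - (D : ℚ) / K * y0)) R →
      (R.2 = -(y0 : ℤ) ∧ (R.1 : ℚ) = -(β * y0 - u)) ∨
        (R.2 = (y0 : ℤ) ∧ (R.1 : ℚ) = β * y0 - u) := by
    intro R hR
    obtain ⟨t, h1, h2, h3⟩ := sol hD hK hK hg hgu hR
    have h4 : t ^ 2 = 1 := by
      have : (K : ℚ) * t ^ 2 = K * 1 := by rw [h1, mul_one]
      exact mul_left_cancel₀ hKq this
    have h5 : (R.2 : ℚ) = -(t * y0) := by
      have : (K : ℚ) * R.2 = K * (-(t * y0)) := by linarith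
      exact mul_left_cancel₀ hKq this
    rcases mul_self_eq_one_iff.1 (show t * t = 1 by rw [← pow_two]; exact h4) with h | h
    · left
      rw [h] at h5 h2
      constructor
      · have : (R.2 : ℚ) = ((-(y0 : ℤ) : ℤ) : ℚ) := by rw [h5]; push_cast; ring
        exact_mod_cast this
      · rw [h5] at h2
        linarith
    · right
      rw [h] at h5 h2
      constructor
      · have : (R.2 : ℚ) = ((y0 : ℤ) : ℚ) := by rw [h5]; push_cast; ring
        exact_mod_cast this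
      · rw [h5] at h2
        linarith
  rw [cqn_def]
  by_cases hint : ∃ n : ℤ, β * y0 - u = n
  · obtain ⟨n, hn⟩ := hint
    rw [iz_pos ⟨n, hn⟩]
    have hset : {R : ℤ × ℤ | Eqn K ((D : ℚ) / K) β g (u / (u - (D : ℚ) / K * y0)) R} =
        {(-n, -(y0 : ℤ)), (n, (y0 : ℤ))} := by
      ext R
      simp only [Set.mem_ofPred_eq, Set.mem_insert_iff, Set.mem_singleton_iff]
      constructor
      · intro hR
        rcases key R hR with ⟨h1, h2⟩ | ⟨h1, h2⟩
        · left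
          refine Prod.ext ?_ h1
          rw [hn] at h2
          exact_mod_cast h2
        · right
          refine Prod.ext ?_ h1
          rw [hn] at h2
          exact_mod_cast h2
      · have hgv : (g : ℚ) = -(K * u * (u - (D : ℚ) / K * y0)) := by rw [hgu]; ring
        have hv0 : u - (D : ℚ) / K * y0 ≠ 0 := by
          intro h; rw [h, mul_zero, neg_zero] at hgv; exact hgq hgv
        rintro (rfl | rfl)
        · constructor
          · push_cast
            have h1 : -(n : ℚ) - β * -(y0 : ℚ) = u := by rw [← hn]; ring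
            rw [h1, hgu]
            ring
          · push_cast
            have h1 : -(n : ℚ) - β * -(y0 : ℚ) = u := by rw [← hn]; ring
            rw [h1]
            congr 1
            ring
        · constructor
          · push_cast
            have h1 : (n : ℚ) - β * (y0 : ℚ) = -u := by rw [← hn]; ring
            rw [h1, hgu]
            ring
          · push_cast
            have h1 : (n : ℚ) - β * (y0 : ℚ) = -u := by rw [← hn]; ring
            have h2 : -u + (D : ℚ) / K * y0 = -(u - (D : ℚ) / K * y0) := by ring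
            rw [h1, h2, neg_div_neg_eq]
    rw [hset, Set.ncard_pair]
    · norm_num
    · intro h
      rw [Prod.mk.injEq] at h
      have := h.2
      omega
  · have hemp : ∀ R : ℤ × ℤ, ¬ Eqn K ((D : ℚ) / K) β g (u / (u - (D : ℚ) / K * y0)) R := by
      intro R hR
      rcases key R hR with ⟨-, h2⟩ | ⟨-, h2⟩
      · exact hint ⟨-R.1, by push_cast; rw [h2]; ring⟩
      · exact hint ⟨R.1, h2.symm⟩
    rw [iz_neg hint, mul_zero, show {R : ℤ × ℤ | Eqn K ((D : ℚ) / K) β g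
      (u / (u - (D : ℚ) / K * y0)) R} = ∅ from Set.eq_empty_of_forall_notMem hemp, Set.ncard_empty]
    norm_num

/-- the hypothesis on the list -/
def Hyp (D : ℤ) (X : List (ℤ × ℚ × ℚ × ℚ)) : Prop :=
  ∀ x ∈ X, x.1 ≠ 0 ∧ x.2.1 + x.2.2.1 + x.2.2.2 = (D : ℚ) / x.1 ∧
    ∀ b ∈ [x.2.1, x.2.2.1, x.2.2.2],
      (∃ n : ℤ, (x.1 : ℚ) * b = n) ∧ ∃ n : ℤ, b * (D - x.1 * b) = n

/-- The points of the class are `K`-integral. -/
theorem LK_int {D K : ℤ} {X : List (ℤ × ℚ × ℚ × ℚ)} (hX : Hyp D X) :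
    ∀ e ∈ LK D K X, (∃ n : ℤ, (K : ℚ) * e.2 = n) ∧ ∃ n : ℤ, e.2 * (D - K * e.2) = n := by
  intro e he
  unfold LK at he
  rw [List.mem_flatMap] at he
  obtain ⟨x, hx, he⟩ := he
  split_ifs at he with hK
  swap
  · simp at he
  obtain ⟨h0, h1, h2⟩ := hX x hx
  rw [hK] at h0 h1 h2 he
  have hKq : (K : ℚ) ≠ 0 := by exact_mod_cast h0
  have hσ : (K : ℚ) * ((D : ℚ) / K) = D := by field_simp
  have hb : ∀ b ∈ [x.2.1, x.2.2.1, x.2.2.2],
      (∃ n : ℤ, (K : ℚ) * ((D : ℚ) / K - b) = n) ∧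
        ∃ n : ℤ, ((D : ℚ) / K - b) * (D - K * ((D : ℚ) / K - b)) = n := by
    intro b hb
    obtain ⟨⟨n, hn⟩, m, hm⟩ := h2 b hb
    refine ⟨⟨D - n, ?_⟩, m, ?_⟩
    · rw [mul_sub, hσ, hn]; push_cast; rfl
    · rw [← hm]
      have e1 : ((D : ℚ) / K - b) * (D - K * ((D : ℚ) / K - b)) =
          (D - K * ((D : ℚ) / K)) * ((D : ℚ) / K - b) + b * (K * ((D : ℚ) / K) - K * b) := by ring
      rw [e1, hσ]
      ring
  simp only [pts, List.mem_cons, List.not_mem_nil, or_false] at he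
  rcases he with rfl | rfl | rfl | rfl | rfl | rfl | rfl | rfl
  · exact ⟨⟨0, by simp⟩, 0, by simp⟩
  · refine ⟨⟨D, hσ⟩, 0, ?_⟩
    show (D : ℚ) / K * (D - K * ((D : ℚ) / K)) = _
    rw [hσ]; simp
  · exact h2 _ (by simp)
  · exact h2 _ (by simp)
  · exact h2 _ (by simp)
  · exact hb _ (by simp)
  · exact hb _ (by simp)
  · exact hb _ (by simp)

/-- the sum over the class of `K` -/
noncomputable def SK (D K : ℤ) (X : List (ℤ × ℚ × ℚ × ℚ)) (φ : ℚ → ℂ) : ℂ :=
  (X.map fun x => if x.1 = K then al φ ((D : ℚ) / x.1) x.2.1 x.2.2.1 x.2.2.2 else 0).sum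

theorem SK_eq (D K : ℤ) (X : List (ℤ × ℚ × ℚ × ℚ)) (φ : ℚ → ℂ) :
    SK D K X φ = ((LK D K X).map fun e => (e.1 : ℂ) * φ e.2).sum := S_eq D K X φ

theorem SK_congr {D K : ℤ} {X : List (ℤ × ℚ × ℚ × ℚ)} {φ ψ : ℚ → ℂ}
    (h : ∀ e ∈ LK D K X, φ e.2 = ψ e.2) : SK D K X φ = SK D K X ψ := by
  rw [SK_eq, SK_eq]
  congr 1
  apply List.map_congr_left
  intro e he
  rw [h e he]

theorem SK_zero {D K : ℤ} {X : List (ℤ × ℚ × ℚ × ℚ)} {φ : ℚ → ℂ}
    (h : ∀ β, φ β = 0) : SK D K X φ = 0 := by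
  rw [SK_eq]
  apply List.sum_eq_zero
  intro y hy
  rw [List.mem_map] at hy
  obtain ⟨e, -, rfl⟩ := hy
  rw [h, mul_zero]

theorem SK_mul {D K : ℤ} {X : List (ℤ × ℚ × ℚ × ℚ)} {φ : ℚ → ℂ} (c : ℂ) :
    SK D K X (fun β => c * φ β) = c * SK D K X φ := by
  rw [SK_eq, SK_eq, ← List.sum_map_mul_left]
  congr 1
  apply List.map_congr_left
  intro e _
  ring

/-- Part (a). -/
theorem partA {D K : ℤ} {X : List (ℤ × ℚ × ℚ × ℚ)} (hD : D ≠ 0) (hX : Hyp D X) (hK : K ≠ 0)
    (hh : ∀ (g : ℤ) (z : ℚ), Odd g → z ≠ 0 →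
      (X.map fun x => al (fun β => (cqn x.1 ((D : ℚ) / x.1) β g z : ℂ)) ((D : ℚ) / x.1) x.2.1
        x.2.2.1 x.2.2.2).sum = 0)
    (ih : ∀ k : ℤ, K.natAbs < k.natAbs → ∀ φ : ℚ → ℂ, (∀ (β : ℚ) (n : ℤ), φ (β + n) = φ β) →
      SK D k X φ = 0)
    {y0 : ℕ} (hy : y0 = 1 ∨ y0 = 2 ∧ Odd K) {u : ℚ} {g : ℤ} (hg : Odd g)
    (hgu : (g : ℚ) = K * u * ((D : ℚ) / K * y0 - u)) :
    SK D K X (fun β => iz (β * y0 - u)) = 0 := by
  have hg0 : g ≠ 0 := by rintro rfl; simp at hg
  have hgq : (g : ℚ) ≠ 0 := by exact_mod_cast hg0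
  have hy0 : y0 ≠ 0 := by omega
  have hgv : (g : ℚ) = -(K * u * (u - (D : ℚ) / K * y0)) := by rw [hgu]; ring
  have hu0 : u ≠ 0 := by
    intro h; rw [h, mul_zero, zero_mul, neg_zero] at hgv; exact hgq hgv
  have hv0 : u - (D : ℚ) / K * y0 ≠ 0 := by
    intro h; rw [h, mul_zero, neg_zero] at hgv; exact hgq hgv
  have h1 := hh g (u / (u - (D : ℚ) / K * y0)) hg (div_ne_zero hu0 hv0)
  rw [single X _ K] at h1
  · have h2 : SK D K X (fun β => 2 * iz (β * y0 - u)) = 0 := by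
      rw [← h1]
      unfold SK
      congr 1
      apply List.map_congr_left
      intro x _
      split_ifs with hx
      · rw [hx]
        congr 1
        funext β
        exact (cqn_same hD hK hg0 hgu hy0).symm
      · rfl
    rw [SK_mul] at h2
    exact (mul_eq_zero.1 h2).resolve_left (by norm_num)
  · intro k hk
    have h3 : (X.map fun x => if x.1 = k then
        al (fun β => (cqn x.1 ((D : ℚ) / x.1) β g (u / (u - (D : ℚ) / K * y0)) : ℂ))
          ((D : ℚ) / x.1) x.2.1 x.2.2.1 x.2.2.2 else 0).sum =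
        SK D k X (fun β => (cqn k ((D : ℚ) / k) β g (u / (u - (D : ℚ) / K * y0)) : ℂ)) := by
      unfold SK
      congr 1
      apply List.map_congr_left
      intro x _
      split_ifs with hx
      · rw [hx]
      · rfl
    rw [h3]
    rcases lt_or_ge K.natAbs k.natAbs with hlt | hle
    · apply ih k hlt
      intro β n
      rw [cqn_period]
    · rcases eq_or_ne k 0 with rfl | hk0
      · unfold SK
        apply List.sum_eq_zero
        intro y hy'
        rw [List.mem_map] at hy'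
        obtain ⟨x, hx, rfl⟩ := hy'
        rw [if_neg (hX x hx).1]
      · apply SK_zero
        intro β
        rw [cqn_other hD hK hk0 hg0 hgu hy hk hle]
        simp

/-- Part (b). -/
theorem partB {D K : ℤ} {X : List (ℤ × ℚ × ℚ × ℚ)} (hD : Odd D) (hX : Hyp D X) (hK : K ≠ 0)
    (hh : ∀ (g : ℤ) (z : ℚ), Odd g → z ≠ 0 →
      (X.map fun x => al (fun β => (cqn x.1 ((D : ℚ) / x.1) β g z : ℂ)) ((D : ℚ) / x.1) x.2.1
        x.2.2.1 x.2.2.2).sum = 0)
    (ih : ∀ k : ℤ, K.natAbs < k.natAbs → ∀ φ : ℚ → ℂ, (∀ (β : ℚ) (n : ℤ), φ (β + n) = φ β) →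
      SK D k X φ = 0)
    {b : ℚ} {B C : ℤ} (hB : (K : ℚ) * b = B) (hC : b * (D - K * b) = C) :
    SK D K X (fun β => iz (β - b)) = 0 := by
  have hD0 : D ≠ 0 := by rintro rfl; simp at hD
  have hKq : (K : ℚ) ≠ 0 := by exact_mod_cast hK
  have hσ : (K : ℚ) * ((D : ℚ) / K) = D := by field_simp
  rcases Int.even_or_odd K with hKe | hKo
  · -- `K` even
    obtain ⟨m, hm⟩ : ∃ m : ℤ, Odd (C + m * (D - 2 * B) - K * m ^ 2) := by
      rcases Int.even_or_odd C with hc | hc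
      · refine ⟨1, ?_⟩
        have h1 : C + 1 * (D - 2 * B) - K * 1 ^ 2 = D + (C - 2 * B - K) := by ring
        rw [h1]
        apply hD.add_even
        exact (hc.sub (even_two_mul B)).sub hKe
      · exact ⟨0, by simpa using hc⟩
    have h2 := partA (y0 := 1) (u := b + m) hD0 hX hK hh ih (Or.inl rfl) hm (by
      push_cast
      have e1 : (K : ℚ) * (b + m) * ((D : ℚ) / K * 1 - (b + m)) =
          K * ((D : ℚ) / K) * (b + m) - (K * b) * (b + m) - K * b * m - K * m ^ 2 := by ring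
      rw [e1, hσ, ← hC, ← hB]
      ring)
    rw [← h2]
    apply SK_congr
    intro e _
    push_cast
    by_cases h : ∃ n : ℤ, e.2 - b = n
    · rw [iz_pos h]
      obtain ⟨n, hn⟩ := h
      rw [iz_pos ⟨n - m, by push_cast; rw [← hn]; ring⟩]
    · rw [iz_neg h, iz_neg]
      rintro ⟨n, hn⟩
      exact h ⟨n + m, by push_cast; rw [← hn]; ring⟩
  · -- `K` odd
    have hm : Odd (4 * C + 2 * (D - B) - 2 * B - K) := by
      have h1 : 4 * C + 2 * (D - B) - 2 * B - K = 2 * (2 * C + (D - B) - B) - K := by ring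
      rw [h1]
      exact (even_two_mul _).sub_odd hKo
    have h2 := partA (y0 := 2) (u := 2 * b + 1) hD0 hX hK hh ih (Or.inr ⟨rfl, hKo⟩) hm (by
      push_cast
      have e1 : (K : ℚ) * (2 * b + 1) * ((D : ℚ) / K * 2 - (2 * b + 1)) =
          K * ((D : ℚ) / K) * (2 * (2 * b + 1)) - K * (2 * b + 1) ^ 2 := by ring
      rw [e1, hσ, ← hC, ← hB]
      ring)
    rw [← h2]
    apply SK_congr
    intro e he
    push_cast
    by_cases h : ∃ n : ℤ, e.2 - b = n
    · rw [iz_pos h]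
      obtain ⟨n, hn⟩ := h
      rw [iz_pos ⟨2 * n - 1, by push_cast; rw [← hn]; ring⟩]
    · rw [iz_neg h, iz_neg]
      rintro ⟨n, hn⟩
      apply h
      obtain ⟨⟨E, hE⟩, -⟩ := LK_int hX e he
      obtain ⟨k, hk⟩ := hKo
      have h3 : 2 * (e.2 - b) = ((n + 1 : ℤ) : ℚ) := by push_cast; linarith
      have h4 : (K : ℚ) * (e.2 - b) = ((E - B : ℤ) : ℚ) := by
        push_cast; rw [mul_sub, hE, hB]
      refine ⟨(E - B) - k * (n + 1), ?_⟩
      have hkq : (K : ℚ) = 2 * k + 1 := by rw [hk]; push_cast; ring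
      push_cast
      push_cast at h3 h4
      rw [← h4, ← h3, hkq]
      ring

end Mukp

open Mukp in
theorem t_MUK (h1 : FIB_Stmt) : MUK_Stmt := by
  intro D hD X hX hh
  have hX' : Hyp D X := hX
  obtain ⟨Bd, hBd⟩ : ∃ Bd : ℕ, ∀ x ∈ X, x.1.natAbs ≤ Bd :=
    ⟨X.toFinset.sup (fun x => x.1.natAbs), fun x hx =>
      Finset.le_sup (f := fun x : ℤ × ℚ × ℚ × ℚ => x.1.natAbs) (List.mem_toFinset.2 hx)⟩
  have main : ∀ (N : ℕ) (K : ℤ), Bd + 1 - K.natAbs = N → ∀ φ : ℚ → ℂ,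
      (∀ (β : ℚ) (n : ℤ), φ (β + n) = φ β) → SK D K X φ = 0 := by
    intro N
    induction N using Nat.strong_induction_on with
    | _ N IH =>
      intro K hN φ hφ
      by_cases hK : ∃ x ∈ X, x.1 = K
      · obtain ⟨x0, hx0, hx0K⟩ := hK
        have hK0 : K ≠ 0 := by rw [← hx0K]; exact (hX x0 hx0).1
        have hKB : K.natAbs ≤ Bd := by rw [← hx0K]; exact hBd x0 hx0
        have ih : ∀ k : ℤ, K.natAbs < k.natAbs → ∀ φ : ℚ → ℂ,
            (∀ (β : ℚ) (n : ℤ), φ (β + n) = φ β) → SK D k X φ = 0 := fun k hk φ hφ =>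
          IH (Bd + 1 - k.natAbs) (by omega) k rfl φ hφ
        have hfib := h1 ℚ ((LK D K X).map fun e => (e.1, Int.fract e.2)) (by
          intro a
          rw [List.map_map]
          by_cases ha : ∃ e ∈ LK D K X, Int.fract e.2 = a
          · obtain ⟨e0, he0, rfl⟩ := ha
            obtain ⟨⟨B, hB⟩, C, hC⟩ := LK_int hX' e0 he0
            have h2 := partB hD hX' hK0 hh ih hB hC
            rw [SK_eq] at h2
            have h3 : (((((LK D K X).map ((fun e : ℤ × ℚ => if e.2 = Int.fract e0.2 then e.1 else 0) ∘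
                fun e => (e.1, Int.fract e.2))).sum : ℤ)) : ℂ) =
                ((LK D K X).map fun e => (e.1 : ℂ) * iz (e.2 - e0.2)).sum := by
              rw [Int.cast_list_sum, List.map_map]
              congr 1
              apply List.map_congr_left
              intro e _
              simp only [Function.comp]
              by_cases h : Int.fract e.2 = Int.fract e0.2
              · rw [if_pos h, iz_pos (Int.fract_eq_fract.1 h), mul_one]
              · rw [if_neg h, iz_neg (fun hh => h (Int.fract_eq_fract.2 hh)), mul_zero,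
                  Int.cast_zero]
            rw [h2] at h3
            exact_mod_cast h3
          · apply List.sum_eq_zero
            intro y hy
            rw [List.mem_map] at hy
            obtain ⟨e, he, rfl⟩ := hy
            simp only [Function.comp]
            rw [if_neg (fun h => ha ⟨e, he, h⟩)]) φ
        rw [SK_eq, ← hfib, List.map_map]
        congr 1
        apply List.map_congr_left
        intro e _
        simp only [Function.comp]
        have h4 : φ e.2 = φ (Int.fract e.2) := by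
          conv_lhs => rw [← Int.fract_add_floor e.2]
          exact hφ _ _
        rw [h4]
      · unfold SK
        apply List.sum_eq_zero
        intro y hy
        rw [List.mem_map] at hy
        obtain ⟨x, hx, rfl⟩ := hy
        rw [if_neg (fun h => hK ⟨x, hx, h⟩)]
  intro K φ hφ
  exact main _ K rfl φ hφ

end Pool.Agent.TV
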