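import Pool.Agent.TV.StJ
import Pool.Agent.UA.Wle

/-!
Module NWL of Theorem V (MP_31fd3b_gt): the recursion for the second logarithmic derivative.
-/

open scoped BigOperators

namespace Pool.Agent.TV

open Pool.Agent.LibH11.Sliced Pool.Agent.MTR Pool.Agent.MTA Pool.Agent.UA Pool.Agent.UB
open Pool.Agent.TB hiding vec

namespace Nwlx

theorem rat_eT (T : Tr) : T.Rat → eT T = 0 := Pool.Agent.UA.Wlex.rat_eT T

theorem dt_ne {P V : ℤ × ℤ} (h : dt P V ≠ 0) : P ≠ 0 ∧ V ≠ 0 := by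
  constructor
  · rintro rfl
    apply h
    simp [dt, addv]
  · rintro rfl
    apply h
    simp [dt, addv]

theorem rv_ne {v : ℤ × ℤ} (h : rv v ≠ 0) : v ≠ 0 := by
  rintro rfl
  apply h
  simp [rv]

theorem ne_rv {v : ℤ × ℤ} (h : v ≠ 0) : rv v ≠ 0 := by
  intro h0
  apply h
  have h1 := congrArg Prod.fst h0
  have h2 := congrArg Prod.snd h0
  simp only [rv, Prod.fst_zero, Prod.snd_zero, neg_eq_zero] at h1 h2
  ext <;> simp [h1, h2]

theorem dir_comp {R : Tr} {v : ℤ × ℤ} (h : Dir R v) :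
    R.Rat ∧ ∃ k : ℤ, k ≠ 0 ∧ v = k • vec R ∧ v.1 = k * (vec R).1 ∧ v.2 = k * (vec R).2 := by
  obtain ⟨h1, k, hk, hv⟩ := h
  refine ⟨h1, k, hk, hv, ?_, ?_⟩
  · rw [hv]; simp
  · rw [hv]; simp

theorem ct_sq (h3 : RU_Stmt) {R : Tr} {v : ℤ × ℤ} {k : ℤ} (hR : R.Rat) (hv : v = k • vec R)
    (hk : k ≠ 0) : ((ct' v : ℚ) : ℂ) ^ 2 = (k : ℂ) ^ 2 ∧ ((ct' v : ℚ) : ℂ) ≠ 0 := by
  have h := (h3.2.2.2.1 R v k hR hv hk).2.2
  have h1 : (ct' v) ^ 2 = (k : ℚ) ^ 2 := by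
    rw [h, Nat.cast_natAbs, Int.cast_abs, sq_abs]
  have h2 : ((ct' v : ℚ) : ℂ) ^ 2 = (k : ℂ) ^ 2 := by exact_mod_cast congrArg (Rat.cast (K := ℂ)) h1
  refine ⟨h2, ?_⟩
  intro h0
  rw [h0] at h2
  have : (k : ℂ) ≠ 0 := by exact_mod_cast hk
  apply this
  have h4 : (k : ℂ) ^ 2 = 0 := by rw [← h2]; ring
  exact pow_eq_zero_iff (two_ne_zero) |>.1 h4

theorem ct_rv (v : ℤ × ℤ) : ct' (rv v) = ct' v := by
  unfold ct' rv
  simp only [Int.neg_gcd]
  rw [Int.gcd_comm]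

theorem rot0 (v : JR × JR) : cf 0 (rotv v).1 = -cf 0 v.2 ∧ cf 0 (rotv v).2 = cf 0 v.1 :=
  ⟨map_neg _ _, rfl⟩

/-- the recursion -/
theorem recur (h1 : WADG_Stmt) (h2 : OMR_Stmt) (h3 : RU_Stmt) (h4 : JPV_Stmt) (h5 : JDV_Stmt)
    (L : ℤ × ℤ) (a b : Tr) (hd : dt L (vec (.cons a b)) ≠ 0) :
    Wc L (.cons a b) = Wc (rv (addv L (vec b))) a + Wc (addv L (rv (vec a))) b +
      w3 (L, rv (vec a), vec b) - om (addv L (vec b)) (rv (vec a)) -
      om (addv L (rv (vec a))) (vec b) -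
      ((2 * E1 L b * Eg a / ((dt L (vec (.cons a b)) : ℤ) / ct' L) ^ 2 +
        2 * E2 L a * Eg b / ((dt L (vec (.cons a b)) : ℤ) / (ct' L * ct' (vec a))) ^ 2 : ℚ) : ℂ) := by
  have hda : dt (rv (addv L (vec b))) (vec a) = dt L (vec (.cons a b)) := by
    simp only [dt, vec, rv, addv]
    ring
  have hdb : dt (addv L (rv (vec a))) (vec b) = dt L (vec (.cons a b)) := by
    simp only [dt, vec, rv, addv]
    ring
  have hL0 : L ≠ 0 := (dt_ne hd).1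
  have hLb0 : addv L (vec b) ≠ 0 := rv_ne (dt_ne (hda ▸ hd)).1
  have ha0 : vec a ≠ 0 := (dt_ne (hda ▸ hd)).2
  have hLa0 : addv L (rv (vec a)) ≠ 0 := (dt_ne (hdb ▸ hd)).1
  have hb0 : vec b ≠ 0 := (dt_ne (hdb ▸ hd)).2
  have hDS := h3.1 L hL0
  have hD1 := h3.1 _ hLb0
  have hDR := h3.1 _ (ne_rv ha0)
  have hD2 := h3.1 _ hLa0
  have hDQ := h3.1 _ hb0
  set S := rt L with hS
  set S1 := rt (addv L (vec b)) with hS1
  set R := rt (rv (vec a)) with hR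
  set S2 := rt (addv L (rv (vec a))) with hS2
  set Q := rt (vec b) with hQ
  obtain ⟨rS, kS, kS0, eS, eS1, eS2⟩ := dir_comp hDS
  obtain ⟨r1, k1, k10, e1, e11, e12⟩ := dir_comp hD1
  obtain ⟨rR, kR, kR0, eR, eR1, eR2⟩ := dir_comp hDR
  obtain ⟨r2, k2, k20, e2, e21, e22⟩ := dir_comp hD2
  obtain ⟨rQ, kQ, kQ0, eQ, eQ1, eQ2⟩ := dir_comp hDQ
  obtain ⟨hevm, hevr, hbv, hcf, hw⟩ := h5
  have hJ := (h4 JR sx).1
  have hSc := hbv S
  have h1c := hbv S1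
  have hRc := hbv R
  have h2c := hbv S2
  have hQc := hbv Q
  have hac := hbv a
  have hbc := hbv b
  rw [rat_eT S rS, Int.cast_zero] at hSc
  rw [rat_eT S1 r1, Int.cast_zero] at h1c
  rw [rat_eT R rR, Int.cast_zero] at hRc
  rw [rat_eT S2 r2, Int.cast_zero] at h2c
  rw [rat_eT Q rQ, Int.cast_zero] at hQc
  -- the casts
  have cS0 : (kS : ℂ) ≠ 0 := by exact_mod_cast kS0
  have c10 : (k1 : ℂ) ≠ 0 := by exact_mod_cast k10
  have cR0 : (kR : ℂ) ≠ 0 := by exact_mod_cast kR0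
  have c20 : (k2 : ℂ) ≠ 0 := by exact_mod_cast k20
  have cQ0 : (kQ : ℂ) ≠ 0 := by exact_mod_cast kQ0
  have cL1 : (L.1 : ℂ) = kS * (vec S).1 := by exact_mod_cast eS1
  have cL2 : (L.2 : ℂ) = kS * (vec S).2 := by exact_mod_cast eS2
  have c11 : (L.1 : ℂ) * (vec b).2 + (vec b).1 * L.2 = k1 * (vec S1).1 := by
    simp only [addv] at e11
    exact_mod_cast e11
  have c12 : (L.2 : ℂ) * (vec b).2 = k1 * (vec S1).2 := by
    simp only [addv] at e12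
    exact_mod_cast e12
  have cR1 : -((vec a).2 : ℂ) = kR * (vec R).1 := by
    simp only [rv] at eR1
    exact_mod_cast eR1
  have cR2 : ((vec a).1 : ℂ) = kR * (vec R).2 := by
    simp only [rv] at eR2
    exact_mod_cast eR2
  have c21 : (L.1 : ℂ) * (vec a).1 + -(vec a).2 * L.2 = k2 * (vec S2).1 := by
    simp only [addv, rv] at e21
    exact_mod_cast e21
  have c22 : (L.2 : ℂ) * (vec a).1 = k2 * (vec S2).2 := by
    simp only [addv, rv] at e22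
    exact_mod_cast e22
  have cQ1 : ((vec b).1 : ℂ) = kQ * (vec Q).1 := by exact_mod_cast eQ1
  have cQ2 : ((vec b).2 : ℂ) = kQ * (vec Q).2 := by exact_mod_cast eQ2
  have cd : ((dt L (vec (.cons a b)) : ℤ) : ℂ) = (L.1 : ℂ) * ((vec a).1 * (vec b).2) +
      (-(vec a).2 * (vec b).2 + (vec b).1 * (vec a).1) * L.2 := by
    have : dt L (vec (.cons a b)) = L.1 * ((vec a).1 * (vec b).2) +
      (-(vec a).2 * (vec b).2 + (vec b).1 * (vec a).1) * L.2 := rfl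
    exact_mod_cast congrArg (Int.cast (R := ℂ)) this
  have cd0 : ((dt L (vec (.cons a b)) : ℤ) : ℂ) ≠ 0 := by exact_mod_cast hd
  obtain ⟨sL, sL0⟩ := ct_sq h3 rS eS kS0
  obtain ⟨s1, s10⟩ := ct_sq h3 r1 e1 k10
  obtain ⟨sR, sR0⟩ := ct_sq h3 rR eR kR0
  obtain ⟨s2, s20⟩ := ct_sq h3 r2 e2 k20
  obtain ⟨sQ, sQ0⟩ := ct_sq h3 rQ eQ kQ0
  rw [ct_rv] at sR sR0
  -- first application
  have dB1 : cf 0 (clv sx (mulv sx (mulv sx (bv sx S) (bv sx b)) (rotv (bv sx a)))) =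
      ((dt L (vec (.cons a b)) : ℤ) : ℂ) / kS := by
    rw [(hcf _ (0, 0)).2.2, (hcf _ _).1, (hcf _ _).2.1, (hcf _ _).1, (rot0 _).1, (rot0 _).2,
      hSc.1, hSc.2.1, hbc.1, hbc.2.1, hac.1, hac.2.1, cd, cL1, cL2]
    field_simp
    ring
  have W1 := h1 (mulv sx (bv sx S) (bv sx b)) (rotv (bv sx a)) (bv sx S1) (bv sx R)
    ((k1 : ℂ) / kS) (kR : ℂ) (div_ne_zero c10 cS0) cR0
    (by
      rw [(hcf _ _).1, hSc.1, hSc.2.1, hbc.1, hbc.2.1, h1c.1, div_mul_eq_mul_div, ← c11, cL1, cL2]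
      field_simp
      ring)
    (by
      rw [(hcf _ _).2.1, hSc.2.1, hbc.2.1, h1c.2.1, div_mul_eq_mul_div, ← c12, cL2]
      field_simp)
    (by rw [(rot0 _).1, hRc.1, hac.2.1, cR1])
    (by rw [(rot0 _).2, hRc.2.1, hac.1, cR2])
    h1c.2.2 hRc.2.2
    (by rw [dB1]; exact div_ne_zero cd0 cS0)
  -- second application
  have dB2 : cf 0 (clv sx (mulv sx (mulv sx (bv sx S) (bv sx R)) (bv sx b))) =
      ((dt L (vec (.cons a b)) : ℤ) : ℂ) / (kS * kR) := by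
    rw [(hcf _ (0, 0)).2.2, (hcf _ _).1, (hcf _ _).2.1, (hcf _ _).1,
      hSc.1, hSc.2.1, hbc.1, hbc.2.1, hRc.1, hRc.2.1, cd, cL1, cL2, cR2, cR1]
    field_simp
    ring
  have W2 := h1 (mulv sx (bv sx S) (bv sx R)) (bv sx b) (bv sx S2) (bv sx Q)
    ((k2 : ℂ) / (kS * kR)) (kQ : ℂ) (div_ne_zero c20 (mul_ne_zero cS0 cR0)) cQ0
    (by
      rw [(hcf _ _).1, hSc.1, hSc.2.1, hRc.1, hRc.2.1, h2c.1, div_mul_eq_mul_div, ← c21, cL1, cL2,
        cR1, cR2]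
      field_simp
      ring)
    (by
      rw [(hcf _ _).2.1, hSc.2.1, hRc.2.1, h2c.2.1, div_mul_eq_mul_div, ← c22, cL2, cR2]
      field_simp)
    (by rw [hQc.1, hbc.1, cQ1])
    (by rw [hQc.2.1, hbc.2.1, cQ2])
    h2c.2.2 hQc.2.2
    (by rw [dB2]; exact div_ne_zero cd0 (mul_ne_zero cS0 cR0))
  -- the values
  have V1 : w2 (clv sx (mulv sx (mulv sx (bv sx S) (bv sx b)) (rotv (bv sx a)))) =
      Wc L (.cons a b) := by
    rw [(hJ (bv sx S) (bv sx b) (rotv (bv sx a))).2.1,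
      (hJ (bv sx b) (rotv (bv sx a)) (0, 1)).1]
    rfl
  have V2 : w2 (clv sx (mulv sx (bv sx S1) (rotv (bv sx a)))) = Wc (rv (addv L (vec b))) a := by
    rw [← (hJ (bv sx S1) (bv sx a) (0, 1)).2.2.2.1, ← Pool.Agent.UA.Wlex.bv_rot h4 S1]
    exact (h2.2.2 _ _ _ (h3.2.2.2.2 S1 _ hD1).2.1).symm
  have V3 : clv sx (mulv sx (mulv sx (bv sx S) (bv sx b)) (bv sx R)) =
      clv sx (mulv sx (mulv sx (bv sx S) (bv sx R)) (bv sx b)) := by
    rw [(hJ (bv sx S) (bv sx b) (bv sx R)).2.1, (hJ (bv sx b) (bv sx R) (0, 1)).1,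
      ← (hJ (bv sx S) (bv sx R) (bv sx b)).2.1]
  have V4 : w2 (clv sx (mulv sx (bv sx S2) (bv sx b))) = Wc (addv L (rv (vec a))) b := rfl
  have V5 : w2 (clv sx (mulv sx (bv sx S1) (bv sx R))) = om (addv L (vec b)) (rv (vec a)) := rfl
  have V6 : w2 (clv sx (mulv sx (bv sx S2) (bv sx Q))) = om (addv L (rv (vec a))) (vec b) := rfl
  have V7 : w2 (clv sx (mulv sx (mulv sx (bv sx S) (bv sx R)) (bv sx Q))) =
      w3 (L, rv (vec a), vec b) := by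
    rw [(hJ (bv sx S) (bv sx R) (bv sx Q)).2.1]
    rfl
  -- the deviations
  have E1' : ev (mulv sx (bv sx S) (bv sx b)) + 2 - 2 * ((k1 : ℂ) / kS) ^ 2 =
      ((E1 L b : ℚ) : ℂ) := by
    unfold E1
    push_cast
    rw [hevm, hSc.2.2, hbc.2.2, hSc.2.1, hbc.2.1, div_pow, div_pow, div_pow, s1, sL, cL2]
    field_simp
    ring
  have E2' : ev (mulv sx (bv sx S) (bv sx R)) + 2 - 2 * ((k2 : ℂ) / (kS * kR)) ^ 2 =
      ((E2 L a : ℚ) : ℂ) := by
    unfold E2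
    push_cast
    rw [hevm, hSc.2.2, hRc.2.2, hSc.2.1, hRc.2.1, div_pow, div_pow, div_pow, div_pow, mul_pow,
      mul_pow, s2, sL, sR, cL2, cR2]
    field_simp
    ring
  have G1 : ev (rotv (bv sx a)) + 2 - 2 * (kR : ℂ) ^ 2 = ((Eg a : ℚ) : ℂ) := by
    unfold Eg
    push_cast
    rw [hevr, hac.2.2, sR]
  have G2 : ev (bv sx b) + 2 - 2 * (kQ : ℂ) ^ 2 = ((Eg b : ℚ) : ℂ) := by
    unfold Eg
    push_cast
    rw [hbc.2.2, sQ]
  rw [V1, V5, V2, V3, E1', G1, dB1] at W1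
  rw [V6, V4, V7, E2', G2, dB2] at W2
  push_cast
  rw [div_pow] at W1 W2
  rw [div_pow, div_pow, mul_pow, sL, sR]
  rw [mul_pow] at W2
  linear_combination W1 + W2

end Nwlx

theorem t_NWL (h1 : WADG_Stmt) (h2 : OMR_Stmt) (h3 : RU_Stmt) (h4 : JPV_Stmt) (h5 : JDV_Stmt) :
    NWL_Stmt := by
  intro T
  induction T with
  | pw e =>
    intro L hd
    have hL0 := (Nwlx.dt_ne hd).1
    have hD := h3.1 L hL0
    have hpw : Dir (.pw e) (-e, 1) := ⟨trivial, 1, one_ne_zero, by simp [vec]⟩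
    have h := h2.1 L (-e, 1) (rt L) (.pw e) hD hpw
    have hW : Wc L (.pw e) = om L (-e, 1) := by rw [h]; rfl
    rw [hW]
    simp [NL, evO, vts, cr]
  | cons a b iha ihb =>
    intro L hd
    have hda : dt (rv (addv L (vec b))) (vec a) = dt L (vec (.cons a b)) := by
      simp only [dt, vec, rv, addv]
      ring
    have hdb : dt (addv L (rv (vec a))) (vec b) = dt L (vec (.cons a b)) := by
      simp only [dt, vec, rv, addv]
      ring
    have ia := iha _ (hda ▸ hd)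
    have ib := ihb _ (hdb ▸ hd)
    rw [Nwlx.recur h1 h2 h3 h4 h5 L a b hd]
    have e1 : evO (NL L (.cons a b)) = evO (nv (L, rv (vec a), vec b)) +
        (-2 * om (addv L (vec b)) (rv (vec a)) + (-2 * om (addv L (rv (vec a))) (vec b) +
        (evO (NL (rv (addv L (vec b))) a) + evO (NL (addv L (rv (vec a))) b)))) := by
      simp [NL, evO, List.map_append, List.sum_append]
    have e2 : ((vts L (.cons a b)).map fun v => 2 * w3 v - evO (nv v)).sum =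
        (2 * w3 (L, rv (vec a), vec b) - evO (nv (L, rv (vec a), vec b))) +
        (((vts (rv (addv L (vec b))) a).map fun v => 2 * w3 v - evO (nv v)).sum +
        ((vts (addv L (rv (vec a))) b).map fun v => 2 * w3 v - evO (nv v)).sum) := by
      simp [vts, List.map_append, List.sum_append]
    rw [e1, e2]
    have e3 : ((cr L (.cons a b) : ℚ) : ℂ) =
        ((2 * E1 L b * Eg a / ((dt L (vec (.cons a b)) : ℤ) / ct' L) ^ 2 +
        2 * E2 L a * Eg b / ((dt L (vec (.cons a b)) : ℤ) / (ct' L * ct' (vec a))) ^ 2 : ℚ) : ℂ) +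
        (cr (rv (addv L (vec b))) a : ℚ) + (cr (addv L (rv (vec a))) b : ℚ) := by
      simp only [cr]
      push_cast
      ring
    rw [e3]
    linear_combination ia + ib

end Pool.Agent.TV
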