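import Pool.Agent.TV.StH
import Pool.Agent.MTA.Mnz
import Pool.Agent.MTA.Stb
import Pool.Agent.TB.Zt
import Pool.Agent.UB.Stu

/-!
Theorem V (MP_31fd3b_gt), module NZR: the values of rational trees at the roots of unity do not vanish.
-/

set_option autoImplicit false

open Filter Topology
open scoped BigOperators Real

namespace Pool.Agent.TV

open Pool.Agent.LibH11.Sliced Pool.Agent.MTR Pool.Agent.MT Pool.Agent.MTA Pool.Agent.UA
open Pool.Agent.UB Pool.Agent.TwoBr Pool.Agent.Mont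
open Pool.Agent.TB hiding vec

namespace NZR

/-- period `n` -/
def Per (n : ℕ) (f : Fn n) : Prop :=
  ∀ u : ZMod (2 * n), f (u + ((n : ℕ) : ZMod (2 * n))) = f u

section

variable {n : ℕ} [NeZero n] {ι : ℤ}

omit [NeZero n] in
lemma two_mul_n (w : ℕ) : ((2 * w : ℕ) : ZMod (2 * n)) * ((n : ℕ) : ZMod (2 * n)) = 0 := by
  rw [← Nat.cast_mul, ZMod.natCast_eq_zero_iff]
  exact ⟨w, by ring⟩

lemma zt_ne (hι : IsCoprime ι (2 * n : ℤ)) (u : ZMod (2 * n)) : zt n ι u ≠ 0 := by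
  obtain ⟨z1, z2, -⟩ := zt_basic n ι hι
  intro h
  have h1 := z2 u (-u)
  rw [add_neg_cancel, z1, h, zero_mul] at h1
  exact one_ne_zero h1

lemma per_Fh (hι : IsCoprime ι (2 * n : ℤ)) (f : Fn n) (hf : Evs n f) : Per n (Fh n ι f) := by
  obtain ⟨z1, z2, -⟩ := zt_basic n ι hι
  intro u
  rw [Stu.Fh_apply, Stu.Fh_apply]
  congr 1
  refine Finset.sum_congr rfl fun k _ => ?_
  obtain ⟨v, rfl⟩ : ∃ v : ℕ, ((v : ℕ) : ZMod (2 * n)) = k := ⟨k.val, ZMod.natCast_zmod_val k⟩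
  rcases Nat.even_or_odd' v with ⟨w, rfl | rfl⟩
  · rw [mul_add, z2, two_mul_n w, z1, mul_one]
  · rw [hf w, zero_mul, zero_mul]

lemma per_mul {f g : Fn n} (hf : Per n f) (hg : Per n g) : Per n (f * g) := by
  intro u
  rw [Pi.mul_apply, Pi.mul_apply, hf u, hg u]

lemma per_fe (k : ℕ) (hn : n = 4 * k) (e : ℤ) : Per n (fe n ι e) := by
  intro u
  obtain ⟨v, rfl⟩ : ∃ v : ℕ, ((v : ℕ) : ZMod (2 * n)) = u := ⟨u.val, ZMod.natCast_zmod_val u⟩
  rcases Nat.even_or_odd' v with ⟨w, rfl | rfl⟩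
  · have h1 : ((2 * w : ℕ) : ZMod (2 * n)) + ((n : ℕ) : ZMod (2 * n)) =
        ((2 * ((w : ℤ) + 2 * k) : ℤ) : ZMod (2 * n)) := by
      have h2 : ((n : ℕ) : ZMod (2 * n)) = ((4 * k : ℕ) : ZMod (2 * n)) := by rw [← hn]
      rw [h2]
      push_cast
      ring
    have h3 : ((2 * w : ℕ) : ZMod (2 * n)) = ((2 * (w : ℤ) : ℤ) : ZMod (2 * n)) := by
      push_cast
      rfl
    rw [h1, h3, STB.fe_even, STB.fe_even]
    congr 1
    rw [ZMod.intCast_eq_intCast_iff_dvd_sub]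
    refine ⟨-(e * (w + k)), ?_⟩
    have h4 : ((n : ℕ) : ℤ) = 4 * k := by exact_mod_cast hn
    push_cast
    rw [h4]
    ring
  · have h1 : ((2 * w + 1 : ℕ) : ZMod (2 * n)) + ((n : ℕ) : ZMod (2 * n)) =
        ((2 * (w + 2 * k) + 1 : ℕ) : ZMod (2 * n)) := by
      rw [← Nat.cast_add]
      congr 1
      omega
    rw [h1, Stu.evs_fe e w, Stu.evs_fe e (w + 2 * k)]

/-- A periodic function whose Fourier transform vanishes at the even elements is zero. -/
lemma zero_of_Fh (k : ℕ) (hn : n = 4 * k) (hι : IsCoprime ι (2 * n : ℤ)) (f : Fn n)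
    (hf : Per n f) (h : ∀ w : ZMod (2 * n), Fh n ι f (2 * w) = 0) : f = 0 := by
  obtain ⟨z1, z2, -, -, z5, -, -, -⟩ := zt_basic n ι hι
  have hn0 : n ≠ 0 := NeZero.ne n
  have hnC : (2 * n : ℂ) ≠ 0 := by
    have : (n : ℂ) ≠ 0 := by exact_mod_cast hn0
    simpa using this
  have e1 : ∀ w : ZMod (2 * n), ∑ v, f v * zt n ι (v * (2 * w)) = 0 := by
    intro w
    have h1 := h w
    rw [Stu.Fh_apply] at h1
    exact (mul_eq_zero.1 h1).resolve_left (one_div_ne_zero hnC)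
  funext u0
  rw [Pi.zero_apply]
  have e2 : ∑ w : ZMod (2 * n), zt n ι (-(w * (2 * u0))) * ∑ v, f v * zt n ι (v * (2 * w)) = 0 :=
    Finset.sum_eq_zero fun w _ => by rw [e1 w, mul_zero]
  have e3 : ∑ v : ZMod (2 * n), f v * (if 2 * (v - u0) = 0 then (2 * n : ℂ) else 0) = 0 := by
    refine Eq.trans ?_ e2
    simp only [Finset.mul_sum]
    rw [Finset.sum_comm]
    refine Finset.sum_congr rfl fun v _ => ?_
    rw [← z5, Finset.mul_sum]
    refine Finset.sum_congr rfl fun w _ => ?_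
    have h1 : w * (2 * (v - u0)) = -(w * (2 * u0)) + v * (2 * w) := by ring
    rw [h1, z2]
    ring
  have hnn : ((n : ℕ) : ZMod (2 * n)) ≠ 0 := by
    rw [Ne, ZMod.natCast_eq_zero_iff]
    intro hdvd
    have h4 := Nat.le_of_dvd (Nat.pos_of_ne_zero hn0) hdvd
    omega
  have hiff : ∀ v : ZMod (2 * n), 2 * (v - u0) = 0 ↔ v = u0 ∨ v = u0 + ((n : ℕ) : ZMod (2 * n)) := by
    intro v
    constructor
    · intro h1
      obtain ⟨m, hm⟩ : ∃ m : ℕ, ((m : ℕ) : ZMod (2 * n)) = v - u0 :=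
        ⟨(v - u0).val, ZMod.natCast_zmod_val _⟩
      have hmv : m % (2 * n) = (v - u0).val := by rw [← hm, ZMod.val_natCast]
      rw [← hm] at h1
      have h2 : ((2 * m : ℕ) : ZMod (2 * n)) = 0 := by
        push_cast
        exact h1
      rw [ZMod.natCast_eq_zero_iff] at h2
      obtain ⟨c, hc⟩ := h2
      have hc' : m = n * c := by
        have : 2 * m = 2 * (n * c) := by rw [hc]; ring
        omega
      rcases Nat.even_or_odd' c with ⟨d, rfl | rfl⟩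
      · left
        have h3 : ((m : ℕ) : ZMod (2 * n)) = 0 := by
          rw [ZMod.natCast_eq_zero_iff]
          exact ⟨d, by rw [hc']; ring⟩
        rw [hm] at h3
        exact sub_eq_zero.1 h3
      · right
        have h3 : ((m : ℕ) : ZMod (2 * n)) = ((n : ℕ) : ZMod (2 * n)) := by
          have h4 : m = 2 * n * d + n := by rw [hc']; ring
          rw [h4, Nat.cast_add, Nat.cast_mul, ZMod.natCast_self, zero_mul, zero_add]
        rw [hm] at h3
        rw [← h3]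
        ring
    · rintro (rfl | rfl)
      · rw [sub_self, mul_zero]
      · have h2 : ((2 * 1 : ℕ) : ZMod (2 * n)) * ((n : ℕ) : ZMod (2 * n)) = 0 := two_mul_n 1
        rw [add_sub_cancel_left]
        push_cast at h2
        exact h2
  have hne : u0 ≠ u0 + ((n : ℕ) : ZMod (2 * n)) := by
    intro h1
    apply hnn
    have h2 : u0 + 0 = u0 + ((n : ℕ) : ZMod (2 * n)) := by rw [add_zero]; exact h1
    exact (add_left_cancel h2).symm
  have e4 : ∑ v : ZMod (2 * n), f v * (if 2 * (v - u0) = 0 then (2 * n : ℂ) else 0) =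
      ∑ v ∈ ({u0, u0 + ((n : ℕ) : ZMod (2 * n))} : Finset (ZMod (2 * n))),
        f v * (if 2 * (v - u0) = 0 then (2 * n : ℂ) else 0) := by
    symm
    apply Finset.sum_subset (Finset.subset_univ _)
    intro v _ hv
    rw [if_neg, mul_zero]
    rw [hiff]
    simpa using hv
  rw [e4, Finset.sum_pair hne, if_pos ((hiff _).2 (Or.inl rfl)), if_pos ((hiff _).2 (Or.inr rfl)),
    hf u0, ← add_mul] at e3
  have e5 := (mul_eq_zero.1 e3).resolve_right hnC
  have e6 : (2 : ℂ) * f u0 = 0 := by rw [two_mul]; exact e5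
  exact (mul_eq_zero.1 e6).resolve_left (by norm_num)

lemma per_sta (k : ℕ) (hn : n = 4 * k) (hι : IsCoprime ι (2 * n : ℤ)) (h1 : STU_Stmt) (t : Tr) :
    Per n (sta n ι t).1 := by
  induction t with
  | pw e => exact per_fe k hn e
  | cons a b _ ihb =>
    exact per_mul (per_Fh hι _ (h1 n ι hι a).1) ihb

lemma sta_ne (k : ℕ) (hn : n = 4 * k) (hι : IsCoprime ι (2 * n : ℤ)) (h1 : STU_Stmt) (t : Tr)
    (ht : t.Rat) : (sta n ι t).1 ≠ 0 := by
  induction t with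
  | pw e =>
    intro h0
    have h2 := congrFun h0 0
    change fe n ι e 0 = 0 at h2
    rw [MNZ.fe_zero zt_basic n ι hι] at h2
    exact one_ne_zero h2
  | cons a b iha _ =>
    obtain ⟨ha, hb⟩ := ht
    cases b with
    | cons c d => simp [Tr.kids] at hb
    | pw e =>
      intro h0
      apply iha ha
      apply zero_of_Fh k hn hι _ (per_sta k hn hι h1 a)
      intro w
      obtain ⟨v, rfl⟩ : ∃ v : ℕ, ((v : ℕ) : ZMod (2 * n)) = w := ⟨w.val, ZMod.natCast_zmod_val w⟩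
      have h2 := congrFun h0 (2 * ((v : ℕ) : ZMod (2 * n)))
      change Fh n ι (sta n ι a).1 (2 * ((v : ℕ) : ZMod (2 * n))) *
        fe n ι e (2 * ((v : ℕ) : ZMod (2 * n))) = 0 at h2
      have h3 : (2 * ((v : ℕ) : ZMod (2 * n))) = ((2 * (v : ℤ) : ℤ) : ZMod (2 * n)) := by
        push_cast
        rfl
      refine (mul_eq_zero.1 h2).resolve_right ?_
      rw [h3, STB.fe_even]
      exact zt_ne hι _

end

end NZR

open NZR in
theorem t_NZR (h1 : STU_Stmt) (h2 : PRS_Stmt) (h3 : EGO_Stmt) : NZR_Stmt := by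
  intro t ht hodd s hs2 ι hι h0
  have hι' : IsCoprime ι (2 * (2 ^ s : ℕ) : ℤ) := by
    have h1 := MNZ.coprime_two_pow ι hι (s + 1)
    rwa [show (2 * (2 ^ s : ℕ) : ℤ) = (2 : ℤ) ^ (s + 1) by push_cast; ring]
  obtain ⟨k, hk⟩ : ∃ k, (2 ^ s : ℕ) = 4 * k := ⟨2 ^ (s - 2), by
    rw [show (4 : ℕ) = 2 ^ 2 by norm_num, ← pow_add]
    congr 1
    omega⟩
  have hnh : (2 ^ s : ℕ) = 2 * (2 * k) := by omega
  have hst1 : Stab (2 ^ s) ι (0, 1) (1 : Fn (2 ^ s)) := by
    intro b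
    have h4 := (h3 (2 ^ s) ι hι').2.2.2.2.2.2 b
    simpa using h4
  have hst2 := (h1 (2 ^ s) ι hι' t).2.2
  have hev := (h1 (2 ^ s) ι hι' t).1
  have hper := per_sta k hk hι' h1 t
  set f := (sta (2 ^ s) ι t).1 with hf
  have hdet : Odd (det2 (0, 1) (vec t)) := by
    have h4 : det2 (0, 1) (vec t) = -(vec t).1 := by simp [det2]
    rw [h4]
    exact hodd.neg
  obtain ⟨δ, hδ⟩ : ∃ δ : ℤ, ((δ : ZMod (2 ^ s)) * ((det2 (0, 1) (vec t) : ℤ) : ZMod (2 ^ s))) = 1 := by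
    obtain ⟨u, v, huv⟩ := MNZ.coprime_two_pow _ hdet s
    refine ⟨u, ?_⟩
    have h1 := congrArg (fun z : ℤ => (z : ZMod (2 ^ s))) huv
    simp only [Int.cast_add, Int.cast_mul, Int.cast_one] at h1
    have h2 : (((2 : ℤ) ^ s : ℤ) : ZMod (2 ^ s)) = 0 := by
      have h3 : (((2 ^ s : ℕ) : ℕ) : ZMod (2 ^ s)) = 0 := ZMod.natCast_self _
      have h4 : (((2 : ℤ) ^ s : ℤ) : ZMod (2 ^ s)) = (((2 ^ s : ℕ) : ℕ) : ZMod (2 ^ s)) := by
        push_cast
        rfl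
      rw [h4, h3]
    rw [h2, mul_zero, add_zero] at h1
    exact h1
  have h0' : pr (2 ^ s) 1 f = 0 := h0
  have hkey := MNZ.key zt_basic h2 (2 ^ s) (2 * k) hnh ι hι' (0, 1) (vec t) 1 f
    (by rw [show (-((0 : ℤ), (1 : ℤ)).1, ((0 : ℤ), (1 : ℤ)).2) = ((0 : ℤ), (1 : ℤ)) by simp]
        exact hst1) hst2 δ hδ h0'
  have hz : f = 0 := by
    funext u
    rw [Pi.zero_apply]
    obtain ⟨v, rfl⟩ : ∃ v : ℕ, ((v : ℕ) : ZMod (2 * 2 ^ s)) = u :=
      ⟨u.val, ZMod.natCast_zmod_val u⟩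
    rcases Nat.even_or_odd' v with ⟨w, rfl | rfl⟩
    · have h4 := hkey (w : ℤ)
      simp only [Pi.one_apply, one_mul] at h4
      have h5 : ((2 * w : ℕ) : ZMod (2 * 2 ^ s)) = 2 * (((w : ℕ) : ℤ) : ZMod (2 * 2 ^ s)) := by
        push_cast
        rfl
      rw [h5]
      rw [add_comm (((2 ^ s : ℕ) : ZMod (2 * 2 ^ s))) _, hper] at h4
      have h6 : (2 : ℂ) * f (2 * (((w : ℕ) : ℤ) : ZMod (2 * 2 ^ s))) = 0 := by
        rw [two_mul]
        exact h4
      exact (mul_eq_zero.1 h6).resolve_left (by norm_num)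
    · exact hev w
  exact sta_ne k hk hι' h1 t ht hz

end Pool.Agent.TV
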