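import Pool.Agent.TV.StJ
import Pool.Agent.UA.Ratj

/-!
Theorem V (MP_31fd3b_gt), modules OMR and OMP: `om`, `w3`, `Wc` do not depend on the choice of the
rational trees, and `om` has the symmetries.
-/

open scoped BigOperators

namespace Pool.Agent.TV

open Pool.Agent.LibH11.Sliced Pool.Agent.MTR Pool.Agent.MTA Pool.Agent.UA Pool.Agent.UB
open Pool.Agent.TB hiding vec

namespace Omrx

open Pool.Agent.UA.Ratj

theorem dir_ne (h1 : RU_Stmt) {R : Tr} {v : ℤ × ℤ} (h : Dir R v) : v ≠ 0 := by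
  obtain ⟨hR, k, hk, hv⟩ := h
  exact (h1.2.2.2.1 R v k hR hv hk).1

theorem dir_rt (h1 : RU_Stmt) {R : Tr} {v : ℤ × ℤ} (h : Dir R v) : Dir (rt v) v :=
  h1.1 v (dir_ne h1 h)

theorem bv_rt (h1 : RU_Stmt) {R : Tr} {v : ℤ × ℤ} (h : Dir R v) :
    ∃ f : JR, Mon f ∧ bv sx (rt v) = scl f (bv sx R) :=
  h1.2.1 R (rt v) v h (dir_rt h1 h)

end Omrx

open Omrx Pool.Agent.UA.Ratj in
theorem t_OMR (h1 : RU_Stmt) (h2 : JPV_Stmt) : OMR_Stmt := by
  have hw := h1.2.2.1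
  refine ⟨?_, ?_, ?_⟩
  · intro P V R R' hR hR'
    obtain ⟨f, hf, e1⟩ := bv_rt h1 hR
    obtain ⟨g, hg, e2⟩ := bv_rt h1 hR'
    unfold om
    rw [e1, e2, scl_mulv, mulv_scl, clv_scl, clv_scl, hw f _ hf, hw g _ hg]
  · intro v R0 R1 R2 hR0 hR1 hR2
    obtain ⟨f, hf, e0⟩ := bv_rt h1 hR0
    obtain ⟨g, hg, e1⟩ := bv_rt h1 hR1
    obtain ⟨k, hk, e2⟩ := bv_rt h1 hR2
    unfold w3
    rw [e0, e1, e2, scl_mulv, mulv_scl, scl_mulv, mulv_scl, mulv_scl, clv_scl, clv_scl, clv_scl,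
      hw _ _ hf, hw _ _ hk, hw _ _ hg]
  · intro L R T hR
    obtain ⟨f, hf, e0⟩ := bv_rt h1 hR
    unfold Wc
    rw [e0, scl_mulv, clv_scl, hw f _ hf]

open Omrx Pool.Agent.UA.Ratj in
theorem t_OMP (h1 : OMR_Stmt) (h2 : RU_Stmt) (h3 : JPV_Stmt) : OMP_Stmt := by
  intro D hD
  have hne : ∀ P V : ℤ × ℤ, dt P V ∣ D → dt P V ≠ 0 := by
    intro P V h h0
    rw [h0] at h
    exact hD (zero_dvd_iff.1 h)
  constructor
  · intro P V _
    unfold om
    rw [mulv_comm h3]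
  · intro P V h
    have h0 := hne _ _ h
    have hP : P ≠ 0 := by
      rintro rfl
      apply h0
      simp [dt, addv]
    have hV : V ≠ 0 := by
      rintro rfl
      apply h0
      simp [dt, addv, rv]
    have dP := h2.1 P hP
    have dV := h2.1 V hV
    have e1 := h1.1 (rv P) V _ _ (h2.2.2.2.2 _ _ dP).2.1 dV
    have e2 := h1.1 P (rv V) _ _ dP (h2.2.2.2.2 _ _ dV).2.1
    rw [e1, e2, bv_cons0 h3, bv_cons0 h3, clv_rot h3]
  · intro P V k h
    have h0 := hne _ _ h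
    have hP : P ≠ 0 := by
      rintro rfl
      apply h0
      simp [dt, addv]
    have hV : V ≠ 0 := by
      rintro rfl
      apply h0
      simp [dt, addv]
    have dP := h2.1 P hP
    have dV := h2.1 V hV
    have sP := (h2.2.2.2.2 _ _ dP).1 (-k)
    have sV := (h2.2.2.2.2 _ _ dV).1 (-k)
    rw [neg_neg] at sP sV
    have e1 := h1.1 (addv P (k, 1)) V _ _ sP dV
    have e2 := h1.1 P (addv V (k, 1)) _ _ dP sV
    rw [e1, e2, bv_shift h3, bv_shift h3, mulv_comm h3 (pv sx (-k)) (bv sx (rt P)), mulv_assoc h3]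
  · intro P V k h
    have h0 := hne _ _ h
    have hk : k ≠ 0 := by
      rintro rfl
      apply h0
      simp [dt, addv]
    have hP : P ≠ 0 := by
      rintro rfl
      apply h0
      simp [dt, addv]
    have hV : V ≠ 0 := by
      rintro rfl
      apply h0
      simp [dt, addv]
    have dP := h2.1 P hP
    have dV := h2.1 V hV
    have e1 := h1.1 (k • P) V _ _ ((h2.2.2.2.2 _ _ dP).2.2 k hk) dV
    have e2 := h1.1 P V _ _ dP dV
    rw [e1, e2]

end Pool.Agent.TV
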