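import Pool.Agent.TV.StH
import Pool.Agent.UA.Fcg

/-!
Theorem V (MP_31fd3b_gt), module ONEM: the closure of a rational tree has a diagram with one minimum.
-/

set_option autoImplicit false

open Filter Topology
open scoped BigOperators Real

namespace Pool.Agent.TV

open Pool.Agent.LibH11.Sliced Pool.Agent.MTR Pool.Agent.MT Pool.Agent.MTA Pool.Agent.UA
open Pool.Agent.UB Pool.Agent.TwoBr Pool.Agent.Mont
open Pool.Agent.TB hiding vec

namespace ONEMaux

theorem min_ht (e : ℤ) : minima (ht e) = 0 := by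
  unfold ht
  induction e.natAbs with
  | zero => rfl
  | succ n ih =>
    rw [List.replicate_succ]
    exact ih

theorem min_sh (k : ℕ) (w : Diag) : minima (sh k w) = minima w := by
  induction w with
  | nil => rfl
  | cons p w ih =>
    obtain ⟨c, i⟩ := p
    rw [sh_cons]
    cases c <;> simp [minima, ih]

theorem cnt3_ht (e : ℤ) : cnt 3 (ht e) = some 3 := cnt_widen 1 _ 2 2 (cnt_ht e)

theorem cnt3_sht (e : ℤ) : cnt 3 (sh 1 (ht e)) = some 3 := by
  rw [show (3 : ℕ) = 2 + 1 from rfl, cnt_sh, cnt_ht]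
  rfl

theorem cnt3_of2 {t : Diag} (h : cnt 2 t = some 2) : cnt 3 t = some 3 := cnt_widen 1 _ 2 2 h

theorem cnt3_sh {t : Diag} (h : cnt 2 t = some 2) : cnt 3 (sh 1 t) = some 3 := by
  rw [show (3 : ℕ) = 2 + 1 from rfl, cnt_sh, h]
  rfl

/-- one minimum at the beginning -/
def Goo (x : Diag) : Prop :=
  ∃ (i : ℕ) (u : Diag), i ≤ 1 ∧ minima u = 0 ∧ cnt 3 u = some 3 ∧ EqD 1 x ((.cup, i) :: u)

theorem cnt1_cup {i : ℕ} (hi : i ≤ 1) : cnt 1 [((.cup : Kind), i)] = some 3 := by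
  rcases (show i = 0 ∨ i = 1 by omega) with rfl | rfl <;> rfl

theorem goo_app {x v : Diag} (h : Goo x) (hv : cnt 3 v = some 3) (hm : minima v = 0) :
    Goo (x ++ v) := by
  obtain ⟨i, u, hi, hu, hc, he⟩ := h
  have h1 : cnt 1 x = some 3 := by
    rw [he.cnt_eq]
    change cnt 1 ([((.cup : Kind), i)] ++ u) = some 3
    rw [cnt_app (cnt1_cup hi), hc]
  refine ⟨i, u ++ v, hi, by rw [minima_append, hu, hm], by rw [cnt_app hc, hv], ?_⟩
  refine he.right v ?_
  rw [cnt_app h1, hv]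
  exact Option.some_ne_none _

theorem goo_of {x y : Diag} (h : EqD 1 x y) (hy : Goo y) : Goo x := by
  obtain ⟨i, u, hi, hu, hc, he⟩ := hy
  exact ⟨i, u, hi, hu, hc, h.trans he⟩

theorem kids_zero {b : Tr} (h : b.kids = 0) : ∃ e : ℤ, b = .pw e := by
  cases b with
  | pw e => exact ⟨e, rfl⟩
  | cons a b => simp [Tr.kids] at h

theorem goo (h1 : RTI_Stmt) (h2 : STR_Stmt) (h3 : FCG_Stmt) (T : Tr) : T.Rat →
    Goo ((.cup, 1) :: T.dg) ∧ Goo ((.cup, 0) :: sh 1 T.dg) := by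
  induction T with
  | pw e =>
    intro _
    exact ⟨⟨1, ht e, le_rfl, min_ht e, cnt3_ht e, EqD.refl _⟩,
      ⟨0, sh 1 (ht e), by omega, by rw [min_sh, min_ht], cnt3_sht e, EqD.refl _⟩⟩
  | cons b c ihb _ =>
    intro hT
    obtain ⟨hb, hc⟩ : b.Rat ∧ c.kids = 0 := hT
    obtain ⟨e, rfl⟩ := kids_zero hc
    obtain ⟨A, B⟩ := ihb hb
    have hcb : cnt 2 b.dg = some 2 := h3.2.2.2.2.1 b
    have hcr : cnt 2 (rotD b.dg) = some 2 := (h3.2.2.2.1 b.dg hcb).1
    constructor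
    · have e1 : ((.cup, 1) :: (Tr.cons b (.pw e)).dg : Diag) =
          ((.cup, 1) :: rotD b.dg) ++ ht e := rfl
      rw [e1]
      exact goo_app (goo_of (h2.1 b.dg hcb) B) (cnt3_ht e) (min_ht e)
    · have e1 : ((.cup, 0) :: sh 1 (Tr.cons b (.pw e)).dg : Diag) =
          ((.cup, 0) :: sh 1 (rotD b.dg)) ++ sh 1 (ht e) := by
        change ((.cup, 0) :: sh 1 (rotD b.dg ++ ht e) : Diag) = _
        rw [sh_append]
        rfl
      rw [e1]
      exact goo_app (goo_of (h2.2 b.dg hcb (h1 b hb).2.2) A) (cnt3_sht e)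
        (by rw [min_sh, min_ht])

end ONEMaux

open ONEMaux

theorem t_ONEM (h1 : RTI_Stmt) (h2 : STR_Stmt) (h3 : FCG_Stmt) : ONEM_Stmt := by
  intro T hT hK
  obtain ⟨i, u, hi, hu, hc, he⟩ := (goo h1 h2 h3 T hT).1
  have hcap : cnt 3 [((.cap : Kind), 1)] = some 1 := rfl
  have hE : EqD 1 (cl T.dg) (((.cup, i) :: u) ++ [(.cap, 1)]) := by
    have e1 : cl T.dg = ((.cup, 1) :: T.dg) ++ [(.cap, 1)] := rfl
    rw [e1]
    refine he.right [(.cap, 1)] ?_
    have h4 : cnt 1 ((.cup, 1) :: T.dg) = some 3 := by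
      rw [he.cnt_eq]
      change cnt 1 ([((.cup : Kind), i)] ++ u) = some 3
      rw [cnt_app (cnt1_cup hi), hc]
    rw [cnt_app h4, hcap]
    exact Option.some_ne_none _
  refine ⟨((.cup, i) :: u) ++ [(.cap, 1)], hE.isLongKnot hK, ?_, hE⟩
  rw [minima_append]
  simp [minima, hu]

end Pool.Agent.TV
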