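import Pool.Agent.TV.StK
import Pool.Agent.UC.Res

/-!
MP_31fd3b_gt, Theorem V: simple fractions.
-/

set_option autoImplicit false

namespace Pool.Agent.TV

namespace PFX

/-- the fractions of the term of `e` -/
def frs (e : ℤ × ℚ) : List (ℚ × ℚ) := [(-(e.1 : ℚ), -e.2), ((e.1 : ℚ), -(1 / e.2)), (-(e.1 : ℚ), 0)]

theorem flat_sum (f : ℚ × ℚ → ℚ) (l : List (ℤ × ℚ)) :
    (((l.map frs).flatten).map f).sum = (l.map fun e => f (-(e.1 : ℚ), -e.2) +
      f ((e.1 : ℚ), -(1 / e.2)) + f (-(e.1 : ℚ), 0)).sum := by
  induction l with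
  | nil => rfl
  | cons e l ih =>
    rw [List.map_cons, List.flatten_cons, List.map_append, List.sum_append, ih, List.map_cons,
      List.sum_cons]
    congr 1
    simp only [frs, List.map_cons, List.map_nil, List.sum_cons, List.sum_nil]
    ring

theorem neg_sum {α : Type} (l : List α) (f : α → ℚ) :
    -(l.map f).sum = (l.map fun e => -f e).sum := by
  induction l with
  | nil => simp
  | cons e l ih => rw [List.map_cons, List.sum_cons, List.map_cons, List.sum_cons, ← ih, neg_add]

theorem sum_congr_list {α : Type} (l : List α) (f g : α → ℚ) (h : ∀ e ∈ l, f e = g e) :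
    (l.map f).sum = (l.map g).sum := by
  rw [List.map_congr_left h]

end PFX

open PFX in
theorem t_PF : PF_Stmt := by
  classical
  intro l γ S hS h0 h
  have hY : ∀ q ∈ S, (((l.map frs).flatten ++ [((γ : ℚ), (0 : ℚ))]).map
      fun y => y.1 / ((q : ℚ) + y.2)).sum = 0 := by
    intro q hq
    rw [List.map_append, List.sum_append, flat_sum]
    refine Eq.trans ?_ (h q hq)
    congr 1
    · refine sum_congr_list _ _ _ fun e _ => ?_
      unfold TV.hq
      simp only [add_zero, ← sub_eq_add_neg]
      ring
    · simp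
  have key := fun b : ℚ => Pool.Agent.UC.pf_list _ S hS hY b
  have hc : ∀ b : ℚ, (l.map fun e : ℤ × ℚ => (if -e.2 = b then -(e.1 : ℚ) else 0) +
      (if -(1 / e.2) = b then (e.1 : ℚ) else 0) + (if (0 : ℚ) = b then -(e.1 : ℚ) else 0)).sum +
      (if (0 : ℚ) = b then (γ : ℚ) else 0) = 0 := by
    intro b
    have h1 := key b
    unfold Pool.Agent.UC.coef at h1
    rw [List.map_append, List.sum_append, flat_sum] at h1
    simpa using h1
  constructor
  · intro z hz
    have h1 := hc (-z)
    have hz' : ¬ (0 : ℚ) = -z := by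
      intro h2
      exact hz (by linarith)
    rw [if_neg hz', add_zero] at h1
    have h2 : (l.map fun e : ℤ × ℚ => (e.1 : ℚ) *
        ((if e.2 = z then 1 else 0) - (if e.2 = 1 / z then 1 else 0))).sum = 0 := by
      have h3 : (l.map fun e : ℤ × ℚ => (e.1 : ℚ) *
          ((if e.2 = z then 1 else 0) - (if e.2 = 1 / z then 1 else 0))).sum =
          -(l.map fun e : ℤ × ℚ => (if -e.2 = -z then -(e.1 : ℚ) else 0) +
            (if -(1 / e.2) = -z then (e.1 : ℚ) else 0) +
            (if (0 : ℚ) = -z then -(e.1 : ℚ) else 0)).sum := by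
        rw [neg_sum]
        refine sum_congr_list _ _ _ fun e he => ?_
        have e1 : (-e.2 = -z) ↔ e.2 = z := neg_inj
        have e2 : (-(1 / e.2) = -z) ↔ e.2 = 1 / z := by
          rw [neg_inj]
          have he0 := h0 e he
          constructor
          · intro h4
            rw [← h4, one_div_one_div]
          · intro h4
            rw [h4, one_div_one_div]
        rw [if_neg hz']
        simp only [e1, e2]
        split_ifs <;> ring
      rw [h3, h1, neg_zero]
    have h4 : (((l.map fun e : ℤ × ℚ => e.1 *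
        ((if e.2 = z then 1 else 0) - (if e.2 = 1 / z then 1 else 0))).sum : ℤ) : ℚ) = 0 := by
      rw [← h2]
      push_cast
      rw [List.map_map]
      refine sum_congr_list _ _ _ fun e _ => ?_
      simp
    exact_mod_cast h4
  · have h1 := hc 0
    have h2 : (l.map fun e : ℤ × ℚ => (if -e.2 = 0 then -(e.1 : ℚ) else 0) +
        (if -(1 / e.2) = 0 then (e.1 : ℚ) else 0) +
        (if (0 : ℚ) = 0 then -(e.1 : ℚ) else 0)).sum = -(l.map fun e => (e.1 : ℚ)).sum := by
      rw [neg_sum]
      refine sum_congr_list _ _ _ fun e he => ?_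
      have he0 := h0 e he
      rw [if_neg (neg_ne_zero.2 he0), if_neg (neg_ne_zero.2 (one_div_ne_zero he0)), if_pos rfl]
      ring
    rw [h2, if_pos rfl] at h1
    have h3 : (((γ - (l.map fun e => e.1).sum : ℤ)) : ℚ) = 0 := by
      push_cast
      rw [List.map_map]
      have h5 : (List.map (Int.cast ∘ fun e : ℤ × ℚ => e.1) l).sum =
          (l.map fun e => (e.1 : ℚ)).sum := rfl
      rw [h5]
      linarith
    exact_mod_cast h3

end Pool.Agent.TV
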