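import Pool.Agent.TV.StK

/-!
Theorem V (MP_31fd3b_gt), module PLA: from the numbers of representations to every symmetric
function.
-/

open scoped BigOperators

namespace Pool.Agent.TV

open Pool.Agent.LibH11.Sliced Pool.Agent.MTR Pool.Agent.MTA Pool.Agent.UA Pool.Agent.UB
open Pool.Agent.TB hiding vec

namespace PLA

theorem sum_split {α M : Type*} [AddCommMonoid M] (l : List α) (P : α → Prop) [DecidablePred P]
    (f : α → M) : (l.map f).sum =
      ((l.filter fun x => decide (P x)).map f).sum +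
        ((l.filter fun x => decide (¬ P x)).map f).sum := by
  induction l with
  | nil => simp
  | cons a l ih =>
    rw [List.map_cons, List.sum_cons, ih]
    by_cases h : P a
    · rw [List.filter_cons_of_pos (by simpa using h), List.filter_cons_of_neg (by simpa using h),
        List.map_cons, List.sum_cons, add_assoc]
    · rw [List.filter_cons_of_neg (by simpa using h), List.filter_cons_of_pos (by simpa using h),
        List.map_cons, List.sum_cons, add_left_comm]

theorem sum_zero {α M : Type*} [AddCommMonoid M] (l : List α) (f : α → M)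
    (h : ∀ x ∈ l, f x = 0) : (l.map f).sum = 0 := by
  induction l with
  | nil => simp
  | cons a l ih =>
    rw [List.map_cons, List.sum_cons, h a (by simp), zero_add]
    exact ih fun x hx => h x (by simp [hx])

theorem sum_congr {α M : Type*} [AddCommMonoid M] (l : List α) (f g : α → M)
    (h : ∀ x ∈ l, f x = g x) : (l.map f).sum = (l.map g).sum := by
  rw [List.map_congr_left h]

theorem dt_one (A p : ℤ) : dt (0, 1) (A, p) = A := by
  simp [dt, addv]

/-- normal forms of all the entries -/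
theorem normal (h2 : PLN_Stmt) {D : ℤ} (hD : D ≠ 0) (l : Cb) (hl : ∀ e ∈ l, dt e.2.1 e.2.2 ∣ D) :
    ∃ L : List (ℤ × ℤ × ℤ), (∀ x ∈ L, 0 < x.2.1 ∧ IsCoprime x.2.1 x.2.2 ∧ x.2.1 ∣ D) ∧
      ∀ F, Sym D F → (l.map fun e => (e.1 : ℂ) * F e.2.1 e.2.2).sum =
        (L.map fun x => (x.1 : ℂ) * F (0, 1) (x.2.1, x.2.2)).sum := by
  induction l with
  | nil => exact ⟨[], by simp, by simp⟩
  | cons e l ih =>
    obtain ⟨L, hL, hF⟩ := ih fun e he => hl e (by simp [he])
    obtain ⟨A, p, hA, hc, hd, hP⟩ := (h2 D hD).2.2 e.2.1 e.2.2 (hl e (by simp))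
    refine ⟨(e.1, A, p) :: L, ?_, ?_⟩
    · intro x hx
      rcases List.mem_cons.1 hx with rfl | hx
      · exact ⟨hA, hc, hd⟩
      · exact hL x hx
    · intro F hS
      rw [List.map_cons, List.sum_cons, List.map_cons, List.sum_cons, hF F hS, hP F hS]

/-- the relation of two residues -/
def rl (n : ℤ) (p p' : ℤ) : Prop := n ∣ p' - p ∨ n ∣ p * p' - 1

/-- the key -/
noncomputable def ky (n : ℕ) (p : ℤ) : Finset (ZMod n) := by
  classical
  exact {(p : ZMod n), (p : ZMod n)⁻¹}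

theorem inv_eq {n : ℕ} {p : ℤ} (hp : IsCoprime (n : ℤ) p) :
    (p : ZMod n) * (p : ZMod n)⁻¹ = 1 := by
  refine ZMod.mul_inv_of_unit _ ?_
  rw [ZMod.coe_int_isUnit_iff_isCoprime]
  exact hp

theorem dvd_iff (n : ℕ) (x : ℤ) : (n : ℤ) ∣ x ↔ (x : ZMod n) = 0 :=
  (ZMod.intCast_zmod_eq_zero_iff_dvd x n).symm

theorem one_iff {n : ℕ} {p p' : ℤ} (hp : IsCoprime (n : ℤ) p) :
    (n : ℤ) ∣ p * p' - 1 ↔ (p' : ZMod n) = (p : ZMod n)⁻¹ := by
  rw [dvd_iff]
  push_cast
  have h := inv_eq hp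
  constructor
  · intro h1
    have h2 : (p : ZMod n) * p' = 1 := sub_eq_zero.1 h1
    calc (p' : ZMod n) = ((p : ZMod n) * (p : ZMod n)⁻¹) * p' := by rw [h, one_mul]
      _ = (p : ZMod n)⁻¹ * ((p : ZMod n) * p') := by ring
      _ = _ := by rw [h2, mul_one]
  · intro h1
    rw [h1, h, sub_self]

theorem eq_iff {n : ℕ} {p p' : ℤ} : (n : ℤ) ∣ p' - p ↔ (p' : ZMod n) = (p : ZMod n) := by
  rw [dvd_iff]
  push_cast
  exact sub_eq_zero

/-- equal keys -/
theorem ky_iff {n : ℕ} {p p' : ℤ} (hp : IsCoprime (n : ℤ) p) (hp' : IsCoprime (n : ℤ) p') :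
    ky n p = ky n p' ↔ rl n p p' := by
  classical
  unfold rl
  rw [one_iff hp, eq_iff]
  have h := inv_eq hp
  have h' := inv_eq hp'
  constructor
  · intro hk
    have h1 : (p' : ZMod n) ∈ ky n p := by
      rw [hk]
      unfold ky
      simp
    unfold ky at h1
    simpa using h1
  · rintro (h1 | h1)
    · unfold ky
      rw [h1]
    · unfold ky
      have h2 : (p' : ZMod n)⁻¹ = (p : ZMod n) := by
        rw [h1] at h' ⊢
        calc ((p : ZMod n)⁻¹)⁻¹ = ((p : ZMod n) * (p : ZMod n)⁻¹) * ((p : ZMod n)⁻¹)⁻¹ := by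
              rw [h, one_mul]
          _ = (p : ZMod n) * ((p : ZMod n)⁻¹ * ((p : ZMod n)⁻¹)⁻¹) := by ring
          _ = _ := by rw [h', mul_one]
      rw [h2, h1]
      exact Finset.pair_comm _ _

/-- the class of the largest determinant -/
theorem top (h1 : GSY_Stmt) (h2 : PLN_Stmt) (h3 : PLC_Stmt) (h4 : FIB_Stmt) {D : ℤ} (hD : Odd D)
    (n : ℕ) (hn : 0 < n) (L : List (ℤ × ℤ × ℤ))
    (hL : ∀ x ∈ L, 0 < x.2.1 ∧ IsCoprime x.2.1 x.2.2 ∧ x.2.1 ∣ D ∧ x.2.1 ≤ n)
    (hz : ∀ g : ℤ, Odd g → (L.map fun x =>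
      x.1 * (nS (D / x.2.1) (0, 1) (x.2.1, x.2.2) g : ℤ)).sum = 0)
    (F : ℤ × ℤ → ℤ × ℤ → ℂ) (hF : Sym D F) :
    ((L.filter fun x => decide (x.2.1 = (n : ℤ))).map fun x =>
      (x.1 : ℂ) * F (0, 1) (x.2.1, x.2.2)).sum = 0 := by
  classical
  have hD0 : D ≠ 0 := by
    rintro rfl
    simp at hD
  by_cases hnD : (n : ℤ) ∣ D
  swap
  · refine sum_zero _ _ fun x hx => ?_
    rw [List.mem_filter, decide_eq_true_eq] at hx
    exact absurd (hx.2 ▸ (hL x hx.1).2.2.1) hnD
  have : NeZero n := ⟨hn.ne'⟩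
  -- the equation
  have key : ∀ p0 : ℤ, IsCoprime (n : ℤ) p0 →
      ((L.filter fun x => decide (x.2.1 = (n : ℤ))).map fun x =>
        x.1 * ((if (n : ℤ) ∣ p0 - x.2.2 then 2 else 0) +
          (if (n : ℤ) ∣ x.2.2 * p0 - 1 then 2 else 0))).sum = 0 := by
    intro p0 hp0
    have hu : IsUnit ((p0 : ℤ) : ZMod n) := by
      rw [ZMod.coe_int_isUnit_iff_isCoprime]
      exact hp0
    obtain ⟨q, hq1, hq2, hq3⟩ := Nat.forall_exists_prime_gt_and_eq_mod hu (D.natAbs + 2)
    have hqn : (n : ℤ) ∣ (q : ℤ) - p0 := by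
      rw [eq_iff]
      exact_mod_cast hq3
    have hqodd : Odd (q : ℤ) := by
      have := hq2.eq_two_or_odd'
      rcases this with h | h
      · omega
      · exact_mod_cast h
    obtain ⟨k, hk⟩ := hnD
    have hn0 : (n : ℤ) ≠ 0 := by exact_mod_cast hn.ne'
    have hDn : D / n = k := by
      rw [hk]
      exact Int.mul_ediv_cancel_left _ hn0
    have hkodd : Odd k := by
      rw [hk] at hD
      exact (Int.odd_mul.1 hD).2
    have hg : Odd (-(D / n) * q) := by
      rw [hDn]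
      exact hkodd.neg.mul hqodd
    have hs := hz _ hg
    rw [sum_split L (fun x => x.2.1 = (n : ℤ))] at hs
    rw [sum_zero (L.filter fun x => decide (¬ x.2.1 = (n : ℤ)))] at hs
    · rw [add_zero] at hs
      refine Eq.trans ?_ hs
      refine sum_congr _ _ _ fun x hx => ?_
      rw [List.mem_filter, decide_eq_true_eq] at hx
      obtain ⟨hx1, hx2⟩ := hx
      obtain ⟨a1, a2, a3, a4⟩ := hL x hx1
      have h5 := h3 D n x.2.1 x.2.2 q hD0 (by exact_mod_cast hn) ⟨k, hk⟩ a1 a4 a3 hq2 (by omega)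
      rw [if_pos hx2] at h5
      rw [h5, hx2]
      have e1 : (n : ℤ) ∣ (q : ℤ) - x.2.2 ↔ (n : ℤ) ∣ p0 - x.2.2 := by
        have : (q : ℤ) - x.2.2 = ((q : ℤ) - p0) + (p0 - x.2.2) := by ring
        rw [this]
        exact dvd_add_right hqn
      have e2 : (n : ℤ) ∣ x.2.2 * (q : ℤ) - 1 ↔ (n : ℤ) ∣ x.2.2 * p0 - 1 := by
        have : x.2.2 * (q : ℤ) - 1 = x.2.2 * ((q : ℤ) - p0) + (x.2.2 * p0 - 1) := by ring
        rw [this]
        exact dvd_add_right (Dvd.dvd.mul_left hqn _)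
      simp only [e1, e2]
      push_cast
      rfl
    · intro x hx
      rw [List.mem_filter, decide_eq_true_eq] at hx
      obtain ⟨hx1, hx2⟩ := hx
      obtain ⟨a1, a2, a3, a4⟩ := hL x hx1
      have h5 := h3 D n x.2.1 x.2.2 q hD0 (by exact_mod_cast hn) ⟨k, hk⟩ a1 a4 a3 hq2 (by omega)
      rw [if_neg hx2] at h5
      rw [h5]
      simp
  -- the list of the keys
  set L' := L.filter fun x => decide (x.2.1 = (n : ℤ)) with hL'
  have hmem : ∀ x ∈ L', x.2.1 = (n : ℤ) ∧ IsCoprime (n : ℤ) x.2.2 := by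
    intro x hx
    rw [hL', List.mem_filter, decide_eq_true_eq] at hx
    refine ⟨hx.2, ?_⟩
    have := (hL x hx.1).2.1
    rwa [hx.2] at this
  have hfib := h4 (Finset (ZMod n)) (L'.map fun x => (x.1, ky n x.2.2)) (by
    intro a
    rw [List.map_map]
    by_cases hex : ∃ y ∈ L', ky n y.2.2 = a
    · obtain ⟨y, hy, rfl⟩ := hex
      have hy1 := (hmem y hy).2
      have hk := key y.2.2 hy1
      by_cases hsq : (n : ℤ) ∣ y.2.2 * y.2.2 - 1
      · -- the two conditions agree
        have e : (L'.map fun x => x.1 * ((if (n : ℤ) ∣ y.2.2 - x.2.2 then 2 else 0) +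
            (if (n : ℤ) ∣ x.2.2 * y.2.2 - 1 then 2 else 0))).sum =
            (L'.map fun x => 4 * ((fun e : ℤ × Finset (ZMod n) => if e.2 = ky n y.2.2 then e.1
              else 0) ((fun x : ℤ × ℤ × ℤ => (x.1, ky n x.2.2)) x))).sum := by
          refine sum_congr _ _ _ fun x hx => ?_
          have hx1 := (hmem x hx).2
          have c1 : (n : ℤ) ∣ y.2.2 - x.2.2 ↔ (n : ℤ) ∣ x.2.2 * y.2.2 - 1 := by
            rw [eq_iff, one_iff hx1]
            have c2 : ((y.2.2 : ℤ) : ZMod n) = ((y.2.2 : ℤ) : ZMod n)⁻¹ := (one_iff hy1).1 hsq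
            constructor
            · intro h
              rw [← h]
              exact c2
            · intro h
              have c3 := inv_eq hx1
              have c4 := inv_eq hy1
              rw [← h] at c3
              calc ((y.2.2 : ℤ) : ZMod n) = ((y.2.2 : ℤ) : ZMod n)⁻¹ := c2
                _ = ((x.2.2 : ℤ) : ZMod n) * ((y.2.2 : ℤ) : ZMod n) *
                    ((y.2.2 : ℤ) : ZMod n)⁻¹ := by rw [c3, one_mul]
                _ = ((x.2.2 : ℤ) : ZMod n) * (((y.2.2 : ℤ) : ZMod n) *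
                    ((y.2.2 : ℤ) : ZMod n)⁻¹) := by ring
                _ = _ := by rw [c4, mul_one]
          have c5 := ky_iff hx1 hy1
          unfold rl at c5
          rw [c1, or_self] at c5
          simp only [c5, c1]
          split_ifs <;> ring
        rw [e, List.sum_map_mul_left] at hk
        have := (mul_eq_zero.1 hk).resolve_left (by norm_num)
        exact this
      · have e : (L'.map fun x => x.1 * ((if (n : ℤ) ∣ y.2.2 - x.2.2 then 2 else 0) +
            (if (n : ℤ) ∣ x.2.2 * y.2.2 - 1 then 2 else 0))).sum =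
            (L'.map fun x => 2 * ((fun e : ℤ × Finset (ZMod n) => if e.2 = ky n y.2.2 then e.1
              else 0) ((fun x : ℤ × ℤ × ℤ => (x.1, ky n x.2.2)) x))).sum := by
          refine sum_congr _ _ _ fun x hx => ?_
          have hx1 := (hmem x hx).2
          have c1 : ¬ ((n : ℤ) ∣ y.2.2 - x.2.2 ∧ (n : ℤ) ∣ x.2.2 * y.2.2 - 1) := by
            rintro ⟨h5, h6⟩
            apply hsq
            have : y.2.2 * y.2.2 - 1 = (y.2.2 - x.2.2) * y.2.2 + (x.2.2 * y.2.2 - 1) := by ring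
            rw [this]
            exact dvd_add (Dvd.dvd.mul_right h5 _) h6
          have c5 := ky_iff hx1 hy1
          unfold rl at c5
          simp only [c5]
          split_ifs with i1 i2 i3 i4 i5 i6
          all_goals first
            | exact absurd ⟨‹_›, ‹_›⟩ c1
            | (exfalso; tauto)
            | ring
        rw [e, List.sum_map_mul_left] at hk
        have := (mul_eq_zero.1 hk).resolve_left (by norm_num)
        exact this
    · refine sum_zero _ _ fun x hx => ?_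
      change (if ky n x.2.2 = a then x.1 else 0) = 0
      rw [if_neg]
      intro h
      exact hex ⟨x, hx, h⟩)
  have hfib2 := hfib fun a => if h : ∃ p : ℤ, IsCoprime (n : ℤ) p ∧ ky n p = a then
    F (0, 1) (n, h.choose) else 0
  rw [List.map_map] at hfib2
  rw [← hfib2]
  refine sum_congr _ _ _ fun x hx => ?_
  obtain ⟨b1, b2⟩ := hmem x hx
  have hex : ∃ p : ℤ, IsCoprime (n : ℤ) p ∧ ky n p = ky n x.2.2 := ⟨x.2.2, b2, rfl⟩
  change (x.1 : ℂ) * F (0, 1) (x.2.1, x.2.2) = (x.1 : ℂ) * (if h : ∃ p : ℤ,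
    IsCoprime (n : ℤ) p ∧ ky n p = ky n x.2.2 then F (0, 1) (n, h.choose) else 0)
  rw [dif_pos hex, b1]
  congr 1
  obtain ⟨d1, d2⟩ := hex.choose_spec
  have hr := (ky_iff d1 b2).1 d2
  unfold rl at hr
  exact (h2 D hD0).2.1 F hF n hex.choose x.2.2 hnD d1 hr

/-- the induction -/
theorem main (h1 : GSY_Stmt) (h2 : PLN_Stmt) (h3 : PLC_Stmt) (h4 : FIB_Stmt) {D : ℤ} (hD : Odd D) :
    ∀ (n : ℕ) (L : List (ℤ × ℤ × ℤ)),
    (∀ x ∈ L, 0 < x.2.1 ∧ IsCoprime x.2.1 x.2.2 ∧ x.2.1 ∣ D ∧ x.2.1 ≤ n) →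
    (∀ g : ℤ, Odd g → (L.map fun x =>
      x.1 * (nS (D / x.2.1) (0, 1) (x.2.1, x.2.2) g : ℤ)).sum = 0) →
    ∀ F, Sym D F → (L.map fun x => (x.1 : ℂ) * F (0, 1) (x.2.1, x.2.2)).sum = 0 := by
  intro n
  have hD0 : D ≠ 0 := by
    rintro rfl
    simp at hD
  induction n with
  | zero =>
    intro L hL _ F _
    refine sum_zero _ _ fun x hx => ?_
    have h := hL x hx
    omega
  | succ n ih =>
    intro L hL hz F hF
    have ht := top h1 h2 h3 h4 hD (n + 1) (by omega) L hL hz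
    rw [sum_split L (fun x => x.2.1 = ((n + 1 : ℕ) : ℤ)), ht F hF, zero_add]
    refine ih _ ?_ ?_ F hF
    · intro x hx
      rw [List.mem_filter, decide_eq_true_eq] at hx
      obtain ⟨hx1, hx2⟩ := hx
      obtain ⟨a1, a2, a3, a4⟩ := hL x hx1
      refine ⟨a1, a2, a3, ?_⟩
      push_cast at a4 hx2 ⊢
      omega
    · intro g hg
      have h5 := hz g hg
      have h6 := ht _ (h1 D g hD0)
      rw [sum_split L (fun x => x.2.1 = ((n + 1 : ℕ) : ℤ))] at h5
      have h7 : ((L.filter fun x => decide (x.2.1 = ((n + 1 : ℕ) : ℤ))).map fun x =>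
          x.1 * (nS (D / x.2.1) (0, 1) (x.2.1, x.2.2) g : ℤ)).sum = 0 := by
        have h8 : (((((L.filter fun x => decide (x.2.1 = ((n + 1 : ℕ) : ℤ))).map fun x =>
          x.1 * (nS (D / x.2.1) (0, 1) (x.2.1, x.2.2) g : ℤ)).sum : ℤ)) : ℂ) = 0 := by
          rw [← h6, Int.cast_list_sum, List.map_map]
          refine sum_congr _ _ _ fun x _ => ?_
          simp only [Function.comp_apply, dt_one]
          push_cast
          rfl
        exact_mod_cast h8
      rw [h7, zero_add] at h5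
      exact h5

end PLA

open PLA in
theorem t_PLA (h1 : GSY_Stmt) (h2 : PLN_Stmt) (h3 : PLC_Stmt) (h4 : FIB_Stmt) : PLA_Stmt := by
  intro D hD l hl hz F hF
  have hD0 : D ≠ 0 := by
    rintro rfl
    simp at hD
  obtain ⟨L, hL, hLF⟩ := normal h2 hD0 l hl
  rw [hLF F hF]
  -- a bound
  refine main h1 h2 h3 h4 hD D.natAbs L ?_ ?_ F hF
  · intro x hx
    obtain ⟨a1, a2, a3⟩ := hL x hx
    refine ⟨a1, a2, a3, ?_⟩
    have := Nat.le_of_dvd (Int.natAbs_pos.2 hD0) (Int.natAbs_dvd_natAbs.2 a3)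
    omega
  · intro g hg
    have h5 := hLF _ (h1 D g hD0)
    have h6 := hz g hg
    unfold evN at h6
    have h7 : ((l.map fun e : ℤ × (ℤ × ℤ) × (ℤ × ℤ) => (e.1 : ℂ) *
        ((nS (D / dt e.2.1 e.2.2) e.2.1 e.2.2 g : ℕ) : ℂ)).sum) = 0 := by
      have h8 := congrArg (fun x : ℤ => (x : ℂ)) h6
      simp only [Int.cast_zero] at h8
      rw [← h8, Int.cast_list_sum, List.map_map]
      refine sum_congr _ _ _ fun x _ => ?_
      simp only [Function.comp_apply]
      push_cast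
      rfl
    have h9 : ((((L.map fun x =>
      x.1 * (nS (D / x.2.1) (0, 1) (x.2.1, x.2.2) g : ℤ)).sum : ℤ)) : ℂ) = 0 := by
      rw [← h7, h5, Int.cast_list_sum, List.map_map]
      refine sum_congr _ _ _ fun x _ => ?_
      simp only [Function.comp_apply, dt_one]
      push_cast
      rfl
    exact_mod_cast h9

end Pool.Agent.TV
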