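import Pool.Agent.TV.StK

/-!
Theorem V (MP_31fd3b_gt), module PLC (helper69): counting for the normal forms.
-/

namespace Pool.Agent.TV

open Pool.Agent.LibH11.Sliced Pool.Agent.MTR Pool.Agent.MTA Pool.Agent.UA Pool.Agent.UB
open Pool.Agent.TB hiding vec

namespace PLC

theorem c1 (A p q : ℤ) (hA : 0 < A) :
    {R : ℤ × ℤ | (R.1 = 1 ∨ R.1 = -1) ∧ R.1 * (R.1 * p - R.2 * A) = q}.Finite ∧
    {R : ℤ × ℤ | (R.1 = 1 ∨ R.1 = -1) ∧ R.1 * (R.1 * p - R.2 * A) = q}.ncard =
      if A ∣ q - p then 2 else 0 := by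
  split_ifs with h
  · obtain ⟨k, hk⟩ := h
    have hS : {R : ℤ × ℤ | (R.1 = 1 ∨ R.1 = -1) ∧ R.1 * (R.1 * p - R.2 * A) = q} =
        {((1 : ℤ), -k), ((-1 : ℤ), k)} := by
      ext ⟨x, y⟩
      simp only [Set.mem_ofPred_eq, Set.mem_insert_iff, Set.mem_singleton_iff, Prod.mk.injEq]
      constructor
      · rintro ⟨hx | hx, he⟩
        · subst hx
          left
          refine ⟨rfl, ?_⟩
          apply mul_left_cancel₀ hA.ne'
          linarith
        · subst hx
          right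
          refine ⟨rfl, ?_⟩
          apply mul_left_cancel₀ hA.ne'
          linarith
      · rintro (⟨rfl, rfl⟩ | ⟨rfl, rfl⟩)
        · exact ⟨Or.inl rfl, by linear_combination -hk⟩
        · exact ⟨Or.inr rfl, by linear_combination -hk⟩
    rw [hS]
    refine ⟨Set.toFinite _, Set.ncard_pair ?_⟩
    intro h
    have := congrArg Prod.fst h
    simp at this
  · have hS : {R : ℤ × ℤ | (R.1 = 1 ∨ R.1 = -1) ∧ R.1 * (R.1 * p - R.2 * A) = q} = ∅ := by
      ext ⟨x, y⟩
      simp only [Set.mem_ofPred_eq, Set.mem_empty_iff_false, iff_false]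
      rintro ⟨hx | hx, he⟩
      · subst hx
        exact h ⟨-y, by linear_combination -he⟩
      · subst hx
        exact h ⟨y, by linear_combination -he⟩
    rw [hS]
    exact ⟨Set.finite_empty, Set.ncard_empty _⟩

theorem c2 (A p q : ℤ) (hA : 0 < A) (hq : q ≠ 0) :
    {R : ℤ × ℤ | (R.1 = q ∨ R.1 = -q) ∧ R.1 * (R.1 * p - R.2 * A) = q}.Finite ∧
    {R : ℤ × ℤ | (R.1 = q ∨ R.1 = -q) ∧ R.1 * (R.1 * p - R.2 * A) = q}.ncard =
      if A ∣ p * q - 1 then 2 else 0 := by
  have key1 : ∀ y : ℤ, q * (q * p - y * A) = q → q * p - y * A = 1 := by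
    intro y hy
    apply mul_left_cancel₀ hq
    linarith
  have key2 : ∀ y : ℤ, -q * (-q * p - y * A) = q → q * p + y * A = 1 := by
    intro y hy
    apply mul_left_cancel₀ hq
    linarith
  split_ifs with h
  · obtain ⟨k, hk⟩ := h
    have hS : {R : ℤ × ℤ | (R.1 = q ∨ R.1 = -q) ∧ R.1 * (R.1 * p - R.2 * A) = q} =
        {(q, k), (-q, -k)} := by
      ext ⟨x, y⟩
      simp only [Set.mem_ofPred_eq, Set.mem_insert_iff, Set.mem_singleton_iff, Prod.mk.injEq]
      constructor
      · rintro ⟨hx | hx, he⟩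
        · subst hx
          left
          refine ⟨rfl, ?_⟩
          have := key1 y he
          apply mul_left_cancel₀ hA.ne'
          linarith
        · subst hx
          right
          refine ⟨rfl, ?_⟩
          have := key2 y he
          apply mul_left_cancel₀ hA.ne'
          linarith
      · rintro (⟨rfl, rfl⟩ | ⟨rfl, rfl⟩)
        · exact ⟨Or.inl rfl, by linear_combination x * hk⟩
        · exact ⟨Or.inr rfl, by linear_combination q * hk⟩
    rw [hS]
    refine ⟨Set.toFinite _, Set.ncard_pair ?_⟩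
    intro h
    have := congrArg Prod.fst h
    simp only at this
    omega
  · have hS : {R : ℤ × ℤ | (R.1 = q ∨ R.1 = -q) ∧ R.1 * (R.1 * p - R.2 * A) = q} = ∅ := by
      ext ⟨x, y⟩
      simp only [Set.mem_ofPred_eq, Set.mem_empty_iff_false, iff_false]
      rintro ⟨hx | hx, he⟩
      · subst hx
        have := key1 y he
        exact h ⟨y, by linear_combination this⟩
      · subst hx
        have := key2 y he
        exact h ⟨-y, by linear_combination this⟩
    rw [hS]
    exact ⟨Set.finite_empty, Set.ncard_empty _⟩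

theorem dvd_cases {x : ℤ} {q : ℕ} (hq : q.Prime) (h : x ∣ (q : ℤ)) :
    (x = 1 ∨ x = -1) ∨ (x = (q : ℤ) ∨ x = -(q : ℤ)) := by
  have h2 : x.natAbs ∣ q := by
    have := Int.natAbs_dvd_natAbs.2 h
    simpa using this
  rcases (Nat.dvd_prime hq).1 h2 with h3 | h3
  · left
    omega
  · right
    omega

end PLC

open PLC in
theorem t_PLC : PLC_Stmt := by
  intro D A0 A p q hD hA0 hA0D hA hAA0 hAD hq hDq
  obtain ⟨k, hk⟩ := hAD
  obtain ⟨k0, hk0⟩ := hA0D
  have hdA : D / A = k := by rw [hk]; exact Int.mul_ediv_cancel_left k hA.ne'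
  have hdA0 : D / A0 = k0 := by rw [hk0]; exact Int.mul_ediv_cancel_left k0 hA0.ne'
  have hk0' : k ≠ 0 := by
    rintro rfl
    exact hD (by rw [hk, mul_zero])
  have hmem : ∀ R : ℤ × ℤ, R ∈ Sl (D / A) (0, 1) (A, p) (-(D / A0) * q) ↔
      k * (R.1 * (R.1 * p - R.2 * A)) = k0 * q := by
    intro R
    simp only [Sl, Set.mem_ofPred_eq, Nl, cx, det2, hdA, hdA0]
    constructor
    · intro h
      linear_combination -h
    · intro h
      linear_combination -h
  have hq0 : (q : ℤ) ≠ 0 := by exact_mod_cast hq.ne_zero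
  unfold nS
  by_cases hAe : A = A0
  · rw [if_pos hAe]
    have hkk : k0 = k := by
      subst hAe
      apply mul_left_cancel₀ hA.ne'
      rw [← hk, ← hk0]
    have hSet : Sl (D / A) (0, 1) (A, p) (-(D / A0) * q) =
        {R : ℤ × ℤ | (R.1 = 1 ∨ R.1 = -1) ∧ R.1 * (R.1 * p - R.2 * A) = (q : ℤ)} ∪
        {R : ℤ × ℤ | (R.1 = (q : ℤ) ∨ R.1 = -(q : ℤ)) ∧
          R.1 * (R.1 * p - R.2 * A) = (q : ℤ)} := by
      ext R
      rw [hmem R, hkk]
      simp only [Set.mem_union, Set.mem_ofPred_eq]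
      constructor
      · intro h
        have h' : R.1 * (R.1 * p - R.2 * A) = (q : ℤ) := mul_left_cancel₀ hk0' h
        rcases dvd_cases hq ⟨_, h'.symm⟩ with h3 | h3
        · exact Or.inl ⟨h3, h'⟩
        · exact Or.inr ⟨h3, h'⟩
      · rintro (⟨_, h⟩ | ⟨_, h⟩) <;> rw [h]
    have hdisj : Disjoint
        {R : ℤ × ℤ | (R.1 = 1 ∨ R.1 = -1) ∧ R.1 * (R.1 * p - R.2 * A) = (q : ℤ)}
        {R : ℤ × ℤ | (R.1 = (q : ℤ) ∨ R.1 = -(q : ℤ)) ∧
          R.1 * (R.1 * p - R.2 * A) = (q : ℤ)} := by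
      rw [Set.disjoint_left]
      rintro R ⟨h3, _⟩ ⟨h4, _⟩
      have := hq.two_le
      omega
    rw [hSet, Set.ncard_union_eq hdisj (c1 A p q hA).1 (c2 A p q hA hq0).1, (c1 A p q hA).2,
      (c2 A p q hA hq0).2]
  · rw [if_neg hAe]
    have hempty : Sl (D / A) (0, 1) (A, p) (-(D / A0) * q) = ∅ := by
      ext R
      rw [hmem R]
      simp only [Set.mem_empty_iff_false, iff_false]
      intro h
      have h1 : A0 * (R.1 * (R.1 * p - R.2 * A)) = A * q := by
        apply mul_left_cancel₀ hD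
        have e1 : D * (A0 * (R.1 * (R.1 * p - R.2 * A))) =
            A * A0 * (k * (R.1 * (R.1 * p - R.2 * A))) := by rw [hk]; ring
        have e2 : D * (A * (q : ℤ)) = A * A0 * (k0 * q) := by
          conv_lhs => rw [hk0]
          ring
        rw [e1, e2, h]
      have hqp : Prime (q : ℤ) := Nat.prime_iff_prime_int.1 hq
      have hd : (q : ℤ) ∣ A0 * (R.1 * (R.1 * p - R.2 * A)) := ⟨A, by rw [h1]; ring⟩
      rcases hqp.dvd_or_dvd hd with h2 | h2
      · have h3 : (q : ℤ) ∣ D := h2.trans ⟨k0, hk0⟩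
        have h4 := Int.natAbs_dvd_natAbs.2 h3
        rw [Int.natAbs_natCast] at h4
        have h5 := Nat.le_of_dvd (Int.natAbs_pos.2 hD) h4
        omega
      · obtain ⟨t, ht⟩ := h2
        have h3 : A0 * t = A := by
          apply mul_left_cancel₀ hq0
          rw [ht] at h1
          linarith
        have h4 : A0 ∣ A := ⟨t, h3.symm⟩
        exact hAe (le_antisymm hAA0 (Int.le_of_dvd hA h4))
    rw [hempty, Set.ncard_empty]

end Pool.Agent.TV
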