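import Pool.Agent.TV.StK

/-!
Theorem V (MP_31fd3b_gt), module PLN: normal forms of pairs of vectors.
-/

open scoped BigOperators

namespace Pool.Agent.TV

open Pool.Agent.LibH11.Sliced Pool.Agent.MTR Pool.Agent.MTA Pool.Agent.UA Pool.Agent.UB
open Pool.Agent.TB hiding vec

namespace LPln

theorem dt_mk (a b c d : ℤ) : dt (a, b) (c, d) = a * d + c * b := rfl

theorem dt_comm (P V : ℤ × ℤ) : dt V P = dt P V := by
  obtain ⟨a, b⟩ := P
  obtain ⟨c, d⟩ := V
  rw [dt_mk, dt_mk]
  ring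

theorem dt_smul (k : ℤ) (P V : ℤ × ℤ) : dt (k • P) V = k * dt P V := by
  obtain ⟨a, b⟩ := P
  obtain ⟨c, d⟩ := V
  change k * a * d + c * (k * b) = k * (a * d + c * b)
  ring

theorem dt_rv (P V : ℤ × ℤ) : dt (rv P) V = dt P (rv V) := by
  obtain ⟨a, b⟩ := P
  obtain ⟨c, d⟩ := V
  change -b * d + c * a = a * c + -d * b
  ring

theorem dt_shift (P V : ℤ × ℤ) (k : ℤ) : dt (addv P (k, 1)) V = dt P (addv V (k, 1)) := by
  obtain ⟨a, b⟩ := P
  obtain ⟨c, d⟩ := V
  change (a * 1 + k * b) * d + c * (b * 1) = a * (d * 1) + (c * 1 + k * d) * b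
  ring

section

variable {D : ℤ} {F : ℤ × ℤ → ℤ × ℤ → ℂ}

theorem scale2 (hF : Sym D F) (P V : ℤ × ℤ) (k : ℤ) (h : dt P (k • V) ∣ D) :
    F P (k • V) = F P V := by
  have h1 : dt (k • V) P ∣ D := by rw [dt_comm]; exact h
  have h2 : dt V P ∣ D := (Dvd.intro_left k (dt_smul k V P).symm).trans h1
  have e1 := hF.swap P (k • V) h
  have e2 := hF.scale V P k h1
  have e3 := hF.swap P V (by rw [← dt_comm]; exact h2)
  rw [← e1, e2, e3]

theorem shift2 (hF : Sym D F) (A p k : ℤ) (hA : A ∣ D) :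
    F (0, 1) (A, p - k * A) = F (0, 1) (A, p) := by
  have key : ∀ x : ℤ, F (0, 1) (A, x) = F (1, 0) (-x, A) := by
    intro x
    have h1 : ((0, 1) : ℤ × ℤ) = rv (1, 0) := by simp [rv]
    have h2 : ((-x, A) : ℤ × ℤ) = rv (A, x) := rfl
    rw [h1, h2]
    refine hF.rot (1, 0) (A, x) ?_
    rw [← h2, dt_mk]
    simpa using hA
  rw [key, key]
  have h3 := hF.shift (1, 0) (-p, A) k (by
    change dt (1, 0) (-p * 1 + k * A, A * 1) ∣ D
    rw [dt_mk]
    simpa using hA)
  have h4 : addv (1, 0) (k, 1) = ((1, 0) : ℤ × ℤ) := by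
    change ((1 * 1 + k * 0, 0 * 1) : ℤ × ℤ) = (1, 0)
    simp
  have h5 : addv (-p, A) (k, 1) = ((-(p - k * A), A) : ℤ × ℤ) := by
    change ((-p * 1 + k * A, A * 1) : ℤ × ℤ) = (-(p - k * A), A)
    rw [mul_one, mul_one]
    congr 1
    ring
  rw [h4, h5] at h3
  exact h3.symm

theorem shift3 (hF : Sym D F) (A p p' : ℤ) (hA : A ∣ D) (h : A ∣ p' - p) :
    F (0, 1) (A, p') = F (0, 1) (A, p) := by
  obtain ⟨m, hm⟩ := h
  have h1 := shift2 hF A p' m hA
  have h2 : p' - m * A = p := by linarith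
  rw [h2] at h1
  exact h1.symm

theorem main (hF : Sym D F) : ∀ (N : ℕ) (a b s t : ℤ) (V : ℤ × ℤ), b.natAbs ≤ N →
    t * b - s * a = 1 → dt (a, b) V ∣ D →
    F (a, b) V = F (0, 1) (dt (a, b) V, s * V.1 + t * V.2) := by
  intro N
  induction N with
  | zero =>
    intro a b s t V hN hst hd
    have hb : b = 0 := by omega
    subst hb
    obtain ⟨x, y⟩ := V
    have hsa : s * a = -1 := by linarith
    have ha : a = 1 ∨ a = -1 := by
      have h1 : a ∣ 1 := ⟨-s, by linarith⟩
      exact Int.isUnit_iff.1 (isUnit_of_dvd_one h1)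
    have h0 : F (a, 0) (x, y) = F (1, 0) (x, y) := by
      have h1 : ((a, 0) : ℤ × ℤ) = a • ((1, 0) : ℤ × ℤ) := by simp
      rw [h1] at hd ⊢
      exact hF.scale _ _ _ hd
    rw [dt_mk] at hd
    have hy : y ∣ D := (Dvd.intro_left a rfl).trans (by simpa using hd)
    have h2 : F (1, 0) (x, y) = F (0, 1) (y, -x) := by
      have h3 : ((x, y) : ℤ × ℤ) = rv (y, -x) := by simp [rv]
      have h4 : ((0, 1) : ℤ × ℤ) = rv (1, 0) := by simp [rv]
      rw [h3, h4]
      refine (hF.rot (1, 0) (y, -x) ?_).symm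
      rw [← h3, dt_mk]
      simpa using hy
    rw [h0, h2, dt_mk]
    rcases ha with rfl | rfl
    · have hs : s = -1 := by linarith
      subst hs
      have h5 : (1 : ℤ) * y + x * 0 = y := by ring
      rw [h5]
      refine (shift3 hF y (-x) _ hy ?_).symm
      exact ⟨t, by ring⟩
    · have hs : s = 1 := by linarith
      subst hs
      have h5 : (((-1 : ℤ) * y + x * 0, 1 * x + t * y) : ℤ × ℤ) =
          (-1 : ℤ) • ((y, -x - t * y) : ℤ × ℤ) := by
        ext
        · simp
        · simp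
          ring
      have h6 : dt (0, 1) ((-1 : ℤ) • ((y, -x - t * y) : ℤ × ℤ)) ∣ D := by
        rw [dt_comm, dt_smul, dt_comm, dt_mk]
        simpa using hy
      change _ = F (0, 1) ((-1 : ℤ) * y + x * 0, 1 * x + t * y)
      rw [h5, scale2 hF _ _ _ h6]
      refine (shift3 hF y (-x) _ hy ?_).symm
      exact ⟨-t, by ring⟩
  | succ N ih =>
    intro a b s t V hN hst hd
    by_cases hb : b = 0
    · exact ih a b s t V (by rw [hb]; simp) hst hd
    obtain ⟨x, y⟩ := V
    set k : ℤ := a / b with hk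
    set r : ℤ := a % b with hr
    have hab : r + k * b = a := by
      rw [hk, hr, mul_comm]
      exact Int.emod_add_mul_ediv a b
    have hr0 : 0 ≤ r := Int.emod_nonneg a hb
    have hr1 : r < |b| := Int.emod_lt_abs a hb
    have h1 : ((a, b) : ℤ × ℤ) = addv (r, b) (k, 1) := by
      change ((a, b) : ℤ × ℤ) = (r * 1 + k * b, b * 1)
      rw [mul_one, mul_one, hab]
    have h2 : ((r, b) : ℤ × ℤ) = rv (b, -r) := by simp [rv]
    have h3 : dt (a, b) (x, y) = dt (b, -r) (rv (addv (x, y) (k, 1))) := by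
      rw [h1, dt_shift, h2, dt_rv]
    have h4 : F (a, b) (x, y) = F (b, -r) (rv (addv (x, y) (k, 1))) := by
      rw [h1, hF.shift (r, b) (x, y) k (by rw [← dt_shift, ← h1]; exact hd), h2]
      exact hF.rot _ _ (by rw [← h3]; exact hd)
    have h5 : rv (addv (x, y) (k, 1)) = ((-y, x + k * y) : ℤ × ℤ) := by
      change ((-(y * 1), x * 1 + k * y) : ℤ × ℤ) = _
      rw [mul_one, mul_one]
    have hb' : |b| = (b.natAbs : ℤ) := (Int.natCast_natAbs b).symm
    have h6 := ih b (-r) (s * k - t) s (rv (addv (x, y) (k, 1))) (by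
      rw [Int.natAbs_neg]
      rw [hb'] at hr1
      omega) (by
      have : a = r + k * b := hab.symm
      rw [this] at hst
      linarith) (by rw [← h3]; exact hd)
    rw [h4, h6, ← h3, h5]
    congr 2
    change (s * k - t) * -y + s * (x + k * y) = s * x + t * y
    ring

end

/-- a nonzero vector is a multiple of a primitive one -/
theorem prim (P : ℤ × ℤ) (hP : P ≠ 0) : ∃ (k a b : ℤ), P = k • ((a, b) : ℤ × ℤ) ∧ IsCoprime a b := by
  obtain ⟨x, y⟩ := P
  have h0 : ¬ (x = 0 ∧ y = 0) := by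
    rintro ⟨rfl, rfl⟩
    exact hP rfl
  have hg : 0 < Int.gcd x y := by
    rw [Int.gcd_pos_iff]
    by_contra h
    push Not at h
    exact h0 h
  obtain ⟨a, b, hab, hx, hy⟩ := Int.exists_gcd_one hg
  refine ⟨(Int.gcd x y : ℤ), a, b, ?_, Int.isCoprime_iff_gcd_eq_one.2 hab⟩
  ext
  · change x = (Int.gcd x y : ℤ) * a
    rw [mul_comm]
    exact hx
  · change y = (Int.gcd x y : ℤ) * b
    rw [mul_comm]
    exact hy

end LPln

open LPln in
theorem t_PLN (_h1 : SFIN_Stmt) : PLN_Stmt := by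
  intro D hD
  have part1 : ∀ F, Sym D F → ∀ (a b s t : ℤ) (V : ℤ × ℤ), t * b - s * a = 1 → dt (a, b) V ∣ D →
      F (a, b) V = F (0, 1) (dt (a, b) V, s * V.1 + t * V.2) :=
    fun F hF a b s t V => LPln.main hF b.natAbs a b s t V le_rfl
  refine ⟨part1, ?_, ?_⟩
  · intro F hF A p p' hA hAp h
    rcases h with h | h
    · exact shift3 hF A p p' hA h
    · obtain ⟨u, v, huv⟩ := hAp
      have h1 : dt (0, 1) (A, p) ∣ D := by
        rw [dt_mk]
        simpa using hA
      have h2 : dt (A, p) (0, 1) ∣ D := by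
        rw [dt_comm]
        exact h1
      have h3 := part1 F hF A p (-u) v (0, 1) (by linarith) h2
      have h4 : dt (A, p) (0, 1) = A := by
        rw [dt_mk]
        ring
      rw [h4] at h3
      have h5 : -u * ((0, 1) : ℤ × ℤ).1 + v * ((0, 1) : ℤ × ℤ).2 = v := by
        change -u * 0 + v * 1 = v
        ring
      rw [h5] at h3
      rw [← hF.swap (0, 1) (A, p) h1, h3]
      refine shift3 hF A v p' hA ?_
      obtain ⟨m, hm⟩ := h
      refine ⟨u * p' + v * m, ?_⟩
      linear_combination v * hm - p' * huv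
  · intro P V hPV
    have hne : dt P V ≠ 0 := by
      intro h
      rw [h, zero_dvd_iff] at hPV
      exact hD hPV
    have hP0 : P ≠ 0 := by
      rintro rfl
      apply hne
      obtain ⟨x, y⟩ := V
      change (0 : ℤ) * y + x * 0 = 0
      ring
    have hV0 : V ≠ 0 := by
      rintro rfl
      apply hne
      obtain ⟨x, y⟩ := P
      change x * (0 : ℤ) + 0 * y = 0
      ring
    obtain ⟨k, a, b, rfl, hab⟩ := prim P hP0
    obtain ⟨m, c, d, rfl, hcd⟩ := prim V hV0
    have h1 : dt (a, b) (m • ((c, d) : ℤ × ℤ)) ∣ D := by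
      rw [dt_smul] at hPV
      exact (Dvd.intro_left k rfl).trans hPV
    have h2 : dt (a, b) (c, d) ∣ D := by
      rw [dt_comm, dt_smul, dt_comm] at h1
      exact (Dvd.intro_left m rfl).trans h1
    obtain ⟨u, v, huv⟩ := hab
    obtain ⟨u', v', huv'⟩ := hcd
    set A : ℤ := dt (a, b) (c, d) with hA
    set p : ℤ := -u * c + v * d with hp
    have hA' : A = a * d + c * b := rfl
    have hF : ∀ F, Sym D F → F (k • ((a, b) : ℤ × ℤ)) (m • ((c, d) : ℤ × ℤ)) = F (0, 1) (A, p) := by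
      intro F hF
      rw [hF.scale _ _ _ hPV, scale2 hF _ _ _ h1]
      exact part1 F hF a b (-u) v (c, d) (by linarith) h2
    have hcop : IsCoprime A p := by
      refine ⟨u' * v + v' * u, v' * b - u' * a, ?_⟩
      rw [hA', hp]
      linear_combination (u' * c + v' * d) * huv + huv'
    have hAne : A ≠ 0 := by
      intro h
      rw [h, zero_dvd_iff] at h2
      exact hD h2
    rcases lt_or_gt_of_ne hAne with hneg | hpos
    · refine ⟨-A, -p, by linarith, ?_, (neg_dvd).2 h2, ?_⟩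
      · exact hcop.neg_neg
      · intro F hF'
        rw [hF F hF']
        have h5 : ((A, p) : ℤ × ℤ) = (-1 : ℤ) • ((-A, -p) : ℤ × ℤ) := by
          ext
          · simp
          · simp
        rw [h5]
        refine scale2 hF' _ _ _ ?_
        rw [← h5, dt_mk]
        simpa using h2
    · exact ⟨A, p, hpos, hcop, h2, hF⟩

end Pool.Agent.TV
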