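import Pool.Agent.TV.StK

/-!
Theorem V (MP_31fd3b_gt), module RSI: the residues and the pole at 0.
-/

set_option autoImplicit false

open scoped BigOperators

namespace Pool.Agent.TV

open Pool.Agent.LibH11.Sliced Pool.Agent.MTR Pool.Agent.MTA Pool.Agent.UA Pool.Agent.UB
open Pool.Agent.TB hiding vec

namespace RSI

theorem dt_zero_one (V : ℤ × ℤ) : dt (0, 1) V = V.1 := by
  simp [dt, addv]

theorem gp_mul {B q : ℕ} {g : ℤ} (hg : g ≠ 0) (hq : q.Prime) (h1 : B < q) (h2 : g.natAbs < q) :
    Gp B (g * q) := by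
  refine ⟨q, hq, h1, Dvd.intro_left g rfl, ?_⟩
  intro h
  have hq0 : (q : ℤ) ≠ 0 := by exact_mod_cast hq.ne_zero
  have h3 : (q : ℤ) ∣ g := by
    rw [pow_two] at h
    exact Int.dvd_of_mul_dvd_mul_right hq0 h
  have h4 : q ∣ g.natAbs := Int.natCast_dvd.1 h3
  have h5 := Nat.le_of_dvd (Int.natAbs_pos.2 hg) h4
  omega

theorem evN_append (D : ℤ) (l l' : Cb) (g : ℤ) : evN D (l ++ l') g = evN D l g + evN D l' g := by
  simp [evN]

theorem sum_map_neg {α R : Type*} [CommRing R] (f : α → R) (l : List α) :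
    (l.map fun x => -f x).sum = -(l.map f).sum := by
  induction l with
  | nil => simp
  | cons a l ih =>
    rw [List.map_cons, List.sum_cons, List.map_cons, List.sum_cons, ih]
    ring

/-- The data of a list of trees. -/
theorem list_data (h1 : XXF_Stmt) (h2 : RSV_Stmt) (D g : ℤ) (hD : D ≠ 0) (hg : g ≠ 0) :
    ∀ Us : List Tr, (∀ t ∈ Us, (vec t).1 ∣ D) →
    ∃ (l : List (ℤ × ℚ)) (γ : ℤ) (B : ℕ), (∀ e ∈ l, e.2 ≠ 0) ∧
      (∀ z : ℚ, z ≠ 0 →
        (l.map fun e => e.1 * ((if e.2 = z then 1 else 0) - (if e.2 = 1 / z then 1 else 0))).sum =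
          ((VL Us).map fun v => rs D v g z).sum) ∧
      γ - (l.map fun e => e.1).sum = evN D (NLs Us) g ∧
      ∀ q : ℕ, q.Prime → B < q → D ∣ (q : ℤ) - 1 →
        ((g : ℚ) / D) * (Us.map fun t => Ph (D / (vec t).1) (g * q) t).sum =
          (l.map fun e => (e.1 : ℚ) * hq e.2 q).sum + (γ : ℚ) / q := by
  intro Us
  induction Us with
  | nil =>
    intro _
    refine ⟨[], 0, 0, by simp, ?_, ?_, ?_⟩
    · intro z _
      simp [VL]
    · simp [NLs, evN]
    · intro q _ _ _
      simp
  | cons t Us ih =>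
    intro hU
    obtain ⟨l1, γ1, B1, a1, a2, a3, a4⟩ := ih fun u hu => hU u (List.mem_cons_of_mem _ hu)
    have ht : (vec t).1 ∣ D := hU t List.mem_cons_self
    have ht' : dt (0, 1) (vec t) ∣ D := by
      rw [dt_zero_one]
      exact ht
    obtain ⟨l2, γ2, B2, b1, b2, b3, b4⟩ := h2 t (0, 1) D g hD hg ht'
    have ht0 : (vec t).1 ≠ 0 := by
      intro h0
      rw [h0, zero_dvd_iff] at ht
      exact hD ht
    have hc : D / (vec t).1 ≠ 0 := by
      intro h0
      have := Int.ediv_mul_cancel ht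
      rw [h0, zero_mul] at this
      exact hD this.symm
    obtain ⟨B3, c1⟩ := (h1 _ hc).2 t ht0
    refine ⟨l2 ++ l1, γ2 + γ1, max (max B1 B2) (max B3 g.natAbs), ?_, ?_, ?_, ?_⟩
    · intro e he
      rcases List.mem_append.1 he with he | he
      · exact b1 e he
      · exact a1 e he
    · intro z hz
      have e1 : VL (t :: Us) = vts (0, 1) t ++ VL Us := by simp [VL]
      rw [e1, List.map_append, List.sum_append, List.map_append, List.sum_append, a2 z hz, b2 z hz]
    · have e1 : NLs (t :: Us) = NL (0, 1) t ++ NLs Us := by simp [NLs]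
      rw [e1, evN_append, List.map_append, List.sum_append, ← a3, ← b3]
      ring
    · intro q hq hB hDq
      have k1 : B1 < q := lt_of_le_of_lt ((le_max_left _ _).trans (le_max_left _ _)) hB
      have k2 : B2 < q := lt_of_le_of_lt ((le_max_right _ _).trans (le_max_left _ _)) hB
      have k3 : B3 < q := lt_of_le_of_lt ((le_max_left _ _).trans (le_max_right _ _)) hB
      have k4 : g.natAbs < q := lt_of_le_of_lt ((le_max_right _ _).trans (le_max_right _ _)) hB
      have s1 := a4 q hq k1 hDq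
      have s2 := b4 q hq k2 hDq
      rw [dt_zero_one] at s2
      have s3 := c1 (g * q) (gp_mul hg hq k3 k4)
      rw [List.map_cons, List.sum_cons, mul_add, s1, s3, s2, List.map_append, List.sum_append]
      push_cast
      ring

/-- There are infinitely many primes which are congruent to `1`. -/
theorem primes_infinite (D : ℤ) (hD : D ≠ 0) (B : ℕ) :
    {q : ℕ | q.Prime ∧ B < q ∧ D ∣ (q : ℤ) - 1}.Infinite := by
  refine Set.infinite_of_forall_exists_gt fun a => ?_
  have hne : NeZero D.natAbs := ⟨Int.natAbs_ne_zero.2 hD⟩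
  obtain ⟨p, hp1, hp2, hp3⟩ := Nat.forall_exists_prime_gt_and_eq_mod (q := D.natAbs) (a := 1)
    isUnit_one (max a B)
  refine ⟨p, ⟨hp2, lt_of_le_of_lt (le_max_right _ _) hp1, ?_⟩,
    lt_of_le_of_lt (le_max_left _ _) hp1⟩
  have h1 : ((p : ℤ) : ZMod D.natAbs) = ((1 : ℤ) : ZMod D.natAbs) := by
    push_cast
    exact hp3
  have h2 := (ZMod.intCast_eq_intCast_iff_dvd_sub _ _ _).1 h1.symm
  exact Int.natAbs_dvd.1 h2

end RSI

open RSI in
theorem t_RSI (h1 : XXF_Stmt) (h2 : RSV_Stmt) (h3 : PF_Stmt) (h4 : VTS_Stmt) : RSI_Stmt := by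
  intro Ts Ts' D hDo hdvd hPh g hgo
  have hD : D ≠ 0 := by
    rintro rfl
    exact absurd hDo (by decide)
  have hg : g ≠ 0 := by
    rintro rfl
    exact absurd hgo (by decide)
  obtain ⟨l1, γ1, B1, a1, a2, a3, a4⟩ := list_data h1 h2 D g hD hg Ts fun t ht =>
    hdvd t (List.mem_append_left _ ht)
  obtain ⟨l2, γ2, B2, b1, b2, b3, b4⟩ := list_data h1 h2 D g hD hg Ts' fun t ht =>
    hdvd t (List.mem_append_right _ ht)
  obtain ⟨B, hB⟩ := hPh
  set S : Set ℕ := {q : ℕ | q.Prime ∧ max (max B1 B2) (max B (max g.natAbs 2)) < q ∧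
    D ∣ (q : ℤ) - 1} with hS
  have hSi : S.Infinite := primes_infinite D hD _
  have key := h3 (l1 ++ l2.map fun e => (-e.1, e.2)) (γ1 - γ2) S hSi ?_ ?_
  · obtain ⟨r1, r2⟩ := key
    constructor
    · intro z hz
      have r3 := r1 z hz
      rw [List.map_append, List.sum_append, List.map_map] at r3
      have e1 : (l2.map ((fun e : ℤ × ℚ => e.1 * ((if e.2 = z then 1 else 0) -
          (if e.2 = 1 / z then 1 else 0))) ∘ fun e => (-e.1, e.2))).sum =
          - (l2.map fun e => e.1 * ((if e.2 = z then 1 else 0) -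
            (if e.2 = 1 / z then 1 else 0))).sum := by
        rw [← sum_map_neg]
        congr 1
        refine List.map_congr_left fun e _ => ?_
        simp only [Function.comp]
        ring
      rw [e1, a2 z hz, b2 z hz] at r3
      linarith
    · rw [List.map_append, List.sum_append, List.map_map] at r2
      have e1 : (l2.map ((fun e : ℤ × ℚ => e.1) ∘ fun e => (-e.1, e.2))).sum =
          - (l2.map fun e => e.1).sum := by
        rw [← sum_map_neg]
        congr 1
      rw [e1] at r2
      rw [← a3, ← b3]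
      linarith
  · intro e he
    rcases List.mem_append.1 he with he | he
    · exact a1 e he
    · obtain ⟨e', he', rfl⟩ := List.mem_map.1 he
      exact b1 e' he'
  · intro q hq
    obtain ⟨hq1, hq2, hq3⟩ := hq
    have k1 : B1 < q := lt_of_le_of_lt ((le_max_left _ _).trans (le_max_left _ _)) hq2
    have k2 : B2 < q := lt_of_le_of_lt ((le_max_right _ _).trans (le_max_left _ _)) hq2
    have k3 : B < q := lt_of_le_of_lt ((le_max_left _ _).trans (le_max_right _ _)) hq2
    have k4 : g.natAbs < q := lt_of_le_of_lt (((le_max_left _ _).trans (le_max_right _ _)).trans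
      (le_max_right _ _)) hq2
    have k5 : 2 < q := lt_of_le_of_lt (((le_max_right _ _).trans (le_max_right _ _)).trans
      (le_max_right _ _)) hq2
    have s1 := a4 q hq1 k1 hq3
    have s2 := b4 q hq1 k2 hq3
    have hodd : Odd (g * (q : ℤ)) := by
      have : Odd (q : ℤ) := by
        exact_mod_cast hq1.odd_of_ne_two (by omega)
      exact hgo.mul this
    have s3 := hB (g * q) hodd (gp_mul hg hq1 k3 k4)
    rw [s3, s2] at s1
    rw [List.map_append, List.sum_append, List.map_map]
    have e1 : (l2.map ((fun e : ℤ × ℚ => (e.1 : ℚ) * hq e.2 q) ∘ fun e => (-e.1, e.2))).sum =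
        - (l2.map fun e => (e.1 : ℚ) * TV.hq e.2 q).sum := by
      rw [← sum_map_neg]
      congr 1
      refine List.map_congr_left fun e _ => ?_
      simp only [Function.comp]
      push_cast
      ring
    rw [e1]
    push_cast
    have e2 : ((γ1 : ℚ) - γ2) / q = (γ1 : ℚ) / q - (γ2 : ℚ) / q := by ring
    rw [e2]
    linarith

end Pool.Agent.TV
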