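import Pool.Agent.TV.StK

/-!
Theorem V (MP_31fd3b_gt), module RSV: the vertices of one tree.
-/

set_option autoImplicit false

open scoped BigOperators

namespace Pool.Agent.TV

open Pool.Agent.LibH11.Sliced Pool.Agent.MTR Pool.Agent.MTA Pool.Agent.UA Pool.Agent.UB
open Pool.Agent.TB hiding vec

namespace RSV

/-- A function of large primes which is a combination of the functions `hq` and `1 / q`. -/
def Rp (D : ℤ) (X : ℕ → ℚ) (Z : ℚ → ℤ) (N : ℤ) : Prop :=
  ∃ (l : List (ℤ × ℚ)) (γ : ℤ) (B : ℕ), (∀ e ∈ l, e.2 ≠ 0) ∧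
    (∀ z : ℚ, z ≠ 0 →
      (l.map fun e => e.1 * ((if e.2 = z then 1 else 0) - (if e.2 = 1 / z then 1 else 0))).sum =
        Z z) ∧
    γ - (l.map fun e => e.1).sum = N ∧
    ∀ q : ℕ, q.Prime → B < q → D ∣ (q : ℤ) - 1 →
      X q = (l.map fun e => (e.1 : ℚ) * hq e.2 q).sum + (γ : ℚ) / q

theorem Rp.zero (D : ℤ) : Rp D (fun _ => 0) (fun _ => 0) 0 :=
  ⟨[], 0, 0, by simp, by simp, by simp, by simp⟩

theorem Rp.add {D : ℤ} {X X' : ℕ → ℚ} {Z Z' : ℚ → ℤ} {N N' : ℤ} (h : Rp D X Z N)
    (h' : Rp D X' Z' N') :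
    Rp D (fun q => X q + X' q) (fun z => Z z + Z' z) (N + N') := by
  obtain ⟨l, γ, B, h1, h2, h3, h4⟩ := h
  obtain ⟨l', γ', B', h1', h2', h3', h4'⟩ := h'
  refine ⟨l ++ l', γ + γ', max B B', ?_, ?_, ?_, ?_⟩
  · intro e he
    rcases List.mem_append.1 he with he | he
    · exact h1 e he
    · exact h1' e he
  · intro z hz
    rw [List.map_append, List.sum_append, h2 z hz, h2' z hz]
  · rw [List.map_append, List.sum_append, ← h3, ← h3']
    ring
  · intro q hqp hB hD
    beta_reduce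
    rw [List.map_append, List.sum_append, h4 q hqp (lt_of_le_of_lt (le_max_left _ _) hB) hD,
      h4' q hqp (lt_of_le_of_lt (le_max_right _ _) hB) hD]
    push_cast
    ring

theorem sum_neg1 (l : List (ℤ × ℚ)) (F : ℚ → ℤ) :
    ((l.map fun e => (-e.1, e.2)).map fun e => e.1 * F e.2).sum =
      -(l.map fun e => e.1 * F e.2).sum := by
  induction l with
  | nil => simp
  | cons e l ih =>
    simp only [List.map_cons, List.sum_cons]
    rw [ih]
    ring

theorem sum_neg2 (l : List (ℤ × ℚ)) (F : ℚ → ℚ) :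
    ((l.map fun e => (-e.1, e.2)).map fun e => (e.1 : ℚ) * F e.2).sum =
      -(l.map fun e => (e.1 : ℚ) * F e.2).sum := by
  induction l with
  | nil => simp
  | cons e l ih =>
    simp only [List.map_cons, List.sum_cons]
    rw [ih]
    push_cast
    ring

theorem Rp.neg {D : ℤ} {X : ℕ → ℚ} {Z : ℚ → ℤ} {N : ℤ} (h : Rp D X Z N) :
    Rp D (fun q => -X q) (fun z => -Z z) (-N) := by
  obtain ⟨l, γ, B, h1, h2, h3, h4⟩ := h
  refine ⟨l.map fun e => (-e.1, e.2), -γ, B, ?_, ?_, ?_, ?_⟩
  · intro e he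
    obtain ⟨e', he', rfl⟩ := List.mem_map.1 he
    exact h1 e' he'
  · intro z hz
    rw [sum_neg1 l fun x => (if x = z then 1 else 0) - (if x = 1 / z then 1 else 0), h2 z hz]
  · have := sum_neg1 l fun _ => 1
    simp only [mul_one] at this
    rw [this, ← h3]
    ring
  · intro q hqp hB hD
    beta_reduce
    rw [sum_neg2 l fun x => hq x q, h4 q hqp hB hD]
    push_cast
    ring

theorem Rp.sub {D : ℤ} {X X' : ℕ → ℚ} {Z Z' : ℚ → ℤ} {N N' : ℤ} (h : Rp D X Z N)
    (h' : Rp D X' Z' N') :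
    Rp D (fun q => X q - X' q) (fun z => Z z - Z' z) (N - N') := by
  have := h.add h'.neg
  simp only [← sub_eq_add_neg] at this
  exact this

theorem Rp.list {α : Type} {D : ℤ} (l : List α) {X : α → ℕ → ℚ} {Z : α → ℚ → ℤ} {N : α → ℤ}
    (h : ∀ a ∈ l, Rp D (X a) (Z a) (N a)) :
    Rp D (fun q => (l.map fun a => X a q).sum) (fun z => (l.map fun a => Z a z).sum)
      (l.map N).sum := by
  induction l with
  | nil => exact Rp.zero D
  | cons a l ih =>
    have h1 := (h a List.mem_cons_self).add (ih fun b hb => h b (List.mem_cons_of_mem _ hb))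
    simpa only [List.map_cons, List.sum_cons] using h1

/-- The counting terms. -/
theorem rp_nu (hG : GQ_Stmt) {D g c : ℤ} {P V : ℤ × ℤ} (hD : D ≠ 0) (hg : g ≠ 0)
    (hc : c * dt P V = D) :
    Rp D (fun q => ((g : ℚ) / D) * nu c (g * q) P V) (fun _ => 0) (2 * (nS c P V g : ℤ)) := by
  have hc0 : c ≠ 0 := by
    rintro rfl
    exact hD (by rw [← hc, zero_mul])
  have hd0 : dt P V ≠ 0 := by
    intro h
    exact hD (by rw [← hc, h, mul_zero])
  obtain ⟨-, B, hB⟩ := hG c P V g hc0 hd0 hg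
  refine ⟨[], 2 * (nS c P V g : ℤ), B, by simp, by simp, by simp, ?_⟩
  intro q hq hBq hDq
  obtain ⟨h1, -⟩ := hB q hq hBq ((Dvd.intro_left _ hc).trans hDq)
  unfold nu
  beta_reduce
  rw [h1, hc]
  have hD' : (D : ℚ) ≠ 0 := by exact_mod_cast hD
  have hg' : (g : ℚ) ≠ 0 := by exact_mod_cast hg
  have hq' : (q : ℚ) ≠ 0 := by exact_mod_cast hq.ne_zero
  simp only [List.map_nil, List.sum_nil, zero_add]
  push_cast
  field_simp

/-- The sums `At` with nonzero weights. -/
theorem rp_At (hG : GQ_Stmt) (hS : SFIN_Stmt) {D g c : ℤ} {P V : ℤ × ℤ} (hD : D ≠ 0) (hg : g ≠ 0)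
    (hc : c * dt P V = D) (hP : P.2 ≠ 0) (hV : V.2 ≠ 0) :
    Rp D (fun q => ((g : ℚ) / D) * At c P V (g * q)) (fun z => rs1 D P V g z)
      (-(nS c P V g : ℤ)) := by
  classical
  have hc0 : c ≠ 0 := by
    rintro rfl
    exact hD (by rw [← hc, zero_mul])
  have hd0 : dt P V ≠ 0 := by
    intro h
    exact hD (by rw [← hc, h, mul_zero])
  have hcD : D / dt P V = c := by
    rw [← hc, Int.mul_ediv_cancel _ hd0]
  obtain ⟨hpol, B, hB⟩ := hG c P V g hc0 hd0 hg
  have hfin : (Sl c P V g).Finite := hS.1 c P V g hd0 hg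
  obtain ⟨F, hF⟩ : ∃ F : Finset (ℤ × ℤ), F = hfin.toFinset := ⟨_, rfl⟩
  have hmem : ∀ R, R ∈ F ↔ R ∈ Sl c P V g := fun R => by rw [hF, Set.Finite.mem_toFinset]
  have key : ∀ (f : ℚ → ℤ), ((F.toList.map fun R => ((1 : ℤ), pol P V R)).map
      fun e => e.1 * f e.2).sum = ∑ R ∈ F, f (pol P V R) := by
    intro f
    rw [List.map_map, ← Finset.sum_map_toList]
    congr 1
    refine List.map_congr_left fun R _ => ?_
    simp
  have hcard : ∀ z : ℚ, (∑ R ∈ F, if pol P V R = z then (1 : ℤ) else 0) =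
      ({R ∈ Sl c P V g | pol P V R = z}.ncard : ℤ) := by
    intro z
    rw [Finset.sum_boole]
    have : {R ∈ Sl c P V g | pol P V R = z} = ((F.filter fun R => pol P V R = z : Finset _) :
        Set (ℤ × ℤ)) := by
      ext R
      simp only [Set.mem_ofPred_eq, Finset.coe_filter, hmem]
    rw [this, Set.ncard_coe_finset]
  refine ⟨F.toList.map fun R => ((1 : ℤ), pol P V R), 0, B, ?_, ?_, ?_, ?_⟩
  · intro e he
    obtain ⟨R, hR, rfl⟩ := List.mem_map.1 he
    exact hpol R ((hmem R).1 (Finset.mem_toList.1 hR)) hP hV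
  · intro z hz
    rw [key fun x => (if x = z then 1 else 0) - (if x = 1 / z then 1 else 0),
      Finset.sum_sub_distrib, hcard, hcard]
    unfold rs1
    rw [hcD]
  · have := key fun _ => 1
    simp only [mul_one, Finset.sum_const, nsmul_eq_mul] at this
    rw [this]
    unfold nS
    rw [hF, ← Set.ncard_eq_toFinset_card _ hfin]
    ring
  · intro q hq hBq hDq
    obtain ⟨-, h1⟩ := hB q hq hBq ((Dvd.intro_left _ hc).trans hDq)
    simp only
    rw [h1, if_neg hV, if_neg hP, hc]
    have hD' : (D : ℚ) ≠ 0 := by exact_mod_cast hD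
    have hg' : (g : ℚ) ≠ 0 := by exact_mod_cast hg
    have h2 : ((g : ℚ) / D) * (((D : ℤ) : ℚ) / g * ∑ᶠ R ∈ Sl c P V g, TV.hq (pol P V R) q) =
        ∑ᶠ R ∈ Sl c P V g, TV.hq (pol P V R) q := by
      field_simp
    rw [h2, finsum_mem_eq_finite_toFinset_sum _ hfin, ← hF, List.map_map, ← Finset.sum_map_toList]
    rw [Int.cast_zero, zero_div, add_zero]
    congr 1
    refine List.map_congr_left fun R _ => ?_
    simp

/-- The sums `At` with the weight `P.2 = 0`. -/
theorem rp_At0 (hG : GQ_Stmt) {D g c : ℤ} {P V : ℤ × ℤ} (hD : D ≠ 0) (hg : g ≠ 0)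
    (hc : c * dt P V = D) (hP : P.2 = 0) (hV : V.2 ≠ 0) :
    Rp D (fun q => ((g : ℚ) / D) * At c P V (g * q)) (fun _ => 0) (-2 * (nS c P V g : ℤ)) := by
  have hc0 : c ≠ 0 := by
    rintro rfl
    exact hD (by rw [← hc, zero_mul])
  have hd0 : dt P V ≠ 0 := by
    intro h
    exact hD (by rw [← hc, h, mul_zero])
  obtain ⟨-, B, hB⟩ := hG c P V g hc0 hd0 hg
  refine ⟨[], -2 * (nS c P V g : ℤ), B, by simp, by simp, by simp, ?_⟩
  intro q hq hBq hDq
  obtain ⟨-, h1⟩ := hB q hq hBq ((Dvd.intro_left _ hc).trans hDq)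
  simp only
  rw [h1, if_neg hV, if_pos hP, hc]
  have hD' : (D : ℚ) ≠ 0 := by exact_mod_cast hD
  have hg' : (g : ℚ) ≠ 0 := by exact_mod_cast hg
  have hq' : (q : ℚ) ≠ 0 := by exact_mod_cast hq.ne_zero
  simp only [List.map_nil, List.sum_nil, zero_add]
  push_cast
  field_simp

/-- The sums `At` with the weight `V.2 = 0`. -/
theorem rp_At1 (hG : GQ_Stmt) {D g c : ℤ} {P V : ℤ × ℤ} (hD : D ≠ 0) (hg : g ≠ 0)
    (hc : c * dt P V = D) (hV : V.2 = 0) :
    Rp D (fun q => ((g : ℚ) / D) * At c P V (g * q)) (fun _ => 0) 0 := by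
  have hc0 : c ≠ 0 := by
    rintro rfl
    exact hD (by rw [← hc, zero_mul])
  have hd0 : dt P V ≠ 0 := by
    intro h
    exact hD (by rw [← hc, h, mul_zero])
  obtain ⟨-, B, hB⟩ := hG c P V g hc0 hd0 hg
  refine ⟨[], 0, B, by simp, by simp, by simp, ?_⟩
  intro q hq hBq hDq
  obtain ⟨-, h1⟩ := hB q hq hBq ((Dvd.intro_left _ hc).trans hDq)
  simp only
  rw [h1, if_pos hV]
  simp

theorem sum_neg {α : Type} (l : List α) (f : α → ℤ) :
    (l.map fun x => -f x).sum = -(l.map f).sum := by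
  induction l with
  | nil => simp
  | cons a l ih =>
    simp only [List.map_cons, List.sum_cons]
    rw [ih]
    ring

theorem map_sub_mul {α : Type} (l : List α) (a : ℚ) (f : α → ℚ) :
    a * (l.map f).sum = (l.map fun x => a * f x).sum := by
  rw [List.sum_map_mul_left]

/-- The vertices. -/
theorem rp_vx (hG : GQ_Stmt) (hT : VTS_Stmt) (hS : SFIN_Stmt) {D g c : ℤ} {v : Vx} (hD : D ≠ 0)
    (hg : g ≠ 0) (hc : c * (tot v).1 = D) :
    Rp D (fun q => ((g : ℚ) / D) * vx c (g * q) v) (fun z => rs D v g z) (evN D (nv v) g) := by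
  have hd0 : (tot v).1 ≠ 0 := by
    intro h
    exact hD (by rw [← hc, h, mul_zero])
  obtain ⟨-, -, -, hpr, htt⟩ := hT (.pw 0) (0, 1)
  have hcD : D / (tot v).1 = c := by
    rw [← hc, Int.mul_ediv_cancel _ hd0]
  have hc1 : c * dt (tot v) (0, 1) = D := by rw [htt, hc]
  have hc2 : ∀ p ∈ prs v, c * dt p.1 p.2 = D := fun p hp => by rw [(hpr v p hp).2.1, hc]
  have hvx : ∀ q : ℕ, ((g : ℚ) / D) * vx c (g * q) v = ((g : ℚ) / D) * At c (tot v) (0, 1) (g * q) -
      ((prs v).map fun p => ((g : ℚ) / D) * At c p.1 p.2 (g * q)).sum := by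
    intro q
    unfold vx
    rw [mul_sub, map_sub_mul]
  simp only [hvx]
  by_cases h0 : (tot v).2 = 0
  · have hA := rp_At0 hG hD hg hc1 h0 (by norm_num : ((0, 1) : ℤ × ℤ).2 ≠ 0)
    have hB := Rp.list (D := D) (prs v)
      (X := fun p q => ((g : ℚ) / D) * At c p.1 p.2 (g * q)) (Z := fun _ _ => 0)
      (N := fun p => if p.2.2 = 0 then 0 else -2 * (nS c p.1 p.2 g : ℤ)) (fun p hp => by
        by_cases hp2 : p.2.2 = 0
        · simp only [if_pos hp2]
          exact rp_At1 hG hD hg (hc2 p hp) hp2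
        · simp only [if_neg hp2]
          have h3 := (hpr v p hp).2.2
          rw [h0] at h3
          exact rp_At0 hG hD hg (hc2 p hp) ((mul_eq_zero.1 h3).resolve_right hp2) hp2)
    have hC := hA.sub hB
    have e1 : (fun z => rs D v g z) = fun z : ℚ => (0 : ℤ) - ((prs v).map fun _ => (0 : ℤ)).sum := by
      funext z
      unfold rs
      rw [if_pos h0]
      simp
    have e2 : evN D (nv v) g = -2 * (nS c (tot v) (0, 1) g : ℤ) -
        ((prs v).map fun p => if p.2.2 = 0 then 0 else -2 * (nS c p.1 p.2 g : ℤ)).sum := by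
      unfold evN nv
      rw [if_pos h0, List.map_cons, List.sum_cons, List.map_map, htt, hcD, sub_eq_add_neg]
      congr 1
      rw [← sum_neg]
      congr 1
      refine List.map_congr_left fun p hp => ?_
      simp only [Function.comp_apply]
      rw [(hpr v p hp).2.1, hcD]
      split_ifs <;> ring
    rw [e1, e2]
    exact hC
  · have hA := rp_At hG hS hD hg hc1 h0 (by norm_num : ((0, 1) : ℤ × ℤ).2 ≠ 0)
    have hB := Rp.list (D := D) (prs v)
      (X := fun p q => ((g : ℚ) / D) * At c p.1 p.2 (g * q)) (Z := fun p z => rs1 D p.1 p.2 g z)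
      (N := fun p => -(nS c p.1 p.2 g : ℤ)) (fun p hp => by
        have h3 := (hpr v p hp).2.2
        refine rp_At hG hS hD hg (hc2 p hp) (fun h4 => h0 ?_) (fun h4 => h0 ?_)
        · rw [← h3, h4, zero_mul]
        · rw [← h3, h4, mul_zero])
    have hC := hA.sub hB
    have e1 : (fun z => rs D v g z) = fun z : ℚ => rs1 D (tot v) (0, 1) g z -
        ((prs v).map fun p => rs1 D p.1 p.2 g z).sum := by
      funext z
      unfold rs
      rw [if_neg h0]
    have e2 : evN D (nv v) g = -(nS c (tot v) (0, 1) g : ℤ) -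
        ((prs v).map fun p => -(nS c p.1 p.2 g : ℤ)).sum := by
      unfold evN nv
      rw [if_neg h0, List.map_cons, List.sum_cons, List.map_map, htt, hcD, sub_eq_add_neg]
      congr 1
      · ring
      · rw [← sum_neg]
        congr 1
        refine List.map_congr_left fun p hp => ?_
        simp only [Function.comp_apply]
        rw [(hpr v p hp).2.1, hcD]
        ring
    rw [e1, e2]
    exact hC

theorem evN_append (D : ℤ) (l l' : Cb) (g : ℤ) : evN D (l ++ l') g = evN D l g + evN D l' g := by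
  unfold evN
  rw [List.map_append, List.sum_append]

theorem evN_cons (D : ℤ) (e : ℤ × (ℤ × ℤ) × (ℤ × ℤ)) (l : Cb) (g : ℤ) : evN D (e :: l) g =
    e.1 * (nS (D / dt e.2.1 e.2.2) e.2.1 e.2.2 g : ℤ) + evN D l g := by
  unfold evN
  rw [List.map_cons, List.sum_cons]

theorem main (hG : GQ_Stmt) (hT : VTS_Stmt) (hS : SFIN_Stmt) {D g c : ℤ} (hD : D ≠ 0)
    (hg : g ≠ 0) (T : Tr) : ∀ L : ℤ × ℤ, c * dt L (vec T) = D →
    Rp D (fun q => ((g : ℚ) / D) * XX c (g * q) L T)
      (fun z => ((vts L T).map fun v => rs D v g z).sum) (evN D (NL L T) g) := by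
  induction T with
  | pw e =>
    intro L hc
    have hd0 : dt L (-e, 1) ≠ 0 := by
      intro h
      exact hD (by rw [← hc]; exact (by rw [show vec (Tr.pw e) = (-e, 1) from rfl, h, mul_zero]))
    have hc' : c * dt L (-e, 1) = D := hc
    have hcD : D / dt L (-e, 1) = c := by
      rw [← hc', Int.mul_ediv_cancel _ hd0]
    have h1 := rp_nu hG (P := L) (V := (-e, 1)) hD hg hc'
    have e2 : evN D (NL L (.pw e)) g = 2 * (nS c L (-e, 1) g : ℤ) := by
      change evN D [(2, L, (-e, 1))] g = _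
      unfold evN
      simp only [List.map_cons, List.map_nil, List.sum_cons, List.sum_nil, add_zero, hcD]
    rw [e2]
    exact h1
  | cons a b iha ihb =>
    intro L hc
    have hd0 : dt L (vec (.cons a b)) ≠ 0 := by
      intro h
      exact hD (by rw [← hc, h, mul_zero])
    have hcD : D / dt L (vec (.cons a b)) = c := by
      rw [← hc, Int.mul_ediv_cancel _ hd0]
    have d1 : dt (rv (addv L (vec b))) (vec a) = dt L (vec (.cons a b)) := by
      simp only [dt, addv, rv, vec]
      ring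
    have d2 : dt (addv L (rv (vec a))) (vec b) = dt L (vec (.cons a b)) := by
      simp only [dt, addv, rv, vec]
      ring
    have d3 : dt (addv L (vec b)) (rv (vec a)) = dt L (vec (.cons a b)) := by
      simp only [dt, addv, rv, vec]
      ring
    have d4 : (tot (L, rv (vec a), vec b)).1 = dt L (vec (.cons a b)) := by
      simp only [tot, dt, addv, rv, vec]
      ring
    have hA := iha (rv (addv L (vec b))) (by rw [d1, hc])
    have hB := ihb (addv L (rv (vec a))) (by rw [d2, hc])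
    have hV := rp_vx hG hT hS (v := (L, rv (vec a), vec b)) hD hg (by rw [d4, hc])
    have h1 := (rp_nu hG (P := addv L (vec b)) (V := rv (vec a)) hD hg (by rw [d3, hc])).neg
    have h2 := (rp_nu hG (P := addv L (rv (vec a))) (V := vec b) hD hg (by rw [d2, hc])).neg
    have hAll := hV.add (h1.add (h2.add (hA.add hB)))
    have e1 : (fun q : ℕ => ((g : ℚ) / D) * XX c (g * q) L (.cons a b)) = fun q : ℕ =>
        ((g : ℚ) / D) * vx c (g * q) (L, rv (vec a), vec b) +
          (-(((g : ℚ) / D) * nu c (g * q) (addv L (vec b)) (rv (vec a))) +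
            (-(((g : ℚ) / D) * nu c (g * q) (addv L (rv (vec a))) (vec b)) +
              (((g : ℚ) / D) * XX c (g * q) (rv (addv L (vec b))) a +
                ((g : ℚ) / D) * XX c (g * q) (addv L (rv (vec a))) b))) := by
      funext q
      rw [XX]
      ring
    have e2 : evN D (NL L (.cons a b)) g = evN D (nv (L, rv (vec a), vec b)) g +
        (-(2 * (nS c (addv L (vec b)) (rv (vec a)) g : ℤ)) +
          (-(2 * (nS c (addv L (rv (vec a))) (vec b) g : ℤ)) +
            (evN D (NL (rv (addv L (vec b))) a) g + evN D (NL (addv L (rv (vec a))) b) g))) := by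
      rw [NL, evN_append, evN_cons, evN_cons, evN_append, d3, d2, hcD]
      ring
    have e3 : (fun z : ℚ => ((vts L (.cons a b)).map fun v => rs D v g z).sum) = fun z : ℚ =>
        rs D (L, rv (vec a), vec b) g z + (-(0 : ℤ) + (-(0 : ℤ) +
          (((vts (rv (addv L (vec b))) a).map fun v => rs D v g z).sum +
            ((vts (addv L (rv (vec a))) b).map fun v => rs D v g z).sum))) := by
      funext z
      rw [vts, List.map_cons, List.sum_cons, List.map_append, List.sum_append]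
      ring
    rw [e1, e2, e3]
    exact hAll

end RSV

open RSV in
/-- MODULE RSV -/
theorem t_RSV (h1 : GQ_Stmt) (h2 : VTS_Stmt) (h3 : SFIN_Stmt) : RSV_Stmt := by
  intro T L D g hD hg hdvd
  exact main h1 h2 h3 hD hg T L (Int.ediv_mul_cancel hdvd)

end Pool.Agent.TV
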