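import Pool.Agent.TV.StH
import Pool.Agent.UA.StF

/-!
Theorem V (MP_31fd3b_gt), block T, module RTC: closures of chains of two rational trees.
-/

namespace Pool.Agent.TV

open Pool.Agent.LibH11.Sliced Pool.Agent.MTR Pool.Agent.MT Pool.Agent.MTA Pool.Agent.UA
open Pool.Agent.UB Pool.Agent.TwoBr Pool.Agent.Mont
open Pool.Agent.TB hiding vec

namespace Rtc

/-- rotated rational tangles are invariant under the rotation about the vertical axis -/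
theorem hrot (h1 : RTI_Stmt) {y : Tr} (hy : y.Rat) : EqD 2 (hD 2 (rotD y.dg)) (rotD y.dg) := by
  have hr : (Tr.cons y (.pw 0)).Rat := ⟨hy, rfl⟩
  have h := (h1 _ hr).1
  have e : (Tr.cons y (.pw 0)).dg = rotD y.dg := by
    show rotD y.dg ++ ht 0 = _
    rw [ht_zero, List.append_nil]
  rw [e] at h
  exact h

/-- a twist moves through a rotated rational tangle -/
theorem flype (h1 : RTI_Stmt) (h3 : FFL_Stmt) (h4 : FCG_Stmt) {y : Tr} (hy : y.Rat) (e : ℤ) :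
    EqD 2 (rotD y.dg ++ ht e) (ht e ++ rotD y.dg) := by
  have cy : cnt 2 (rotD y.dg) = some 2 := (h4.2.2.2.1 _ (h4.2.2.2.2.1 y)).1
  have h := h3.2.1 (rotD y.dg) e cy
  by_cases he : Even e
  · rw [if_pos he] at h
    exact h
  · rw [if_neg he] at h
    exact h.trans (h4.2.1 _ _ _ _ (EqD.refl _) (hrot h1 hy) (cnt_ht _) (cnt_hD _ cy))

/-- the step -/
theorem step (h1 : RTI_Stmt) (h2 : FC0_Stmt) (h3 : FFL_Stmt) (h4 : FCG_Stmt) {x y : Tr}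
    (hx : x.Rat) (hy : y.Rat) (e : ℤ) :
    EqD 1 (cl (Tr.cons x (.cons y (.pw e))).dg)
      (cl (Tr.cons (.cons x (.pw e)) y).dg) := by
  have cx : cnt 2 (rotD x.dg) = some 2 := (h4.2.2.2.1 _ (h4.2.2.2.2.1 x)).1
  have cy : cnt 2 (rotD y.dg) = some 2 := (h4.2.2.2.1 _ (h4.2.2.2.2.1 y)).1
  have cye : cnt 2 (rotD y.dg ++ ht e) = some 2 := by rw [cnt_app cy]; exact cnt_ht _
  have hsr : (Tr.cons x (.pw e)).Rat := ⟨hx, rfl⟩
  -- the twist moves to the left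
  have a1 : EqD 2 (rotD x.dg ++ (rotD y.dg ++ ht e)) (rotD x.dg ++ (ht e ++ rotD y.dg)) :=
    h4.2.1 _ _ _ _ (EqD.refl _) (flype h1 h3 h4 hy e) cx cye
  have c1 : cnt 2 (rotD x.dg ++ (rotD y.dg ++ ht e)) = some 2 := by rw [cnt_app cx]; exact cye
  have a2 := (h4.1 _ _ a1 c1).2
  rw [← List.append_assoc (rotD x.dg) (ht e)] at a2
  -- FC0
  have cs : cnt 2 (Tr.cons x (.pw e)).dg = some 2 := h4.2.2.2.2.1 _
  have a3 := h2 (Tr.cons x (.pw e)).dg y.dg cs (h4.2.2.2.2.1 y)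
  have chs : cnt 2 (hD 2 (Tr.cons x (.pw e)).dg) = some 2 := cnt_hD _ cs
  have a4 : EqD 2 (rotD (hD 2 (Tr.cons x (.pw e)).dg)) (rotD (Tr.cons x (.pw e)).dg) :=
    (h4.1 _ _ (h1 _ hsr).1 chs).1
  have c4 : cnt 2 (rotD (hD 2 (Tr.cons x (.pw e)).dg)) = some 2 := (h4.2.2.2.1 _ chs).1
  have cf : cnt 2 (flipD y.dg) = some 2 := cnt_flip _ (h4.2.2.2.2.1 y)
  have a5 : EqD 2 (rotD (hD 2 (Tr.cons x (.pw e)).dg) ++ flipD y.dg)
      (rotD (Tr.cons x (.pw e)).dg ++ y.dg) :=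
    h4.2.1 _ _ _ _ a4 (h1 _ hy).2.1 c4 cf
  have c5 : cnt 2 (rotD (hD 2 (Tr.cons x (.pw e)).dg) ++ flipD y.dg) = some 2 := by
    rw [cnt_app c4]; exact cf
  exact a2.trans (a3.trans (h4.1 _ _ a5 c5).2)

end Rtc

open Rtc in
/-- RTC -/
theorem t_RTC (h1 : RTI_Stmt) (h2 : FC0_Stmt) (h3 : FFL_Stmt) (h4 : FCG_Stmt) : RTC_Stmt := by
  intro c
  induction c with
  | pw e =>
    intro x _ hx
    exact ⟨.cons x (.pw e), ⟨hx, rfl⟩, EqD.refl _⟩
  | cons y d ihy _ =>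
    intro x hc hx
    obtain ⟨hy, hd⟩ := hc
    cases d with
    | cons a b => exact absurd hd (Nat.succ_ne_zero _)
    | pw e =>
      obtain ⟨T, hT, hE⟩ := ihy (.cons x (.pw e)) hy ⟨hx, rfl⟩
      exact ⟨T, hT, (step h1 h2 h3 h4 hx hy e).trans hE⟩

end Pool.Agent.TV
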