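import Pool.Agent.TV.StH
import Pool.Agent.UA.Fta

/-!
RTI: rational tangles are invariant under the three rotations.
-/

namespace Pool.Agent.TV

open Pool.Agent.LibH11.Sliced Pool.Agent.MTR Pool.Agent.MT Pool.Agent.MTA Pool.Agent.UA
open Pool.Agent.UB Pool.Agent.TwoBr Pool.Agent.Mont
open Pool.Agent.TB hiding vec

namespace Rti

theorem main (h1 : FSY_Stmt) (h3 : FCG_Stmt) (h4 : FRO_Stmt) (h5 : FFL_Stmt) :
    ∀ T : Tr, T.Rat → EqD 2 (hD 2 T.dg) T.dg ∧ EqD 2 (flipD T.dg) T.dg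
  | .pw e, _ => ⟨EqD.of_eq (h1.2.2.2 e).1, EqD.of_eq (h1.2.2.2 e).2⟩
  | .cons _ (.cons _ _), h => absurd h.2 (Nat.succ_ne_zero _)
  | .cons a (.pw e), h => by
    obtain ⟨iH, iF⟩ := main h1 h3 h4 h5 a h.1
    have ca : cnt 2 a.dg = some 2 := Fta.cnt_dg h3 a
    have cr : cnt 2 (rotD a.dg) = some 2 := Fta.cnt_rot h3 ca
    have ce : cnt 2 (ht e) = some 2 := cnt_ht e
    have eH : EqD 2 (hD 2 (rotD a.dg)) (rotD a.dg) :=
      (Fta.hD_rot h1 h4 _ ca).trans (h3.1 _ _ iF (cnt_flip _ ca)).1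
    have eF : EqD 2 (flipD (rotD a.dg)) (rotD a.dg) :=
      (Fta.flip_rot h1 h4 _ ca).trans (h3.1 _ _ iH (cnt_hD _ ca)).1
    constructor
    · show EqD 2 (hD 2 (rotD a.dg ++ ht e)) (rotD a.dg ++ ht e)
      rw [(h1.1 (rotD a.dg) (ht e) 2 2 cr).1, (h1.2.2.2 e).1]
      exact h3.2.1 _ _ _ _ eH (EqD.refl _) (cnt_hD _ cr) ce
    · show EqD 2 (flipD (rotD a.dg ++ ht e)) (rotD a.dg ++ ht e)
      rw [flipD_append, (h1.2.2.2 e).2]
      have e1 : EqD 2 (ht e ++ flipD (rotD a.dg)) (ht e ++ rotD a.dg) :=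
        h3.2.1 _ _ _ _ (EqD.refl _) eF ce (cnt_flip _ cr)
      have e2 := h5.2.1 (rotD a.dg) e cr
      refine e1.trans ?_
      by_cases he : Even e
      · rw [if_pos he] at e2
        exact e2.symm
      · rw [if_neg he] at e2
        exact (e2.trans (h3.2.1 _ _ _ _ (EqD.refl _) eH ce (cnt_hD _ cr))).symm

end Rti

theorem t_RTI (h1 : FSY_Stmt) (h2 : FEQ_Stmt) (h3 : FCG_Stmt) (h4 : FRO_Stmt)
    (h5 : FFL_Stmt) : RTI_Stmt := by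
  intro T hT
  obtain ⟨iH, iF⟩ := Rti.main h1 h3 h4 h5 T hT
  refine ⟨iH, iF, ?_⟩
  have ct : cnt 2 T.dg = some 2 := Fta.cnt_dg h3 T
  have e := (h2 2 2 _ _ iH (cnt_hD _ ct)).2.2
  rw [(h1.2.1 T.dg 2 2 ct).2.2.2.2.2.2.2.1] at e
  exact e.trans iF

end Pool.Agent.TV
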