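import Pool.Agent.TV.StJ
import Pool.Agent.UA.Ratj

/-!
Theorem V (MP_31fd3b_gt), module RU: directions.
-/

set_option autoImplicit false

open scoped BigOperators

namespace Pool.Agent.TV

open Pool.Agent.LibH11.Sliced Pool.Agent.MTR Pool.Agent.MTA Pool.Agent.UA Pool.Agent.UB
open Pool.Agent.TB hiding vec

namespace Ru

theorem coprime_vec : ∀ T : Tr, T.Rat → IsCoprime (vec T).1 (vec T).2
  | .pw e, _ => by
      have h1 : vec (Tr.pw e) = (-e, 1) := rfl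
      rw [h1]
      exact isCoprime_one_right
  | .cons a (.pw e), h => by
      have ih := coprime_vec a h.1
      rw [UA.Ratj.vec_cons_pw]
      obtain ⟨u, v, huv⟩ := ih
      exact ⟨-v, u - v * e, by linear_combination huv⟩
  | .cons a (.cons b c), h => absurd h.2 (Nat.succ_ne_zero _)

theorem ct_smul {w : ℤ × ℤ} (hw : IsCoprime w.1 w.2) (k : ℤ) :
    ct' (k • w) = ((k.natAbs : ℕ) : ℚ) := by
  unfold ct'
  have h1 : (k • w).1 = k * w.1 := rfl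
  have h2 : (k • w).2 = k * w.2 := rfl
  rw [h1, h2, Int.gcd_mul_left, Int.isCoprime_iff_gcd_eq_one.1 hw, mul_one]

theorem vec_ne {w : ℤ × ℤ} (hw : IsCoprime w.1 w.2) : w ≠ 0 := by
  intro h
  rw [h] at hw
  exact not_isCoprime_zero_zero hw

theorem smul_ne {w : ℤ × ℤ} (hw : IsCoprime w.1 w.2) {k : ℤ} (hk : k ≠ 0) : k • w ≠ 0 :=
  smul_ne_zero hk (vec_ne hw)

theorem pm {w w' : ℤ × ℤ} (hw : IsCoprime w.1 w.2) (hw' : IsCoprime w'.1 w'.2) {k k' : ℤ}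
    (hk : k ≠ 0) (h : k • w = k' • w') : w = w' ∨ w = -w' := by
  have h1 := ct_smul hw k
  have h2 := ct_smul hw' k'
  rw [h, h2] at h1
  have h3 : k'.natAbs = k.natAbs := by exact_mod_cast h1
  rcases Int.natAbs_eq_natAbs_iff.1 h3 with h4 | h4
  · left
    rw [h4] at h
    exact smul_right_injective _ hk h
  · right
    rw [h4] at h
    have h5 : k • w = k • (-w') := by rw [h, neg_smul, smul_neg]
    exact smul_right_injective _ hk h5

theorem exists_dir (h3 : RATJ_Stmt) (v : ℤ × ℤ) (hv : v ≠ 0) :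
    ∃ R : Tr, R.Rat ∧ ∃ k : ℤ, k ≠ 0 ∧ v = k • vec R := by
  have hg : Int.gcd v.1 v.2 ≠ 0 := by
    intro h
    rw [Int.gcd_eq_zero_iff] at h
    exact hv (Prod.ext h.1 h.2)
  have hgpos : 0 < Int.gcd v.1 v.2 := Nat.pos_of_ne_zero hg
  obtain ⟨A, p, hc, hA, hp⟩ : ∃ A p : ℤ, IsCoprime A p ∧ v.1 = (Int.gcd v.1 v.2 : ℤ) * A ∧
      v.2 = (Int.gcd v.1 v.2 : ℤ) * p := by
    refine ⟨v.1 / (Int.gcd v.1 v.2 : ℤ), v.2 / (Int.gcd v.1 v.2 : ℤ), ?_, ?_, ?_⟩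
    · rw [Int.isCoprime_iff_gcd_eq_one]
      exact Int.gcd_div_gcd_div_gcd hgpos
    · rw [Int.mul_ediv_cancel' (Int.gcd_dvd_left _ _)]
    · rw [Int.mul_ediv_cancel' (Int.gcd_dvd_right _ _)]
  have hg' : (Int.gcd v.1 v.2 : ℤ) ≠ 0 := by exact_mod_cast hg
  obtain ⟨R, hR, hv2⟩ := h3.1 A p hc
  refine ⟨R, hR, ?_⟩
  rcases hv2 with h | h
  · refine ⟨(Int.gcd v.1 v.2 : ℤ), hg', ?_⟩
    rw [h]
    exact Prod.ext hA hp
  · refine ⟨-(Int.gcd v.1 v.2 : ℤ), neg_ne_zero.2 hg', ?_⟩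
    rw [h]
    refine Prod.ext ?_ ?_
    · change v.1 = -(Int.gcd v.1 v.2 : ℤ) * -A
      rw [neg_mul_neg]
      exact hA
    · change v.2 = -(Int.gcd v.1 v.2 : ℤ) * -p
      rw [neg_mul_neg]
      exact hp

theorem dir_rt (h3 : RATJ_Stmt) (v : ℤ × ℤ) (hv : v ≠ 0) : Dir (rt v) v := by
  have h := exists_dir h3 v hv
  have e : rt v = h.choose := by
    unfold rt
    rw [dif_pos h]
  rw [e]
  exact h.choose_spec

end Ru

theorem t_RU (h1 : JPV_Stmt) (h2 : RATG_Stmt) (h3 : RATJ_Stmt) (h4 : JDV_Stmt) : RU_Stmt := by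
  refine ⟨fun v hv => Ru.dir_rt h3 v hv, ?_, ?_, ?_, ?_⟩
  · rintro R R' v ⟨hR, k, hk, hv⟩ ⟨hR', k', hk', hv'⟩
    have h5 := Ru.pm (Ru.coprime_vec R' hR') (Ru.coprime_vec R hR) hk' (hv'.symm.trans hv)
    obtain ⟨f, hf, h6⟩ := UA.Ratj.key h1 h2 R' R hR' hR h5
    exact ⟨f, hf, h6⟩
  · intro f g hf
    obtain ⟨h5, h6, h7⟩ := h4.2.2.2.2 f g
    by_cases hg : cf 0 g = 0
    · have h8 : cf 0 (f * g) = 0 := by
        have h9 : cf 0 (f * g) = cf 0 f * cf 0 g := by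
          unfold cf
          simp [PowerSeries.coeff_zero_eq_constantCoeff]
        rw [h9, hg, mul_zero]
      unfold w2
      rw [h8, hg]
      simp
    · rw [h5 (h7 hf).2 hg, (h7 hf).1, zero_add]
  · intro R v k hR hv hk
    have hc := Ru.coprime_vec R hR
    refine ⟨?_, hc, ?_⟩
    · rw [hv]
      exact Ru.smul_ne hc hk
    · rw [hv]
      exact Ru.ct_smul hc k
  · rintro R v ⟨hR, k, hk, hv⟩
    refine ⟨fun c => ⟨UA.Ratj.rat_shift R c hR, k, hk, ?_⟩, ⟨⟨hR, rfl⟩, k, hk, ?_⟩,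
      fun m hm => ⟨hR, m * k, mul_ne_zero hm hk, ?_⟩⟩
    · rw [UA.Ratj.vec_shift, hv]
      simp only [addv, Prod.smul_fst, Prod.smul_snd, smul_eq_mul, Prod.smul_mk, Prod.mk.injEq]
      constructor <;> ring
    · rw [UA.Ratj.vec_cons_pw, hv]
      simp only [rv, Prod.smul_fst, Prod.smul_snd, smul_eq_mul, Prod.smul_mk, Prod.mk.injEq,
        and_true]
      ring
    · rw [hv, smul_smul]

end Pool.Agent.TV
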