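import Pool.Agent.TV.StH
import Pool.Agent.MTA.Lims

/-!
SFIN: finiteness and symmetries of the sets of solutions.
-/

open scoped BigOperators

namespace Pool.Agent.TV

open Pool.Agent.LibH11.Sliced Pool.Agent.MTR Pool.Agent.MT Pool.Agent.MTA Pool.Agent.UA
open Pool.Agent.UB Pool.Agent.TwoBr Pool.Agent.Mont
open Pool.Agent.TB hiding vec

namespace Sfin

lemma mem (c : ℤ) (P V : ℤ × ℤ) (M : ℤ) (R : ℤ × ℤ) :
    R ∈ Sl c P V M ↔ c * ((-P.1 * R.2 - P.2 * R.1) * (R.1 * V.2 - R.2 * V.1)) = M := Iff.rfl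

/-- Two sets which correspond under an involution-like pair of maps have the same cardinality. -/
lemma ncard_eq {A B : Set (ℤ × ℤ)} (f g : ℤ × ℤ → ℤ × ℤ) (hf : ∀ x ∈ A, f x ∈ B)
    (hg : ∀ x ∈ B, g x ∈ A) (hgf : ∀ x, g (f x) = x) (hfg : ∀ x, f (g x) = x) :
    A.ncard = B.ncard := by
  refine Set.ncard_congr (fun a _ => f a) (fun a ha => hf a ha) ?_ ?_
  · intro a b _ _ h
    rw [← hgf a, ← hgf b]
    exact congrArg g h
  · intro b hb
    exact ⟨g b, hg b hb, hfg b⟩

lemma dt_eq (P V : ℤ × ℤ) : dt P V = P.1 * V.2 + V.1 * P.2 := rfl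

lemma det2_cx (P V : ℤ × ℤ) : det2 (cx P) V = -dt P V := by
  rw [dt_eq]; simp only [det2, cx]; ring

end Sfin

open Sfin in
theorem t_SFIN : SFIN_Stmt := by
  refine ⟨?_, ?_, ?_, ?_, ?_, ?_⟩
  · intro c P V M h hM
    have h1 : det2 (cx P) V ≠ 0 := by rw [det2_cx]; exact neg_ne_zero.2 h
    exact Pool.Agent.MTA.LIMS.finite_sol c (cx P) V h1 M hM
  · intro c P V M
    refine ncard_eq (fun R => (R.1, -R.2)) (fun R => (R.1, -R.2)) ?_ ?_ ?_ ?_
    · intro R hR
      rw [mem] at hR ⊢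
      rw [← hR]; ring
    · intro R hR
      rw [mem] at hR ⊢
      rw [← hR]; ring
    · intro R; simp
    · intro R; simp
  · intro c P V M
    refine ncard_eq (fun R => (-R.2, R.1)) (fun R => (R.2, -R.1)) ?_ ?_ ?_ ?_
    · intro R hR
      rw [mem] at hR ⊢
      rw [← hR]; simp only [rv]; ring
    · intro R hR
      rw [mem] at hR ⊢
      rw [← hR]; simp only [rv]; ring
    · intro R; simp
    · intro R; simp
  · intro c P V k M
    refine ncard_eq (fun R => (R.1 + k * R.2, R.2)) (fun R => (R.1 - k * R.2, R.2)) ?_ ?_ ?_ ?_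
    · intro R hR
      rw [mem] at hR ⊢
      rw [← hR]; simp only [addv]; ring
    · intro R hR
      rw [mem] at hR ⊢
      rw [← hR]; simp only [addv]; ring
    · intro R; simp
    · intro R; simp
  · intro c P V k M
    constructor
    · unfold nS
      congr 1
      ext R
      rw [mem, mem]
      have e : c * ((-(k • P).1 * R.2 - (k • P).2 * R.1) * (R.1 * V.2 - R.2 * V.1)) =
          c * k * ((-P.1 * R.2 - P.2 * R.1) * (R.1 * V.2 - R.2 * V.1)) := by
        simp only [Prod.smul_fst, Prod.smul_snd, smul_eq_mul]; ring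
      rw [e]
    · unfold nS
      congr 1
      ext R
      rw [mem, mem]
      have e : c * ((-P.1 * R.2 - P.2 * R.1) * (R.1 * (k • V).2 - R.2 * (k • V).1)) =
          c * k * ((-P.1 * R.2 - P.2 * R.1) * (R.1 * V.2 - R.2 * V.1)) := by
        simp only [Prod.smul_fst, Prod.smul_snd, smul_eq_mul]; ring
      rw [e]
  · intro P V
    refine ⟨?_, ?_, ?_, ?_⟩
    · rw [dt_eq, dt_eq]; ring
    · rw [dt_eq, dt_eq]; simp only [rv]; ring
    · intro k; rw [dt_eq, dt_eq]; simp only [addv]; ring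
    · intro k
      rw [dt_eq, dt_eq, dt_eq]
      simp only [Prod.smul_fst, Prod.smul_snd, smul_eq_mul]
      constructor <;> ring

end Pool.Agent.TV
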