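import Pool.Agent.TV.StH
import Pool.Agent.UA.StF

/-!
Theorem V, STR: rotations of a tangle next to a minimum.
-/

namespace Pool.Agent.TV

open Pool.Agent.LibH11.Sliced Pool.Agent.UA Pool.Agent.TwoBr Pool.Agent.Mont

namespace StrAux

theorem cnt_sh1 {t : Diag} (ht : cnt 2 t = some 2) : cnt 3 (sh 1 t) = some 3 := by
  have h := cnt_sh 1 t 2
  rw [ht] at h
  exact h

theorem part1 {t : Diag} (ht : cnt 2 t = some 2) :
    EqD 1 ((.cup, 1) :: rotD t) ((.cup, 0) :: sh 1 t) := by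
  have c3 := cnt_sh1 ht
  have c5 : cnt 5 (sh 1 t) = some 5 := cnt_widen 2 _ _ _ c3
  have h1 : EqD 1 [(.cup, 1), (.cup, 0)] [(.cup, 0), (.cup, 3)] :=
    (far_one .cup .cup (i := 0) (j := 0) (N := 1) (N' := 0) (by decide) (by decide)).symm
  have h2 := h1.right (sh 1 t ++ [(.cap, 2)]) (by
    rw [cnt_app (show cnt 1 [((.cup : Kind), 1), (.cup, 0)] = some 5 from rfl), cnt_app c5]
    decide)
  have h3 : EqD 3 (sh 1 t ++ [(.cup, 3)]) ([(.cup, 3)] ++ sh 1 t) :=
    far_words (sh 1 t) [(.cup, 0)] 3 3 0 c3 (by decide)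
  have h4 := (h3.symm).right [(.cap, 2)] (by
    rw [List.append_assoc, cnt_app (show cnt 3 [((.cup : Kind), 3)] = some 5 from rfl), cnt_app c5]
    decide)
  have h5 : EqD 3 [(.cup, 3), (.cap, 2)] [] := EqD.of_chk [(0, false, .zg 2)] rfl
  have h6 := h5.left (sh 1 t) c3
  have h7 : EqD 3 ([(.cup, 3)] ++ sh 1 t ++ [(.cap, 2)]) (sh 1 t) := by
    refine h4.trans ?_
    simp only [List.append_assoc, List.append_nil, List.cons_append, List.nil_append] at h6 ⊢
    exact h6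
  have h8 := h7.left [(.cup, 0)] (show cnt 1 [((.cup : Kind), 0)] = some 3 from rfl)
  refine EqD.trans ?_ (h2.trans ?_)
  · exact EqD.of_eq (by simp [rotD])
  · refine EqD.trans (EqD.of_eq ?_) h8
    simp

end StrAux

open StrAux in
theorem t_STR (h1 : FRO_Stmt) (h2 : FCG_Stmt) : STR_Stmt := by
  refine ⟨fun t ht => part1 ht, fun t ht hp => ?_⟩
  have hr : cnt 2 (rotD t) = some 2 := (h2.2.2.2.1 t ht).1
  have a1 := part1 hr
  have a2 : EqD 2 (rotD (rotD t)) t := ((h1 t ht).1).trans hp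
  have a3 := (a2.widen 1).left [(.cup, 1)] (show cnt 1 [((.cup : Kind), 1)] = some 3 from rfl)
  exact a1.symm.trans a3

end Pool.Agent.TV
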