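import Pool.Agent.TV.StJ

/-!
Theorem V (MP_31fd3b_gt): a closed reduced tree without bad vertices has a positive correction.
-/

open scoped BigOperators

namespace Pool.Agent.TV

open Pool.Agent.LibH11.Sliced Pool.Agent.MTR Pool.Agent.MTA Pool.Agent.UA Pool.Agent.UB
open Pool.Agent.TB hiding vec

namespace Strc

theorem rat_cases {b : Tr} (hb : b.Rat) :
    (∃ e, b = .pw e) ∨ ∃ (c : Tr) (e : ℤ), c.Rat ∧ b = .cons c (.pw e) := by
  cases b with
  | pw e => exact Or.inl ⟨e, rfl⟩
  | cons c d =>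
    obtain ⟨h1, h2⟩ := hb
    cases d with
    | pw e => exact Or.inr ⟨c, e, h1, rfl⟩
    | cons c' d' => simp [Tr.kids] at h2

theorem vec_cons_pw (c : Tr) (e : ℤ) :
    vec (.cons c (.pw e)) = (-(vec c).2 - e * (vec c).1, (vec c).1) := by
  simp only [vec, addv, rv, Prod.mk.injEq]
  constructor <;> ring

theorem coprime_rat : ∀ T : Tr, T.Rat → IsCoprime (vec T).1 (vec T).2 := by
  intro T
  induction T with
  | pw e => intro _; exact isCoprime_one_right
  | cons a b iha _ =>
    intro h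
    rcases rat_cases h with ⟨e, he⟩ | ⟨c, e, hc, he⟩
    · cases he
    · cases he
      obtain ⟨u, v, huv⟩ := iha hc
      rw [vec_cons_pw]
      exact ⟨-v, u - v * e, by linear_combination huv⟩

theorem not_dvd {x y : ℤ} (h : IsCoprime x y) (hy : 2 ≤ |y|) : ¬ y ∣ x := by
  intro hd
  have h1 := h.isUnit_of_dvd' hd dvd_rfl
  rw [Int.isUnit_iff] at h1
  rcases h1 with rfl | rfl <;> norm_num at hy

theorem not_dvd' {x y : ℤ} (h1 : 1 ≤ |x|) (h2 : |x| < |y|) : ¬ y ∣ x := by
  intro hd
  have h3 : |y| ∣ |x| := (abs_dvd_abs y x).2 hd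
  have h4 := Int.le_of_dvd (by omega) h3
  omega

theorem ne_of_dt {L V : ℤ × ℤ} (h : dt L V ≠ 0) : L ≠ 0 ∧ V ≠ 0 := by
  constructor <;> rintro rfl <;> simp [dt, addv] at h

theorem ct_ne {v : ℤ × ℤ} (h : v ≠ 0) : ct' v ≠ 0 := by
  unfold ct'
  intro h1
  have h2 : Int.gcd v.1 v.2 = 0 := by exact_mod_cast h1
  rw [Int.gcd_eq_zero_iff] at h2
  exact h (Prod.ext h2.1 h2.2)

theorem dt_a (L : ℤ × ℤ) (a b : Tr) :
    dt (rv (addv L (vec b))) (vec a) = dt L (vec (.cons a b)) := by
  simp only [dt, vec, addv, rv]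
  ring

theorem dt_b (L : ℤ × ℤ) (a b : Tr) :
    dt (addv L (rv (vec a))) (vec b) = dt L (vec (.cons a b)) := by
  simp only [dt, vec, addv, rv]
  ring

theorem term_nn {A B D : ℚ} (hA : A ≤ 0) (hB : B ≤ 0) : 0 ≤ 2 * A * B / D ^ 2 := by
  have := mul_nonneg_of_nonpos_of_nonpos hA hB
  have h2 : 2 * A * B = 2 * (A * B) := by ring
  rw [h2]
  positivity

theorem term_pos {A B D : ℚ} (hA : A < 0) (hB : B < 0) (hD : D ≠ 0) :
    0 < 2 * A * B / D ^ 2 := by
  have := mul_pos_of_neg_of_neg hA hB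
  have h2 : 2 * A * B = 2 * (A * B) := by ring
  rw [h2]
  positivity

/-- the four summands of the correction -/
theorem parts (h1 : CRN_Stmt) (L : ℤ × ℤ) (a b : Tr) (hd : dt L (vec (.cons a b)) ≠ 0) :
    (E1 L b < 0 → Eg a < 0 → 0 < cr L (.cons a b)) ∧
    (E2 L a < 0 → Eg b < 0 → 0 < cr L (.cons a b)) ∧
    (0 < cr (rv (addv L (vec b))) a → 0 < cr L (.cons a b)) ∧
    (0 < cr (addv L (rv (vec a))) b → 0 < cr L (.cons a b)) := by
  have da : dt (rv (addv L (vec b))) (vec a) ≠ 0 := by rw [dt_a]; exact hd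
  have db : dt (addv L (rv (vec a))) (vec b) ≠ 0 := by rw [dt_b]; exact hd
  have hL := (ne_of_dt hd).1
  have ha := (ne_of_dt da).2
  have hb := (ne_of_dt db).2
  have ga := (h1.1 a ha).1
  have gb := (h1.1 b hb).1
  obtain ⟨e1, e2, -⟩ := h1.2.1 L a b hd
  have ca := (h1.2.2.1 a _ da).1
  have cb := (h1.2.2.1 b _ db).1
  have hdq : ((dt L (vec (.cons a b)) : ℤ) : ℚ) ≠ 0 := by exact_mod_cast hd
  have n1 : ((dt L (vec (.cons a b)) : ℤ) : ℚ) / ct' L ≠ 0 := div_ne_zero hdq (ct_ne hL)
  have n2 : ((dt L (vec (.cons a b)) : ℤ) : ℚ) / (ct' L * ct' (vec a)) ≠ 0 :=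
    div_ne_zero hdq (mul_ne_zero (ct_ne hL) (ct_ne ha))
  have t1 := term_nn (D := ((dt L (vec (.cons a b)) : ℤ) : ℚ) / ct' L) e1 ga
  have t2 := term_nn (D := ((dt L (vec (.cons a b)) : ℤ) : ℚ) / (ct' L * ct' (vec a))) e2 gb
  have key : cr L (.cons a b) =
      2 * E1 L b * Eg a / ((dt L (vec (.cons a b)) : ℤ) / ct' L) ^ 2 +
        2 * E2 L a * Eg b / ((dt L (vec (.cons a b)) : ℤ) / (ct' L * ct' (vec a))) ^ 2 +
        cr (rv (addv L (vec b))) a + cr (addv L (rv (vec a))) b := rfl
  rw [key]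
  refine ⟨fun x y => ?_, fun x y => ?_, fun x => ?_, fun x => ?_⟩
  · have := term_pos x y n1
    linarith
  · have := term_pos x y n2
    linarith
  · linarith
  · linarith

/-- a vertex which is zero or trivial has a weight zero or an integral slope -/
theorem vertex {S u w : ℤ × ℤ} (h : (tot (S, u, w)).2 = 0 ∨ Vtriv (S, u, w)) :
    S.2 = 0 ∨ u.2 = 0 ∨ w.2 = 0 ∨ S.2 ∣ S.1 ∨ u.2 ∣ u.1 ∨ w.2 ∣ w.1 := by
  rcases h with h | ⟨-, p, hp, hd⟩
  · have h2 : S.2 * u.2 * w.2 = 0 := h
    rcases mul_eq_zero.1 h2 with h3 | h3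
    · rcases mul_eq_zero.1 h3 with h4 | h4
      · exact Or.inl h4
      · exact Or.inr (Or.inl h4)
    · exact Or.inr (Or.inr (Or.inl h3))
  · simp only [prs, List.mem_cons, List.not_mem_nil, or_false] at hp
    rcases hp with rfl | rfl | rfl
    · exact Or.inr (Or.inr (Or.inr (Or.inl hd)))
    · exact Or.inr (Or.inr (Or.inr (Or.inr (Or.inl hd))))
    · exact Or.inr (Or.inr (Or.inr (Or.inr (Or.inr hd))))

/-- a rational tree with a child -/
theorem rat_child (h2 : SGN_Stmt) {b : Tr} (hRC : b.RC) (hR : b.Rat) (hk : b.kids ≠ 0) :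
    2 ≤ |(vec b).2| := by
  rcases rat_cases hR with ⟨e, rfl⟩ | ⟨c, e, hc, rfl⟩
  · exact absurd rfl hk
  · obtain ⟨r1, r2, -⟩ := hRC
    obtain ⟨x1, x2⟩ := h2.2.2 c r1 hc r2
    rw [vec_cons_pw]
    show 2 ≤ |(vec c).1|
    omega

theorem claimQ (h1 : CRN_Stmt) (h2 : SGN_Stmt) :
    ∀ (T : Tr) (S : ℤ × ℤ), IsCoprime S.1 S.2 → 2 ≤ |S.2| → |S.1| < |S.2| →
      dt S (vec T) ≠ 0 → T.RC → ¬ T.Rat → (T.kids ≤ 1 → 2 ≤ |T.ex|) →
      (∀ v ∈ vts S T, (tot v).2 = 0 ∨ Vtriv v) → 0 < cr S T := by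
  intro T
  induction T with
  | pw e => intro S _ _ _ _ _ hR; exact absurd trivial hR
  | cons a b iha ihb =>
    intro S hS hS2 hS1 hd hRC hR hk hv
    obtain ⟨p1, p2, p3, p4⟩ := parts h1 S a b hd
    have da : dt (rv (addv S (vec b))) (vec a) ≠ 0 := by rw [dt_a]; exact hd
    have db : dt (addv S (rv (vec a))) (vec b) ≠ 0 := by rw [dt_b]; exact hd
    have ha := (ne_of_dt da).2
    have hb := (ne_of_dt db).2
    obtain ⟨-, -, e3⟩ := h1.2.1 S a b hd
    obtain ⟨e4, e5, e6⟩ := e3 hS hS2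
    obtain ⟨ra, ka, rb⟩ := hRC
    by_cases hRa : a.Rat
    · obtain ⟨x1, x2⟩ := h2.2.2 a ra hRa ka
      have hkb : b.kids ≠ 0 := fun h => hR ⟨hRa, h⟩
      by_cases hRb : b.Rat
      · exfalso
        have y1 := rat_child h2 rb hRb hkb
        have y2 := coprime_rat b hRb
        have y3 := vertex (hv (S, rv (vec a), vec b) (by simp [vts]))
        have z1 : (rv (vec a)).2 = (vec a).1 := rfl
        have z2 : (rv (vec a)).1 = -(vec a).2 := rfl
        rw [z1, z2] at y3
        rcases y3 with y | y | y | y | y | y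
        · rw [y] at hS2
          norm_num at hS2
        · rw [y, abs_zero] at x1
          have := abs_nonneg (vec a).2
          omega
        · rw [y] at y1
          norm_num at y1
        · exact not_dvd hS hS2 y
        · rw [dvd_neg] at y
          exact not_dvd' x2 x1 y
        · exact not_dvd y2 y1 y
      · exact p2 (e6 (coprime_rat a hRa) (by omega)) ((h1.1 b hb).2.2 rb hRb)
    · have ga := (h1.1 a ha).2.2 ra hRa
      by_cases hRb : b.Rat
      · by_cases hkb : b.kids = 0
        · rcases rat_cases hRb with ⟨e, rfl⟩ | ⟨c, e, hc, rfl⟩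
          · apply p3
            have he : 2 ≤ |e| := hk (by simp [Tr.kids])
            have hctx : rv (addv S (vec (.pw e))) = (-S.2, S.1 - e * S.2) := by
              simp only [vec, addv, rv, Prod.mk.injEq]
              constructor <;> ring
            have hbig : |S.2| < |S.1 - e * S.2| := by
              have q1 : |e * S.2| - |S.1| ≤ |S.1 - e * S.2| := by
                have := abs_sub_abs_le_abs_sub (e * S.2) S.1
                rwa [abs_sub_comm (e * S.2)] at this
              rw [abs_mul] at q1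
              have q2 : 2 * |S.2| ≤ |e| * |S.2| :=
                mul_le_mul_of_nonneg_right he (abs_nonneg _)
              omega
            rw [hctx] at da ⊢
            refine iha (-S.2, S.1 - e * S.2) ?_ ?_ ?_ da ra hRa ka ?_
            · obtain ⟨u, v, huv⟩ := hS
              exact ⟨-(v + u * e), u, by
                show -(v + u * e) * -S.2 + u * (S.1 - e * S.2) = 1
                linear_combination huv⟩
            · show 2 ≤ |S.1 - e * S.2|
              omega
            · show |-S.2| < |S.1 - e * S.2|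
              rw [abs_neg]
              exact hbig
            · intro v hvv
              apply hv
              rw [← hctx] at hvv
              show v ∈ (S, rv (vec a), vec (.pw e)) ::
                (vts (rv (addv S (vec (.pw e)))) a ++ vts (addv S (rv (vec a))) (.pw e))
              exact List.mem_cons_of_mem _ (List.mem_append_left _ hvv)
          · simp [Tr.kids] at hkb
        · exact p1 (e5 (coprime_rat b hRb) (rat_child h2 rb hRb hkb)) ga
      · exact p1 (e4 rb hRb) ga

end Strc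

open Strc in
theorem t_STRC (h1 : CRN_Stmt) (h2 : SGN_Stmt) : STRC_Stmt := by
  intro T hCR hA hv hT2
  cases T with
  | pw e => exact absurd trivial hT2
  | cons a b =>
    obtain ⟨⟨ra, ka, rb⟩, hk⟩ := hCR
    have hkk : (Tr.cons a b).kids = b.kids + 1 := rfl
    have hex : (Tr.cons a b).ex = b.ex := rfl
    rw [hkk, hex] at hk
    have hadd : ∀ v : ℤ × ℤ, addv (0, 1) v = v := by
      intro v
      obtain ⟨x, y⟩ := v
      simp only [addv, Prod.mk.injEq]
      constructor <;> ring
    have hd : dt (0, 1) (vec (.cons a b)) ≠ 0 := by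
      unfold dt
      rw [hadd]
      exact hA
    obtain ⟨p1, p2, p3, p4⟩ := parts h1 (0, 1) a b hd
    have da : dt (rv (addv (0, 1) (vec b))) (vec a) ≠ 0 := by rw [dt_a]; exact hd
    have db : dt (addv (0, 1) (rv (vec a))) (vec b) ≠ 0 := by rw [dt_b]; exact hd
    have ha := (ne_of_dt da).2
    have hb := (ne_of_dt db).2
    have hv' : ∀ v ∈ vts (0, 1) (.cons a b), (tot v).2 = 0 ∨ Vtriv v := by
      intro v hvv
      obtain ⟨q1, q2⟩ := hv v hvv
      rcases q1 with q | q | q
      · exact Or.inl q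
      · exact Or.inr q
      · exact absurd q q2
    have hmem : ∀ v, (v ∈ vts (rv (addv (0, 1) (vec b))) a ∨
        v ∈ vts (addv (0, 1) (rv (vec a))) b) → v ∈ vts (0, 1) (.cons a b) := by
      intro v hvv
      show v ∈ ((0, 1), rv (vec a), vec b) ::
        (vts (rv (addv (0, 1) (vec b))) a ++ vts (addv (0, 1) (rv (vec a))) b)
      exact List.mem_cons_of_mem _ (List.mem_append.2 hvv)
    by_cases hRa : a.Rat
    · by_cases hRb : b.Rat
      · exact absurd ⟨hRa, hRb⟩ hT2
      · obtain ⟨x1, x2⟩ := h2.2.2 a ra hRa ka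
        apply p4
        have hm : ∀ v ∈ vts (addv (0, 1) (rv (vec a))) b, (tot v).2 = 0 ∨ Vtriv v :=
          fun v h => hv' v (hmem v (Or.inr h))
        rw [hadd] at db hm ⊢
        refine claimQ h1 h2 b (rv (vec a)) ?_ ?_ ?_ db rb hRb (fun h => hk (by omega)) hm
        · obtain ⟨u, v, huv⟩ := coprime_rat a hRa
          exact ⟨-v, u, by
            show -v * -(vec a).2 + u * (vec a).1 = 1
            linear_combination huv⟩
        · show 2 ≤ |(vec a).1|
          omega
        · show |-(vec a).2| < |(vec a).1|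
          rw [abs_neg]
          exact x1
    · have ga := (h1.1 a ha).2.2 ra hRa
      by_cases hRb : b.Rat
      · have hkb : b.kids ≤ 1 := by
          rcases rat_cases hRb with ⟨e, rfl⟩ | ⟨c, e, hc, rfl⟩ <;> simp [Tr.kids]
        have hexb : 2 ≤ |b.ex| := hk (by omega)
        obtain ⟨x1, x2⟩ := h2.2.2 b rb hRb (fun _ => hexb)
        apply p3
        have hm : ∀ v ∈ vts (rv (addv (0, 1) (vec b))) a, (tot v).2 = 0 ∨ Vtriv v :=
          fun v h => hv' v (hmem v (Or.inl h))
        rw [hadd] at da hm ⊢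
        refine claimQ h1 h2 a (rv (vec b)) ?_ ?_ ?_ da ra hRa ka hm
        · obtain ⟨u, v, huv⟩ := coprime_rat b hRb
          exact ⟨-v, u, by
            show -v * -(vec b).2 + u * (vec b).1 = 1
            linear_combination huv⟩
        · show 2 ≤ |(vec b).1|
          omega
        · show |-(vec b).2| < |(vec b).1|
          rw [abs_neg]
          exact x1
      · refine p1 ?_ ga
        rw [h1.2.2.2 b]
        exact (h1.1 b hb).2.2 rb hRb

end Pool.Agent.TV
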