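import Pool.Agent.TV.StK

/-!
Theorem V (MP_31fd3b_gt): module VTS, the vertices of a tree.
-/

set_option autoImplicit false

open scoped BigOperators

namespace Pool.Agent.TV

open Pool.Agent.LibH11.Sliced Pool.Agent.MTR Pool.Agent.MTA Pool.Agent.UA Pool.Agent.UB
open Pool.Agent.TB hiding vec

namespace Vts

theorem prs_tot (v : Vx) : ∀ p ∈ prs v, addv p.1 p.2 = tot v ∧ dt p.1 p.2 = (tot v).1 ∧
    p.1.2 * p.2.2 = (tot v).2 := by
  intro p hp
  have h : addv p.1 p.2 = tot v := by
    unfold prs at hp
    simp only [List.mem_cons, List.not_mem_nil, or_false] at hp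
    rcases hp with rfl | rfl | rfl
    · unfold tot addv
      ext
      · simp only
        ring
      · simp only
        ring
    · unfold tot addv
      ext
      · simp only
        ring
      · simp only
        ring
    · rfl
  exact ⟨h, by unfold dt; rw [h], by rw [← h]; rfl⟩

theorem tot_one (v : Vx) : dt (tot v) (0, 1) = (tot v).1 := by
  unfold dt addv
  simp only
  ring

theorem det_a (L : ℤ × ℤ) (a b : Tr) : dt (rv (addv L (vec b))) (vec a) =
    dt L (vec (.cons a b)) := by
  simp only [dt, addv, rv, vec]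
  ring

theorem det_b (L : ℤ × ℤ) (a b : Tr) : dt (addv L (rv (vec a))) (vec b) =
    dt L (vec (.cons a b)) := by
  simp only [dt, addv, rv, vec]
  ring

theorem det_c (L : ℤ × ℤ) (a b : Tr) : dt (addv L (vec b)) (rv (vec a)) =
    dt L (vec (.cons a b)) := by
  simp only [dt, addv, rv, vec]
  ring

theorem det_v (L : ℤ × ℤ) (a b : Tr) : (tot (L, rv (vec a), vec b)).1 =
    dt L (vec (.cons a b)) := by
  simp only [tot, dt, addv, rv, vec]
  ring

theorem vts_fst (T : Tr) : ∀ L : ℤ × ℤ, ∀ v ∈ vts L T, (tot v).1 = dt L (vec T) := by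
  induction T with
  | pw e => intro L v hv; simp [vts] at hv
  | cons a b iha ihb =>
    intro L v hv
    simp only [vts, List.mem_cons, List.mem_append] at hv
    rcases hv with rfl | hv | hv
    · exact det_v L a b
    · rw [iha _ v hv, det_a]
    · rw [ihb _ v hv, det_b]

theorem nv_dt (v : Vx) : ∀ e ∈ nv v, dt e.2.1 e.2.2 = (tot v).1 := by
  intro e he
  unfold nv at he
  split_ifs at he with h
  · simp only [List.mem_cons, List.mem_map] at he
    rcases he with rfl | ⟨p, hp, rfl⟩
    · exact tot_one v
    · exact (prs_tot v p hp).2.1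
  · simp only [List.mem_cons, List.mem_map] at he
    rcases he with rfl | ⟨p, hp, rfl⟩
    · exact tot_one v
    · exact (prs_tot v p hp).2.1

theorem NL_dt (T : Tr) : ∀ L : ℤ × ℤ, ∀ e ∈ NL L T, dt e.2.1 e.2.2 = dt L (vec T) := by
  induction T with
  | pw k =>
    intro L e he
    simp only [NL, List.mem_cons, List.not_mem_nil, or_false] at he
    subst he
    rfl
  | cons a b iha ihb =>
    intro L e he
    simp only [NL, List.mem_cons, List.mem_append] at he
    rcases he with he | rfl | rfl | he | he
    · rw [nv_dt _ e he, det_v]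
    · exact det_c L a b
    · exact det_b L a b
    · rw [iha _ e he, det_a]
    · rw [ihb _ e he, det_b]

theorem rat_vts (T : Tr) : T.Rat → ∀ L : ℤ × ℤ, ∀ v ∈ vts L T, (tot v).2 = 0 ∨ Vtriv v := by
  induction T with
  | pw e => intro _ L v hv; simp [vts] at hv
  | cons a b iha ihb =>
    intro hr L v hv
    obtain ⟨ha, hb⟩ := hr
    cases b with
    | cons c d => simp [Tr.kids] at hb
    | pw e =>
      simp only [vts, List.mem_cons, List.append_nil] at hv
      rcases hv with rfl | hv
      · by_cases h0 : (tot (L, rv (vec a), vec (.pw e))).2 = 0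
        · exact Or.inl h0
        · refine Or.inr ⟨h0, (addv L (rv (vec a)), vec (.pw e)), ?_, ?_⟩
          · unfold prs
            simp
          · show (1 : ℤ) ∣ _
            exact one_dvd _
      · exact iha ha _ v hv

end Vts

theorem t_VTS : VTS_Stmt := fun T L =>
  ⟨Vts.vts_fst T L, Vts.NL_dt T L, fun hr => Vts.rat_vts T hr L, Vts.prs_tot, Vts.tot_one⟩

end Pool.Agent.TV
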