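import Pool.Agent.TV.StJ
import Pool.Agent.UA.Ratj
import Pool.Agent.UA.Wad

/-!
MP_31fd3b_gt, Theorem V, module VXA: vertices of weight zero, trivial vertices.
-/

set_option autoImplicit false

open scoped BigOperators

namespace Pool.Agent.TV

open Pool.Agent.LibH11.Sliced Pool.Agent.MTR Pool.Agent.MTA Pool.Agent.UA Pool.Agent.UB
open Pool.Agent.TB hiding vec

namespace VXAX

theorem addv_c (u v : ℤ × ℤ) : addv u v = addv v u := by
  simp only [addv, Prod.mk.injEq]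
  constructor <;> ring

theorem tot0 (v : Vx) : tot v = addv (addv v.2.1 v.2.2) v.1 := by
  simp only [tot, addv, Prod.mk.injEq]
  constructor <;> ring

theorem tot1 (v : Vx) : tot v = addv (addv v.1 v.2.2) v.2.1 := by
  simp only [tot, addv, Prod.mk.injEq]
  constructor <;> ring

theorem pv0 : pv sx 0 = ((0 : JR), (1 : JR)) := by
  change (-((sx ^ 2 : JRˣ) : JR) * ∑ k ∈ Finset.range 0, ((sx ^ (4 * k) : JRˣ) : JR),
      ((sx ^ (4 * 0) : JRˣ) : JR)) = _
  simp

theorem dir_pw (k w : ℤ) (hw : w ≠ 0) : Dir (.pw (-k)) (w * k, w) := by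
  refine ⟨trivial, w, hw, ?_⟩
  have h : vec (Tr.pw (-k)) = (- -k, 1) := rfl
  rw [h]
  simp [Prod.smul_mk]

theorem dir_01 : Dir (.pw 0) (0, 1) := by
  have h := dir_pw 0 1 one_ne_zero
  simpa using h

theorem smul_addv (k w : ℤ) (b : ℤ × ℤ) : addv b (w * k, w) = w • addv b (k, 1) := by
  simp only [addv, Prod.smul_mk, smul_eq_mul, Prod.mk.injEq]
  constructor <;> ring

theorem dir_shift (h3 : RU_Stmt) (k w : ℤ) (hw : w ≠ 0) {R : Tr} {b : ℤ × ℤ} (hb : Dir R b) :
    Dir (R.shift (-k)) (addv b (w * k, w)) := by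
  rw [smul_addv]
  have h := (h3.2.2.2.2 R b hb).1 (-k)
  rw [neg_neg] at h
  exact (h3.2.2.2.2 _ _ h).2.2 w hw

/-- the pairs with the trivial vector in the first component -/
theorem om_side (h1 : OMR_Stmt) (h3 : RU_Stmt) (h4 : JPV_Stmt) (k w : ℤ) (hw : w ≠ 0)
    {Ra Rb : Tr} {a b : ℤ × ℤ} (ha : Dir Ra a) (hb : Dir Rb b) :
    om (addv b (w * k, w)) a =
      w2 (clv sx (mulv sx (pv sx (-k)) (mulv sx (bv sx Rb) (bv sx Ra)))) := by
  rw [h1.1 _ _ _ _ (dir_shift h3 k w hw hb) ha, (h4 JR sx).2.2.2.1,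
    ((h4 JR sx).1 (pv sx (-k)) (bv sx Rb) (bv sx Ra)).2.1]

/-- the pair of the trivial vector and the total vector -/
theorem om_tot (h1 : OMR_Stmt) (h3 : RU_Stmt) (h4 : JPV_Stmt) (k w : ℤ) (hw : w ≠ 0)
    {P : ℤ × ℤ} (hP : P ≠ 0) : om (addv P (w * k, w)) (0, 1) = om P (w * k, w) := by
  have hR := h3.1 P hP
  have e1 : bv sx (.pw 0) = pv sx 0 := rfl
  have e2 : bv sx (.pw (-k)) = pv sx (-k) := rfl
  rw [h1.1 _ _ _ _ (dir_shift h3 k w hw hR) dir_01, h1.1 _ _ _ _ hR (dir_pw k w hw),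
    (h4 JR sx).2.2.2.1, e1, e2, pv0,
    ((h4 JR sx).1 (mulv sx (pv sx (-k)) (bv sx (rt P))) (0, 1) (0, 1)).1,
    ((h4 JR sx).1 (0, 1) (mulv sx (pv sx (-k)) (bv sx (rt P))) (0, 1)).1,
    ((h4 JR sx).1 (mulv sx (pv sx (-k)) (bv sx (rt P))) (0, 1) (0, 1)).1,
    ((h4 JR sx).1 (0, 1) (mulv sx (pv sx (-k)) (bv sx (rt P))) (0, 1)).1]
  have e3 : mulv sx (mulv sx (pv sx (-k)) (bv sx (rt P))) (0, 1) =
      mulv sx (pv sx (-k)) (bv sx (rt P)) := by
    rw [((h4 JR sx).1 (mulv sx (pv sx (-k)) (bv sx (rt P))) (0, 1) (0, 1)).1]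
    exact ((h4 JR sx).1 (0, 1) (mulv sx (pv sx (-k)) (bv sx (rt P))) (0, 1)).2.2.1
  rw [e3, ((h4 JR sx).1 (bv sx (rt P)) (pv sx (-k)) (0, 1)).1]

/-- the contribution of a vector next to a vector of weight zero -/
noncomputable def hh (R : Tr) : ℂ := w2 ((bv sx R).2 + be sx * (bv sx R).1)

/-- the rational tree of slope infinity -/
def Rz : Tr := .cons (.pw 0) (.pw 0)

theorem dir_z (a : ℤ) (ha : a ≠ 0) : Dir Rz (a, 0) := by
  refine ⟨⟨trivial, rfl⟩, -a, neg_ne_zero.2 ha, ?_⟩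
  have h : vec Rz = (-1, 0) := rfl
  rw [h]
  simp [Prod.smul_mk]

theorem bv_z : bv sx Rz = ((-1 : JR), (0 : JR)) := by
  change mulv sx (rotv (pv sx 0)) (pv sx 0) = _
  rw [pv0]
  simp [mulv, rotv]

theorem clz (v : JR × JR) : clv sx (mulv sx (bv sx Rz) v) = -(v.2 + be sx * v.1) := by
  rw [bv_z]
  simp only [clv, mulv]
  ring

theorem om_z (h1 : OMR_Stmt) (h5 : JDV_Stmt) (a : ℤ) (ha : a ≠ 0) {R : Tr} {b : ℤ × ℤ}
    (hb : Dir R b) : om (a, 0) b = hh R := by
  rw [h1.1 _ _ _ _ (dir_z a ha) hb, clz, (h5.2.2.2.2 _ 0).2.1]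
  rfl

theorem om_z1 (h1 : OMR_Stmt) (h5 : JDV_Stmt) (a : ℤ) (ha : a ≠ 0) : om (a, 0) (0, 1) = 0 := by
  rw [om_z h1 h5 a ha dir_01]
  have e1 : bv sx (.pw 0) = pv sx 0 := rfl
  unfold hh
  rw [e1, pv0, mul_zero, add_zero]
  exact ((h5.2.2.2.2 1 0).2.2 Ratj.mon_one).1

theorem hh_ne (h5 : JDV_Stmt) {R : Tr} {b : ℤ × ℤ} (hb : Dir R b) (hb2 : b.2 ≠ 0) :
    cf 0 ((bv sx R).2 + be sx * (bv sx R).1) ≠ 0 := by
  rw [Wadx.cf_add, Wadx.cf0_mul, Wadx.be0, zero_mul, add_zero, (h5.2.2.1 R).2.1]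
  obtain ⟨_, k, hk, rfl⟩ := hb
  have h : (k • vec R).2 = k * (vec R).2 := rfl
  rw [h] at hb2
  exact_mod_cast right_ne_zero_of_mul hb2

theorem cl_z (h4 : JPV_Stmt) (h5 : JDV_Stmt) {Ra Rb : Tr} {a b : ℤ × ℤ} (ha : Dir Ra a)
    (hb : Dir Rb b) (ha2 : a.2 ≠ 0) (hb2 : b.2 ≠ 0) :
    w2 (clv sx (mulv sx (bv sx Rz) (mulv sx (bv sx Ra) (bv sx Rb)))) = hh Ra + hh Rb := by
  rw [clz, (h5.2.2.2.2 _ 0).2.1, ((h4 JR sx).1 (bv sx Ra) (bv sx Rb) (0, 1)).2.2.2.2.1,
    (h5.2.2.2.2 _ _).1 (hh_ne h5 ha ha2) (hh_ne h5 hb hb2)]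
  rfl

theorem ne0 {P : ℤ × ℤ} (h : P.2 ≠ 0) : P ≠ 0 := fun h' => h (by rw [h']; rfl)

theorem ne0' {P : ℤ × ℤ} (h : P.1 ≠ 0) : P ≠ 0 := fun h' => h (by rw [h']; rfl)

/-- the first two vectors exchanged in a product of three -/
theorem m3a (h4 : JPV_Stmt) (u v w : JR × JR) :
    mulv sx u (mulv sx v w) = mulv sx v (mulv sx u w) := by
  rw [← ((h4 JR sx).1 u v w).2.1, ((h4 JR sx).1 u v w).1, ((h4 JR sx).1 v u w).2.1]

/-- the last vector moved to the front -/
theorem m3b (h4 : JPV_Stmt) (u v w : JR × JR) :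
    mulv sx u (mulv sx v w) = mulv sx w (mulv sx u v) := by
  rw [((h4 JR sx).1 v w u).1, m3a h4 u w v]

end VXAX

open VXAX in
theorem t_VXA (h1 : OMR_Stmt) (_h2 : OMP_Stmt) (h3 : RU_Stmt) (h4 : JPV_Stmt) (h5 : JDV_Stmt) :
    VXA_Stmt := by
  intro v hv hc
  obtain ⟨v0, v1, v2⟩ := v
  by_cases hz : (tot (v0, v1, v2)).2 = 0
  · -- weight zero
    have e2 : (tot (v0, v1, v2)).2 = v0.2 * v1.2 * v2.2 := rfl
    have e1 : (tot (v0, v1, v2)).1 = (v0.1 * v1.2 + v1.1 * v0.2) * v2.2 + v2.1 * (v0.2 * v1.2) := rfl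
    have hom : om (tot (v0, v1, v2)) (0, 1) = 0 := by
      have e3 : tot (v0, v1, v2) = ((tot (v0, v1, v2)).1, 0) := Prod.ext rfl hz
      rw [e3]
      exact om_z1 h1 h5 _ hv
    have hev : evO (nv (v0, v1, v2)) = (if v0.2 = 0 then 0 else 2) * om (addv v1 v2) v0 +
        (if v1.2 = 0 then 0 else 2) * om (addv v0 v2) v1 +
        (if v2.2 = 0 then 0 else 2) * om (addv v0 v1) v2 := by
      unfold nv
      rw [if_pos hz]
      simp only [evO, prs, List.map_cons, List.map_nil, List.sum_cons, List.sum_nil, hom, mul_zero,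
        zero_add, add_zero]
      push_cast
      ring
    rw [hev]
    rw [e2] at hz
    rw [e1] at hv
    rcases mul_eq_zero.1 hz with hz | hz
    · rcases mul_eq_zero.1 hz with hz | hz
      · -- the first weight
        have k1 : v0.1 * v1.2 * v2.2 ≠ 0 := by
          intro h
          apply hv
          rw [hz]
          linear_combination h
        have b1 : v1.2 ≠ 0 := right_ne_zero_of_mul (left_ne_zero_of_mul k1)
        have b2 : v2.2 ≠ 0 := right_ne_zero_of_mul k1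
        have b0 : v0.1 ≠ 0 := left_ne_zero_of_mul (left_ne_zero_of_mul k1)
        have d1 := h3.1 v1 (ne0 b1)
        have d2 := h3.1 v2 (ne0 b2)
        have d0 : Dir Rz v0 := by
          have h := dir_z v0.1 b0
          rwa [← hz] at h
        have e3 : addv v0 v2 = (v0.1 * v2.2, 0) := by
          simp only [addv, hz, Prod.mk.injEq]
          constructor <;> ring
        have e4 : addv v0 v1 = (v0.1 * v1.2, 0) := by
          simp only [addv, hz, Prod.mk.injEq]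
          constructor <;> ring
        rw [if_pos hz, if_neg b1, if_neg b2, e3, e4, om_z h1 h5 _ (mul_ne_zero b0 b2) d1,
          om_z h1 h5 _ (mul_ne_zero b0 b1) d2, h1.2.1 (v0, v1, v2) Rz (rt v1) (rt v2) d0 d1 d2,
          cl_z h4 h5 d1 d2 b1 b2]
        ring
      · -- the second weight
        have k1 : v1.1 * v0.2 * v2.2 ≠ 0 := by
          intro h
          apply hv
          rw [hz]
          linear_combination h
        have b1 : v0.2 ≠ 0 := right_ne_zero_of_mul (left_ne_zero_of_mul k1)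
        have b2 : v2.2 ≠ 0 := right_ne_zero_of_mul k1
        have b0 : v1.1 ≠ 0 := left_ne_zero_of_mul (left_ne_zero_of_mul k1)
        have d1 := h3.1 v0 (ne0 b1)
        have d2 := h3.1 v2 (ne0 b2)
        have d0 : Dir Rz v1 := by
          have h := dir_z v1.1 b0
          rwa [← hz] at h
        have e3 : addv v1 v2 = (v1.1 * v2.2, 0) := by
          simp only [addv, hz, Prod.mk.injEq]
          constructor <;> ring
        have e4 : addv v0 v1 = (v1.1 * v0.2, 0) := by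
          simp only [addv, hz, Prod.mk.injEq]
          constructor <;> ring
        rw [if_pos hz, if_neg b1, if_neg b2, e3, e4, om_z h1 h5 _ (mul_ne_zero b0 b2) d1,
          om_z h1 h5 _ (mul_ne_zero b0 b1) d2, h1.2.1 (v0, v1, v2) (rt v0) Rz (rt v2) d1 d0 d2,
          m3a h4, cl_z h4 h5 d1 d2 b1 b2]
        ring
    · -- the third weight
      have k1 : v2.1 * (v0.2 * v1.2) ≠ 0 := by
        intro h
        apply hv
        rw [hz]
        linear_combination h
      have b1 : v0.2 ≠ 0 := left_ne_zero_of_mul (right_ne_zero_of_mul k1)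
      have b2 : v1.2 ≠ 0 := right_ne_zero_of_mul (right_ne_zero_of_mul k1)
      have b0 : v2.1 ≠ 0 := left_ne_zero_of_mul k1
      have d1 := h3.1 v0 (ne0 b1)
      have d2 := h3.1 v1 (ne0 b2)
      have d0 : Dir Rz v2 := by
        have h := dir_z v2.1 b0
        rwa [← hz] at h
      have e3 : addv v1 v2 = (v2.1 * v1.2, 0) := by
        simp only [addv, hz, Prod.mk.injEq]
        constructor <;> ring
      have e4 : addv v0 v2 = (v2.1 * v0.2, 0) := by
        simp only [addv, hz, Prod.mk.injEq]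
        constructor <;> ring
      rw [if_pos hz, if_neg b1, if_neg b2, e3, e4, om_z h1 h5 _ (mul_ne_zero b0 b2) d1,
        om_z h1 h5 _ (mul_ne_zero b0 b1) d2, h1.2.1 (v0, v1, v2) (rt v0) (rt v1) Rz d1 d2 d0,
        m3b h4, cl_z h4 h5 d1 d2 b1 b2]
      ring
  · -- trivial vertices
    obtain ⟨-, p, hp, hd⟩ := hc.resolve_left hz
    have e2 : (tot (v0, v1, v2)).2 = v0.2 * v1.2 * v2.2 := rfl
    have hz' := hz
    rw [e2] at hz'
    have b2 : v2.2 ≠ 0 := right_ne_zero_of_mul hz'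
    have b1 : v1.2 ≠ 0 := right_ne_zero_of_mul (left_ne_zero_of_mul hz')
    have b0 : v0.2 ≠ 0 := left_ne_zero_of_mul (left_ne_zero_of_mul hz')
    have d0 := h3.1 v0 (ne0 b0)
    have d1 := h3.1 v1 (ne0 b1)
    have d2 := h3.1 v2 (ne0 b2)
    have hev : evO (nv (v0, v1, v2)) = -om (tot (v0, v1, v2)) (0, 1) + om (addv v1 v2) v0 +
        om (addv v0 v2) v1 + om (addv v0 v1) v2 := by
      unfold nv
      rw [if_neg hz]
      simp only [evO, prs, List.map_cons, List.map_nil, List.sum_cons, List.sum_nil, add_zero]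
      push_cast
      ring
    rw [hev]
    simp only [prs, List.mem_cons, List.not_mem_nil, or_false] at hp
    rcases hp with rfl | rfl | rfl
    · obtain ⟨k, hk⟩ := hd
      have e3 : v0 = (v0.2 * k, v0.2) := Prod.ext hk rfl
      have hP : addv v1 v2 ≠ 0 := ne0 (mul_ne_zero b1 b2)
      have q0 : om (tot (v0, v1, v2)) (0, 1) = om (addv v1 v2) v0 := by
        rw [tot0]
        change om (addv (addv v1 v2) v0) (0, 1) = om (addv v1 v2) v0
        rw [e3]
        exact om_tot h1 h3 h4 k v0.2 b0 hP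
      have dk : Dir (.pw (-k)) v0 := by
        rw [e3]
        exact dir_pw k v0.2 b0
      have q3 := h1.2.1 (v0, v1, v2) (.pw (-k)) (rt v1) (rt v2) dk d1 d2
      have q1 : om (addv v0 v2) v1 = w3 (v0, v1, v2) := by
        rw [q3, addv_c]
        rw [e3]
        rw [om_side h1 h3 h4 k v0.2 b0 d1 d2, ((h4 JR sx).1 (bv sx (rt v2)) (bv sx (rt v1)) 0).1]
        rfl
      have q2 : om (addv v0 v1) v2 = w3 (v0, v1, v2) := by
        rw [q3, addv_c]
        rw [e3]
        rw [om_side h1 h3 h4 k v0.2 b0 d2 d1]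
        rfl
      rw [q0, q1, q2]
      ring
    · obtain ⟨k, hk⟩ := hd
      have e3 : v1 = (v1.2 * k, v1.2) := Prod.ext hk rfl
      have hP : addv v0 v2 ≠ 0 := ne0 (mul_ne_zero b0 b2)
      have q0 : om (tot (v0, v1, v2)) (0, 1) = om (addv v0 v2) v1 := by
        rw [tot1]
        change om (addv (addv v0 v2) v1) (0, 1) = om (addv v0 v2) v1
        rw [e3]
        exact om_tot h1 h3 h4 k v1.2 b1 hP
      have dk : Dir (.pw (-k)) v1 := by
        rw [e3]
        exact dir_pw k v1.2 b1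
      have q3 := h1.2.1 (v0, v1, v2) (rt v0) (.pw (-k)) (rt v2) d0 dk d2
      rw [m3a h4] at q3
      have q1 : om (addv v1 v2) v0 = w3 (v0, v1, v2) := by
        rw [q3, addv_c]
        rw [e3]
        rw [om_side h1 h3 h4 k v1.2 b1 d0 d2, ((h4 JR sx).1 (bv sx (rt v2)) (bv sx (rt v0)) 0).1]
        rfl
      have q2 : om (addv v0 v1) v2 = w3 (v0, v1, v2) := by
        rw [q3]
        rw [e3]
        rw [om_side h1 h3 h4 k v1.2 b1 d2 d0]
        rfl
      rw [q0, q1, q2]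
      ring
    · obtain ⟨k, hk⟩ := hd
      have e3 : v2 = (v2.2 * k, v2.2) := Prod.ext hk rfl
      have hP : addv v0 v1 ≠ 0 := ne0 (mul_ne_zero b0 b1)
      have q0 : om (tot (v0, v1, v2)) (0, 1) = om (addv v0 v1) v2 := by
        change om (addv (addv v0 v1) v2) (0, 1) = om (addv v0 v1) v2
        rw [e3]
        exact om_tot h1 h3 h4 k v2.2 b2 hP
      have dk : Dir (.pw (-k)) v2 := by
        rw [e3]
        exact dir_pw k v2.2 b2
      have q3 := h1.2.1 (v0, v1, v2) (rt v0) (rt v1) (.pw (-k)) d0 d1 dk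
      rw [m3b h4] at q3
      have q1 : om (addv v1 v2) v0 = w3 (v0, v1, v2) := by
        rw [q3]
        rw [e3]
        rw [om_side h1 h3 h4 k v2.2 b2 d0 d1, ((h4 JR sx).1 (bv sx (rt v1)) (bv sx (rt v0)) 0).1]
        rfl
      have q2 : om (addv v0 v2) v1 = w3 (v0, v1, v2) := by
        rw [q3]
        rw [e3]
        rw [om_side h1 h3 h4 k v2.2 b2 d1 d0]
        rfl
      rw [q0, q1, q2]
      ring

end Pool.Agent.TV
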