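import Pool.Agent.TV.StJ

/-!
MP_31fd3b_gt, Theorem V, module VXB: integral vertices.
-/

set_option autoImplicit false

open scoped BigOperators

namespace Pool.Agent.TV

open Pool.Agent.LibH11.Sliced Pool.Agent.MTR Pool.Agent.MTA Pool.Agent.UA Pool.Agent.UB
open Pool.Agent.TB hiding vec

namespace VXBX

theorem ne0 {P : ℤ × ℤ} (h : P.2 ≠ 0) : P ≠ 0 := fun h' => h (by rw [h']; rfl)

/-- the denominator of a quotient of coprime integers -/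
theorem den_sq (a b : ℤ) (hb : b ≠ 0) (h : IsCoprime a b) :
    (b : ℚ) ^ 2 = ((((a : ℚ) / b).den : ℕ) : ℚ) ^ 2 := by
  have key : ∀ a b : ℤ, 0 < b → IsCoprime a b →
      (b : ℚ) ^ 2 = ((((a : ℚ) / b).den : ℕ) : ℚ) ^ 2 := by
    intro a b hb h
    have h1 := Rat.den_div_eq_of_coprime hb (Int.isCoprime_iff_gcd_eq_one.1 h)
    have h2 : ((((a : ℚ) / b).den : ℕ) : ℚ) = (b : ℚ) := by exact_mod_cast h1
    rw [h2]
  rcases lt_or_gt_of_ne hb with hb' | hb'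
  · have h1 := key (-a) (-b) (by omega) h.neg_neg
    push_cast at h1
    rw [neg_div_neg_eq] at h1
    rw [← h1]
    ring
  · exact key a b hb' h

/-- the data of a rational tree in the direction of a vector -/
theorem dir_data (h3 : RU_Stmt) {R : Tr} {u : ℤ × ℤ} (h : Dir R u) (hu : u.2 ≠ 0) :
    R.Rat ∧ (vec R).2 ≠ 0 ∧ slp (vec R) = slp u ∧
      ((vec R).2 : ℚ) ^ 2 = (((slp u).den : ℕ) : ℚ) ^ 2 := by
  obtain ⟨hR, k, hk, rfl⟩ := h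
  have e1 : (k • vec R).1 = k * (vec R).1 := rfl
  have e2 : (k • vec R).2 = k * (vec R).2 := rfl
  rw [e2] at hu
  have hr : (vec R).2 ≠ 0 := right_ne_zero_of_mul hu
  have hs : slp (vec R) = slp (k • vec R) := by
    unfold slp
    rw [e1, e2]
    push_cast
    rw [mul_div_mul_left]
    exact_mod_cast hk
  refine ⟨hR, hr, hs, ?_⟩
  rw [← hs]
  exact den_sq _ _ hr (h3.2.2.2.1 R _ k hR rfl hk).2.1

/-- all the invariants of the series of the tree `rt u` -/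
theorem bv_data (h3 : RU_Stmt) (h4 : LAD_Stmt) (h5 : LAE_Stmt) {u : ℤ × ℤ} (hu : u.2 ≠ 0) :
    cf 0 (bv sx (rt u)).2 ≠ 0 ∧ sl0 (bv sx (rt u)) = ((slp u : ℚ) : ℂ) ∧
      la1v (bv sx (rt u)) = 2 - 2 / (((slp u).den : ℕ) : ℂ) ^ 2 ∧
      la2v (bv sx (rt u)) = la2 (slp u) ∧ w2 (bv sx (rt u)).2 = ow (slp u) := by
  obtain ⟨hR, hr, hs, hd⟩ := dir_data h3 (h3.1 u (ne0 hu)) hu
  obtain ⟨a1, a2, a3⟩ := h4.2.2.1 (rt u) hR hr
  obtain ⟨a4, a5⟩ := h5.1 (rt u) hR hr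
  refine ⟨a1, ?_, ?_, ?_, ?_⟩
  · rw [a2, ← hs]
    unfold slp
    push_cast
    rfl
  · rw [a3]
    have hd' : ((vec (rt u)).2 : ℂ) ^ 2 = (((slp u).den : ℕ) : ℂ) ^ 2 := by exact_mod_cast hd
    rw [hd']
  · rw [a4, hs]
  · rw [a5, hs]

/-- the square of the inverse of the denominator -/
noncomputable def iv (β : ℚ) : ℚ := 1 / ((β.den : ℕ) : ℚ) ^ 2

theorem om_gen (h3 : RU_Stmt) (h4 : LAD_Stmt) (h5 : LAE_Stmt) {P V : ℤ × ℤ} (hP : P.2 ≠ 0)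
    (hV : V.2 ≠ 0) (hs : slp P + slp V ≠ 0) :
    om P V = ow (slp P) + ow (slp V) + 2 * (la2 (slp P) + la2 (slp V)) / ((slp P + slp V : ℚ) : ℂ) +
      44 / 3 + 4 * (4 - 2 * ((iv (slp P) : ℚ) : ℂ) - 2 * ((iv (slp V) : ℚ) : ℂ)) +
      4 / 3 * ((slp P + slp V : ℚ) : ℂ) ^ 2 -
      (2 * ((iv (slp P) : ℚ) : ℂ) + 2 * ((iv (slp V) : ℚ) : ℂ)) ^ 2 /
        ((slp P + slp V : ℚ) : ℂ) ^ 2 := by
  obtain ⟨a1, a2, a3, a4, a5⟩ := bv_data h3 h4 h5 hP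
  obtain ⟨b1, b2, b3, b4, b5⟩ := bv_data h3 h4 h5 hV
  obtain ⟨c1, c2, c3, c4, c5⟩ := h4.1 _ _ a1 b1
  have hs' : ((slp P : ℚ) : ℂ) + ((slp V : ℚ) : ℂ) ≠ 0 := by exact_mod_cast hs
  unfold om
  rw [h4.2.1 _ c4 (by rw [c1, a2, b2]; exact hs'), c5, c3, c1, c2, a2, a3, a4, a5, b2, b3, b4, b5]
  unfold iv
  push_cast
  ring

theorem w3_gen (h3 : RU_Stmt) (h4 : LAD_Stmt) (h5 : LAE_Stmt) {u v w : ℤ × ℤ} (hu : u.2 ≠ 0)
    (hv : v.2 ≠ 0) (hw : w.2 ≠ 0) (hs : slp u + slp v + slp w ≠ 0) :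
    w3 (u, v, w) = ow (slp u) + ow (slp v) + ow (slp w) +
      2 * (la2 (slp u) + la2 (slp v) + la2 (slp w)) / ((slp u + slp v + slp w : ℚ) : ℂ) +
      44 / 3 + 4 * (6 - 2 * ((iv (slp u) : ℚ) : ℂ) - 2 * ((iv (slp v) : ℚ) : ℂ) -
        2 * ((iv (slp w) : ℚ) : ℂ)) +
      4 / 3 * ((slp u + slp v + slp w : ℚ) : ℂ) ^ 2 -
      (2 - 2 * ((iv (slp u) : ℚ) : ℂ) - 2 * ((iv (slp v) : ℚ) : ℂ) -
        2 * ((iv (slp w) : ℚ) : ℂ)) ^ 2 / ((slp u + slp v + slp w : ℚ) : ℂ) ^ 2 := by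
  obtain ⟨a1, a2, a3, a4, a5⟩ := bv_data h3 h4 h5 hu
  obtain ⟨b1, b2, b3, b4, b5⟩ := bv_data h3 h4 h5 hv
  obtain ⟨c1, c2, c3, c4, c5⟩ := bv_data h3 h4 h5 hw
  obtain ⟨d1, d2, d3, d4, d5⟩ := h4.1 _ _ b1 c1
  obtain ⟨e1, e2, e3, e4, e5⟩ := h4.1 _ _ a1 d4
  have hs' : ((slp u : ℚ) : ℂ) + (((slp v : ℚ) : ℂ) + ((slp w : ℚ) : ℂ)) ≠ 0 := by
    rw [← add_assoc]
    exact_mod_cast hs
  unfold w3
  rw [h4.2.1 _ e4 (by rw [e1, d1, a2, b2, c2]; exact hs'), e5, e3, e1, e2, d5, d3, d1, d2,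
    a2, a3, a4, a5, b2, b3, b4, b5, c2, c3, c4, c5]
  unfold iv
  push_cast
  ring

theorem slp_add {P V : ℤ × ℤ} (hP : P.2 ≠ 0) (hV : V.2 ≠ 0) : slp (addv P V) = slp P + slp V := by
  have hP' : (P.2 : ℚ) ≠ 0 := by exact_mod_cast hP
  have hV' : (V.2 : ℚ) ≠ 0 := by exact_mod_cast hV
  unfold slp addv
  push_cast
  field_simp

theorem iv_int_sub (n : ℤ) (β : ℚ) : iv ((n : ℚ) - β) = iv β := by
  unfold iv
  have h : ((n : ℚ) - β).den = β.den := by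
    rw [sub_eq_add_neg, add_comm, Rat.add_intCast_den, Rat.neg_den]
  rw [h]

theorem iv_int (n : ℤ) : iv (n : ℚ) = 1 := by
  unfold iv
  rw [Rat.den_intCast]
  norm_num

theorem la2_zero (h5 : LAE_Stmt) : la2 0 = 0 := by
  have h := (h5.2.2 0).1
  rw [neg_zero] at h
  have h2 : (2 : ℂ) * la2 0 = 0 := by linear_combination h
  simpa using h2

theorem ow_zero (h4 : LAD_Stmt) (h5 : LAE_Stmt) : ow 0 = 0 := by
  have h := (h5.1 (.pw 0) trivial (by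
    have h : vec (Tr.pw 0) = (-0, 1) := rfl
    rw [h]
    exact one_ne_zero)).2
  have e : slp (vec (Tr.pw 0)) = 0 := by
    have h : vec (Tr.pw 0) = (-0, 1) := rfl
    rw [h]
    unfold slp
    simp
  rw [e] at h
  rw [← h]
  exact (h4.2.2.2.2 0).2

theorem la2_int (h5 : LAE_Stmt) (n : ℤ) : la2 (n : ℚ) = 0 := by
  have h := (h5.2.1 0 n).1
  rw [zero_add] at h
  rw [h, la2_zero h5]

theorem ow_int (h4 : LAD_Stmt) (h5 : LAE_Stmt) (n : ℤ) : ow (n : ℚ) = 0 := by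
  have h := (h5.2.1 0 n).2
  rw [zero_add] at h
  rw [h, ow_zero h4 h5]

theorem la2_int_sub (h5 : LAE_Stmt) (n : ℤ) (β : ℚ) : la2 ((n : ℚ) - β) = -la2 β := by
  rw [sub_eq_add_neg, add_comm, (h5.2.1 (-β) n).1, (h5.2.2 β).1]

theorem ow_int_sub (h5 : LAE_Stmt) (n : ℤ) (β : ℚ) : ow ((n : ℚ) - β) = ow β := by
  rw [sub_eq_add_neg, add_comm, (h5.2.1 (-β) n).2, (h5.2.2 β).2]

/-- the pair of the total vector and `(0, 1)` -/
theorem om_top (h3 : RU_Stmt) (h4 : LAD_Stmt) (h5 : LAE_Stmt) {P : ℤ × ℤ} (hP : P.2 ≠ 0) (n : ℤ)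
    (hn : slp P = n) (hn0 : n ≠ 0) :
    om P (0, 1) = 44 / 3 + 4 / 3 * (n : ℂ) ^ 2 - 16 / (n : ℂ) ^ 2 := by
  have e : slp (0, 1) = ((0 : ℤ) : ℚ) := by
    unfold slp
    simp
  have hn' : (n : ℚ) ≠ 0 := by exact_mod_cast hn0
  rw [om_gen h3 h4 h5 hP (V := (0, 1)) (by norm_num) (by rw [hn, e]; simpa using hn'), hn, e,
    la2_int h5, la2_int h5, ow_int h4 h5, ow_int h4 h5, iv_int, iv_int]
  push_cast
  ring

/-- a side pair -/
theorem om_sd (h3 : RU_Stmt) (h4 : LAD_Stmt) (h5 : LAE_Stmt) {P V : ℤ × ℤ} (hP : P.2 ≠ 0)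
    (hV : V.2 ≠ 0) (n : ℤ) (hn : slp P = n - slp V) (hn0 : n ≠ 0) :
    om P V = 2 * ow (slp V) + 44 / 3 + 4 * (4 - 4 * ((iv (slp V) : ℚ) : ℂ)) +
      4 / 3 * (n : ℂ) ^ 2 - (4 * ((iv (slp V) : ℚ) : ℂ)) ^ 2 / (n : ℂ) ^ 2 := by
  have hn' : (n : ℚ) ≠ 0 := by exact_mod_cast hn0
  rw [om_gen h3 h4 h5 hP hV (by rw [hn, sub_add_cancel]; exact hn'), hn,
    la2_int_sub h5, ow_int_sub h5, iv_int_sub, sub_add_cancel]
  push_cast
  ring

theorem iv_sq (β : ℚ) : 1 / ((β.den : ℕ) : ℚ) ^ 4 = iv β ^ 2 := by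
  unfold iv
  rw [div_pow, one_pow, ← pow_mul]

theorem iv_le {V : ℤ × ℤ} (hV : V.2 ≠ 0) (h : ¬ V.2 ∣ V.1) : iv (slp V) ≤ 1 / 4 ∧
    0 ≤ iv (slp V) := by
  have hV' : (V.2 : ℚ) ≠ 0 := by exact_mod_cast hV
  have h2 : 2 ≤ (slp V).den := by
    have h0 := (slp V).den_pos
    by_contra hlt
    have h1 : (slp V).den = 1 := by omega
    apply h
    have h3 : slp V = ((slp V).num : ℚ) := by
      conv_lhs => rw [← Rat.num_div_den (slp V), h1]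
      simp
    refine ⟨(slp V).num, ?_⟩
    have h4 : (V.1 : ℚ) = V.2 * (slp V).num := by
      rw [← h3]
      unfold slp
      field_simp
    exact_mod_cast h4
  have h2' : (2 : ℚ) ≤ ((slp V).den : ℚ) := by exact_mod_cast h2
  unfold iv
  constructor
  · rw [div_le_div_iff₀ (by positivity) (by norm_num)]
    nlinarith
  · positivity

end VXBX

open VXBX in
theorem t_VXB (_h1 : OMR_Stmt) (_h2 : OMP_Stmt) (h3 : RU_Stmt) (h4 : LAD_Stmt) (h5 : LAE_Stmt) :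
    VXB_Stmt := by
  intro v hv hc
  obtain ⟨u, v, w⟩ := v
  obtain ⟨ht, hp, hd⟩ := hc
  have e2 : (tot (u, v, w)).2 = u.2 * v.2 * w.2 := rfl
  have ht' := ht
  rw [e2] at ht'
  have b2 : w.2 ≠ 0 := right_ne_zero_of_mul ht'
  have b1 : v.2 ≠ 0 := right_ne_zero_of_mul (left_ne_zero_of_mul ht')
  have b0 : u.2 ≠ 0 := left_ne_zero_of_mul (left_ne_zero_of_mul ht')
  have c0 : (addv v w).2 ≠ 0 := mul_ne_zero b1 b2
  have c1 : (addv u w).2 ≠ 0 := mul_ne_zero b0 b2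
  have c2 : (addv u v).2 ≠ 0 := mul_ne_zero b0 b1
  obtain ⟨n, hn⟩ := hd
  have hn0 : n ≠ 0 := by
    rintro rfl
    exact hv (by rw [hn, mul_zero])
  have hn0' : (n : ℚ) ≠ 0 := by exact_mod_cast hn0
  have ht2 : ((tot (u, v, w)).2 : ℚ) ≠ 0 := by exact_mod_cast ht
  have hσ : slp (tot (u, v, w)) = n := by
    unfold slp
    rw [hn]
    push_cast
    field_simp
  have hσ2 : slp u + slp v + slp w = n := by
    rw [← hσ]
    change _ = slp (addv (addv u v) w)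
    rw [slp_add c2 b2, slp_add b0 b1]
  have hbad : Vbad (u, v, w) := ⟨ht, hp, n, hn⟩
  have hquo : ((tot (u, v, w)).2 : ℚ) / (tot (u, v, w)).1 = 1 / n := by
    rw [hn]
    push_cast
    field_simp
  have hev : evO (nv (u, v, w)) = -om (tot (u, v, w)) (0, 1) + om (addv v w) u +
      om (addv u w) v + om (addv u v) w := by
    unfold nv
    rw [if_neg ht]
    simp only [evO, prs, List.map_cons, List.map_nil, List.sum_cons, List.sum_nil, add_zero]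
    push_cast
    ring
  have hDl : Dl (u, v, w) = (1 / (n : ℚ)) ^ 2 *
      (-8 * (1 - (iv (slp u) + iv (slp v) + iv (slp w))) ^ 2 +
        16 * (iv (slp u) ^ 2 + iv (slp v) ^ 2 + iv (slp w) ^ 2) - 16) := by
    unfold Dl
    rw [hquo]
    simp only [prs, List.map_cons, List.map_nil, List.sum_cons, List.sum_nil, add_zero]
    rw [iv_sq, iv_sq, iv_sq]
    unfold iv
    ring
  have hbc : bc la2 (u, v, w) = (1 / (n : ℂ)) * (la2 (slp u) + la2 (slp v) + la2 (slp w)) := by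
    unfold bc
    rw [if_pos hbad, hquo]
    simp only [prs, List.map_cons, List.map_nil, List.sum_cons, List.sum_nil, add_zero]
    push_cast
    ring
  refine ⟨?_, ?_⟩
  · rw [hev, hDl, hbc, om_top h3 h4 h5 ht n hσ hn0,
      om_sd h3 h4 h5 c0 b0 n (by rw [slp_add b1 b2, ← hσ2]; ring) hn0,
      om_sd h3 h4 h5 c1 b1 n (by rw [slp_add b0 b2, ← hσ2]; ring) hn0,
      om_sd h3 h4 h5 c2 b2 n (by rw [slp_add b0 b1, ← hσ2]; ring) hn0,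
      w3_gen h3 h4 h5 b0 b1 b2 (by rw [hσ2]; exact hn0'), hσ2]
    have hnC : (n : ℂ) ≠ 0 := by exact_mod_cast hn0
    push_cast
    field_simp
    ring
  · rw [hDl]
    obtain ⟨i0, j0⟩ := iv_le b0 (hp (addv v w, u) (by simp [prs]))
    obtain ⟨i1, j1⟩ := iv_le b1 (hp (addv u w, v) (by simp [prs]))
    obtain ⟨i2, j2⟩ := iv_le b2 (hp (addv u v, w) (by simp [prs]))
    have hpos : (0 : ℚ) < (1 / (n : ℚ)) ^ 2 := by positivity
    apply mul_neg_of_pos_of_neg hpos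
    nlinarith [sq_nonneg (1 - (iv (slp u) + iv (slp v) + iv (slp w)))]

end Pool.Agent.TV
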