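import Pool.Agent.TV.StJ
import Pool.Agent.UA.Wad

open scoped BigOperators

namespace Pool.Agent.TV

open Pool.Agent.LibH11.Sliced Pool.Agent.MTR Pool.Agent.MTA Pool.Agent.UA Pool.Agent.UB
open Pool.Agent.TB hiding vec

namespace WadgX

theorem key (α β s1 s2 r1 r2 l11 l21 l12 l22 v11 v21 v12 v22 S11 S21 S12 S22 R11 R21 R12 R22 : ℂ)
    (hα : α ≠ 0) (hβ : β ≠ 0) (hp : s2 * r1 + s1 * r2 ≠ 0) :
    let B0 := fun (a1 a2 b1 b2 : ℂ) => a2 * b1 + a1 * b2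
    let B1 := fun (a1 a2 a11 a21 b1 b2 b11 b21 : ℂ) =>
      a2 * b11 + a21 * b1 + (a1 * b21 + a11 * b2) + 4 * (a1 * b1 - a2 * b2)
    let B2 := fun (a1 a2 a11 a21 a12 a22 b1 b2 b11 b21 b12 b22 : ℂ) =>
      (a2 * b12 + a21 * b11 + a22 * b1) + (a1 * b22 + a11 * b21 + a12 * b2) +
        4 * (a1 * b11 + a11 * b1 - a2 * b21 - a21 * b2)
    (2 * B2 (α * s1) (α * s2) l11 l21 l12 l22 (β * r1) (β * r2) v11 v21 v12 v22 /
        B0 (α * s1) (α * s2) (β * r1) (β * r2) -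
      (B1 (α * s1) (α * s2) l11 l21 (β * r1) (β * r2) v11 v21 /
        B0 (α * s1) (α * s2) (β * r1) (β * r2)) ^ 2) +
    (2 * B2 s1 s2 S11 S21 S12 S22 r1 r2 R11 R21 R12 R22 / B0 s1 s2 r1 r2 -
      (B1 s1 s2 S11 S21 r1 r2 R11 R21 / B0 s1 s2 r1 r2) ^ 2) =
    (2 * B2 s1 s2 S11 S21 S12 S22 (β * r1) (β * r2) v11 v21 v12 v22 / B0 s1 s2 (β * r1) (β * r2) -
      (B1 s1 s2 S11 S21 (β * r1) (β * r2) v11 v21 / B0 s1 s2 (β * r1) (β * r2)) ^ 2) +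
    (2 * B2 (α * s1) (α * s2) l11 l21 l12 l22 r1 r2 R11 R21 R12 R22 / B0 (α * s1) (α * s2) r1 r2 -
      (B1 (α * s1) (α * s2) l11 l21 r1 r2 R11 R21 / B0 (α * s1) (α * s2) r1 r2) ^ 2) -
    2 * (α * s1 * l21 - α * s2 * l11 - α ^ 2 * (s1 * S21 - s2 * S11)) *
      (β * r1 * v21 - β * r2 * v11 - β ^ 2 * (r1 * R21 - r2 * R11)) /
        B0 (α * s1) (α * s2) (β * r1) (β * r2) ^ 2 := by
  intro B0 B1 B2
  have e1 : B0 (α * s1) (α * s2) (β * r1) (β * r2) = α * β * (s2 * r1 + s1 * r2) := by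
    simp only [B0]; ring
  have e2 : B0 s1 s2 r1 r2 = s2 * r1 + s1 * r2 := by
    simp only [B0]
  have e3 : B0 s1 s2 (β * r1) (β * r2) = β * (s2 * r1 + s1 * r2) := by
    simp only [B0]; ring
  have e4 : B0 (α * s1) (α * s2) r1 r2 = α * (s2 * r1 + s1 * r2) := by
    simp only [B0]; ring
  rw [e1, e2, e3, e4]
  simp only [B1, B2]
  generalize hq : s2 * r1 + s1 * r2 = p at *
  have h0 : p ≠ 0 := hp
  field_simp
  rw [← hq]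
  ring

end WadgX

theorem t_WADG : WADG_Stmt := by
  intro l v S R α β hα hβ hl1 hl2 hv1 hv2 hS hR hne
  have hp : cf 0 S.2 * cf 0 R.1 + cf 0 S.1 * cf 0 R.2 ≠ 0 := by
    intro h0
    apply hne
    rw [Wadx.clm0, hl1, hl2, hv1, hv2]
    linear_combination (α * β) * h0
  have h1 : ev l + 2 - 2 * α ^ 2 = α * cf 0 S.1 * cf 1 l.2 - α * cf 0 S.2 * cf 1 l.1 -
      α ^ 2 * (cf 0 S.1 * cf 1 S.2 - cf 0 S.2 * cf 1 S.1) := by
    unfold ev dv at hS ⊢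
    rw [hl1, hl2]
    linear_combination (α ^ 2) * hS
  have h2 : ev v + 2 - 2 * β ^ 2 = β * cf 0 R.1 * cf 1 v.2 - β * cf 0 R.2 * cf 1 v.1 -
      β ^ 2 * (cf 0 R.1 * cf 1 R.2 - cf 0 R.2 * cf 1 R.1) := by
    unfold ev dv at hR ⊢
    rw [hv1, hv2]
    linear_combination (β ^ 2) * hR
  rw [h1, h2]
  unfold w2
  simp only [Wadx.clm0, Wadx.clm1, Wadx.clm2, hl1, hl2, hv1, hv2]
  exact WadgX.key α β _ _ _ _ _ _ _ _ _ _ _ _ _ _ _ _ _ _ _ _ hα hβ hp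

end Pool.Agent.TV
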