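import Pool.Agent.TV.StK

/-!
Theorem V (MP_31fd3b_gt): the limit function in terms of the vertices.
-/

open scoped BigOperators

namespace Pool.Agent.TV

open Pool.Agent.LibH11.Sliced Pool.Agent.MTR Pool.Agent.MTA Pool.Agent.UA Pool.Agent.UB
open Pool.Agent.TB hiding vec

namespace Xxf

theorem gp_mono {B B' : ℕ} (h : B' ≤ B) {M : ℤ} (hM : Gp B M) : Gp B' M := by
  obtain ⟨q, h1, h2, h3, h4⟩ := hM
  exact ⟨q, h1, lt_of_le_of_lt h h2, h3, h4⟩

theorem addv_comm' (u v : ℤ × ℤ) : addv u v = addv v u := by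
  simp only [addv, Prod.mk.injEq]
  constructor <;> ring

theorem addv_assoc' (u v w : ℤ × ℤ) : addv (addv u v) w = addv u (addv v w) := by
  simp only [addv, Prod.mk.injEq]
  constructor <;> ring

theorem addv_one' (v : ℤ × ℤ) : addv (0, 1) v = v := by
  obtain ⟨a, b⟩ := v
  simp only [addv, Prod.mk.injEq]
  constructor <;> ring

theorem nu_rv (h2 : SFIN_Stmt) (c M : ℤ) (P V : ℤ × ℤ) :
    nu c M (rv P) V = nu c M P (rv V) := by
  unfold nu
  rw [h2.2.2.1 c P V M, (h2.2.2.2.2.2 P V).2.1]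

theorem first (h1 : AID_Stmt) (h2 : SFIN_Stmt) (c : ℤ) (hc : c ≠ 0) :
    ∀ (T : Tr) (L : ℤ × ℤ), dt L (vec T) ≠ 0 → ∃ B : ℕ, ∀ M : ℤ, Gp B M →
      PhU c M L T = XX c M L T + At c (vec T) L M + At c (addv L (vec T)) (0, 1) M := by
  intro T
  induction T with
  | pw e =>
    intro L hL
    obtain ⟨B, hB⟩ := h1.2.1 c L (-e, 1) hc hL
    refine ⟨B, fun M hM => ?_⟩
    have e1 := hB M hM
    have e2 := h1.1 c L (0, 1) (-e) M
    rw [addv_one'] at e2
    have e3 : vec (Tr.pw e) = (-e, 1) := rfl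
    have e4 : PhU c M L (Tr.pw e) = 0 := rfl
    have e5 : XX c M L (Tr.pw e) = nu c M L (-e, 1) := rfl
    rw [e3, e4, e5, e2]
    linarith
  | cons a b iha ihb =>
    intro L hL
    have hv : vec (Tr.cons a b) = addv (rv (vec a)) (vec b) := rfl
    rw [hv] at hL
    have hd1 : dt (addv L (vec b)) (rv (vec a)) ≠ 0 := by
      have : dt (addv L (vec b)) (rv (vec a)) = dt L (addv (rv (vec a)) (vec b)) := by
        unfold dt
        rw [addv_assoc', addv_comm' (vec b)]
      rw [this]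
      exact hL
    have hd2 : dt (rv (addv L (vec b))) (vec a) ≠ 0 := by
      rw [(h2.2.2.2.2.2 (addv L (vec b)) (vec a)).2.1]
      exact hd1
    have hd3 : dt (addv L (rv (vec a))) (vec b) ≠ 0 := by
      have : dt (addv L (rv (vec a))) (vec b) = dt L (addv (rv (vec a)) (vec b)) := by
        unfold dt
        rw [addv_assoc']
      rw [this]
      exact hL
    obtain ⟨B1, hB1⟩ := h1.2.2.1 c (addv L (vec b)) (vec a) hc hd1
    obtain ⟨B2, hB2⟩ := h1.2.1 c (rv (addv L (vec b))) (vec a) hc hd2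
    obtain ⟨B3, hB3⟩ := h1.2.1 c (addv L (rv (vec a))) (vec b) hc hd3
    obtain ⟨B4, hB4⟩ := iha (rv (addv L (vec b))) hd2
    obtain ⟨B5, hB5⟩ := ihb (addv L (rv (vec a))) hd3
    refine ⟨B1 + B2 + B3 + B4 + B5, fun M hM => ?_⟩
    have e1 := hB1 M (gp_mono (by omega) hM)
    have e2 := hB2 M (gp_mono (by omega) hM)
    have e3 := hB3 M (gp_mono (by omega) hM)
    have e4 := hB4 M (gp_mono (by omega) hM)
    have e5 := hB5 M (gp_mono (by omega) hM)
    have e6 := h1.2.2.2 c (addv L (vec (Tr.cons a b))) M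
    have e7 := h1.2.2.2 c (addv (rv (addv L (vec b))) (vec a)) M
    have e8 : PhU c M L (Tr.cons a b) =
        Zt c (addv L (vec b)) (rv (vec a)) M - Zt c (addv L (vec (.cons a b))) (0, 1) M +
        Zt c (addv (rv (addv L (vec b))) (vec a)) (0, 1) M +
        PhU c M (rv (addv L (vec b))) a + PhU c M (addv L (rv (vec a))) b := rfl
    have e9 : XX c M L (Tr.cons a b) =
        vx c M (L, rv (vec a), vec b) - nu c M (addv L (vec b)) (rv (vec a)) -
        nu c M (addv L (rv (vec a))) (vec b) + XX c M (rv (addv L (vec b))) a +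
        XX c M (addv L (rv (vec a))) b := rfl
    have e10 : vx c M (L, rv (vec a), vec b) =
        At c (addv (addv L (rv (vec a))) (vec b)) (0, 1) M -
          (At c (addv (rv (vec a)) (vec b)) L M + (At c (addv L (vec b)) (rv (vec a)) M +
            (At c (addv L (rv (vec a))) (vec b) M + 0))) := rfl
    have e11 := nu_rv h2 c M (addv L (vec b)) (vec a)
    rw [addv_assoc'] at e5 e10
    rw [e8, e9, e10, e1, e6, e7, e4, e5, hv]
    linarith

end Xxf

open Xxf in
theorem t_XXF (h1 : AID_Stmt) (h2 : SFIN_Stmt) : XXF_Stmt := by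
  intro c hc
  refine ⟨first h1 h2 c hc, fun T hT => ?_⟩
  have hd : dt (0, 1) (vec T) ≠ 0 := by
    unfold dt
    rw [addv_one']
    exact hT
  obtain ⟨B, hB⟩ := first h1 h2 c hc T (0, 1) hd
  refine ⟨B, fun M hM => ?_⟩
  have e1 := hB M hM
  have e2 := h1.2.2.2 c (vec T) M
  rw [addv_one'] at e1
  unfold Ph
  rw [e1, e2]
  ring

end Pool.Agent.TV
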