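import Pool.Agent.TV.AsmT
import Pool.Agent.TV.Sfin
import Pool.Agent.TV.Nzr
import Pool.Agent.TV.Intv
import Pool.Agent.TV.Limv
import Pool.Agent.TV.Lie
import Pool.Agent.TV.Rti
import Pool.Agent.TV.Str
import Pool.Agent.TV.Onem
import Pool.Agent.TV.Rtc
import Pool.Agent.TV.Kdt
import Pool.Agent.TV.Aid
import Pool.Agent.TV.Xxf
import Pool.Agent.TV.Gq
import Pool.Agent.TV.Vts
import Pool.Agent.TV.Rsv
import Pool.Agent.TV.Pf
import Pool.Agent.TV.Rsi
import Pool.Agent.TV.Cqe
import Pool.Agent.TV.Fib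
import Pool.Agent.TV.Muk
import Pool.Agent.TV.Bvc
import Pool.Agent.TV.Pln
import Pool.Agent.TV.Plc
import Pool.Agent.TV.Pla
import Pool.Agent.TV.Jonev
import Pool.Agent.TV.Jpr
import Pool.Agent.TV.Jonv
import Pool.Agent.TV.Ru
import Pool.Agent.TV.Omr
import Pool.Agent.TV.Wadg
import Pool.Agent.TV.Nwl
import Pool.Agent.TV.Crn
import Pool.Agent.TV.Strc
import Pool.Agent.TV.Lad
import Pool.Agent.TV.Lae
import Pool.Agent.TV.Vxa
import Pool.Agent.TV.Vxb
import Pool.Agent.UA.Final
import Pool.Agent.TS.Final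

/-!
Theorem V (MP_31fd3b_gt): rational finite type invariants separate every connected sum of 2-bridge
knots from every arborescent knot. Assembly.
-/

namespace Pool.Agent.TV

open Pool.Agent.LibH11.Sliced Pool.Agent.MTR Pool.Agent.MT Pool.Agent.MTA Pool.Agent.UA
open Pool.Agent.UB
open Pool.Agent.TB hiding vec

theorem sfin_all : SFIN_Stmt := t_SFIN

/-- INTV, unconditional (compare `UB.intu_all`). -/
theorem intv_all : INTV_Stmt := by
  have hbrk := brk
  have hemb := emb
  have hrel := rel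
  have hspec := spec brk
  have hfc := fc
  have hbrd := brd hbrk hfc
  have htop := top hbrk hspec hfc
  have hrpr := rpr hbrk
  have hcup := cup
  have hsld := sld hemb hrel hspec hfc hbrd htop hrpr hcup
  have htdg := tdg hemb hrel hspec hfc hbrd hrpr hcup hsld
  have hzt := zt_basic
  have hgrt := grt hbrk
  have hlft := lft hzt
  have heig := eig hbrk hzt
  have hwop := wop_thm hbrk hemb hrel hspec hfc htop
  have hdlb := dlb hbrk hspec hfc htop
  have hclc := clc hbrk hemb hrel hspec hfc htop hcup unv hdlb hwop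
  have hprt := prt hbrk hemb hspec hfc hrpr hcup hdlb hwop hclc
  have hotg := otg hbrk
  have htmc := tmc hbrk hfc unv hzt hgrt hlft heig (nn hzt) (mu hzt) the
  have htmp := tmp hbrk hfc unv hzt hgrt hlft heig (nn hzt) (mu hzt) the
  have htmf := tmf hbrk hzt
  have htms := tms hzt
  have htma := tma hfc hgrt htmc htmp htmf htms
  have hego := ego hzt
  have hins := insg_thm hego
  have hstb := stb hzt hego hins
  have hprs := MTA.prs hzt hego
  -- labels
  have hpar := t_PAR hbrk hemb hspec hfc hrpr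
  have hhtl := t_HTL hpar hbrk hemb hspec hfc hrpr
  have hrotl := t_ROTL hpar hemb hspec hfc hcup hdlb hwop hprt hclc
  have hlabl := t_LABL hpar hhtl hrotl hemb hspec hfc hcup hclc
  have hjls := t_JLS t_ACT t_PRD t_ORI hlabl TS.mul
  have htrf := t_TRF t_NATU hotg hclc (gps hbrk)
  -- model
  have hrotm := t_ROTM hbrk hzt hgrt hlft heig (nn hzt) (mu hzt) the
  have hfht := t_FHT hzt
  have hstu := t_STU hfht hstb
  have htmu := t_TMU hrotm hstu htmf hfc hgrt
  have hcvu := t_CVU htmu hstu htmc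
  exact t_INTV hjls htrf hcvu htma (ftm inv fti) htdg hz (gps hbrk) hgrt
    (t_NZR hstu hprs hego)

theorem lie_all : LIE_Stmt :=
  t_LIE intv_all (t_LIMV (limq (tail MTA.cls)) cscl sfin_all) lguv_all fout

/-- The algebraic part of Theorem V. -/
theorem alg_all : ALG_Stmt := by
  have jpv : JPV_Stmt := t_JPV
  have jdv : JDV_Stmt := t_JDV jpv
  have sgn : SGN_Stmt := t_SGN
  have ratj : RATJ_Stmt := t_RATJ jpv t_RATG jdv
  have kbm : KBM_Stmt := t_KBM jpv
  have jdiv : JDIV_Stmt := t_JDIV t_ACT t_PRD t_MULG kbm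
  have sfin := sfin_all
  have aid := t_AID sfin
  have xxf := t_XXF aid sfin
  have gq := t_GQ sfin
  have rsv := t_RSV gq t_VTS sfin
  have rsi := t_RSI xxf rsv t_PF t_VTS
  have bvc := t_BVC (t_CQE t_VTS) (t_MUK t_FIB)
  have pla := t_PLA (t_GSY sfin) (t_PLN sfin) t_PLC t_FIB
  have jonv := t_JONV (t_JONEV t_KBG t_JNAT) (t_JPR t_ACT t_PRD t_ORI t_MULG kbm) jdiv t_BVN jdv
  have ru := t_RU jpv t_RATG ratj jdv
  have omr := t_OMR ru jpv
  have omp := t_OMP omr ru jpv
  have nwl := t_NWL t_WADG omr ru jpv jdv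
  have crn := t_CRN sgn
  have strc := t_STRC crn sgn
  have lad := t_LAD jdv jpv
  have lae := t_LAE lad ru jpv
  have vxa := t_VXA omr omp ru jpv jdv
  have vxb := t_VXB omr omp ru lad lae
  intro Ts Ts' h h' hl hT hT' hv
  exact alg lie_all t_VTS rsi bvc pla jonv ru omr omp nwl crn strc lae vxa vxb jpv Ts Ts' h h' hl
    hT hT' hv

/-- **Theorem V.** Rational finite type invariants separate every connected sum of 2-bridge knots
from every arborescent knot. -/
theorem separate_all (t : Diag) (ht : Arb t) (h : IsLongKnot (cl t)) (ws : List Diag)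
    (h' : IsLongKnot ws.flatten) (hws : ∀ w ∈ ws, IsLongKnot w ∧ Pool.Agent.TwoBr.minima w ≤ 1)
    (hv : ∀ v : Knot → ℚ, IsFiniteType v →
      v (ofDiag (cl t) h) = v (ofDiag ws.flatten h')) :
    ofDiag (cl t) h = ofDiag ws.flatten h' := by
  have h1 := t_FSY
  have h2 := t_FEQ h1
  have h3 := t_FCG
  have h4 := t_FRO h1 h2 h3
  have h5 := t_FFL h1
  have h6 := t_FIT h3
  have h8 := t_FC0 h1 h2 h3 h4 h5
  have rti := t_RTI h1 h2 h3 h4 h5
  have str := t_STR h4 h3
  exact separate alg_all (fun ws ws' hw hw' h1 h2 hv => TS.separation_all hw hw' h1 h2 rfl rfl hv)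
    ftop_all fta_all h6 h3 (t_ONEM rti str h3) (t_RTC rti h8 h5 h3) (t_KDT rti str h3 h6)
    t ht h ws h' hws hv

end Pool.Agent.TV
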