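import Pool.Agent.TV.St
import Pool.Agent.SUR.FinalX

/-!
# Subgroups of Thompson's group V and the Whitehead group: the conditions
-/

set_option autoImplicit false

universe u

namespace Pool.Agent.TV

open Pool.Agent.SUR

/-- `P` holds for all subgroups of the Higman–Thompson groups, for example of Thompson's group `V`
(`A = Bool`) -/
def ForV (P : (G : Type) → [Group G] → Prop) : Prop :=
  ∀ (A : Type) [Finite A] [Nontrivial A] (G : Subgroup (Equiv.Perm (Stream' A))),
    (∀ f ∈ G, IsV f) → P G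

/-- for all `x`, `y` of infinite order and all large primes `p`: if a conjugate of `x` and `y` have the same
`p`-th power, then they are equal -/
def RUniq (G : Type u) [Group G] : Prop :=
  ∀ x y : G, ¬IsOfFinOrder x → ¬IsOfFinOrder y → ∃ N : ℕ, ∀ p : ℕ, p.Prime → N < p → ∀ h : G,
    (h * x * h⁻¹) ^ p = y ^ p → h * x * h⁻¹ = y

/-- the condition for the three properties -/
def LocT (G : Type u) [Group G] : Prop :=
  ∀ G₀ : Subgroup G, G₀.FG → PRoots G₀ ∧ (CentEulD G₀ ∨ (UniqExp G₀ ∧ CentEulDN G₀))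

namespace LOC

theorem proots {G : Type u} [Group G] (hU : RUniq G) (hF : FewRoots G) : PRoots G := by
  intro S hS N
  have hN : ∃ N0 : ℕ, ∀ x ∈ S, ∀ y ∈ S, ∀ p : ℕ, p.Prime → N0 < p → ∀ h : G,
      (h * x * h⁻¹) ^ p = y ^ p → h * x * h⁻¹ = y := by
    choose! f hf using hU
    refine ⟨S.sup fun x => S.sup fun y => f x y, fun x hx y hy p hp hlt h => ?_⟩
    refine hf x y (hS x hx) (hS y hy) p hp (lt_of_le_of_lt ?_ hlt) h
    exact (Finset.le_sup (f := fun y => f x y) hy).trans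
      (Finset.le_sup (f := fun x => S.sup fun y => f x y) hx)
  obtain ⟨N0, hN0⟩ := hN
  have hT : (⋃ x ∈ (S : Set G), ⋃ y ∈ (S : Set G), {p : ℕ | p.Prime ∧ IsConj (x ^ p) y}).Finite :=
    Set.Finite.biUnion S.finite_toSet fun x hx =>
      Set.Finite.biUnion S.finite_toSet fun y _ => hF x y (hS x hx)
  obtain ⟨b, hb⟩ := hT.bddAbove
  obtain ⟨p, hp, hpp⟩ := Nat.exists_infinite_primes (N + N0 + b + 1)
  have h1 : N < p := by omega
  have h2 : N0 < p := by omega
  have h3 : b < p := by omega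
  refine ⟨p, h1, hpp, ?_, ?_⟩
  · intro x hx h hh
    have h4 : (h * x * h⁻¹) ^ p = x ^ p := by
      rw [conj_pow, hh, mul_inv_cancel_right]
    have h5 := hN0 x hx x hx p hpp h2 h h4
    rw [mul_inv_eq_iff_eq_mul] at h5
    exact h5
  · intro x hx y hy
    refine ⟨fun hc => ?_, fun hc => ?_⟩
    · have h4 : p ∈ ⋃ x ∈ (S : Set G), ⋃ y ∈ (S : Set G), {p : ℕ | p.Prime ∧ IsConj (x ^ p) y} :=
        Set.mem_iUnion₂.2 ⟨x, hx, Set.mem_iUnion₂.2 ⟨y, hy, hpp, hc⟩⟩
      have := hb h4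
      omega
    · obtain ⟨k, hk⟩ := isConj_iff.1 hc
      refine isConj_iff.2 ⟨k, ?_⟩
      apply hN0 x hx y hy p hpp h2
      rw [conj_pow]
      exact hk

theorem centEulD_of {G : Type} [Group G]
    (h : ∀ g : G, ¬IsOfFinOrder g → ∃ φ : Subgroup.centralizer {g} →* Multiplicative ℤ,
      φ ⟨g, Subgroup.mem_centralizer_singleton_iff.2 rfl⟩ ≠ 1) : CentEulD G := by
  refine ⟨ℚ, inferInstance, {(1 / 2 : ℚ)}, 1, Set.finite_singleton _, one_pos,
    fun g hg => Or.inl ?_⟩
  obtain ⟨φ, hφ⟩ := h g hg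
  let ρ : Subgroup.centralizer {g} →* Matrix (Fin 1) (Fin 1) ℚ :=
    { toFun := fun z => Matrix.scalar (Fin 1) ((2 : ℚ) ^ (Multiplicative.toAdd (φ z)))
      map_one' := by
        rw [map_one]
        simp
      map_mul' := fun z w => by
        rw [map_mul, toAdd_mul, zpow_add₀ (by norm_num : (2 : ℚ) ≠ 0), map_mul] }
  have hval : ∀ z, ρ z = Matrix.scalar (Fin 1) ((2 : ℚ) ^ (Multiplicative.toAdd (φ z))) :=
    fun z => rfl
  have hmem : ∀ k : ℤ, (2 : ℚ) ^ k ∈ Subring.closure {(1 / 2 : ℚ)} := by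
    intro k
    rcases Int.eq_nat_or_neg k with ⟨n, rfl | rfl⟩
    · rw [zpow_natCast]
      exact Subring.pow_mem _ (by
        have : (2 : ℚ) = ((2 : ℤ) : ℚ) := by norm_num
        rw [this]
        exact intCast_mem _ 2) n
    · rw [zpow_neg, zpow_natCast, ← inv_pow]
      refine Subring.pow_mem _ ?_ n
      have : (2 : ℚ)⁻¹ = 1 / 2 := by norm_num
      rw [this]
      exact Subring.subset_closure (Set.mem_singleton _)
  refine ⟨ρ, 1, one_ne_zero, fun z i j => ?_, fun hfin => ?_⟩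
  · rw [one_mul, hval, Matrix.scalar_apply, Matrix.diagonal_apply]
    split_ifs
    · exact hmem _
    · exact Subring.zero_mem _
  · obtain ⟨n, hn, h1⟩ := isOfFinOrder_iff_pow_eq_one.1 hfin
    rw [hval, ← map_pow] at h1
    have h2 := congrFun (congrFun h1 0) 0
    rw [Matrix.scalar_apply, Matrix.diagonal_apply_eq, Matrix.one_apply_eq] at h2
    have h3 : (2 : ℚ) ^ (Multiplicative.toAdd
        (φ ⟨g, Subgroup.mem_centralizer_singleton_iff.2 rfl⟩)) = 1 := by
      have h4 : (0 : ℚ) ≤ (2 : ℚ) ^ (Multiplicative.toAdd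
        (φ ⟨g, Subgroup.mem_centralizer_singleton_iff.2 rfl⟩)) := by positivity
      exact (pow_eq_one_iff_of_nonneg h4 hn.ne').1 h2
    have h5 : Multiplicative.toAdd
        (φ ⟨g, Subgroup.mem_centralizer_singleton_iff.2 rfl⟩) = 0 := by
      have := (zpow_eq_one_iff_right₀ (by norm_num : (0 : ℚ) ≤ 2) (by norm_num)).1 h3
      exact this
    exact hφ (Multiplicative.toAdd.injective (by rw [h5]; rfl))

end LOC

/-- subgroups of Higman–Thompson groups -/
theorem locT_of (hPHI : s_PHI) (hRUN : s_RUN) : ForV LocT := by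
  intro A _ _ G hG G₀ _
  have hC : CentEulD G₀ := by
    refine LOC.centEulD_of fun g hg => ?_
    have hg' : ¬IsOfFinOrder (g : G) := fun h => hg (Submonoid.isOfFinOrder_coe.1 h)
    obtain ⟨φ, hφ⟩ := hPHI A G hG g hg'
    let c : Subgroup.centralizer {g} →* Subgroup.centralizer {(g : G)} :=
      (G₀.subtype.comp (Subgroup.centralizer {g}).subtype).codRestrict _ (fun z => by
        have hz := Subgroup.mem_centralizer_singleton_iff.1 z.2
        refine Subgroup.mem_centralizer_singleton_iff.2 ?_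
        exact congrArg (fun w : G₀ => (w : G)) hz)
    exact ⟨φ.comp c, hφ⟩
  have hR : RUniq G₀ := by
    intro x y _ _
    obtain ⟨N, hN⟩ := hRUN A ((x : G) : Equiv.Perm (Stream' A)) ((y : G) : Equiv.Perm (Stream' A))
      (hG _ x.1.2) (hG _ y.1.2)
    refine ⟨N, fun p hp hlt h hh => Subtype.ext (Subtype.ext ?_)⟩
    refine hN p hp hlt ((h : G) : Equiv.Perm (Stream' A)) (hG _ h.1.2) ?_
    exact congrArg (fun w : G₀ => ((w : G) : Equiv.Perm (Stream' A))) hh
  obtain ⟨M, hM, hW⟩ := (t_VWT' G₀).2.1 (centEulDN_of_centEulD G₀ hC)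
  exact ⟨LOC.proots hR (t_RFEW' G₀ M hM hW), Or.inl hC⟩

theorem locED_of_locT (G : Type u) [Group G] (h : LocT G) : LocED G := fun G₀ h₀ => (h G₀ h₀).2

theorem locT_of_locU (G : Type u) [Group G] (h : LocU G) : LocT G :=
  fun G₀ h₀ => ⟨proots_of G₀ (h G₀ h₀).1 (h G₀ h₀).2, Or.inr (h G₀ h₀)⟩

theorem trace_inf_of (G : Type u) [Group G] (hG : LocT G) (F : G → G → ℚ) (hF : IsWtA F) (g : G)
    (hs : ∀ a b, F a b ≠ 0 → IsConj (a * b) g) (hg : ¬IsOfFinOrder g)
    (n : ℕ) (X : (Matrix (Fin n) (Fin n) (MonoidAlgebra ℤ G))ˣ) : pairF F X = 0 := by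
  have h := trace_hom G F hF (fun g' h1 h2 G₀ _ _ => by
    have hord : orderOf g' ≠ 1 := fun h => h1 (orderOf_eq_one_iff.1 h)
    refine ⟨(orderOf g').minFac, 1, Nat.minFac_prime hord, Nat.minFac_dvd _, one_pos,
      fun z _ hz => ?_⟩
    have h3 : F (z⁻¹ * g') z = 0 := by
      by_contra h4
      have h5 := hs _ _ h4
      have e : z⁻¹ * g' * z = g' := by
        rw [mul_assoc, ← hz, inv_mul_cancel_left]
      rw [e] at h5
      obtain ⟨c, hc⟩ := isConj_iff.1 h5
      exact hg (hc ▸ (isOfFinOrder_iff_pow_eq_one.2 (by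
        obtain ⟨k, hk, hk1⟩ := isOfFinOrder_iff_pow_eq_one.1 h2
        exact ⟨k, hk, by rw [conj_pow, hk1, mul_one, mul_inv_cancel]⟩)))
    rw [h3, mul_zero]
    simpa using (Nat.minFac_prime hord).one_lt.ne')
    (fun g' h1 G₀ hg₀ h₀ => by
      obtain ⟨hP, hE⟩ := hG G₀ h₀
      have h3 : ¬IsOfFinOrder (⟨g', hg₀⟩ : G₀) := fun h => h1 (Submonoid.isOfFinOrder_coe.2 h)
      refine ⟨hP, Or.inr (eulAt_of G₀ ?_ _ h3)⟩
      rcases hE with hE | hE
      · exact centEulDN_of_centEulD G₀ hE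
      · exact hE.2) n X
  have h1 : atOne F = fun _ _ => 0 := by
    funext a b
    unfold atOne
    by_cases h1 : a * b = 1
    · rw [if_pos h1]
      by_contra h2
      have h3 := hs _ _ h2
      rw [h1, isConj_one_right] at h3
      exact hg (h3 ▸ IsOfFinOrder.one)
    · rw [if_neg h1]
  rw [h, h1]
  exact TraceMain.pairF_zero X

end Pool.Agent.TV
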