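import Pool.Agent.TV.St

/-!
# Elements of infinite order of the Higman–Thompson groups
-/

set_option autoImplicit false

namespace Pool.Agent.TV

open Stream'

namespace ORD

variable {A : Type}

/-- the bad situation: no power of `g` has an attracting word -/
def NoAtt (g : Equiv.Perm (Stream' A)) : Prop :=
  ∀ (q : ℕ) (τ z : List A), 0 < q → z ≠ [] → ¬Rep (g ^ q) τ (τ ++ z)

/-- (a) -/
lemma per [Finite A] [Nontrivial A] (hREB : s_REB) (hRCL : s_RCL) (hATL : s_ATL)
    (g : Equiv.Perm (Stream' A)) (hg : IsV g) (hno : NoAtt g) (u : List A) (hu : RC g u) :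
    ∃ m : ℕ, 0 < m ∧ Rep (g ^ m) u u := by
  obtain ⟨f, hf0, hf, -⟩ := (hRCL A g).2.2.2.1 u hu
  by_cases hinj : Function.Injective f
  · obtain ⟨k, q, τ, z, hq, hz, -, hrep⟩ := hATL A g hg f (by rw [hf0]; exact hf) hinj
    exact absurd hrep (hno q τ z hq hz)
  · have h10 := (hREB A g g).2.2.2.2.2.2.2.2.2.1
    have key : ∀ k l : ℕ, k < l → f k = f l → ∃ m : ℕ, 0 < m ∧ Rep (g ^ m) u u := by
      intro k l hkl hfl
      refine ⟨l - k, Nat.sub_pos_of_lt hkl, h10 k l u (f k) hkl.le (hf k) ?_⟩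
      rw [hfl]
      exact hf l
    unfold Function.Injective at hinj
    push Not at hinj
    obtain ⟨k, l, hfl, hkl⟩ := hinj
    rcases lt_or_gt_of_ne hkl with h | h
    · exact key k l h hfl
    · exact key l k h hfl.symm

/-- (b) -/
lemma fin [Finite A] [Nontrivial A] (hREB : s_REB) (hDOM : s_DOM) (hGRP : s_GRP)
    (hRCL : s_RCL) (hATL : s_ATL) (g : Equiv.Perm (Stream' A)) (hg : IsV g)
    (hno' : NoAtt g⁻¹) : {u : List A | ¬RC g u}.Finite := by
  have hg' : IsV g⁻¹ := (hGRP A).2.2 g hg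
  obtain ⟨L, hL⟩ := (hDOM A g hg).1
  -- the words with the given last word
  let S : List A → Set (List A) := fun e =>
    {u | ∃ j : ℕ, Rep (g ^ j) u e ∧ ∀ i ≤ j, ∃ v, Rep (g ^ i) u v}
  have hcov : {u : List A | ¬RC g u} ⊆
      ⋃ e ∈ {e : List A | e.length < L ∧ ¬∃ v, Rep g e v}, S e := by
    intro u hu
    obtain ⟨j, e, h1, h2, h3⟩ := (hRCL A g).2.2.2.2.2 u hu
    have he : e.length < L := by
      by_contra h
      exact h2 (hL e (not_lt.mp h))
    exact Set.mem_biUnion (show e ∈ {e : List A | e.length < L ∧ ¬∃ v, Rep g e v} from ⟨he, h2⟩)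
      ⟨j, h1, h3⟩
  refine Set.Finite.subset (Set.Finite.biUnion ?_ ?_) hcov
  · exact (List.finite_length_lt A L).subset fun e he => he.1
  · intro e he
    by_contra hinf
    -- the exponents are unbounded
    have hunb : ∀ i : ℕ, ∃ u, ∃ j : ℕ, i ≤ j ∧ Rep (g ^ j) u e ∧
        ∀ i' ≤ j, ∃ v, Rep (g ^ i') u v := by
      intro i
      by_contra hcon
      apply hinf
      refine Set.Finite.subset (Set.Finite.biUnion (Set.finite_lt_nat i)
        (t := fun j => {u : List A | Rep (g ^ j) u e}) ?_) ?_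
      · intro j _
        apply Set.Subsingleton.finite
        intro u hu u' hu'
        exact (hREB A (g ^ j) g).2.2.2.2.1 u u' e hu hu'
      · intro u hu
        obtain ⟨j, h1, h2⟩ := hu
        have hj : j < i := by
          by_contra h
          exact hcon ⟨u, j, not_lt.mp h, h1, h2⟩
        exact Set.mem_biUnion (show j ∈ {n : ℕ | n < i} from hj) h1
    have h9 := (hREB A g g).2.2.2.2.2.2.2.2.1
    have hinv : ∀ i : ℕ, (g⁻¹) ^ i = (g ^ i)⁻¹ := fun i => inv_pow g i
    have hRC : RC g⁻¹ e := by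
      intro i
      obtain ⟨u, j, hij, h1, h2⟩ := hunb i
      obtain ⟨v, hv⟩ := h2 (j - i) (Nat.sub_le _ _)
      have h3 : Rep (g ^ (j - i + i)) u e := by
        rw [Nat.sub_add_cancel hij]
        exact h1
      have h4 := h9 (j - i) i u v e hv h3
      refine ⟨v, ?_⟩
      rw [hinv]
      exact (hREB A (g ^ i) g).2.2.1 v e h4
    obtain ⟨m, hm, hrep⟩ := per hREB hRCL hATL g⁻¹ hg' hno' e hRC
    obtain ⟨v, hv⟩ := hRC (m - 1)
    have h5 : Rep (g⁻¹ ^ (m - 1 + 1)) e e := by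
      rw [Nat.sub_add_cancel hm]
      exact hrep
    have h6 := (hREB A g⁻¹ g).2.2.2.2.2.2.2.2.1 (m - 1) 1 e v e hv h5
    rw [pow_one] at h6
    have h7 := (hREB A g⁻¹ g).2.2.1 v e h6
    rw [inv_inv] at h7
    exact he.2 ⟨v, h7⟩

lemma rep_pow [Nontrivial A] (hREB : s_REB) (h : Equiv.Perm (Stream' A)) (u : List A)
    (hu : Rep h u u) (c : ℕ) : Rep (h ^ c) u u := by
  induction c with
  | zero =>
    rw [pow_zero]
    exact (hREB A h h).2.2.2.2.2.1 u
  | succ c ih =>
    rw [pow_succ]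
    exact (hREB A h (h ^ c)).2.1 u u u hu ih

end ORD

open ORD in
/-- `ORD`. -/
theorem t_ORD (hREB : s_REB) (hDOM : s_DOM) (hGRP : s_GRP) (hRCL : s_RCL) (hATL : s_ATL) :
    s_ORD := by
  classical
  intro A _ _ g hg hord
  by_contra hcon
  apply hord
  have hno : NoAtt g := by
    intro q τ z hq hz h
    exact hcon ⟨q, τ, z, hq, hz, Or.inl h⟩
  have hno' : NoAtt g⁻¹ := by
    intro q τ z hq hz h
    exact hcon ⟨q, τ, z, hq, hz, Or.inr h⟩
  have hfin := fin hREB hDOM hGRP hRCL hATL g hg hno'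
  obtain ⟨n, hn⟩ : ∃ n : ℕ, ∀ u ∈ {u : List A | ¬RC g u}, u.length < n := by
    obtain ⟨n, hn⟩ := (hfin.image List.length).bddAbove
    exact ⟨n + 1, fun u hu => Nat.lt_succ_of_le (hn ⟨u, hu, rfl⟩)⟩
  have hRC : ∀ u : List A, u.length = n → RC g u := by
    intro u hu
    by_contra h
    exact absurd (hn u h) (by omega)
  have hlen : {u : List A | u.length = n}.Finite := List.finite_length_eq A n
  have hm : ∀ u : List A, ∃ m : ℕ, 0 < m ∧ (u.length = n → Rep (g ^ m) u u) := by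
    intro u
    by_cases hu : u.length = n
    · obtain ⟨m, hm, h⟩ := per hREB hRCL hATL g hg hno u (hRC u hu)
      exact ⟨m, hm, fun _ => h⟩
    · exact ⟨1, one_pos, fun h => absurd h hu⟩
  choose m hm0 hm1 using hm
  set M : ℕ := ∏ u ∈ hlen.toFinset, m u with hM
  have hM0 : 0 < M := Finset.prod_pos fun u _ => hm0 u
  have hMrep : ∀ u : List A, u.length = n → Rep (g ^ M) u u := by
    intro u hu
    have hdvd : m u ∣ M := Finset.dvd_prod_of_mem m (hlen.mem_toFinset.mpr hu)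
    obtain ⟨c, hc⟩ := hdvd
    rw [hc, pow_mul]
    exact rep_pow hREB _ u (hm1 u hu) c
  refine isOfFinOrder_iff_pow_eq_one.mpr ⟨M, hM0, ?_⟩
  apply Equiv.ext
  intro x
  have h1 := hMrep (x.take n) (Stream'.length_take n x) (x.drop n)
  rw [Stream'.append_take_drop] at h1
  exact h1

end Pool.Agent.TV
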