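import Pool.Agent.TV.St

/-!
# TV, module RCL: words at which all positive powers are defined
-/

set_option autoImplicit false

namespace Pool.Agent.TV

open Stream'

theorem t_RCL (hREB : s_REB) : s_RCL := by
  intro A _ g
  have r1 : ∀ (g' : Equiv.Perm (Stream' A)) (u v w : List A), Rep g' u v →
      Rep g' (u ++ w) (v ++ w) := fun g' => (hREB A g' g').1
  have r2 : ∀ (g' h : Equiv.Perm (Stream' A)) (u v w : List A), Rep g' u v → Rep h v w →
      Rep (h * g') u w := fun g' h => (hREB A g' h).2.1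
  have r4 : ∀ (g' : Equiv.Perm (Stream' A)) (u v v' : List A), Rep g' u v → Rep g' u v' →
      v = v' := fun g' => (hREB A g' g').2.2.2.1
  have r6 : ∀ u : List A, Rep (1 : Equiv.Perm (Stream' A)) u u := (hREB A g g).2.2.2.2.2.1
  have r9 : ∀ (j k : ℕ) (u v w : List A), Rep (g ^ j) u v → Rep (g ^ (j + k)) u w →
      Rep (g ^ k) v w := (hREB A g g).2.2.2.2.2.2.2.2.1
  refine ⟨?_, ?_, ?_, ?_, ?_, ?_⟩
  · intro u w h k
    obtain ⟨v, hv⟩ := h k
    exact ⟨v ++ w, r1 _ u v w hv⟩
  · intro u v h huv k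
    obtain ⟨w, hw⟩ := h (1 + k)
    refine ⟨w, r9 1 k u v w ?_ hw⟩
    rw [pow_one]
    exact huv
  · intro u v huv h k
    cases k with
    | zero =>
      refine ⟨u, ?_⟩
      rw [pow_zero]
      exact r6 u
    | succ k =>
      obtain ⟨w, hw⟩ := h k
      refine ⟨w, ?_⟩
      rw [pow_succ]
      exact r2 g (g ^ k) u v w huv hw
  · intro u h
    choose f hf using h
    refine ⟨f, ?_, hf, fun k l => r9 k l u (f k) (f (k + l)) (hf k) (hf (k + l))⟩
    have h0 := hf 0
    rw [pow_zero] at h0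
    exact r4 1 u _ _ h0 (r6 u)
  · intro f hf k
    refine ⟨f k, ?_⟩
    induction k with
    | zero =>
      rw [pow_zero]
      exact r6 _
    | succ k ih =>
      rw [pow_succ']
      exact r2 (g ^ k) g _ _ _ ih (hf k)
  · intro u h
    classical
    have hex : ∃ k, ¬∃ v, Rep (g ^ k) u v := by
      by_contra hc
      exact h fun k => by
        by_contra hk
        exact hc ⟨k, hk⟩
    have hs := Nat.find_spec hex
    obtain ⟨j, hj⟩ : ∃ j, Nat.find hex = j + 1 := by
      cases hk : Nat.find hex with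
      | zero =>
        exfalso
        rw [hk, pow_zero] at hs
        exact hs ⟨u, r6 u⟩
      | succ j => exact ⟨j, rfl⟩
    have hmin : ∀ i ≤ j, ∃ v, Rep (g ^ i) u v := fun i hi => by
      by_contra hc
      exact Nat.find_min hex (by omega) hc
    obtain ⟨e, he⟩ := hmin j le_rfl
    refine ⟨j, e, he, ?_, hmin⟩
    rintro ⟨v, hv⟩
    rw [hj, pow_succ'] at hs
    exact hs ⟨v, r2 (g ^ j) g u e v he hv⟩

end Pool.Agent.TV
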