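import Mathlib

/-!
# Subgroups of the Higman–Thompson groups: definitions and statements

`X = Stream' A` is the set of the infinite words over a finite alphabet `A` with at least two letters. A
permutation `g` of `X` is an element of the Higman–Thompson group of `A` (`IsV`; Thompson's group `V` for two
letters, it contains Thompson's groups `F` and `T`) if it is given by finitely many replacements `u y ↦ v y` of
initial words.

Theorem. Let `G` be a group of such permutations. (1) For `g ∈ G` of infinite order there is a homomorphism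
from the centraliser of `g` to `ℤ` which is not `0` at `g` (PHI). (2) For `x, y ∈ G` and all primes
`p > N(x, y)` and all `h ∈ G`: if `(h x h⁻¹) ^ p = y ^ p`, then `h x h⁻¹ = y` (RUN).

All modules: `theorem Pool.Agent.TV.t_XXX : s_XXX` in `Pool/Agent/TV/XXX.lean` (hypotheses as arguments),
auxiliary lemmas in namespace `Pool.Agent.TV.XXX`. Words are lists; `u` is a prefix of `v`: `u <+: v`.
Convention: `Rep g u v` says that `g` is defined at the word `u` and maps it to `v`.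
-/

set_option autoImplicit false

namespace Pool.Agent.TV

open Stream'

variable {A : Type}

/-- `g` replaces the initial word `u` by `v` -/
def Rep (g : Equiv.Perm (Stream' A)) (u v : List A) : Prop :=
  ∀ y : Stream' A, g (u ++ₛ y) = v ++ₛ y

/-- `g` is given by finitely many replacements of initial words -/
def IsV (g : Equiv.Perm (Stream' A)) : Prop :=
  ∃ T : Set (List A × List A), T.Finite ∧
    ∀ x : Stream' A, ∃ p ∈ T, (∃ y, x = p.1 ++ₛ y) ∧ Rep g p.1 p.2

/-- all positive powers of `g` are defined at the word `u` -/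
def RC (g : Equiv.Perm (Stream' A)) (u : List A) : Prop := ∀ k : ℕ, ∃ v, Rep (g ^ k) u v

open Classical in
/-- the exponent of the germ of `g` at `x` -/
noncomputable def ex (g : Equiv.Perm (Stream' A)) (x : Stream' A) : ℤ :=
  if h : ∃ p : List A × List A, (∃ y, x = p.1 ++ₛ y) ∧ Rep g p.1 p.2 then
    (h.choose.2.length : ℤ) - h.choose.1.length else 0

/-- attracting periodic points -/
def AttP (g : Equiv.Perm (Stream' A)) (x : Stream' A) : Prop :=
  ∃ q : ℕ, 0 < q ∧ (g ^ q) x = x ∧ 0 < ex (g ^ q) x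

/-- some positive power of `g` is the identity near `x` -/
def PerP (g : Equiv.Perm (Stream' A)) (x : Stream' A) : Prop :=
  ∃ m : ℕ, 0 < m ∧ ∃ n : ℕ, Rep (g ^ m) (x.take n) (x.take n)

/-- REB (90 lines), no hypotheses. Basic facts on words.
(1) `append_append_stream`. (2), (3), (6) clear. (4) Let `|v| ≤ |v'|`. `v ++ₛ y = v' ++ₛ y` for all `y` gives
`v' = v ++ w` (`take |v|`) and `w ++ₛ y = y` for all `y`; if `w ≠ []`, then all `y` have the same first letter.
(5) from (3), (4). (7) By (3), (1) `g⁻¹` maps `v ++ w` to `u ++ w` and to `u'`. (8) from (1), (4).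
(9) `g ^ k (v y) = g ^ k (g ^ j (u y)) = g ^ (j + k) (u y)`. (10) `g ^ k (g ^ (l - k) (u y)) = g ^ l (u y) = w y =
g ^ k (u y)`. (11) `(h * g) (u y) = h (v y)`, so `h (v y) = w y`. -/
def s_REB : Prop := ∀ (A : Type) [Nontrivial A] (g h : Equiv.Perm (Stream' A)),
  (∀ u v w, Rep g u v → Rep g (u ++ w) (v ++ w)) ∧
  (∀ u v w, Rep g u v → Rep h v w → Rep (h * g) u w) ∧
  (∀ u v, Rep g u v → Rep g⁻¹ v u) ∧
  (∀ u v v', Rep g u v → Rep g u v' → v = v') ∧
  (∀ u u' v, Rep g u v → Rep g u' v → u = u') ∧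
  (∀ u, Rep (1 : Equiv.Perm (Stream' A)) u u) ∧
  (∀ u v w u', Rep g u v → Rep g u' (v ++ w) → u' = u ++ w) ∧
  (∀ u v w v', Rep g u v → Rep g (u ++ w) v' → v' = v ++ w) ∧
  (∀ (j k : ℕ) u v w, Rep (g ^ j) u v → Rep (g ^ (j + k)) u w → Rep (g ^ k) v w) ∧
  (∀ (k l : ℕ) u w, k ≤ l → Rep (g ^ k) u w → Rep (g ^ l) u w → Rep (g ^ (l - k)) u u) ∧
  (∀ u v w, Rep g u v → Rep (h * g) u w → Rep h v w)

/-- GRP (80 lines), no hypotheses. `1`: the table `{([], [])}`. Inverse: exchange the two words (for `x` use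
the table at `g⁻¹ x`). Product `g * h`: for `x` let `(u, v)` be in the table of `h`, `x = u y`, and `(u', v')`
in the table of `g`, `h x = v y = u' y'`. If `v = u' ++ w`, then `g * h` maps `u` to `v' ++ w`; if `u' = v ++ w`,
then `g * h` maps `u ++ w` to `v'`. In both cases the pair is
`(u ++ u'.drop |v|, v' ++ v.drop |u'|)`, the table is the image of the product of the two tables. -/
def s_GRP : Prop := ∀ (A : Type), IsV (1 : Equiv.Perm (Stream' A)) ∧
  (∀ g h : Equiv.Perm (Stream' A), IsV g → IsV h → IsV (g * h)) ∧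
  (∀ g : Equiv.Perm (Stream' A), IsV g → IsV g⁻¹)

/-- DOM (50 lines), no hypotheses. `L` is the maximum of the `|p.1|`, `p` in the table. Let `|u| ≥ L`,
`x = u ++ₛ y` for any `y`, `x = p.1 ++ₛ y'`; then `p.1 <+: u`, `u = p.1 ++ w`, `g` maps `u` to `p.2 ++ w`.
The second statement is the case of the words `x.take n`; the length of the image of `x.take n` grows with `n`,
third statement: continuity. -/
def s_DOM : Prop := ∀ (A : Type) [Nontrivial A] (g : Equiv.Perm (Stream' A)), IsV g →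
  (∃ L : ℕ, ∀ u : List A, L ≤ u.length → ∃ v, Rep g u v) ∧
  (∀ x : Stream' A, ∃ n, ∀ m, n ≤ m → ∃ v, Rep g (x.take m) v) ∧
  (∀ (x : Stream' A) (n : ℕ), ∃ m, ∀ v : Stream' A, v.take m = x.take m →
    (g v).take n = (g x).take n)

/-- EXP (130 lines), hypotheses `s_REB`, `s_DOM`, `s_GRP`. The exponent.
(1) If also `x = u' ++ₛ y'`, `Rep g u' v'`, say `u' = u ++ w`, then `v' = v ++ w`, REB (8). (2) For large `n`
`Rep h (x.take n) v`, `h x = v ++ₛ y`, and, as the length of `v` grows with `n`, `Rep g v w` for some `w` (REB (1)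
and DOM (1)); REB (2). (3) clear. (4) induction, (2). (5) `Rep g (x.take n) v`, `Rep g' (x.take n) v'`; `x = g x`
begins with `v` and with `v'`, which have the same length `n + ex g x`. (6) from (2), (3). -/
def s_EXP : Prop := ∀ (A : Type) [Nontrivial A],
  (∀ (g : Equiv.Perm (Stream' A)) (u v : List A) (y : Stream' A), Rep g u v →
    ex g (u ++ₛ y) = (v.length : ℤ) - u.length) ∧
  (∀ (g h : Equiv.Perm (Stream' A)) (x : Stream' A), IsV g → IsV h →
    ex (g * h) x = ex g (h x) + ex h x) ∧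
  (∀ x : Stream' A, ex (1 : Equiv.Perm (Stream' A)) x = 0) ∧
  (∀ (g : Equiv.Perm (Stream' A)) (x : Stream' A) (k : ℕ), IsV g → g x = x →
    ex (g ^ k) x = k * ex g x) ∧
  (∀ (g g' : Equiv.Perm (Stream' A)) (x : Stream' A), IsV g → IsV g' → g x = x → g' x = x →
    ex g x = ex g' x → ∃ n m, Rep g (x.take n) (x.take m) ∧ Rep g' (x.take n) (x.take m)) ∧
  (∀ (g : Equiv.Perm (Stream' A)) (x : Stream' A), IsV g → ex g⁻¹ (g x) = -ex g x)

/-- RCL (60 lines), hypothesis `s_REB`. (1) REB (1). (2) `g ^ (k + 1)` is defined at `u`; REB (9) with `j = 1`.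
(3) `g ^ (k + 1) = g ^ k * g`. (4) choice; REB (9), (4). (5) induction: `Rep (g ^ k) (f 0) (f k)`. (6) Let `k` be the
least number such that `g ^ k` is not defined at `u` (`Nat.find`); `k = j + 1`, as `g ^ 0` is defined. -/
def s_RCL : Prop := ∀ (A : Type) [Nontrivial A] (g : Equiv.Perm (Stream' A)),
  (∀ u w, RC g u → RC g (u ++ w)) ∧
  (∀ u v, RC g u → Rep g u v → RC g v) ∧
  (∀ u v, Rep g u v → RC g v → RC g u) ∧
  (∀ u, RC g u → ∃ f : ℕ → List A, f 0 = u ∧ (∀ k, Rep (g ^ k) u (f k)) ∧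
    ∀ k l, Rep (g ^ l) (f k) (f (k + l))) ∧
  (∀ f : ℕ → List A, (∀ k, Rep g (f k) (f (k + 1))) → RC g (f 0)) ∧
  (∀ u, ¬RC g u → ∃ (j : ℕ) (e : List A), Rep (g ^ j) u e ∧ (¬∃ v, Rep g e v) ∧
    ∀ i ≤ j, ∃ v, Rep (g ^ i) u v)

/-- ATL (200 lines), hypotheses `s_REB`, `s_DOM`, `s_RCL`. The attractor lemma. `f` is the orbit of the word
`f 0` (`Rep g (f k) (f (k + 1))` by REB (9)).
Let `m k` be the least `n` with `RC g ((f k).take n)` (it exists, `n = |f k|`), `t k = (f k).take (m k)`,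
`σ k = |f k| - m k`. Let `t' k` be the image of `t k` under `g`; `f (k + 1) = t' k ++ (f k).drop (m k)` (REB (8)),
`t' k = (f (k + 1)).take |t' k|` is RC, so `m (k + 1) ≤ |t' k|`, that is `σ k ≤ σ (k + 1)`. `L` from DOM (1).
(a) If `σ k < σ (k + 1)`, then `m k ≤ L`: otherwise `r = (f k).take (m k - 1)` has length `≥ L` and an image `v`,
and `t' k = v ++ [a]`, `m (k + 1) < |t' k|`, so `t (k + 1)` is a prefix of `v`, `v` is RC and so `r` is RC (RCL (3)),
against the minimality of `m k`. (b) `σ k < σ (k + 1)` for infinitely many `k`: otherwise `σ (k + 1) = σ k` for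
`k ≥ k₀`, so `t (k + 1) = t' k`; as `f` is injective and `A` is finite, `|f k| → ∞` (`List.finite_length_le`), so
`m k > L` for all `k ≥ k₁ ≥ k₀`; let `r k = (f k).take (m k - 1)`, it has an image, which is `r (k + 1)` because
`t k = r k ++ [a]`, `t (k + 1) = t' k`; so `r k₁` is RC (RCL (5)), a contradiction. (c) By (a), (b) and the
pigeonhole principle there are `k < l` with `t k = t l = τ` and `σ k < σ (k + 1) ≤ σ l`. `q = l - k`; let `τ'` be
the image of `τ` under `g ^ q` (`τ` is RC). `f l = τ' ++ (f k).drop |τ|` (`Rep (g ^ q) (f k) (f l)`), and `τ` is a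
prefix of `f l`, `|τ'| = |τ| + σ l - σ k > |τ|`. So `τ' = τ ++ z`, `z ≠ []`. -/
def s_ATL : Prop := ∀ (A : Type) [Finite A] [Nontrivial A] (g : Equiv.Perm (Stream' A)), IsV g →
  ∀ f : ℕ → List A, (∀ k, Rep (g ^ k) (f 0) (f k)) → Function.Injective f →
    ∃ (k q : ℕ) (τ z : List A), 0 < q ∧ z ≠ [] ∧ τ <+: f k ∧ Rep (g ^ q) τ (τ ++ z)

/-- ORD (150 lines), hypotheses `s_REB`, `s_DOM`, `s_GRP`, `s_RCL`, `s_ATL`. Suppose that neither `g` nor `g⁻¹` has
such `q, τ, z`. (a) If `RC g u`, then `Rep (g ^ m) u u` for some `m > 0`, and the same for `g⁻¹`: by ATL the orbit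
`f` of `u` is not injective, `f k = f l`, `k < l`, REB (10). (b) The set of the words `u` with `¬RC g u` is finite:
otherwise take `j u`, `e u` from RCL (6), `|e u| < L`, `L` from DOM (1), so there are infinitely many such `u` with
the same `e`; the numbers `j u` of these `u` are different (REB (5)). So `RC g⁻¹ e`: for `i` take `u` with
`i ≤ j u`, `g ^ (j u - i)` maps `u` to some `v`, `g ^ i` maps `v` to `e` (REB (9)), `(g⁻¹) ^ i = (g ^ i)⁻¹` maps `e`
to `v`. By (a) `(g⁻¹) ^ m` maps `e` to `e`, `m > 0`, and `(g⁻¹) ^ (m - 1)` maps `e` to some `v`; so `g` maps `e` to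
`v`, a contradiction. (c) By (b) there is `n` such that all words of length `n` are RC. By (a) there is `M > 0`
(the product of the `m`) such that `g ^ M` maps each word `u` of length `n` to `u`; so `g ^ M = 1`
(`x = x.take n ++ₛ x.drop n`). -/
def s_ORD : Prop := ∀ (A : Type) [Finite A] [Nontrivial A] (g : Equiv.Perm (Stream' A)), IsV g →
  ¬IsOfFinOrder g → ∃ (q : ℕ) (τ z : List A), 0 < q ∧ z ≠ [] ∧
    (Rep (g ^ q) τ (τ ++ z) ∨ Rep (g⁻¹ ^ q) τ (τ ++ z))

/-- AFX (80 lines), hypotheses `s_REB`, `s_EXP`. Attracting fixed points. `a = τ ++ₛ cycle z` (`Stream'.cycle_eq`).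
By induction `Rep (g ^ k) τ (τ ++ z ^ k)`, `z ^ k = (List.replicate k z).flatten`, and `a = (τ ++ z ^ k) ++ₛ cycle z`,
so `(g ^ k) (τ ++ₛ y)` and `a` begin with the same `|τ| + k |z|` letters. The exponent is `|z|`, EXP (1). -/
def s_AFX : Prop := ∀ (A : Type) [Nontrivial A] (g : Equiv.Perm (Stream' A)) (τ z : List A),
  z ≠ [] → Rep g τ (τ ++ z) → ∃ a : Stream' A, (∃ y, a = τ ++ₛ y) ∧ g a = a ∧ 0 < ex g a ∧
    ∀ n, ∃ K, ∀ k, K ≤ k → ∀ y : Stream' A, ((g ^ k) (τ ++ₛ y)).take n = a.take n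

/-- AIN (80 lines), hypotheses `s_GRP`, `s_EXP`. Invariance of the attracting periodic points. (2)
`(h g h⁻¹) ^ q = h g ^ q h⁻¹` and `ex (h * g ^ q * h⁻¹) (h x) = ex h x + ex (g ^ q) x - ex h x` if `g ^ q x = x`
(EXP (2), (6)). (1) is the case `h g h⁻¹ = g`. (3) `g ^ (n q)`, EXP (4). -/
def s_AIN : Prop := ∀ (A : Type) [Nontrivial A] (g : Equiv.Perm (Stream' A)), IsV g →
  (∀ (h : Equiv.Perm (Stream' A)) (x : Stream' A), IsV h → h * g = g * h → AttP g x →
    AttP g (h x)) ∧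
  (∀ (h : Equiv.Perm (Stream' A)) (x : Stream' A), IsV h →
    (AttP (h * g * h⁻¹) (h x) ↔ AttP g x)) ∧
  (∀ (n : ℕ) (x : Stream' A), 0 < n → (AttP (g ^ n) x ↔ AttP g x))

/-- AFI (180 lines), hypotheses `s_REB`, `s_DOM`, `s_GRP`, `s_EXP`, `s_RCL`, `s_AIN`. There are only finitely many
attracting periodic points. `L` from DOM (1) for `g⁻¹`. (a) Let `AttP g x`, `q > 0`, `g ^ q x = x`,
`c = ex (g ^ q) x > 0`. For large `n` all `g ^ i`, `i ≤ q`, are defined at `u = x.take n` and `g ^ q` maps `u` to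
`x.take (n + c)`. Then `g ^ (q a)` maps `u` to `x.take (n + a c)` and `RC g u` (write `k = q a + i`).
`¬RC g⁻¹ u`: if `(g⁻¹) ^ (q a)` maps `u` to `v`, then it maps `x.take (n + a c) = u ++ w` to `v ++ w`, and this is
`u` (REB (3), (4)), so `a c ≤ n`; take `a = n + 1`. RCL (6) for `g⁻¹`: `j`, `e` with `Rep (g⁻¹ ^ j) u e`, `|e| < L`,
and all `g ^ i`, `i ≤ j`, are defined at `e`; so `RC g e`. Let `x' = (g⁻¹ ^ j) x`; `x'` begins with `e`, `AttP g x'`
(AIN (1)), `x = (g ^ j) x'`. (b) For each `e` with `RC g e` there is at most one `x'` with `AttP g x'` which begins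
with `e`: let `x''` be another one, `Q > 0` a common multiple of the numbers `q`, `g ^ (Q k)` maps `e` to a word
`e k` of length `|e| + k * ex (g ^ Q) x'`, `x' = g ^ (Q k) x'` and `x''` begin with `e k`. (c) So the set is the
union over the finitely many `e` with `|e| < L` of finite sets `{(g ^ j) x' | j}` (`j < q`). -/
def s_AFI : Prop := ∀ (A : Type) [Finite A] [Nontrivial A] (g : Equiv.Perm (Stream' A)), IsV g →
  {x | AttP g x}.Finite

/-- PHI (120 lines), hypotheses `s_GRP`, `s_EXP`, `s_ORD`, `s_AFX`, `s_AIN`, `s_AFI`. As an element of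
`Perm (Stream' A)` `g` has infinite order. By ORD, AFX (for `g ^ q` or `g⁻¹ ^ q`) `h = g` or `h = g⁻¹` has an
attracting periodic point. `Φ` is the finite set of the attracting periodic points of `h` (AFI); the centraliser
of `g` maps it into itself (AIN (1)). `φ z = ∑ x ∈ Φ, ex z x` (in `Multiplicative ℤ`): a homomorphism by EXP (2) and the
bijection `z` of `Φ`. `φ h > 0`: let `Q > 0` be a common multiple of the `q x`, `x ∈ Φ`; `Q * φ h = φ (h ^ Q)` is the
sum of the `ex (h ^ Q) x > 0` (EXP (4)). -/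
def s_PHI : Prop := ∀ (A : Type) [Finite A] [Nontrivial A]
  (G : Subgroup (Equiv.Perm (Stream' A))), (∀ f ∈ G, IsV f) → ∀ g : G, ¬IsOfFinOrder g →
    ∃ φ : Subgroup.centralizer {g} →* Multiplicative ℤ,
      φ ⟨g, Subgroup.mem_centralizer_singleton_iff.2 rfl⟩ ≠ 1

/-- ZUN (150 lines), hypotheses `s_REB`, `s_DOM`, `s_GRP`, `s_RCL`. A uniform period. Call `u` periodic if `RC g u` and
`Rep (g ^ m) u u` for some `m > 0`. (a) If `PerP g x`, then `x.take n` is periodic for some `n`: the `g ^ i`,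
`i ≤ m`, are defined at `x.take n` for large `n` (DOM (2)), and so all `g ^ k` (`k = m a + i`). Let `n` be minimal,
`u = x.take n`, `f` the orbit of `u` (RCL (4)), `f (k + m) = f k`. (b) `|f i| ≤ L` for some `i < m`, `L` from
DOM (1): otherwise the words `r i = (f i).dropLast` have length `≥ L`, so an image, and it is `r (i + 1)`; so
`r 0 = x.take (n - 1)` is periodic (RCL (5)), against the minimality of `n` (`n > 0` since `n = |f 0| > L`).
`(g ^ i) x` begins with `f i`, which is periodic. (c) `M` = the product of numbers `m w > 0` with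
`Rep (g ^ m w) w w` over the periodic `w` with `|w| ≤ L`. Then `(g ^ M) ((g ^ i) x) = (g ^ i) x`, so `(g ^ M) x = x`. -/
def s_ZUN : Prop := ∀ (A : Type) [Finite A] [Nontrivial A] (g : Equiv.Perm (Stream' A)), IsV g →
  ∃ m : ℕ, 0 < m ∧ ∀ x, PerP g x → (g ^ m) x = x

/-- ZIN (70 lines), hypotheses `s_REB`, `s_DOM`, `s_GRP`. (1) `h` maps a long `x.take n` to some `v`, `h x` begins with
`v`, `h g ^ m h⁻¹` maps `v` to `v`. Conversely the same for `h⁻¹`. (2) `g ^ (n m)`. -/
def s_ZIN : Prop := ∀ (A : Type) [Nontrivial A] (g : Equiv.Perm (Stream' A)), IsV g →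
  (∀ (h : Equiv.Perm (Stream' A)) (x : Stream' A), IsV h →
    (PerP (h * g * h⁻¹) (h x) ↔ PerP g x)) ∧
  (∀ (n : ℕ) (x : Stream' A), 0 < n → (PerP (g ^ n) x ↔ PerP g x))

/-- LCP (180 lines), hypotheses `s_REB`, `s_DOM`, `s_GRP`, `s_EXP`, `s_RCL`, `s_AFX`, `s_AIN`. Let no `w.take n` be
`RC g⁻¹`; we show `AttP g w`. RCL (6) for `g⁻¹` and `w.take n`: `j n`, `e n` with `Rep (g⁻¹ ^ j n) (w.take n) (e n)`,
`|e n| < L`, `L` from DOM (1) for `g⁻¹`. There are an infinite set `I` and `e` with `e n = e` for `n ∈ I`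
(pigeonhole); `j` is injective on `I` (REB (5)), so unbounded on infinite subsets. `RC g e`: for `k` take `n ∈ I` with
`k ≤ j n`; `g⁻¹ ^ (j n - k)` maps `w.take n` to some `v`, so `g ^ k` maps `e` to `v` (REB (9), (3)). Let `n < n'` in
`I` with `j n < j n'`, `q = j n' - j n`, `τ = w.take n`, `w.take n' = τ ++ z`; `Rep (g ^ q) τ (τ ++ z)` by REB (9).
Take `a` from AFX for `g ^ q`; `AttP g a`. For `n'' ∈ I` with `j n'' ≥ j n` write `j n'' - j n = q κ + s`, `s < q`; for
all `y`: `(g ^ s) (((g ^ q) ^ κ) (τ ++ₛ y)) = w.take n'' ++ₛ y`. Infinitely many `n''` have the same `s`, and `κ` is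
unbounded on them. Then `w = (g ^ s) a`: for `N` take `N'` from DOM (3) for `g ^ s` at `a`, `K` from AFX for `N'`, and
`n'' ≥ N` with this `s` and `κ ≥ K`; so `((g ^ s) a).take N = (w.take n'' ++ₛ y).take N = w.take N`. AIN (1). -/
def s_LCP : Prop := ∀ (A : Type) [Finite A] [Nontrivial A] (g : Equiv.Perm (Stream' A)), IsV g →
  ∀ w : Stream' A, ¬AttP g w → ∃ n, RC g⁻¹ (w.take n)

/-- BAS (80 lines), hypotheses `s_REB`, `s_GRP`, `s_RCL`, `s_ATL`, `s_AFX`, `s_LCP`. `t = w.take n` from LCP, `f` the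
orbit of `t` under `g⁻¹` (RCL (4)). If `f` is not injective, then `Rep (g⁻¹ ^ m) t t` for some `m > 0` (REB (10)),
so `Rep (g ^ m) t t` and `PerP g w`. So `f` is injective, ATL for `g⁻¹`: `k, q, τ, z`. `(g⁻¹ ^ k) w` begins with
`f k`, so with `τ`. `ρ` = the point of AFX for `g⁻¹ ^ q`; `AttP g⁻¹ ρ`; `(g⁻¹ ^ q) ^ K` maps `(g⁻¹ ^ k) w` near to `ρ`. -/
def s_BAS : Prop := ∀ (A : Type) [Finite A] [Nontrivial A] (g : Equiv.Perm (Stream' A)), IsV g →
  ∀ w : Stream' A, ¬PerP g w → ¬AttP g w → ∃ ρ : Stream' A, AttP g⁻¹ ρ ∧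
    ∀ n, ∃ k : ℕ, ((g⁻¹ ^ k) w).take n = ρ.take n

/-- GER (130 lines), hypotheses `s_REB`, `s_GRP`, `s_EXP`. Let `r` be the number of points of `Φ`, `Q = r !`. `x` and
`y` permute `Φ`, so `x ^ Q` and `y ^ Q` fix its points (`pow_card_eq_one'` in `Perm Φ`). Let `ξ ∈ Φ`.
`p * ex (x ^ Q) ξ = ex (x ^ (Q p)) ξ = ex (y ^ (Q p)) ξ = p * ex (y ^ Q) ξ` (EXP (4), `x ^ (Q p) = (x ^ p) ^ Q`), so
`ex (x ^ Q) ξ = ex (y ^ Q) ξ`. `p` does not divide `Q` (`Nat.Prime.dvd_factorial`), so `a p = 1 + b Q` for some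
`a, b ∈ ℕ`. EXP (4), (5) for `x ^ (Q b)` and `y ^ (Q b)`: both map `ξ.take n` to the same word `ξ.take m`. For each `z`:
`x (ξ.take m ++ₛ z) = x (x ^ (Q b) (ξ.take n ++ₛ z)) = (x ^ p) ^ a (ξ.take n ++ₛ z)`, the same for `y`, and
`x ^ p = y ^ p`. -/
def s_GER : Prop := ∀ (A : Type) [Nontrivial A] (x y : Equiv.Perm (Stream' A)), IsV x → IsV y →
  ∀ (p : ℕ) (Φ : Finset (Stream' A)), p.Prime → Φ.card < p → (∀ ξ ∈ Φ, x ξ ∈ Φ ∧ y ξ ∈ Φ) →
    x ^ p = y ^ p → ∀ ξ ∈ Φ, ∃ m, ∀ w : Stream' A, w.take m = ξ.take m → x w = y w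

/-- RUN (150 lines), hypotheses `s_GRP`, `s_AIN`, `s_AFI`, `s_ZUN`, `s_ZIN`, `s_BAS`, `s_GER`. Let `m`, `m'` be the
numbers of ZUN for `x`, `y`; `N` is larger than `m`, `m'` and the numbers of points of the finite sets of `z` with
`AttP y z`, `AttP y⁻¹ z`. Let `x' = h x h⁻¹`, `v = x' ^ p = y ^ p`; `x'`, `y` commute with `v`. The points with
`AttP y` are those with `AttP v` (AIN (3)), so `x'` and `y` map this set into itself (AIN (1)), and by GER `x' = y` near
its points; the same for `AttP y⁻¹` (`v⁻¹ = (y⁻¹) ^ p`). Let `w` be any point. (a) `AttP y w`: done. (b) `PerP y w`: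
then `PerP v w`, `PerP x' w` (ZIN (2)), `PerP x (h⁻¹ w)`, so `x' ^ m` and `y ^ m'` fix `w`; `p` is prime to `M = m m'`,
`a p = 1 + b M`, and `x' w = x' (x' ^ (M b) w) = v ^ a w = y w`. (c) Otherwise `¬PerP v w`, `¬AttP v w`; BAS for `v`:
`AttP v⁻¹ ρ`, so `x' = y` near `ρ`, so `x' (v⁻¹ ^ k w) = y (v⁻¹ ^ k w)` for some `k`; both commute with `v`. -/
def s_RUN : Prop := ∀ (A : Type) [Finite A] [Nontrivial A] (x y : Equiv.Perm (Stream' A)),
  IsV x → IsV y → ∃ N : ℕ, ∀ p : ℕ, p.Prime → N < p → ∀ h : Equiv.Perm (Stream' A), IsV h →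
    (h * x * h⁻¹) ^ p = y ^ p → h * x * h⁻¹ = y

end Pool.Agent.TV
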