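import Pool.Agent.TV.Defs

/-!
Theorem V (MP_31fd3b_gt), block H (half spin invariants at roots of unity) and block T (topology):
statements of the modules with their proofs.
-/

open Filter Topology
open scoped BigOperators Real

namespace Pool.Agent.TV

open Pool.Agent.LibH11.Sliced Pool.Agent.MTR Pool.Agent.MT Pool.Agent.MTA Pool.Agent.UA
open Pool.Agent.UB Pool.Agent.TwoBr Pool.Agent.Mont
open Pool.Agent.TB hiding vec

/-! ## S. The sets of solutions -/

/-- SFIN: finiteness and symmetries of the sets of solutions.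

Proof. Let `R = (x, y)`, `f = P.1 y + P.2 x = -(det2 (cx P) R)`, `g = det2 R V = x V.2 - y V.1`, so `R ∈ Sl c P V M`
says `-(c f g) = M`. Then `dt P V * y = V.2 f - P.2 g` and `dt P V * x = V.1 f + P.1 g`. Finite: `f` and `g`
divide `M ≠ 0`, and `(f, g)` determines `(x, y)`. Bijections for the equalities (`Set.ncard_congr` or
`Set.ncard_image_of_injective`): exchange of `P`, `V`: `(x, y) ↦ (x, -y)`; rotation: `(x, y) ↦ (-y, x)` from
`Sl c (rv P) V M` to `Sl c P (rv V) M`; shift: `(x, y) ↦ (x + k y, y)` from `Sl c (addv P (k, 1)) V M` to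
`Sl c P (addv V (k, 1)) M`; scaling: equal sets. -/
def SFIN_Stmt : Prop :=
  (∀ (c : ℤ) (P V : ℤ × ℤ) (M : ℤ), dt P V ≠ 0 → M ≠ 0 → (Sl c P V M).Finite) ∧
  (∀ (c : ℤ) (P V : ℤ × ℤ) (M : ℤ), nS c V P M = nS c P V M) ∧
  (∀ (c : ℤ) (P V : ℤ × ℤ) (M : ℤ), nS c (rv P) V M = nS c P (rv V) M) ∧
  (∀ (c : ℤ) (P V : ℤ × ℤ) (k M : ℤ), nS c (addv P (k, 1)) V M = nS c P (addv V (k, 1)) M) ∧
  (∀ (c : ℤ) (P V : ℤ × ℤ) (k M : ℤ), nS c (k • P) V M = nS (c * k) P V M ∧
    nS c P (k • V) M = nS (c * k) P V M) ∧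
  ∀ P V : ℤ × ℤ, dt V P = dt P V ∧ dt (rv P) V = dt P (rv V) ∧
    (∀ k : ℤ, dt (addv P (k, 1)) V = dt P (addv V (k, 1))) ∧
    (∀ k : ℤ, dt (k • P) V = k * dt P V ∧ dt P (k • V) = k * dt P V)

/-! ## H. From the invariants to the limit functions -/

/-- NZR (uses STU, FHT of UB, PRS of MTA, EGO; all proved: `UB.t_STU`, `UB.t_FHT`, `MTA.prs`, `TB.ego`,
see Pool/Agent/UB/Fin.lean).

Proof. Put `n = 2^s`, `f = (sta n ι t).1`, so `(Va n ι t).1 = pr n 1 f`.
(i) For every tree `f` vanishes on the odd elements (`Evs`, STU) and `f (u + n) = f u`. The last property: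
`.pw e`: for `u = 2 w`: `2 e (w + n/2)² = 2 e w² + 2 n (e w) + e n²/2` and `n²/2 = 2n (n/4)`, `4 ∣ n`.
`.cons a b`: `Fh g (u + n) = (1/(2n)) ∑_k g k * zt (k u) * zt (k n)`, `g k = 0` for odd `k`, and `k n = 0` in
`ZMod (2 n)` for even `k`.
(ii) Lemma: if `g` vanishes on the odd elements, `g (u + n) = g u` and `∑_{j < n} g (2 j) * zt n ι (4 j w) = 0`
for all integers `w`, then `g = 0`. Multiply by `zt (-4 j0 w)` and sum over `0 ≤ w < n/2`: as `ι` is odd and
`zt n ι 4` is a primitive root of unity of order `n/2`, the sum over `w` is `n/2` if `j = j0` modulo `n/2` and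
`0` otherwise (geometric sum); the two such `j` have the same `g (2 j)`. So `n * g (2 j0) = 0`.
(iii) If `t` is rational then `f ≠ 0`: `fe n ι e` is nonzero on all even elements; for
`t = .cons a (.pw e)`: `f = Fh (f a) * fe e`, and `Fh (f a) (2 w) = (1/(2n)) ∑_j f a (2 j) * zt (4 j w)` is
nonzero for some `w` by (ii) and induction.
(iv) `f` has the stabiliser `vec t` (STU) and `Stab n ι (0, 1) 1` (`UB.Lguv.stab_one`). `det2 (0, 1) (vec t) =
-(vec t).1` is odd, so it is invertible modulo `n`. By PRS (second part) with `l = (0, 1)`, `R = (w, 0)`: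
`pr n 1 (Tt n ι w 0 f) = pr n 1 f * zt ..`, and the left side is `∑_{j < n} f (2 j) * zt n ι (4 j w)`. So
`pr n 1 f = 0` would give `f = 0` by (ii). -/
def NZR_Stmt : Prop :=
  ∀ t : Tr, t.Rat → Odd (vec t).1 → ∀ s : ℕ, 2 ≤ s → ∀ ι : ℤ, Odd ι → (Va (2 ^ s) ι t).1 ≠ 0

/-- INTV (uses NZR; JLS, TRF, CVU of UB, TMA, FTM, TDG, HZ, GPS, GRT as in Pool/Agent/UB/Intu.lean).

Proof. Copy Pool/Agent/UB/Intu.lean. In `qps` compare `cls Ts` with `cls Ts'`: FTM gives
`J (cls Ts) = J (cls Ts')` over the power series, JLS twice gives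
`tht ^ (m - m') * ∏_Ts = ∏_Ts'`. TRF is stated for two lists. In the main part the right side is the
product over `Ts'` of the same factors `w t`, and its constant coefficients are nonzero by NZR, so all the
factors of the left side are nonzero. The terms `lg d` cancel because the lengths are equal. -/
def INTV_Stmt : Prop :=
  ∀ (Ts Ts' : List Tr) (h : IsLongKnot (cls Ts)) (h' : IsLongKnot (cls Ts')),
    Ts.length = Ts'.length → (∀ t ∈ Ts, Odd (vec t).1) →
    (∀ t ∈ Ts', t.Rat ∧ Odd (vec t).1) →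
    (∀ v : Knot → ℂ, IsFiniteType v → v (ofDiag (cls Ts) h) = v (ofDiag (cls Ts') h')) →
    ∀ s : ℕ, 2 ≤ s → ∃ K : ℂ, ∀ ι : ℤ, Odd ι →
      (∀ t ∈ Ts ++ Ts', (Va (2 ^ s) ι t).1 ≠ 0) ∧
      (Ts.map fun t => (Va (2 ^ s) ι t).2 / (Va (2 ^ s) ι t).1).sum -
        (Ts'.map fun t => (Va (2 ^ s) ι t).2 / (Va (2 ^ s) ι t).1).sum = K

/-- LIMV (uses LIMQ, CSCL of MTA, proved: `MTA.limq (MTA.tail MTA.cls)`, `MTA.cscl`; and SFIN below).

Proof. Model: `UC.tu_lim`, `UC.tl_lim` (Pool/Agent/UC/Lim.lean), with `UC.cc_key` instead of `cc_lim`.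
First part, induction on `T`. `.pw e`: CSCL with `N = -L.2`; the condition `c (ρ² (-L.2)) ≠ M` holds if
`B ≥ |c L.2|`: the prime `q` divides `M` once; if `M = -c L.2 ρ²` then `q ∣ ρ` is impossible and `q ∣ c L.2`
gives `c L.2 = 0`, `M = 0`, which is excluded as `q²` does not divide `M`. `.cons a b`: `cc_key` for
`cx (addv L (vec b)), rv (vec a)`; `cx (addv L (vec (.cons a b))), (0,1)`;
`cx (addv (rv (addv L (vec b))) (vec a)), (0,1)`; in all three cases `det2 l V = -(dt L (vec (.cons a b)))`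
is odd, `Z` is the finite set `Sl c P V M` (SFIN; `M ≠ 0`, `c ≠ 0`), and the sum over `Z` is the finsum `Zt`
(`finsum_mem_eq_finite_toFinset_sum`). Multiply by 4. Then the induction hypotheses
(`UC.det_a`, `UC.det_b`). Second part: `TL` is `TU` in the context `(0,1)` plus half of one more sum. -/
def LIMV_Stmt : Prop :=
  ∀ c : ℤ, Odd c →
    (∀ (T : Tr) (L : ℤ × ℤ), Odd (dt L (vec T)) → ∃ B : ℕ, ∀ M : ℤ, Odd M → Gp B M →
      Tendsto (fun s : ℕ => 4 * ((π : ℂ) / 2 ^ s) ^ 2 *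
        TU (2 ^ s) (fun v => chi s M (c * v)) L T) atTop (𝓝 ((PhU c M L T : ℚ) : ℂ))) ∧
    ∀ T : Tr, Odd (vec T).1 → ∃ B : ℕ, ∀ M : ℤ, Odd M → Gp B M →
      Tendsto (fun s : ℕ => 4 * ((π : ℂ) / 2 ^ s) ^ 2 *
        TL (2 ^ s) (fun v => chi s M (c * v)) T) atTop (𝓝 ((Ph c M T : ℚ) : ℂ))

/-- LIE (uses INTV, LIMV; LGUV of UB, proved: `UB.lguv_all`; FOUT of MTA, proved: `MTA.fout`).

Proof. Let `s ≥ 2`, `κ` a unit of `ZMod (2^s)`. Choose an odd `ι` with `κ ι (-D) = 1` (as `D` is odd). For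
`t` in the lists put `κ' = (D / (vec t).1) κ`, so `κ' ι (-(vec t).1) = κ ι (-D) = 1`, and by LGUV
`(Va t).2 / (Va t).1 = LU (2^s) t κ'`. So INTV says that
`∑_Ts LU t ((D / (vec t).1) κ) - ∑_Ts' (same)` does not depend on the unit `κ`. Multiply by
`stdAddChar (-(κ M))` and sum over the units: `UC.sum_LU` (Pool/Agent/UC/Fin.lean) and FOUT (second part)
give `∑_Ts TL (2^s) (fun v => chi s M ((D / (vec t).1) v)) t = ∑_Ts' (same)` for all odd `M`. Multiply by
`4 (π/2^s)²`, let `s` tend to infinity, with LIMV and the maximum of the bounds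
(`tendsto_nhds_unique`, `UC.tendsto_list`; `Gp B M` is antitone in `B`). -/
def LIE_Stmt : Prop :=
  ∀ (Ts Ts' : List Tr) (h : IsLongKnot (cls Ts)) (h' : IsLongKnot (cls Ts')),
    Ts.length = Ts'.length → (∀ t ∈ Ts, Odd (vec t).1) →
    (∀ t ∈ Ts', t.Rat ∧ Odd (vec t).1) →
    (∀ v : Knot → ℂ, IsFiniteType v → v (ofDiag (cls Ts) h) = v (ofDiag (cls Ts') h')) →
    ∀ D : ℤ, Odd D → (∀ t ∈ Ts ++ Ts', (vec t).1 ∣ D) → ∃ B : ℕ, ∀ M : ℤ, Odd M → Gp B M →
      (Ts.map fun t => Ph (D / (vec t).1) M t).sum =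
        (Ts'.map fun t => Ph (D / (vec t).1) M t).sum

/-! ## T. Topology -/

/-- RTI (uses FSY, FEQ, FCG, FRO, FFL of UA; all proved: `UA.t_FSY`, .. see Pool/Agent/UA/FinF.lean):
rational tangles are invariant under the three rotations.

Proof. Induction on `T`. `.pw e`: FSY (fourth part) and `pD 2 t = flipD (hD 2 t)` (second part). If
`T = .cons a b` is rational then `b = .pw e` (`kids b = 0`), and `T.dg = rotD a.dg ++ ht e`. For every `x`
with two strands: `hD 2 (rotD x) = (.cup, 2) :: (sh 1 (hD 2 x) ++ [(.cap, 0)])` (FSY), which is equivalent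
to `rotD (pD 2 (hD 2 x)) = rotD (flipD x)` (FRO, second part); and `flipD (rotD x)` is equivalent to
`rotD (pD 2 (flipD x)) = rotD (hD 2 x)`. So with the induction hypothesis `hD 2 (rotD a.dg)` and
`flipD (rotD a.dg)` are equivalent to `rotD a.dg`. `hD 2 (u ++ v) = hD 2 u ++ hD 2 v`;
`pD 2 (u ++ v) = pD 2 v ++ pD 2 u`, `flipD t = pD 2 (hD 2 t)`, so
`flipD T.dg ~ ht e ++ rotD a.dg ~ rotD a.dg ++ ht e` (FFL, second part, and `hD 2 (rotD a.dg) ~ rotD a.dg`).
`pD 2 t = flipD (hD 2 t)` and FEQ give the third statement. -/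
def RTI_Stmt : Prop :=
  ∀ T : Tr, T.Rat → EqD 2 (hD 2 T.dg) T.dg ∧ EqD 2 (flipD T.dg) T.dg ∧ EqD 2 (pD 2 T.dg) T.dg

/-- STR (uses FRO of UA).

Proof. First part: `(.cup, 1) :: rotD t` is `cup 1, cup 0, sh 1 t, cap 2`. The minimum `cup 1` lies to the
right of everything, so it commutes with `cup 0` and with `sh 1 t` (there are two more strands on the
right): we get `cup 0, sh 1 t, cup 3, cap 2`, and `cup 3, cap 2` is a zigzag. (Compare the proofs of FRO in
Pool/Agent/UA/Fro.lean and the lemmas on far commutation used there.) Second part: by the first part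
`(.cup, 0) :: sh 1 (rotD t) ~ (.cup, 1) :: rotD (rotD t)`, and `rotD (rotD t) ~ pD 2 t ~ t` (FRO). -/
def STR_Stmt : Prop :=
  (∀ t : Diag, cnt 2 t = some 2 → EqD 1 ((.cup, 1) :: rotD t) ((.cup, 0) :: sh 1 t)) ∧
  ∀ t : Diag, cnt 2 t = some 2 → EqD 2 (pD 2 t) t →
    EqD 1 ((.cup, 0) :: sh 1 (rotD t)) ((.cup, 1) :: t)

/-- ONEM (uses STR, RTI, FCG): the closure of a rational tree has a diagram with one minimum.

Proof. Show by strong induction on the size of the rational tree `a`, for both `A`: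
`EqD 1 ((.cup, 1) :: a.dg) ((.cup, i) :: u)` and `B`: `EqD 1 ((.cup, 0) :: sh 1 a.dg) ((.cup, i) :: u)` with
`i ≤ 1`, `minima u = 0`, `cnt 3 u = some 3`. For `a = .pw e` nothing is to do. For `a = .cons b (.pw e)`:
`A`: `(.cup, 1) :: (rotD b.dg ++ ht e) ~ ((.cup, 0) :: sh 1 b.dg) ++ ht e` (STR, first part), use `B` for `b`.
`B`: `(.cup, 0) :: (sh 1 (rotD b.dg) ++ sh 1 (ht e)) ~ ((.cup, 1) :: b.dg) ++ sh 1 (ht e)` (STR, second part,
and RTI for `b`), use `A` for `b`. Finally `cl T.dg = ((.cup, 1) :: T.dg) ++ [(.cap, 1)]`; the result is a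
long knot by `EqD.isLongKnot`. -/
def ONEM_Stmt : Prop :=
  ∀ T : Tr, T.Rat → IsLongKnot (cl T.dg) →
    ∃ w : Diag, IsLongKnot w ∧ minima w ≤ 1 ∧ EqD 1 (cl T.dg) w

/-- RTC (uses RTI, FC0, FFL, FCG of UA).

Proof. Induction on `c`, for all `x`. `c = .pw e`: `.cons x (.pw e)` is rational. `c = .cons y (.pw e)`, `y`
rational: the diagram is `rotD x.dg ++ (rotD y.dg ++ ht e)`; by FFL and RTI (`hD 2 (rotD y.dg) ~ rotD y.dg`,
apply RTI to `.cons y (.pw 0)`) it is equivalent to `(rotD x.dg ++ ht e) ++ rotD y.dg`. By FC0 with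
`s = (Tr.cons x (.pw e)).dg`, `t = y.dg`: `cl (s ++ rotD t) ~ cl (rotD (hD 2 s) ++ flipD t)
~ cl (rotD s ++ t) = cl (Tr.cons (.cons x (.pw e)) y).dg` by RTI. Use the induction hypothesis for `y`. -/
def RTC_Stmt : Prop :=
  ∀ c x : Tr, c.Rat → x.Rat → ∃ T : Tr, T.Rat ∧ EqD 1 (cl (Tr.cons x c).dg) (cl T.dg)

/-- KDT (uses STR, RTI, FCG, FIT of UA): the diagram of a word is the closure of a rational tree.

Proof. `tw 0 a = ht (2 a)`, `tw 1 a = sh 1 (ht (2 a))`. Start with `(.cup, 1) :: tw 0 a = (.cup, 1) :: u.dg`,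
`u = .pw (2 a)`. If the diagram up to now is `(.cup, 1) :: u.dg` with `u` rational and the next letter `b`
is at the position 1: by STR (second part, RTI) `(.cup, 1) :: u.dg ~ (.cup, 0) :: sh 1 (rotD u.dg)`, so the
next diagram is equivalent to `(.cup, 0) :: sh 1 u'.dg` with `u' = .cons u (.pw (2 b))`. If it is
`(.cup, 0) :: sh 1 u.dg` and the next letter is at the position 0: by STR (first part) it is equivalent to
`(.cup, 1) :: rotD u.dg`, and we get `(.cup, 1) :: u'.dg`. As the length is even we end with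
`(.cup, 0) :: (sh 1 u.dg ++ [(.cap, 0)])` (or with `x = []`, where `[(.cup, 1), (.cap, 0)] ~ [] ~ cl (ht 1)`).
Now `[(.cap, 0)] ~ [(.crs e, 1), (.crs e, 0), (.cap, 1)]` for one `e` as diagrams with 3 strands (compare
`TwoBr.cap1_eqd` in Pool/Agent/TwoBr/OneMin.lean and its mirror image; found by `EqD.of_chk`), so we get
`(.cup, 0) :: sh 1 (u.shift c).dg ++ ht c ++ cap 1 ~ cl (rotD (u.shift c).dg ++ ht c)`, `c = ±1`, which is
the closure of `.cons (u.shift c) (.pw c)`. Determinant modulo 2: the vector is (even, odd) in the first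
kind of diagrams, (odd, even) in the second, so at the end `u.shift c` has (odd, even), and the last tree
has the first component `∓ (odd) - (even)`, odd. -/
def KDT_Stmt : Prop :=
  ∀ x : List ℤ, Even x.length → ∃ T : Tr, T.Rat ∧ Odd (vec T).1 ∧ EqD 1 (kdiag x) (cl T.dg)

end Pool.Agent.TV
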