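import Pool.Agent.TV.StK
import Pool.Agent.UA.StE

/-!
Theorem V (MP_31fd3b_gt), block J (Jones polynomial to second order): statements of the modules with
their proofs. All formulas were checked numerically.
-/

open scoped BigOperators

namespace Pool.Agent.TV

open Pool.Agent.LibH11.Sliced Pool.Agent.MTR Pool.Agent.MTA Pool.Agent.UA Pool.Agent.UB
open Pool.Agent.TB hiding vec

/-! ## 1. The functor -/

/-- JONEV (uses KBG, JNAT of UA): copy of JONE (Pool/Agent/UA/Jone.lean) for two diagrams.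

Proof. As JONE: over `PowerSeries ℂ`, `a = 1 + X`, FTM gives `J w = J w'`; by the injectivity of
`LaurentPolynomial ℤ →+* PowerSeries ℂ` (apply it to the difference) the equality holds over
`LaurentPolynomial ℤ` for `a = T 1`, and then over every ring by JNAT. -/
def JONEV_Stmt : Prop :=
  ∀ (w w' : Diag) (h : IsLongKnot w) (h' : IsLongKnot w'),
    (∀ v : Knot → ℂ, IsFiniteType v → v (ofDiag w h) = v (ofDiag w' h')) →
    ∀ (A : Type) [CommRing A] (a : Aˣ),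
      (jdata a).J (false, true) w = (jdata a).J (false, true) w'

/-- JPR (uses ACT, PRD, ORI of UB; MULG, KBM of UA): the Jones polynomial of a connected sum.

Proof. As JDIV (Pool/Agent/UA/Jdiv.lean): for one tree
`J (cl t.dg) = κ^(2 nc t + 2) * clv s (bv s t) * clo (od u) (mt (od u) t) true` with `u = (κ s)⁻¹ ^ 6`, and the last
factor is `u ^ m` by ORI. Lists: `Jdiv.J_mul`, induction. -/
def JPR_Stmt : Prop :=
  ∀ (A : Type) [CommRing A] (κ s : Aˣ), (κ : A) ^ 4 = -1 → ∀ Ts : List Tr,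
    (∀ t ∈ Ts, Odd (vec t).1) → ∃ i j : ℤ, (jdata (κ * s)).J (false, true) (cls Ts) =
      ((κ ^ i * s ^ j : Aˣ) : A) * (Ts.map fun t => clv s (bv s t)).prod

/-- JONV (uses JONEV, JPR; JDIV, BVN, JDV, JPV of UA): parity and second logarithmic derivatives.

Proof. (1) `A = ZMod 2`, `κ = s = 1`: by JPR and BVN `J (cls Ts') = ∏ (vec t).1 = 1`; by JONEV and JDIV
`clv 1 (bv 1 t) = (vec t).1` divides it for `t ∈ Ts`, so `(vec t).1` is odd.
(2) `A = JR`, `κ = C (exp (π i / 4))`, `s = sx`: JPR for both lists and JONEV give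
`κ^i sx^j ∏_Ts = κ^i' sx^j' ∏_Ts'`. The factors are monomials in the sense of `Mon`, the constant coefficient of
`clv sx (bv sx t)` is `(vec t).1 ≠ 0` (JDV), so apply `w2`: `w2 (f g) = w2 f + w2 g`, `w2 = 0` on monomials (JDV). -/
def JONV_Stmt : Prop :=
  ∀ (Ts Ts' : List Tr) (h : IsLongKnot (cls Ts)) (h' : IsLongKnot (cls Ts')),
    (∀ v : Knot → ℂ, IsFiniteType v → v (ofDiag (cls Ts) h) = v (ofDiag (cls Ts') h')) →
    (∀ t ∈ Ts', Odd (vec t).1) →
    (∀ t ∈ Ts, Odd (vec t).1) ∧ (Ts.map fun t => w2 (clv sx (bv sx t))).sum =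
      (Ts'.map fun t => w2 (clv sx (bv sx t))).sum

/-! ## 2. Directions -/

/-- `R` is a rational tree with the direction of `v`. -/
def Dir (R : Tr) (v : ℤ × ℤ) : Prop := R.Rat ∧ ∃ k : ℤ, k ≠ 0 ∧ v = k • vec R

/-- RU (uses JPV, RATG, RATJ, JDV of UA): directions.

Proof. (1) RATJ (first part) for the primitive vector `v / gcd`; `rt` is defined by choice. (2) The vector of
a rational tree is primitive (induction: `vec (.cons a (.pw e)) = (-(vec a).2 - e (vec a).1, (vec a).1)`), so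
`vec R = ± vec R'`; `Ratj.key` (Pool/Agent/UA/Ratj.lean). (3) If `cf 0 g = 0` then both sides are `0` (division by
zero), otherwise JDV. (4) `k` is `±` the gcd. (5) `UA.Ratj.vec_shift`, `.vec_cons_pw`, `.rat_shift`. -/
def RU_Stmt : Prop :=
  (∀ v : ℤ × ℤ, v ≠ 0 → Dir (rt v) v) ∧
  (∀ (R R' : Tr) (v : ℤ × ℤ), Dir R v → Dir R' v →
    ∃ f : JR, Mon f ∧ bv sx R' = (f * (bv sx R).1, f * (bv sx R).2)) ∧
  (∀ f g : JR, Mon f → w2 (f * g) = w2 g) ∧
  (∀ (R : Tr) (v : ℤ × ℤ) (k : ℤ), R.Rat → v = k • vec R → k ≠ 0 →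
    v ≠ 0 ∧ IsCoprime (vec R).1 (vec R).2 ∧ ct' v = ((k.natAbs : ℕ) : ℚ)) ∧
  ∀ (R : Tr) (v : ℤ × ℤ), Dir R v → (∀ c : ℤ, Dir (R.shift c) (addv v (-c, 1))) ∧
    Dir (.cons R (.pw 0)) (rv v) ∧ ∀ k : ℤ, k ≠ 0 → Dir R (k • v)

/-- OMR (uses RU, JPV): `om`, `w3`, `Wc` do not depend on the choice of the rational trees.

Proof. RU (2) for every factor, `mulv` and `clv` are homogeneous (`Ratj.mulv_scl`, `.scl_mulv`, `.clv_scl`), RU (3). -/
def OMR_Stmt : Prop :=
  (∀ (P V : ℤ × ℤ) (R R' : Tr), Dir R P → Dir R' V →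
    om P V = w2 (clv sx (mulv sx (bv sx R) (bv sx R')))) ∧
  (∀ (v : Vx) (R0 R1 R2 : Tr), Dir R0 v.1 → Dir R1 v.2.1 → Dir R2 v.2.2 →
    w3 v = w2 (clv sx (mulv sx (bv sx R0) (mulv sx (bv sx R1) (bv sx R2))))) ∧
  ∀ (L : ℤ × ℤ) (R T : Tr), Dir R L → Wc L T = w2 (clv sx (mulv sx (bv sx R) (bv sx T)))

/-- OMP (uses OMR, RU, JPV): `om` has the symmetries.

Proof. If `dt P V ∣ D ≠ 0` then `P, V ≠ 0`, so there are rational trees `R`, `R'` with these directions (RU (1)); the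
directions of the changed vectors are given by RU (5) (for `rot` and `shift` start with trees for `P` and `V`; in `rot` the
hypothesis is about `rv V`, so `V ≠ 0`). OMR and: `mulv` is commutative and associative; `clv (mulv (rotv u) v) =
clv (mulv u (rotv v))`; `bv (R.shift c) = mulv (pv c) (bv R)`, `bv (.cons R (.pw 0)) = rotv (bv R)`. -/
def OMP_Stmt : Prop := ∀ D : ℤ, D ≠ 0 → Sym D om

/-! ## 3. The recursion -/

/-- WADG: the Plücker relation to second order (generalises WAD, Pool/Agent/UA/Wad.lean).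

Proof. Direct computation as in WAD. `B(l, v) = clv (mulv l v)`; `Wadx.clm0`, `clm1`, `clm2` give its coefficients
(`Wadx.be0`, ...). The constant coefficients are `B(l, v)_0 = d`, `B(S, v)_0 = d / α`, `B(l, R)_0 = d / β`,
`B(S, R)_0 = d / (α β)`. Write the conditions `ev S = 0`, `ev R = 0` as `dv S = 2 - 2 ..`, `dv R = 2 - 2 ..`. (Structure:
`B(l, v) B(S, R) - B(S, v) B(l, R) = -(1 + be²) (l.1 S.2 - l.2 S.1) (v.1 R.2 - v.2 R.1)`, the two determinants are
`-(E l / α) X`, `-(E v / β) X` to first order, with `E l = ev l + 2 - 2 α²`, so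
`log B(l, v) + log B(S, R) - log B(S, v) - log B(l, R) = -(E l) (E v) / d² X² + ..`.) -/
def WADG_Stmt : Prop :=
  ∀ (l v S R : JR × JR) (α β : ℂ), α ≠ 0 → β ≠ 0 →
    cf 0 l.1 = α * cf 0 S.1 → cf 0 l.2 = α * cf 0 S.2 → cf 0 v.1 = β * cf 0 R.1 →
    cf 0 v.2 = β * cf 0 R.2 → ev S = 0 → ev R = 0 → cf 0 (clv sx (mulv sx l v)) ≠ 0 →
    w2 (clv sx (mulv sx l v)) + w2 (clv sx (mulv sx S R)) =
      w2 (clv sx (mulv sx S v)) + w2 (clv sx (mulv sx l R)) -
        2 * (ev l + 2 - 2 * α ^ 2) * (ev v + 2 - 2 * β ^ 2) / cf 0 (clv sx (mulv sx l v)) ^ 2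

/-- NWL (uses WADG, OMR, RU; JPV, JDV of UA, `UA.rat_eT`): the recursion.

Proof. Induction on `T`. `.pw e`: OMR, `.pw e` has the direction `(-e, 1)`: `Wc L (.pw e) = om L (-e, 1)`.
`.cons a b` (compare `recur` in Pool/Agent/UA/Wle.lean), `ra = rv (vec a)`, `b = vec b`, `+` for `addv`. All the vectors
`L, a, b, L+b, L+ra` are nonzero as `dt` is not zero. Let `S` have the direction `L`, `S1` the direction of `L+b`, `R` that of
`ra`, `S2` that of `L+ra`, `Q` that of `b` (rational trees), and identify a tree with its vector `bv sx`.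
(i) WADG with `l = S b`, `v = rotv a`, `S := S1`, `R := R`: `l` has the constant coefficients `(vec S) + b`, which is
`±(ct'(L+b)/ct' L) vec S1`, `ev l + 2 - 2 α² = E1 L b` by JDV (`ev (mulv ..)`, `ev S = 0`, `cf 0 S.2 = ±L.2 / ct' L`);
`ev (rotv a) = eT a`, `β² = (ct' a)²`, so the second factor is `Eg a`; the constant coefficient of `B` is `±dt / ct' L`:
`Wc L T + om (L+b) ra = w2 B(S1, rotv a) + w2 B(S b, R) - 2 E1 Eg a / ..²`, and `w2 B(S1, rotv a) = w2 B(rotv S1, a) =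
Wc (rv (L+b)) a`.
(ii) `B(S b, R) = B(S R, b)`. WADG with `l = S R`, `v = b`, `S := S2`, `R := Q`: `ev (S R) = -2 (S.2² - 1)(R.2² - 1)` with
`R.2 = ±a.1 / ct' a`, `α² = (ct'(L+ra) / (ct' L ct' a))²`, so the first factor is `E2 L a`, the second `Eg b`, the
determinant `±dt / (ct' L ct' a)`: `w2 B(S R, b) + om (L+ra) b = Wc (L+ra) b + w3 (L, ra, b) - 2 E2 Eg b / ..²`.
Together: `Wc L T = Wc (rv (L+b)) a + Wc (L+ra) b + w3 (L, ra, b) - om (L+b) ra - om (L+ra) b - ..`. Insert the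
definitions of `NL`, `cr`, and the induction hypotheses. -/
def NWL_Stmt : Prop :=
  ∀ (T : Tr) (L : ℤ × ℤ), dt L (vec T) ≠ 0 →
    2 * Wc L T = evO (NL L T) + ((vts L T).map fun v => 2 * w3 v - evO (nv v)).sum -
      2 * ((cr L T : ℚ) : ℂ)

/-- CRN (uses SGN of UA): signs of the deviations.

Proof. Put `u = a.1`, `v = b.2`, `α = ct' a`, `β = ct' b`, `u = α u0`, `v = β v0`. The definition of `eT` gives
`Eg (.cons a b) = v² Eg a + u² Eg b + 2 α² β² (u0² + v0² - u0² v0² - g²)`, `g = ct' (vec T) / (α β)`, a positive integer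
(if `vec T ≠ 0` then `vec a, vec b ≠ 0`); if `u0 = 0` then `a = α (0, ±1)` and `g = |v0|`, the bracket is 0; the same for `v0 = 0`;
otherwise it is `-(u0² - 1)(v0² - 1) + 1 - g² ≤ 0`. So `Eg ≤ 0` by induction. Rational `T = .cons a (.pw e)`: `α = β = v0 = 1`,
`g = 1` (vectors of rational trees are primitive), so `Eg = 0`. `T` reduced (`RC`) and not rational, `T = .cons a b`:
if `v = 0` then `u ≠ 0`, and `b` is not rational (a rational `b` with children has `b.2 = c.1 ≠ 0` by SGN (third part), and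
`.pw e` has `v = 1`), so `Eg b < 0`; if `v ≠ 0` and `a` is not rational then `Eg a < 0`; if `a` is rational then `|a.1| ≥ 2` by SGN;
`b` not rational: `Eg b < 0`; `b` rational with a child `c`: `|v| = |c.1| ≥ 2`, `u0 = u`, `v0 = v`, the bracket is negative.
`E1 L b = (L.2/ct' L)² Eg b + 2 β² (l² + v0² - l² v0² - g²)` with `l = L.2/ct' L`, `g = ct'(L+b)/(ct' L β)`, and
`E2 L a = 2 (l² + m² - l² m² - g²)`, `m = a.1/ct' a`, `g = ct'(L+ra)/(ct' L ct' a)`, both `≤ 0` for the same reason. So `cr ≥ 0`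
by induction, and `cr = 0` if `T` is rational (`Eg a = 0`, `Eg (.pw e) = 0`). -/
def CRN_Stmt : Prop :=
  (∀ T : Tr, vec T ≠ 0 → Eg T ≤ 0 ∧ (T.Rat → Eg T = 0) ∧ (T.RC → ¬ T.Rat → Eg T < 0)) ∧
  (∀ (L : ℤ × ℤ) (a b : Tr), dt L (vec (.cons a b)) ≠ 0 →
    E1 L b ≤ 0 ∧ E2 L a ≤ 0 ∧ (IsCoprime L.1 L.2 → 2 ≤ |L.2| →
      (b.RC → ¬ b.Rat → E1 L b < 0) ∧
      (IsCoprime (vec b).1 (vec b).2 → 2 ≤ |(vec b).2| → E1 L b < 0) ∧
      (IsCoprime (vec a).1 (vec a).2 → 2 ≤ |(vec a).1| → E2 L a < 0))) ∧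
  (∀ (T : Tr) (L : ℤ × ℤ), dt L (vec T) ≠ 0 → 0 ≤ cr L T ∧ (T.Rat → cr L T = 0)) ∧
  ∀ b : Tr, E1 (0, 1) b = Eg b

/-- STRC (uses CRN, SGN): a closed reduced tree without bad vertices and without correction.

Proof. Claim Q: let `S` be primitive, `2 ≤ |S.2|`, `|S.1| < |S.2|`, `dt S (vec T) ≠ 0`, `T` reduced, not rational,
`T.kids ≤ 1 → 2 ≤ |T.ex|`, and `Vok v`, not `Vbad v` for all `v ∈ vts S T`. Then `0 < cr S T`. Induction on `T = .cons a b`. All
four summands of `cr` are `≥ 0` (CRN). The vertex `(S, rv a, b)`: `S.2` does not divide `S.1`.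
(i) `a` not rational: `Eg a < 0`. If `E1 S b < 0` we are done; by CRN this holds if `b` is not rational, or if `b` is rational with a
child (`|b.2| ≥ 2`). If `b = .pw e` then `T.kids = 1`, so `|e| ≥ 2`; the context of `a` is `rv (addv S (-e, 1)) =
(-S.2, S.1 - e S.2)`, primitive with `|S.1 - e S.2| > |S.2| ≥ 2`; induction hypothesis for `a`.
(ii) `a` rational: `|a.1| ≥ 2`, `1 ≤ |a.2| < |a.1|` (SGN), `b` has a child. If `b` is not rational then `Eg b < 0` and `E2 S a < 0`,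
done. If `b` is rational then `|b.2| ≥ 2`, `(vec b)` primitive, so no weight is zero and no slope is an integer, and the vertex
is neither trivial nor zero, so it is bad, a contradiction.
Top: `T = .cons a b`, not both rational. Both not rational: `2 * E1 (0,1) b * Eg a / .. > 0` by CRN (last part). `a` not rational,
`b` rational: the context of `a` is `S = rv (vec b)`; `b = .pw e`: `T.kids = 1`, `|e| ≥ 2` (CR), `S = (-1, -e)`; `b = .cons c (.pw e)`:
`T.kids = 2`, `|e| ≥ 2`, `|c.1| ≥ 2`, `|c.2| < |c.1|`, `S = (-c.1, -e c.1 - c.2)`; apply Q. `a` rational, `b` not: the context of `b` is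
`rv (vec a) = (-a.2, a.1)`, `b.kids ≤ 1` implies `T.kids ≤ 2`, so `2 ≤ |T.ex| = |b.ex|` (CR); apply Q. -/
def STRC_Stmt : Prop :=
  ∀ T : Tr, T.CR → (vec T).1 ≠ 0 → (∀ v ∈ vts (0, 1) T, Vok v ∧ ¬ Vbad v) → ¬ T2 T →
    0 < cr (0, 1) T

/-! ## 4. The vertices -/

/-- the slope of a vector of series, its constant coefficient -/
noncomputable def sl0 (v : JR × JR) : ℂ := cf 0 (v.1 * v.2⁻¹)

/-- the first coefficient of the additive logarithm -/
noncomputable def la1v (v : JR × JR) : ℂ := cf 1 (v.1 * v.2⁻¹) - 2 * cf 0 (v.1 * v.2⁻¹) ^ 2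

/-- LAD (uses JDV, JPV of UA): the additive logarithm.

Proof. `b v = v.1 * v.2⁻¹`; `b (mulv v w) = b v + b w + be * b v * b w` (`PowerSeries.mul_inv_cancel`), `be` has the
coefficients `0, 4, 0` (`Wadx.be0` ..). (1) comparison of coefficients. (2) `clv v = v.2 * (b v - be)`,
`w2 (f g) = w2 f + w2 g` (JDV), `w2 (b - be) = 2 b2 / b0 - ((b1 - 4) / b0)²` and `b1 = la1v + 2 b0²`,
`b2 = la2v - 2/3 b0 + 4 b0 b1 - 16/3 b0³`. (3) `(mulv v w).2 = v.2 * w.2`. (4) `ev (bv sx R) = 0`, JDV: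
`cf 1 (b v) = -dv v / (cf 0 v.2)²`. (5) `b` does not change. (6) `pv 1 = (-s², s⁴)` (see Pool/Agent/UA/Jpv.lean
or direct), `b = -s⁻²` has the coefficients `-1, 2, -2`, so `la2v (pv 1) = 0`; `mulv (pv a) (pv b) = pv (a + b)` (JPV) and (1) give
all `a` (induction; also `la2v (pv 0) = 0`); `(pv a).2 = s^(4a)` is a monomial. -/
def LAD_Stmt : Prop :=
  (∀ v w : JR × JR, cf 0 v.2 ≠ 0 → cf 0 w.2 ≠ 0 → sl0 (mulv sx v w) = sl0 v + sl0 w ∧
    la1v (mulv sx v w) = la1v v + la1v w ∧ la2v (mulv sx v w) = la2v v + la2v w ∧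
    cf 0 (mulv sx v w).2 ≠ 0 ∧ w2 (mulv sx v w).2 = w2 v.2 + w2 w.2) ∧
  (∀ v : JR × JR, cf 0 v.2 ≠ 0 → sl0 v ≠ 0 →
    w2 (clv sx v) = w2 v.2 + 2 * la2v v / sl0 v + 44 / 3 + 4 * la1v v + 4 / 3 * sl0 v ^ 2 -
      (la1v v - 4) ^ 2 / sl0 v ^ 2) ∧
  (∀ R : Tr, R.Rat → (vec R).2 ≠ 0 → cf 0 (bv sx R).2 ≠ 0 ∧
    sl0 (bv sx R) = ((vec R).1 : ℂ) / (vec R).2 ∧
    la1v (bv sx R) = 2 - 2 / ((vec R).2 : ℂ) ^ 2) ∧
  (∀ (f : JR) (v : JR × JR), Mon f → cf 0 v.2 ≠ 0 → la2v (f * v.1, f * v.2) = la2v v ∧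
    w2 (f * v.2) = w2 v.2) ∧
  ∀ a : ℤ, la2v (pv sx a) = 0 ∧ w2 (pv sx a).2 = 0

/-- the second logarithmic derivative of the second component for a slope -/
noncomputable def ow (β : ℚ) : ℂ := w2 (bv sx (rt (β.num, β.den))).2

/-- LAE (uses LAD, RU; JPV, BVN of UA): symmetries of `la2` and `ow`.

Proof. (1) RU (2) and LAD (fourth part): `R` and `rt (β.num, β.den)` have the same direction. (2) `R.shift (-n)` has the slope
`β + n`, `bv (R.shift (-n)) = mulv (pv (-n)) (bv R)`, LAD. (3) Let `ι : JR → JR` be the homomorphism `X ↦ -X`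
(`PowerSeries.evalNegHom`), so `ι` maps `sx` to `sx⁻¹` and `be sx` to `-be sx`, and let `R'` be the tree with all exponents
changed in sign. By induction there is a sign `ε` with `ι (bv sx R).1 = -ε (bv sx R').1`, `ι (bv sx R).2 = ε (bv sx R').2`
(`pv s⁻¹ e` and `pv s (-e)` differ by the sign of the first component; `mulv` for `-be`; `rotv`), and
`vec R' = ±(-(vec R).1, (vec R).2)`. So `b (R') = -ι (b R)`: `b0 ↦ -b0`, `b1 ↦ b1`, `b2 ↦ -b2`, and `la2v` changes the sign; `w2 (ι f) = w2 f`.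
`la2 (-β)` is computed with `R'` (RU (2)). -/
def LAE_Stmt : Prop :=
  (∀ R : Tr, R.Rat → (vec R).2 ≠ 0 → la2v (bv sx R) = la2 (slp (vec R)) ∧
    w2 (bv sx R).2 = ow (slp (vec R))) ∧
  (∀ (β : ℚ) (n : ℤ), la2 (β + n) = la2 β ∧ ow (β + n) = ow β) ∧
  ∀ β : ℚ, la2 (-β) = -la2 β ∧ ow (-β) = ow β

open Classical in
/-- the defect of a vertex -/
noncomputable def dl (v : Vx) : ℚ := if Vbad v then Dl v else 0

/-- VXA (uses OMR, OMP, RU; JPV of UA): vertices of weight zero, trivial vertices.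

Proof. Zero: `(tot v).1 ≠ 0` implies that exactly one weight is zero, say `v.1 = (a, 0)`; `R0 = .cons (.pw 0) (.pw 0)` has this
direction and the vector `(-1, 0)`. `B(R0, w) = -(w.2 + be w.1)`, which is multiplicative in `w` (JPV), so
`w3 v = h(R1) + h(R2)`, `h(R) = w2 (R.2 + be R.1)` (JDV, the constant coefficients are the nonzero weights).
`tot v = (.., 0)`, `om (tot v) (0,1) = w2 (-1) = 0`; the two pairs `p` with `p.2.2 ≠ 0` have `p.1` of the direction `(1, 0)`, so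
`om p.1 p.2 = h(R1)`, resp. `h(R2)`. So `2 w3 v = evO (nv v)`. (By the symmetry of `w3` and `nv` in the three vectors, up to the order
of the list, it suffices to do one of the three cases and repeat.)
Trivial: say `v.1 = w_1 (k, 1)`. `R0 = .pw (-k)`. `om (v.1 + v.3) v.2`: the tree `R2.shift (-k)` has the direction of
`addv v.1 v.3`, so this is `w3 v`; the same for `om (v.1 + v.2) v.3`. `om (v.2 + v.3) v.1 = om (v.2 + v.3) (k, 1) =
om (addv (v.2 + v.3) (k, 1)) (0, 1) = om (tot v) (0, 1)` (OMP: `scale`, `swap`, `shift`). So `evO (nv v) = 2 w3 v`. -/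
def VXA_Stmt : Prop :=
  ∀ v : Vx, (tot v).1 ≠ 0 → ((tot v).2 = 0 ∨ Vtriv v) → 2 * w3 v = evO (nv v)

/-- VXB (uses OMR, OMP, RU, LAD, LAE): integral vertices.

Proof. `σ = (tot v).1 / (tot v).2` is the sum of the slopes `β_j` (an integer), `a_j` the denominators of the `β_j`. By LAD with rational
trees `R_j` of the directions `v_j` (`la1v = 2 - 2/a_j²`): `w3 v = ∑ ω_j + 2 λ/σ + 44/3 + 4 (6 - 2 S) + 4/3 σ² - (2 - 2 S)²/σ²`, with
`ω_j = ow β_j`, `λ = ∑ la2 β_j`, `S = ∑ 1/a_j²`. `tot v` has the direction of `(σ, 1)`, `.pw (-σ)`: `om (tot v) (0,1) =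
44/3 + 4/3 σ² - 16/σ²`. For `p = (P, v_j)`: `P` has the slope `σ - β_j`, so `ow` and the denominator are the same as for `β_j` and `la2` is
`-la2 β_j` (LAE): `om P v_j = 2 ω_j + 44/3 + 4 (4 - 4/a_j²) + 4/3 σ² - (4/a_j²)²/σ²`. So
`2 w3 v - evO (nv v) = 2 w3 v + om (tot v) (0,1) - ∑ om P v_j = 4 λ/σ + (1/σ²) (-8 (1 - S)² + 16 ∑ 1/a_j⁴ - 16)`.
Second part: `a_j ≥ 2`, so `∑ 1/a_j⁴ ≤ 3/16`. -/
def VXB_Stmt : Prop :=
  ∀ v : Vx, (tot v).1 ≠ 0 → Vbad v →
    2 * w3 v - evO (nv v) = 4 * bc la2 v + ((Dl v : ℚ) : ℂ) ∧ Dl v < 0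

end Pool.Agent.TV
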