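import Pool.Agent.TV.StH

/-!
Theorem V (MP_31fd3b_gt), block K (arithmetic of the limit functions): statements of the modules with
their proofs. All formulas were checked numerically.

Coordinates used everywhere: `R = (x, y)`, `f = P.1 y + P.2 x = -(det2 (cx P) R)`, `g = det2 R V =
x V.2 - y V.1`; `R ∈ Sl c P V M` says `-(c f g) = M`; `dt P V * y = V.2 f - P.2 g`,
`dt P V * x = V.1 f + P.1 g`.
-/

open scoped BigOperators

namespace Pool.Agent.TV

open Pool.Agent.LibH11.Sliced Pool.Agent.MTR Pool.Agent.MTA Pool.Agent.UA Pool.Agent.UB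
open Pool.Agent.TB hiding vec

/-! ## 1. The limit function in terms of the vertices -/

/-- AID (uses SFIN): identities for the sums `At`.

Proof. (1) The bijection `(x, y) ↦ (x + k y, y)` from `Sl c (addv P (k, 1)) V M` to
`Sl c P (addv V (k, 1)) M` (`finsum_mem_eq_of_bijOn`); it does not change `y`, `det2 R V`, `V.2`.
(2) The bijection `(x, y) ↦ (x, -y)` from `Sl c P V M` to `Sl c V P M`; the terms are `V.2 / (y g)` and
`P.2 / (-y f)`; the sum is `(V.2 f - P.2 g) / (y f g) = dt P V / (f g) = -c (dt P V) / M` if `y ≠ 0`. If `y = 0`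
then `M = -c P.2 V.2 x²`, which contradicts `Gp B M` for `B ≥ |c P.2 V.2|`: the prime `q` divides `M` exactly
once; `q ∣ x` gives `q² ∣ M`, so `q ∣ c P.2 V.2`, so `c P.2 V.2 = 0`, `M = 0`, `q² ∣ M`.
(3) `V = rv a = (-a.2, a.1)`. The bijection `(x, y) ↦ (y, -x)` from `Sl c P (rv a) M` to
`Sl c (rv P) a M`; the terms of the right side are `-a.1 / (y g)` and `a.2 / (-x g)`, with
`g = x a.1 + y a.2`; the sum is `-(a.1 x + a.2 y) / (x y g) = -1 / (x y) = 1 / (det2 R (1,0) * det2 R (0,1))`.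
`x ≠ 0`, `y ≠ 0` as in (2) with `B ≥ |c P.1 a.2|, |c P.2 a.1|`. (4) Both terms are `-1/(x y)`. -/
def AID_Stmt : Prop :=
  (∀ (c : ℤ) (P V : ℤ × ℤ) (k M : ℤ), At c (addv P (k, 1)) V M = At c P (addv V (k, 1)) M) ∧
  (∀ (c : ℤ) (P V : ℤ × ℤ), c ≠ 0 → dt P V ≠ 0 → ∃ B : ℕ, ∀ M : ℤ, Gp B M →
    At c P V M + At c V P M = -nu c M P V) ∧
  (∀ (c : ℤ) (P a : ℤ × ℤ), c ≠ 0 → dt P (rv a) ≠ 0 → ∃ B : ℕ, ∀ M : ℤ, Gp B M →
    Zt c P (rv a) M = -At c P (rv a) M + At c (rv P) a M) ∧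
  ∀ (c : ℤ) (P : ℤ × ℤ) (M : ℤ), Zt c P (0, 1) M = -At c P (0, 1) M

/-- XXF (uses AID, SFIN): the limit function in terms of the vertices.

Proof. Write `A(P, V) = At c P V M`, `N(P, V) = nu c M P V` and `F(L, V) = A(V, L) + A(addv L V, (0,1))`. Claim
(first part): `PhU L T = XX L T + F(L, vec T)`. `Gp B M` is antitone in `B`, so finitely many conditions can
be combined. `.pw e`: by AID (1) with `V = (0,1)`, `k = -e`: `A(addv L (-e,1), (0,1)) = A(L, (-e,1))`, so by AID (2)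
`F(L, (-e,1)) = -N(L, (-e,1))`. `.cons a b`, with `ra = rv (vec a)`, `b = vec b`, `+` for `addv`, `t = L + ra + b`:
by AID (3), (4)
`PhU L T = -A(L+b, ra) + A(rv (L+b), a) + A(t, (0,1)) - A(rv (L+b) + a, (0,1)) + PhU (rv (L+b)) a + PhU (L+ra) b`.
Insert the induction hypotheses, `F(rv (L+b), a) = A(a, rv (L+b)) + A(rv (L+b) + a, (0,1))`,
`F(L+ra, b) = A(b, L+ra) + A(t, (0,1))`, and the definition of `XX`, `vx`:
`PhU L T - XX L T = [A(rv (L+b), a) + A(a, rv (L+b))] + N(L+b, ra) + [A(b, L+ra) + A(L+ra, b)] + N(L+ra, b) +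
A(ra + b, L) + A(t, (0,1)) = A(vec T, L) + A(L + vec T, (0,1))`, by AID (2) and
`N(rv (L+b), a) = N(L+b, ra)` (SFIN). (`addv` is commutative and associative; `vec T = ra + b`.)
The numbers `dt` are all equal to `dt L (vec T)` up to the order (SFIN), so they are not zero.
Second part: `L = (0,1)`: `addv (0,1) v = v`, so `Ph = XX + 2 A(vec T, (0,1)) + 2 Zt c (vec T) (0,1) M`, AID (4). -/
def XXF_Stmt : Prop :=
  ∀ c : ℤ, c ≠ 0 →
    (∀ (T : Tr) (L : ℤ × ℤ), dt L (vec T) ≠ 0 → ∃ B : ℕ, ∀ M : ℤ, Gp B M →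
      PhU c M L T = XX c M L T + At c (vec T) L M + At c (addv L (vec T)) (0, 1) M) ∧
    ∀ T : Tr, (vec T).1 ≠ 0 → ∃ B : ℕ, ∀ M : ℤ, Gp B M → Ph c M T = XX c M (0, 1) T

/-- GQ (uses SFIN): the sums for `M = g q`, `q` a large prime.

Proof. Put `d = dt P V`. The map `R ↦ (f, g')` (`g' = det2 R V`) is injective, its image `Λ` consists of the
pairs with `d ∣ V.2 f - P.2 g'` and `d ∣ V.1 f + P.1 g'`. Let `R0 ∈ Sl c P V g` have `(f0, g0)`; as
`q = 1` modulo `d`, also `(q f0, g0)` and `(f0, q g0)` are in `Λ`: this gives two elements `R1, R2` of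
`Sl c P V (g q)`. If `q > |c|, |g|` every element of `Sl c P V (g q)` is obtained exactly once: `c f g' = -g q`, so
`q` divides exactly one of `f`, `g'`; different `(f0, g0)` give different pairs, and `R1`'s and `R2`'s are
different as `q` does not divide `f0`, `g0` (divisors of `g`). So `nS` doubles. The term of `At` is
`V.2 / (y g')` with `y = (V.2 f - P.2 g') / d`. With `c f0 g0 = -g`:
`R1`: `V.2 d / ((V.2 q f0 - P.2 g0) g0) = -(c d / g) * 1 / (q - z)`, `z = P.2 g0 / (V.2 f0)` if `V.2 ≠ 0`;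
`R2`: `V.2 d / ((V.2 f0 - q P.2 g0) q g0) = -(c d / g) * 1 / (q (1 - q z))`, and for `z ≠ 0`
`1 / (q (1 - q z)) = 1/q - 1/(q - 1/z)`; so the two terms together are `(c d / g) hq z q`. If `P.2 = 0` then `z = 0` and
the two terms together are `-(c d / g) (2/q)`. All denominators are nonzero for large `q` (`z`, `1/z` take finitely many
values). Finally `pol P V R0 = z` if `P.2 V.2 ≠ 0`: `R0.1 - V.1/V.2 R0.2 = g0 / V.2` and
`g0 / V.2 + d y / (P.2 V.2) = f0 / P.2`. -/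
def GQ_Stmt : Prop :=
  ∀ (c : ℤ) (P V : ℤ × ℤ) (g : ℤ), c ≠ 0 → dt P V ≠ 0 → g ≠ 0 →
    (∀ R ∈ Sl c P V g, P.2 ≠ 0 → V.2 ≠ 0 → pol P V R ≠ 0) ∧
    ∃ B : ℕ, ∀ q : ℕ, q.Prime → B < q → dt P V ∣ (q : ℤ) - 1 →
      nS c P V (g * q) = 2 * nS c P V g ∧
      At c P V (g * q) = if V.2 = 0 then 0 else
        if P.2 = 0 then -(((c * dt P V : ℤ) : ℚ) / g) * (2 / q) * nS c P V g
        else (((c * dt P V : ℤ) : ℚ) / g) * ∑ᶠ R ∈ Sl c P V g, hq (pol P V R) q

/-- VTS: the vertices of a tree.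

Proof. Induction on `T`, `addv` is commutative and associative, `(addv (rv P) V).1 = (addv P (rv V)).1`. If `T` is
rational then `T = .cons a (.pw e)` and the third vector of the vertex is `(-e, 1)`. -/
def VTS_Stmt : Prop :=
  ∀ (T : Tr) (L : ℤ × ℤ),
    (∀ v ∈ vts L T, (tot v).1 = dt L (vec T)) ∧
    (∀ e ∈ NL L T, dt e.2.1 e.2.2 = dt L (vec T)) ∧
    (T.Rat → ∀ v ∈ vts L T, (tot v).2 = 0 ∨ Vtriv v) ∧
    (∀ v : Vx, ∀ p ∈ prs v, addv p.1 p.2 = tot v ∧ dt p.1 p.2 = (tot v).1 ∧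
      p.1.2 * p.2.2 = (tot v).2) ∧ ∀ v : Vx, dt (tot v) (0, 1) = (tot v).1

/-- RSV (uses GQ, VTS, SFIN): the vertices of one tree.

Proof. Induction on `T`, `c = D / dt L (vec T)`, so `c * dt = D` for all pairs which occur (VTS), and
`dt L (vec T) ∣ q - 1`. `.pw e`: `l = []`, `γ = 2 nS`: `nu c (g q) P V = D / (g q) * 2 nS c P V g`. `.cons a b`: `l` and
`γ` are the sums (append) of those of the two induction hypotheses, of `γ = -2 nS` for each of the two pairs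
with `-nu`, and of the vertex `v = (L, rv (vec a), vec b)`: if `(tot v).2 ≠ 0` then all weights are nonzero
(`p.1.2 * p.2.2 = (tot v).2`) and by GQ `(g/D) vx = ∑_{R ∈ Sl (tot, (0,1))} hq (pol R) q - ∑_p ∑_{R ∈ Sl p} hq (pol R) q`:
`l` has the entries `(1, pol ..)` and `(-1, pol ..)` (lists of the finite sets `Sl`), `γ = 0`, and
`-∑ e.1 = -nS (tot) + ∑ nS (p)` is the value of `nv v`; `rs` is the sum of `e.1 ([e.2 = z] - [e.2 = 1/z])`. If
`(tot v).2 = 0`: `l = []`, by GQ `(g/D) At (tot, (0,1)) = -(2/q) nS`; for `p` with `p.2.2 = 0` it is `0`, otherwise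
`p.1.2 = 0` and it is `-(2/q) nS (p)`; so `γ = -2 nS (tot) + 2 ∑_{p.2.2 ≠ 0} nS (p)`, the value of `nv v`. -/
def RSV_Stmt : Prop :=
  ∀ (T : Tr) (L : ℤ × ℤ) (D g : ℤ), D ≠ 0 → g ≠ 0 → dt L (vec T) ∣ D →
    ∃ (l : List (ℤ × ℚ)) (γ : ℤ) (B : ℕ), (∀ e ∈ l, e.2 ≠ 0) ∧
      (∀ z : ℚ, z ≠ 0 →
        (l.map fun e => e.1 * ((if e.2 = z then 1 else 0) - (if e.2 = 1 / z then 1 else 0))).sum =
          ((vts L T).map fun v => rs D v g z).sum) ∧
      γ - (l.map fun e => e.1).sum = evN D (NL L T) g ∧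
      ∀ q : ℕ, q.Prime → B < q → D ∣ (q : ℤ) - 1 →
        ((g : ℚ) / D) * XX (D / dt L (vec T)) (g * q) L T =
          (l.map fun e => (e.1 : ℚ) * hq e.2 q).sum + (γ : ℚ) / q

/-- PF: partial fractions.

Proof. `UC.pf_list` (Pool/Agent/UC/Res.lean) for the list of the terms `-e.1 / (q - e.2)`, `e.1 / (q - 1/e.2)`,
`-e.1 / q`, `γ / q`. -/
def PF_Stmt : Prop :=
  ∀ (l : List (ℤ × ℚ)) (γ : ℤ) (S : Set ℕ), S.Infinite → (∀ e ∈ l, e.2 ≠ 0) →
    (∀ q ∈ S, (l.map fun e => (e.1 : ℚ) * hq e.2 q).sum + (γ : ℚ) / q = 0) →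
    (∀ z : ℚ, z ≠ 0 →
      (l.map fun e => e.1 * ((if e.2 = z then 1 else 0) - (if e.2 = 1 / z then 1 else 0))).sum = 0) ∧
    γ - (l.map fun e => e.1).sum = 0

/-- RSI (uses XXF, RSV, PF, VTS): the residues and the pole at 0.

Proof. Let `g` be odd. For a large prime `q` with `D ∣ q - 1` (infinitely many:
`Nat.forall_exists_prime_gt_and_eq_mod` or `Nat.infinite_setOf_prime_and_eq_mod`) `M = g q` is odd and `Gp B M`. By XXF
the hypothesis says `∑_Ts XX (D/det) (g q) (0,1) t = ∑_Ts' (same)`, `dt (0,1) (vec t) = (vec t).1`. Multiply by `g/D`,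
apply RSV to every tree (lists: induction) and PF to the list of `Ts` and the list of `Ts'` with the signs
changed. -/
def RSI_Stmt : Prop :=
  ∀ (Ts Ts' : List Tr) (D : ℤ), Odd D → (∀ t ∈ Ts ++ Ts', (vec t).1 ∣ D) →
    (∃ B : ℕ, ∀ M : ℤ, Odd M → Gp B M →
      (Ts.map fun t => Ph (D / (vec t).1) M t).sum =
        (Ts'.map fun t => Ph (D / (vec t).1) M t).sum) →
    ∀ g : ℤ, Odd g →
      (∀ z : ℚ, z ≠ 0 → ((VL Ts).map fun v => rs D v g z).sum =
        ((VL Ts').map fun v => rs D v g z).sum) ∧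
      evN D (NLs Ts) g = evN D (NLs Ts') g

/-! ## 2. The residues -/

/-- The number of integral `(x, y)` with `-K ξ (ξ + σ y) = g` and `ξ / (ξ + σ y) = z`, `ξ = x - β y`. -/
noncomputable def cqn (K : ℤ) (σ β : ℚ) (g : ℤ) (z : ℚ) : ℕ :=
  {R : ℤ × ℤ | -(K : ℚ) * ((R.1 : ℚ) - β * R.2) * ((R.1 : ℚ) - β * R.2 + σ * R.2) = g ∧
    ((R.1 : ℚ) - β * R.2) / ((R.1 : ℚ) - β * R.2 + σ * R.2) = z}.ncard

/-- the alternating sum of a function over the eight points of three slopes with the sum `σ` -/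
def al (φ : ℚ → ℂ) (σ b0 b1 b2 : ℚ) : ℂ :=
  φ 0 - φ σ - (φ b0 + φ b1 + φ b2) + (φ (σ - b0) + φ (σ - b1) + φ (σ - b2))

/-- CQE (uses VTS): the residue of a vertex in terms of the slopes.

Proof. For `(P, V)` with `P.2 V.2 ≠ 0`, `dt P V = (tot v).1`, `P.2 V.2 = (tot v).2`: `f = P.2 (x + (P.1/P.2) y)`,
`g' = V.2 (x - β y)` with `β = V.1/V.2`, `P.1/P.2 = σ - β`, so `-(c f g') = g` is `-K ξ (ξ + σ y) = g` with
`K = c P.2 V.2`, `c = D / (tot v).1`, `ξ = x - β y`, and `pol P V R = ξ / (ξ + σ y)`. So the first number of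
`rs1 D P V g z` is `cqn K σ β g z`, the second is `cqn K σ β g (1/z)`, which is equal to `cqn K σ (σ - β) g z` by the
bijection `(x, y) ↦ (x, -y)`: it exchanges `ξ` for `β` and `ξ + σ y` for `σ - β` (for `z ≠ 0`: `a / b = 1/z` iff `b / a = z`,
`a, b ≠ 0` as `g ≠ 0`). For the pair `(tot v, (0,1))` the slope is `β = 0`. Arithmetic: `K β_j = c w_1 w_2 w_3 v_j.1 / w_j` is an
integer (`w_j` the weights), and `β_j (D - K β_j) = K β_j (σ - β_j) = c v_j.1 P.1`, `P` the sum of the two other vectors. -/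
def CQE_Stmt : Prop :=
  ∀ (D : ℤ) (v : Vx), D ≠ 0 → (tot v).1 ∣ D → (tot v).2 ≠ 0 →
    ∀ K : ℤ, K = D / (tot v).1 * (tot v).2 →
      K ≠ 0 ∧ (D : ℚ) / K = (tot v).1 / (tot v).2 ∧
      slp v.1 + slp v.2.1 + slp v.2.2 = (D : ℚ) / K ∧
      (∀ b ∈ [slp v.1, slp v.2.1, slp v.2.2],
        (∃ n : ℤ, (K : ℚ) * b = n) ∧ ∃ n : ℤ, b * (D - K * b) = n) ∧
      ∀ (g : ℤ) (z : ℚ), g ≠ 0 → z ≠ 0 → ((rs D v g z : ℤ) : ℂ) =
        al (fun β => (cqn K ((D : ℚ) / K) β g z : ℂ)) ((D : ℚ) / K) (slp v.1) (slp v.2.1)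
          (slp v.2.2)

/-- FIB: a sum vanishes if all its fibres vanish.

Proof. Sum over the finite set of the second components. -/
def FIB_Stmt : Prop :=
  ∀ (α : Type) [DecidableEq α] (l : List (ℤ × α)),
    (∀ a : α, (l.map fun e => if e.2 = a then e.1 else 0).sum = 0) →
    ∀ F : α → ℂ, (l.map fun e => (e.1 : ℂ) * F e.2).sum = 0

/-- MUK (uses FIB): the classes of `K`.

Proof. Descending induction on `|K|` (for `|K|` larger than all `|x.1|` there is nothing to sum). Let `K` occur in `X`,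
`σ = D / K`, and let `y0 = 1` if `K` is even, `y0 = 2` if `K` is odd.
(a) Let `u` be rational such that `g = K u (σ y0 - u)` is an odd integer, and `z = u / (u - σ y0)` (`≠ 0`, `≠ 1`). For
`x ∈ X` with `x.1 = K'`, `σ' = D / K'` a solution `(x1, y)` of the two equations of `cqn K' σ' β g z` satisfies
`ξ = z σ' y / (1 - z)`, `ξ + σ' y = σ' y / (1 - z)`, `g = -(D²/K') y² z / (1 - z)²`, and `g = -(D²/K) y0² z / (1 - z)²`, so
`K y² = K' y0²`. So `y ≠ 0`, and `K' = K y²` if `y0 = 1`; if `y0 = 2` then `y` is even and `K' = K (y/2)²`. So `K' = K`,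
`y = ±y0` or `|K'| > |K|`. `β ↦ cqn K' σ' β g z` has the period 1 (`(x1, y) ↦ (x1 + n y, y)`), so by induction the
`x` with `|x.1| > |K|` contribute `0` to the hypothesis, grouped by the value of `x.1`; those with `|x.1| ≤ |K|`, `x.1 ≠ K`
contribute `0` because there is no solution. For `x.1 = K`: `cqn K σ β g z = 2` if `β y0 - u` is an integer
(`y = y0`, `x1 = β y0 - u`; `y = -y0`, `x1 = u - β y0`), otherwise `0`. So the sum over `x.1 = K` of `al [β y0 - u ∈ ℤ]` is 0.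
(b) Let `b` be one of the eight points of an `x` with `x.1 = K`. Then `K b = B` and `b (D - B) = C` are integers
(`b = 0`: `C = 0`; `b = σ`: `B = D`, `C = 0`; `b = σ - β_j`: `B = D - B_j`, `C = (σ - β_j) B_j = C_j`). Put `u = b y0 + m`. `K` even:
`g = K (b + m)(σ - b - m) = C + m (D - 2 B) - K m²`, odd for `m = 0` or `m = 1` (`D` odd). `K` odd:
`g = K (2 b + m)(2 σ - 2 b - m) = 4 C + 2 m (D - B) - 2 m B - K m²` is odd for `m = 1`. For points `β` with `K β` integral: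
`β y0 - u ∈ ℤ` iff `β - b ∈ ℤ` (if `y0 = 2`: `2 (β - b)` and `K (β - b)` are integers, `K` is odd). So the sum over `x.1 = K` of
`al [β = b mod 1]` is zero, for all `b` (if `b` is not congruent to one of the points the sum is zero trivially).
(c) `φ β = φ (fract β)`; apply FIB to the list of the pairs (coefficient, `Int.fract` of the point). -/
def MUK_Stmt : Prop :=
  ∀ D : ℤ, Odd D → ∀ X : List (ℤ × ℚ × ℚ × ℚ),
    (∀ x ∈ X, x.1 ≠ 0 ∧ x.2.1 + x.2.2.1 + x.2.2.2 = (D : ℚ) / x.1 ∧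
      ∀ b ∈ [x.2.1, x.2.2.1, x.2.2.2],
        (∃ n : ℤ, (x.1 : ℚ) * b = n) ∧ ∃ n : ℤ, b * (D - x.1 * b) = n) →
    (∀ (g : ℤ) (z : ℚ), Odd g → z ≠ 0 →
      (X.map fun x => al (fun β => (cqn x.1 ((D : ℚ) / x.1) β g z : ℂ)) ((D : ℚ) / x.1) x.2.1
        x.2.2.1 x.2.2.2).sum = 0) →
    ∀ (K : ℤ) (φ : ℚ → ℂ), (∀ (β : ℚ) (n : ℤ), φ (β + n) = φ β) →
      (X.map fun x => if x.1 = K then al φ ((D : ℚ) / x.1) x.2.1 x.2.2.1 x.2.2.2 else 0).sum = 0

open Classical in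
/-- the contribution of an integral vertex for the function `φ` -/
noncomputable def bc (φ : ℚ → ℂ) (v : Vx) : ℂ :=
  if Vbad v then (((tot v).2 : ℚ) / (tot v).1 : ℚ) * ((prs v).map fun p => φ (slp p.2)).sum else 0

/-- BVC (uses CQE, MUK): which vertices occur.

Proof. Let `X` be the list of `(K_v, slopes)` for the `v ∈ Vs` with `(tot v).2 ≠ 0`, `K_v = D / (tot v).1 * (tot v).2` (CQE). For
`v ∈ Vs'` with an integral slope `β_0`: `al φ = 0` for every `φ` of period 1, since `φ 0 = φ β_0`, `φ σ = φ (σ - β_0)`,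
`φ (σ - β_1) = φ (β_0 + β_2) = φ β_2`, `φ (σ - β_2) = φ β_1` (and the same for the other positions); and `cqn` has the period 1,
so the right side of the hypothesis is 0 and MUK applies to `X`. Fix `K` and let `X_K` be the part with `K_v = K`, `σ = D/K`.
(a) `σ` not an integer. Take `φ β = 1` if `β ∈ ℤ` and `0` otherwise. If no slope of `v` is an integer then
`al φ = 1 - 0 - 0 + #{j : σ - β_j ∈ ℤ} ≥ 1`, otherwise `al φ = 0` (above). So all `v` in the class have an integral slope: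
`Vtriv v` (`β_j = v_j.1 / v_j.2` is an integer iff `v_j.2 ∣ v_j.1`).
(b) `σ` an integer (`(tot v).2 ∣ (tot v).1`): `v` is `Vtriv` or `Vbad`. So `Vok v` for all `v ∈ Vs`.
Second part: let `φ` be odd. In a class with `σ ∈ ℤ`: `al φ = -∑ φ (β_j) + ∑ φ (-β_j) = -2 ∑ φ (β_j)`; so by MUK the sum over
the class of `∑_j φ (β_j)` is zero; for a vertex with an integral slope `β_0` it is `φ 0 + φ (β_1) + φ (-β_1) = 0`. So the sum over
the bad vertices of the class is zero; the factor `(tot v).2 / (tot v).1 = K / D` depends only on the class. -/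
def BVC_Stmt : Prop :=
  ∀ D : ℤ, Odd D → ∀ Vs Vs' : List Vx, (∀ v ∈ Vs ++ Vs', (tot v).1 ∣ D) →
    (∀ v ∈ Vs', (tot v).2 = 0 ∨ Vtriv v) →
    (∀ (g : ℤ) (z : ℚ), Odd g → z ≠ 0 →
      (Vs.map fun v => rs D v g z).sum = (Vs'.map fun v => rs D v g z).sum) →
    (∀ v ∈ Vs, Vok v) ∧
    ∀ φ : ℚ → ℂ, (∀ (β : ℚ) (n : ℤ), φ (β + n) = φ β) → (∀ β : ℚ, φ (-β) = -φ β) →
      (Vs.map fun v => bc φ v).sum = 0

/-! ## 3. The numbers of representations -/

/-- The symmetries of a function of two vectors (for pairs whose `dt` divides `D`). -/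
structure Sym (D : ℤ) (F : ℤ × ℤ → ℤ × ℤ → ℂ) : Prop where
  swap : ∀ P V, dt P V ∣ D → F V P = F P V
  rot : ∀ P V, dt P (rv V) ∣ D → F (rv P) V = F P (rv V)
  shift : ∀ (P V : ℤ × ℤ) (k : ℤ), dt P (addv V (k, 1)) ∣ D →
    F (addv P (k, 1)) V = F P (addv V (k, 1))
  scale : ∀ (P V : ℤ × ℤ) (k : ℤ), dt (k • P) V ∣ D → F (k • P) V = F P V

/-- GSY (uses SFIN): the numbers of representations have the symmetries.

Proof. SFIN; `scale`: `D / (k dt) * k = D / dt` if `k dt ∣ D`, `k ≠ 0`. -/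
def GSY_Stmt : Prop :=
  ∀ D g : ℤ, D ≠ 0 → Sym D fun P V => ((nS (D / dt P V) P V g : ℕ) : ℂ)

/-- PLN (uses SFIN): normal forms of pairs.

Proof. (1) Induction on `b.natAbs`, for all `a`, `s`, `t`, `V`. `b = 0`: `s a = -1`, so `a = -s = ±1`. `F (a, 0) V = F (a • (1, 0)) V =
F (1, 0) V`, `V = rv W` with `W = -(rv V) = (V.2, -V.1)`, and `F (1, 0) (rv W) = F (rv (1, 0)) W = F (0, 1) W`; the target is
`F (0, 1) (a V.2, s V.1 + t V.2)`; apply `scale` (`-1`, with `swap`) and shift-invariance (2) below of the second component.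
`b ≠ 0`: `a = b k + r` with `|r| < |b|` (`k = a / b`, `r = a % b`). `(a, b) = addv (r, b) (k, 1)`, so
`F (a, b) V = F (r, b) (addv V (k, 1)) = F (r, b) (V.1 + k V.2, V.2)`; and `(r, b) = rv (b, -r)`, so this is `F (b, -r) (rv (V.1 + k V.2, V.2)) =
F (b, -r) (-V.2, V.1 + k V.2)`, and the induction hypothesis applies with `|-r| < |b|`; the coefficients: `t b - s a = 1` is
`t' (-r) - s' b = 1` with `t' = s`, `s' = s k - t`, and `s' (-V.2) + t' (V.1 + k V.2) = s V.1 + t V.2`.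
(2) `F (0, 1) (A, p) = F (0, 1) (A, p + k A)`: `(0, 1) = rv (1, 0)`, `F (rv (1, 0)) (A, p) = F (1, 0) (-p, A)`, and
`(1, 0) = addv (1, 0) (k, 1)`, so it is `F (1, 0) (-p + k A, A) = F (1, 0) (rv (A, p - k A))`. Prove (2) first.
(3) inverse: `F (0, 1) (A, p) = F (A, p) (0, 1)` (`swap`) `= F (0, 1) (A, t)` by (1) with `V = (0, 1)`, `t p - s A = 1`; so
`p t = 1` modulo `A`, and two inverses are congruent modulo `A`.
(4) `P = k • P0`, `V = m • V0` with coprime `P0`, `V0` (`k`, `m` the gcds, nonzero as `dt P V ≠ 0`); `scale` and `swap` give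
`F P V = F P0 V0`; by (1) it is `F (0, 1) (A, p)` with `A = dt P0 V0` and `A`, `p` coprime (`(A, p)` is the image of `V0` under a
matrix of determinant 1); `scale` by `-1` if `A < 0`. -/
def PLN_Stmt : Prop :=
  ∀ D : ℤ, D ≠ 0 →
    (∀ F, Sym D F → ∀ (a b s t : ℤ) (V : ℤ × ℤ), t * b - s * a = 1 → dt (a, b) V ∣ D →
      F (a, b) V = F (0, 1) (dt (a, b) V, s * V.1 + t * V.2)) ∧
    (∀ F, Sym D F → ∀ A p p' : ℤ, A ∣ D → IsCoprime A p → (A ∣ p' - p ∨ A ∣ p * p' - 1) →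
      F (0, 1) (A, p') = F (0, 1) (A, p)) ∧
    ∀ P V : ℤ × ℤ, dt P V ∣ D → ∃ A p : ℤ, 0 < A ∧ IsCoprime A p ∧ A ∣ D ∧
      ∀ F, Sym D F → F P V = F (0, 1) (A, p)

/-- PLC: counting for the normal forms.

Proof. With `R = (x, y)`: `(D / A) * Nl (cx (0, 1)) (A, p) R = -(D / A) x (p x - A y)`; the map `(x, y) ↦ (a, b) = (x, p x - A y)` is a
bijection to the pairs with `A ∣ b - p a`, and `-(D / A) a b = -(D / A0) q` means `A0 a b = q A`. `q ∣ a b` as `q > D.natAbs ≥ A0`, so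
`A0 k = A`, `a b = q k`, and `0 < A ≤ A0` gives `k = 1`, `A = A0`. Then `(a, b)` is one of `(1, q)`, `(q, 1)`, `(-1, -q)`, `(-q, -1)`, and
the condition is `A ∣ q - p` for the first and the third, `A ∣ 1 - p q` for the two others. -/
def PLC_Stmt : Prop :=
  ∀ (D A0 A p : ℤ) (q : ℕ), D ≠ 0 → 0 < A0 → A0 ∣ D → 0 < A → A ≤ A0 → A ∣ D → q.Prime →
    D.natAbs < q → nS (D / A) (0, 1) (A, p) (-(D / A0) * q) =
      if A = A0 then (if A ∣ q - p then 2 else 0) + (if A ∣ p * q - 1 then 2 else 0) else 0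

/-- PLA (uses GSY, PLN, PLC, FIB): from the numbers of representations to every symmetric function.

Proof. By PLN (third part) and GSY every entry `(k, P, V)` of `l` can be replaced by `(k, (0,1), (A, p))` with `0 < A`, `A ∣ D`, `p`
prime to `A`: the hypothesis and the conclusion do not change. Show for all `n`: if all `A ≤ n` then the conclusion
holds, by induction on `n` (`n = 0`: the list is empty). Step, `A0 = n` (if `n` does not divide `D` no entry has `A = n`): for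
`p0` prime to `n` choose a prime `q > |D|`, `q` odd, `q = p0` modulo `n` (Dirichlet,
`Nat.forall_exists_prime_gt_and_eq_mod`), `g = -(D/n) q` odd: by PLC the hypothesis says that
`∑_{A = n} k (2 [p = p0] + 2 [p p0 = 1])` is zero, congruences modulo `n`. Let `κ(p) : ` the set `{p, p⁻¹}` in `ZMod n` (as a
`Finset` or `Sym2`). If `p0 ≠ p0⁻¹` this is twice the sum of the `k` with `κ(p) = κ(p0)`, if `p0 = p0⁻¹` it is four times this
sum. So by FIB and PLN (second part) `∑_{A = n} k F (0,1) (n, p) = 0` for every `F` with `Sym D F`, in particular for `F = nS ..` (GSY), so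
the entries with `A = n` can be removed. Apply the induction hypothesis to the rest. -/
def PLA_Stmt : Prop :=
  ∀ D : ℤ, Odd D → ∀ l : Cb, (∀ e ∈ l, dt e.2.1 e.2.2 ∣ D) →
    (∀ g : ℤ, Odd g → evN D l g = 0) →
    ∀ F, Sym D F → (l.map fun e => (e.1 : ℂ) * F e.2.1 e.2.2).sum = 0

end Pool.Agent.TV
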